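import Pool.Agent.Helper267_mocanu.Stmts

/-! Task T6d: the polynomial certificate. -/

set_option autoImplicit false
set_option maxHeartbeats 4000000

noncomputable section

namespace Mocanu

/-- `A^4 D` -/
def D4 (X s z G A : ℝ) : ℝ :=
  G ^ 2 * (A ^ 2 - s / 2) + G * z * A * (1 + X) - z * X * A ^ 2 - s * A ^ 2 / 2
/-- `A^2 N` -/
def N2 (X s z G A : ℝ) : ℝ := G * (A * (1 + X) + s / 2) - X * (z * A + s / 2)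
def V28 (s z G A : ℝ) : ℝ := z * ((A ^ 2 - s / 2) * (s / 2) * (A + G) ^ 2 - G * A ^ 5)
def V16 (X s z G A w r : ℝ) : ℝ :=
  z * (A ^ 2 - s / 2) * (s / 2) * ((A + G) ^ 2 + w ^ 2) - z * A ^ 4 * (G * A - X * (1 - 2 * X)) +
    G * w * A ^ 5 - X * A ^ 4 * (G + X + r) * (A - G)
def V04 (X s z A w r : ℝ) : ℝ :=
  (A ^ 4 + z * (A ^ 2 - s / 2) * (s / 2)) * w + X * A ^ 4 * (3 * X + r)
/-- `A^12 Pi` -/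
def P12 (X s z G A w r : ℝ) : ℝ :=
  w * N2 X s z G A ^ 2 * V28 s z G A + N2 X s z G A * D4 X s z G A * V16 X s z G A w r +
    D4 X s z G A ^ 2 * V04 X s z A w r

lemma D4_I (X r v : ℝ) :
    D4 X (X ^ 2 + r) (1 - 2 * X - r) (X + (r + v)) (1 - X) =
    11*X*r*v*(1 - 2 * X - r) + X*r*v^2 + 4*X*r*(1 - 2 * X - r)^2 + 3*X*r^2*v +
    5*X*r^2*(1 - 2 * X - r) + 6*X*v*(1 - 2 * X - r)^2 + 2*X*v^2*(1 - 2 * X - r) + 3*X^2*r*v +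
    7*X^2*r*(1 - 2 * X - r) + 7*X^2*v*(1 - 2 * X - r) + (1/2)*X^2*v^2 +
    (5/2)*X^2*(1 - 2 * X - r)^2 + X^3*v + 3*X^3*(1 - 2 * X - r) + 4*r*v*(1 - 2 * X - r)^2 +
    (3/2)*r*v^2*(1 - 2 * X - r) + (1/2)*r*(1 - 2 * X - r)^3 + 4*r^2*v*(1 - 2 * X - r) +
    (1/2)*r^2*v^2 + (3/2)*r^2*(1 - 2 * X - r)^2 + r^3*v + r^3*(1 - 2 * X - r) +
    v*(1 - 2 * X - r)^3 + v^2*(1 - 2 * X - r)^2 := by
  unfold D4; ring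

lemma N2_I (X r v : ℝ) :
    N2 X (X ^ 2 + r) (1 - 2 * X - r) (X + (r + v)) (1 - X) =
    5*X*r*v + 5*X*r*(1 - 2 * X - r) + 6*X*r^2 + 4*X*v*(1 - 2 * X - r) + (15/2)*X^2*r +
    (7/2)*X^2*v + 3*X^2*(1 - 2 * X - r) + 3*X^3 + (5/2)*r*v*(1 - 2 * X - r) +
    r*(1 - 2 * X - r)^2 + (3/2)*r^2*v + (5/2)*r^2*(1 - 2 * X - r) + (3/2)*r^3 +
    v*(1 - 2 * X - r)^2 := by
  unfold N2; ring

lemma D4_II (q x w : ℝ) :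
    D4 (q + x) (q ^ 2) (1 - 2 * (q + x) - (q ^ 2 - (q + x) ^ 2)) (q + x + w) (1 - (q + x)) =
    2*(1 - 2 * q - x)*q*w^2 + (1 - 2 * q - x)^2*w^2 + (1/2)*q^2*w^2 +
    4*(1 - 2 * q - x)*q*w*x^2 + 2*(1 - 2 * q - x)*q*x^3 + 17*(1 - 2 * q - x)*q^2*w*x +
    (25/2)*(1 - 2 * q - x)*q^2*x^2 + 15*(1 - 2 * q - x)*q^3*w + 18*(1 - 2 * q - x)*q^3*x +
    6*(1 - 2 * q - x)*q^4 + 16*(1 - 2 * q - x)^2*q*w*x + 12*(1 - 2 * q - x)^2*q*x^2 +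
    19*(1 - 2 * q - x)^2*q^2*w + (41/2)*(1 - 2 * q - x)^2*q^2*x + 8*(1 - 2 * q - x)^2*q^3 +
    2*(1 - 2 * q - x)^2*w*x^2 + (1 - 2 * q - x)^2*x^3 + 8*(1 - 2 * q - x)^3*q*w +
    6*(1 - 2 * q - x)^3*q*x + (5/2)*(1 - 2 * q - x)^3*q^2 + 4*(1 - 2 * q - x)^3*w*x +
    3*(1 - 2 * q - x)^3*x^2 + (1 - 2 * q - x)^4*w + q^2*w*x^2 + (1/2)*q^2*x^3 + 3*q^3*w*x +
    2*q^3*x^2 + 2*q^4*w + 2*q^4*x := by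
  unfold D4; ring

lemma N2_II (q x w : ℝ) :
    N2 (q + x) (q ^ 2) (1 - 2 * (q + x) - (q ^ 2 - (q + x) ^ 2)) (q + x + w) (1 - (q + x)) =
    4*(1 - 2 * q - x)*q*w + 2*(1 - 2 * q - x)*w*x + (1 - 2 * q - x)^2*w + 2*q*w*x +
    (7/2)*q^2*w + 12*(1 - 2 * q - x)*q*x^2 + 19*(1 - 2 * q - x)*q^2*x + 9*(1 - 2 * q - x)*q^3 +
    2*(1 - 2 * q - x)*x^3 + 6*(1 - 2 * q - x)^2*q*x + 3*(1 - 2 * q - x)^2*q^2 +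
    3*(1 - 2 * q - x)^2*x^2 + 2*q*x^3 + 9*q^2*x^2 + 13*q^3*x + 6*q^4 := by
  unfold N2; ring

end Mocanu
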