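import Pool.Agent.Helper267_mocanu.CertA

/-! Polynomial certificate, region I. -/

set_option autoImplicit false
set_option maxHeartbeats 40000000
set_option maxRecDepth 100000

noncomputable section

namespace Mocanu

def I_n0 (X r z : ℝ) : ℝ :=
    5*X*r*z + 6*X*r^2 + (15/2)*X^2*r + 3*X^2*z + 3*X^3 + r*z^2 + (5/2)*r^2*z + (3/2)*r^3

def I_n1 (X r z : ℝ) : ℝ :=
    5*X*r + 4*X*z + (7/2)*X^2 + (5/2)*r*z + (3/2)*r^2 + z^2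

def I_d0 (X r z : ℝ) : ℝ :=
    4*X*r*z^2 + 5*X*r^2*z + 7*X^2*r*z + (5/2)*X^2*z^2 + 3*X^3*z + (1/2)*r*z^3 + (3/2)*r^2*z^2 +
    r^3*z

def I_d1 (X r z : ℝ) : ℝ :=
    11*X*r*z + 3*X*r^2 + 6*X*z^2 + 3*X^2*r + 7*X^2*z + X^3 + 4*r*z^2 + 4*r^2*z + r^3 + z^3

def I_d2 (X r z : ℝ) : ℝ :=
    X*r + 2*X*z + (1/2)*X^2 + (3/2)*r*z + (1/2)*r^2 + z^2

def I_a0 (X r z : ℝ) : ℝ :=
    -6*X*r*z^5 - 10*X*r^2*z^4 - 5*X*r^3*z^3 - X*z^6 - 15*X^2*r*z^4 - (23/2)*X^2*r^2*z^3 -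
    (9/2)*X^2*z^5 - 11*X^3*r*z^3 - 7*X^3*z^4 - (15/4)*X^4*z^3 - (1/2)*r*z^6 - (7/4)*r^2*z^5 -
    2*r^3*z^4 - (3/4)*r^4*z^3

def I_a1 (X r z : ℝ) : ℝ :=
    -14*X*r*z^4 - 11*X*r^2*z^3 - 2*X*r^3*z^2 - 5*X*z^5 - 14*X^2*r*z^3 - 3*X^2*r^2*z^2 -
    9*X^2*z^4 - 2*X^3*r*z^2 - 6*X^3*z^3 - (1/2)*X^4*z^2 - 4*r*z^5 - (11/2)*r^2*z^4 - 3*r^3*z^3
    - (1/2)*r^4*z^2 - z^6

def I_a2 (X r z : ℝ) : ℝ :=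
    2*X*r*z^3 + 3*X*r^2*z^2 + X*r^3*z + 3*X^2*r*z^2 + (3/2)*X^2*r^2*z + (1/2)*X^2*z^3 + X^3*r*z
    + X^3*z^2 + (1/4)*X^4*z + (1/2)*r*z^4 + (5/4)*r^2*z^3 + r^3*z^2 + (1/4)*r^4*z

def I_b0 (X r z : ℝ) : ℝ :=
    -2*X*r*z^5 + 2*X*r^2*z^4 + 25*X*r^3*z^3 + 40*X*r^4*z^2 + 25*X*r^5*z + 6*X*r^6 -
    10*X^2*r*z^4 + 7*X^2*r^2*z^3 + 47*X^2*r^3*z^2 + (91/2)*X^2*r^4*z + 15*X^2*r^5 -
    (5/2)*X^2*z^5 - 19*X^3*r*z^3 + 11*X^3*r^2*z^2 + 37*X^3*r^3*z + 20*X^3*r^4 - 9*X^3*z^4 -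
    14*X^4*r*z^2 + (37/4)*X^4*r^2*z + 15*X^4*r^3 - (47/4)*X^4*z^3 - 4*X^5*r*z + 6*X^5*r^2 -
    7*X^5*z^2 + X^6*r - 2*X^6*z - (1/2)*r*z^6 - (3/4)*r^2*z^5 + (7/2)*r^3*z^4 + (21/2)*r^4*z^3
    + 11*r^5*z^2 + (21/4)*r^6*z + r^7

def I_b1 (X r z : ℝ) : ℝ :=
    -X*r*z^4 + 45*X*r^2*z^3 + 82*X*r^3*z^2 + 54*X*r^4*z + 13*X*r^5 - 5*X*z^5 + 31*X^2*r*z^3 +
    117*X^2*r^2*z^2 + 111*X^2*r^3*z + 35*X^2*r^4 - 6*X^2*z^4 + 74*X^3*r*z^2 + 114*X^3*r^2*z +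
    50*X^3*r^3 + 6*X^3*z^3 + (117/2)*X^4*r*z + 40*X^4*r^2 + (35/2)*X^4*z^2 + 17*X^5*r +
    12*X^5*z + 3*X^6 - 2*r*z^5 + (11/2)*r^2*z^4 + (39/2)*r^3*z^3 + (43/2)*r^4*z^2 +
    (21/2)*r^5*z + 2*r^6 - z^6

def I_b2 (X r z : ℝ) : ℝ :=
    28*X*r*z^3 + 42*X*r^2*z^2 + 26*X*r^3*z + 6*X*r^4 + 6*X*z^4 + 48*X^2*r*z^2 + 45*X^2*r^2*z +
    14*X^2*r^3 + 15*X^2*z^3 + 34*X^3*r*z + 16*X^3*r^2 + 18*X^3*z^2 + 9*X^4*r + (19/2)*X^4*z +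
    2*X^5 + 6*r*z^4 + (25/2)*r^2*z^3 + 12*r^3*z^2 + (11/2)*r^4*z + r^5 + z^5

def I_c0 (X r z : ℝ) : ℝ :=
    7*X*r*z^4 + 30*X*r^2*z^3 + 45*X*r^3*z^2 + 29*X*r^4*z + 7*X*r^5 + (61/2)*X^2*r*z^3 +
    75*X^2*r^2*z^2 + (135/2)*X^2*r^3*z + 21*X^2*r^4 + 3*X^2*z^4 + 59*X^3*r*z^2 + 81*X^3*r^2*z +
    34*X^3*r^3 + 12*X^3*z^3 + (197/4)*X^4*r*z + 31*X^4*r^2 + 18*X^4*z^2 + 15*X^5*r + 12*X^5*z +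
    3*X^6 + r*z^5 + (11/2)*r^2*z^4 + (45/4)*r^3*z^3 + 11*r^4*z^2 + (21/4)*r^5*z + r^6

def I_c1 (X r z : ℝ) : ℝ :=
    26*X*r*z^3 + 39*X*r^2*z^2 + 25*X*r^3*z + 6*X*r^4 + 6*X*z^4 + 45*X^2*r*z^2 +
    (87/2)*X^2*r^2*z + 14*X^2*r^3 + (29/2)*X^2*z^3 + 33*X^3*r*z + 16*X^3*r^2 + 17*X^3*z^2 +
    9*X^4*r + (37/4)*X^4*z + 2*X^5 + (11/2)*r*z^4 + (45/4)*r^2*z^3 + 11*r^3*z^2 + (21/4)*r^4*z
    + r^5 + z^5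

lemma I_eq_n (X r z v : ℝ) (hz : z = 1 - 2 * X - r) :
    N2 X (X ^ 2 + r) z (X + (r + v)) (1 - X) =
    (I_n0 X r z) + (I_n1 X r z) * v := by
  subst hz
  unfold N2 I_n0 I_n1
  ring

lemma I_eq_d (X r z v : ℝ) (hz : z = 1 - 2 * X - r) :
    D4 X (X ^ 2 + r) z (X + (r + v)) (1 - X) =
    (I_d0 X r z) + (I_d1 X r z) * v + (I_d2 X r z) * v ^ 2 := by
  subst hz
  unfold D4 I_d0 I_d1 I_d2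
  ring

lemma I_eq_a (X r z v : ℝ) (hz : z = 1 - 2 * X - r) :
    V28 (X ^ 2 + r) z (X + (r + v)) (1 - X) =
    (I_a0 X r z) + (I_a1 X r z) * v + (I_a2 X r z) * v ^ 2 := by
  subst hz
  unfold V28 I_a0 I_a1 I_a2
  ring

lemma I_eq_b (X r z v : ℝ) (hz : z = 1 - 2 * X - r) :
    V16 X (X ^ 2 + r) z (X + (r + v)) (1 - X) (r + v) r =
    (I_b0 X r z) + (I_b1 X r z) * v + (I_b2 X r z) * v ^ 2 := by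
  subst hz
  unfold V16 I_b0 I_b1 I_b2
  ring

lemma I_eq_c (X r z v : ℝ) (hz : z = 1 - 2 * X - r) :
    V04 X (X ^ 2 + r) z (1 - X) (r + v) r =
    (I_c0 X r z) + (I_c1 X r z) * v := by
  subst hz
  unfold V04 I_c0 I_c1
  ring

lemma I_e0 (X r z : ℝ) (hX : 0 < X) (hr : 0 ≤ r) (hz : 0 < z) :
    0 < 
    (I_b0 X r z) * (I_d0 X r z) * (I_n0 X r z) + (I_c0 X r z) * (I_d0 X r z) ^ 2 + (I_a0 X r z)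
    * (I_n0 X r z) ^ 2 * r := by
  have h : 
    (I_b0 X r z) * (I_d0 X r z) * (I_n0 X r z) + (I_c0 X r z) * (I_d0 X r z) ^ 2 + (I_a0 X r z)
    * (I_n0 X r z) ^ 2 * r =
      (1/2)*X*r^3*z^10 + (151/8)*X*r^4*z^9 + (1197/8)*X*r^5*z^8 + (4451/8)*X*r^6*z^7 +
      (9485/8)*X*r^7*z^6 + (12489/8)*X*r^8*z^5 + (10351/8)*X*r^9*z^4 + (5257/8)*X*r^10*z^3 +
      (1491/8)*X*r^11*z^2 + (45/2)*X*r^12*z + (73/4)*X^2*r^3*z^9 + (535/2)*X^2*r^4*z^8 +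
      (5715/4)*X^2*r^5*z^7 + (7875/2)*X^2*r^6*z^6 + (25301/4)*X^2*r^7*z^5 +
      (12321/2)*X^2*r^8*z^4 + (14321/4)*X^2*r^9*z^3 + (2277/2)*X^2*r^10*z^2 +
      (303/2)*X^2*r^11*z + (25/4)*X^3*r^2*z^9 + (473/2)*X^3*r^3*z^8 + (7897/4)*X^3*r^4*z^7 +
      7315*X^3*r^5*z^6 + (58657/4)*X^3*r^6*z^5 + (34073/2)*X^3*r^7*z^4 + (45807/4)*X^3*r^8*z^3
      + 4116*X^3*r^9*z^2 + (1215/2)*X^3*r^10*z + 102*X^4*r^2*z^8 + (6277/4)*X^4*r^3*z^7 +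
      (33259/4)*X^4*r^4*z^6 + (42969/2)*X^4*r^5*z^5 + (60743/2)*X^4*r^6*z^4 +
      (95737/4)*X^4*r^7*z^3 + (39279/4)*X^4*r^8*z^2 + 1620*X^4*r^9*z + 17*X^5*r*z^8 +
      (1407/2)*X^5*r^2*z^7 + (23651/4)*X^5*r^3*z^6 + (41331/2)*X^5*r^4*z^5 + 36537*X^5*r^5*z^4
      + 34354*X^5*r^6*z^3 + (65157/4)*X^5*r^7*z^2 + 3033*X^5*r^8*z + (627/4)*X^6*r*z^7 +
      (5117/2)*X^6*r^2*z^6 + (26145/2)*X^6*r^3*z^5 + 30089*X^6*r^4*z^4 + (138279/4)*X^6*r^5*z^3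
      + (38493/2)*X^6*r^6*z^2 + 4095*X^6*r^7*z + (1221/2)*X^7*r*z^6 + (10509/2)*X^7*r^2*z^5 +
      16781*X^7*r^3*z^4 + (97541/4)*X^7*r^4*z^3 + (32565/2)*X^7*r^5*z^2 + 4023*X^7*r^6*z +
      (45/4)*X^7*z^7 + (4885/4)*X^8*r*z^5 + 6081*X^8*r^2*z^4 + (47237/4)*X^8*r^3*z^3 +
      (77973/8)*X^8*r^4*z^2 + (5715/2)*X^8*r^5*z + (483/8)*X^8*z^6 + (10381/8)*X^9*r*z^4 +
      (29879/8)*X^9*r^2*z^3 + (31963/8)*X^9*r^3*z^2 + (2865/2)*X^9*r^4*z + (1005/8)*X^9*z^5 +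
      693*X^10*r*z^3 + 1050*X^10*r^2*z^2 + (963/2)*X^10*r^3*z + (249/2)*X^10*z^4 +
      (309/2)*X^11*r*z^2 + (195/2)*X^11*r^2*z + 57*X^11*z^3 + 9*X^12*r*z + 9*X^12*z^2 +
      (5/8)*r^4*z^10 + 7*r^5*z^9 + (67/2)*r^6*z^8 + (181/2)*r^7*z^7 + (611/4)*r^8*z^6 +
      (335/2)*r^9*z^5 + (239/2)*r^10*z^4 + (107/2)*r^11*z^3 + (109/8)*r^12*z^2 + (3/2)*r^13*z := by
    unfold I_a0 I_b0 I_c0 I_d0 I_n0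
    ring
  rw [h]
  positivity

lemma I_e1 (X r z : ℝ) (hX : 0 < X) (hr : 0 ≤ r) (hz : 0 < z) :
    0 < 
    (I_b0 X r z) * (I_d0 X r z) * (I_n1 X r z) + (I_b0 X r z) * (I_d1 X r z) * (I_n0 X r z) +
    (I_b1 X r z) * (I_d0 X r z) * (I_n0 X r z) + 2 * (I_c0 X r z) * (I_d0 X r z) * (I_d1 X r z)
    + (I_c1 X r z) * (I_d0 X r z) ^ 2 + 2 * (I_a0 X r z) * (I_n0 X r z) * (I_n1 X r z) * r +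
    (I_a0 X r z) * (I_n0 X r z) ^ 2 + (I_a1 X r z) * (I_n0 X r z) ^ 2 * r := by
  have h : 
    (I_b0 X r z) * (I_d0 X r z) * (I_n1 X r z) + (I_b0 X r z) * (I_d1 X r z) * (I_n0 X r z) +
    (I_b1 X r z) * (I_d0 X r z) * (I_n0 X r z) + 2 * (I_c0 X r z) * (I_d0 X r z) * (I_d1 X r z)
    + (I_c1 X r z) * (I_d0 X r z) ^ 2 + 2 * (I_a0 X r z) * (I_n0 X r z) * (I_n1 X r z) * r +
    (I_a0 X r z) * (I_n0 X r z) ^ 2 + (I_a1 X r z) * (I_n0 X r z) ^ 2 * r =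
      3*X*r^2*z^10 + (403/4)*X*r^3*z^9 + (6549/8)*X*r^4*z^8 + (25357/8)*X*r^5*z^7 +
      (56657/8)*X*r^6*z^6 + (78905/8)*X*r^7*z^5 + (70251/8)*X*r^8*z^4 + (39519/8)*X*r^9*z^3 +
      (13307/8)*X*r^10*z^2 + (2357/8)*X*r^11*z + (39/2)*X*r^12 + (635/8)*X^2*r^2*z^9 +
      (5025/4)*X^2*r^3*z^8 + (57333/8)*X^2*r^4*z^7 + (84101/4)*X^2*r^5*z^6 +
      (288399/8)*X^2*r^6*z^5 + (151485/4)*X^2*r^7*z^4 + (194735/8)*X^2*r^8*z^3 +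
      (36399/4)*X^2*r^9*z^2 + (6921/4)*X^2*r^10*z + (231/2)*X^2*r^11 + 18*X^3*r*z^9 +
      (3537/4)*X^3*r^2*z^8 + 8367*X^3*r^3*z^7 + (136383/4)*X^3*r^4*z^6 + (148891/2)*X^3*r^5*z^5
      + (377745/4)*X^3*r^6*z^4 + 70566*X^3*r^7*z^3 + (118781/4)*X^3*r^8*z^2 +
      (12255/2)*X^3*r^9*z + (825/2)*X^3*r^10 + (2157/8)*X^4*r*z^8 + (42377/8)*X^4*r^2*z^7 +
      (130777/4)*X^4*r^3*z^6 + (190509/2)*X^4*r^4*z^5 + (1202649/8)*X^4*r^5*z^4 +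
      (1067233/8)*X^4*r^6*z^3 + 64247*X^4*r^7*z^2 + (58305/4)*X^4*r^8*z + 990*X^4*r^9 +
      (6809/4)*X^5*r*z^7 + 18569*X^5*r^2*z^6 + (310187/4)*X^5*r^3*z^5 + (317503/2)*X^5*r^4*z^4
      + (688145/4)*X^5*r^5*z^3 + (193599/2)*X^5*r^6*z^2 + (98163/4)*X^5*r^7*z + 1683*X^5*r^8 +
      23*X^5*z^8 + 5790*X^6*r*z^6 + 39349*X^6*r^2*z^5 + (445849/4)*X^6*r^3*z^4 +
      (1227579/8)*X^6*r^4*z^3 + (414715/4)*X^6*r^5*z^2 + 29988*X^6*r^6*z + 2079*X^6*r^7 +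
      (1677/8)*X^6*z^7 + (22839/2)*X^7*r*z^5 + 50301*X^7*r^2*z^4 + 93595*X^7*r^3*z^3 +
      (315889/4)*X^7*r^4*z^2 + (53601/2)*X^7*r^5*z + 1881*X^7*r^6 + (3059/4)*X^7*z^6 +
      (106207/8)*X^8*r*z^4 + (299303/8)*X^8*r^2*z^3 + (335517/8)*X^8*r^3*z^2 +
      (139095/8)*X^8*r^4*z + (2475/2)*X^8*r^5 + (5829/4)*X^8*z^5 + (70903/8)*X^9*r*z^3 +
      (118361/8)*X^9*r^2*z^2 + (63885/8)*X^9*r^3*z + (1155/2)*X^9*r^4 + (12527/8)*X^9*z^4 +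
      (6243/2)*X^10*r*z^2 + (9859/4)*X^10*r^2*z + (363/2)*X^10*r^3 + (3785/4)*X^10*z^3 +
      459*X^11*r*z + (69/2)*X^11*r^2 + (597/2)*X^11*z^2 + 3*X^12*r + 39*X^12*z +
      (27/8)*r^3*z^10 + (319/8)*r^4*z^9 + 200*r^5*z^8 + (1131/2)*r^6*z^7 + (4009/4)*r^7*z^6 +
      (4657/4)*r^8*z^5 + (1791/2)*r^9*z^4 + (895/2)*r^10*z^3 + (1099/8)*r^11*z^2 +
      (183/8)*r^12*z + (3/2)*r^13 := by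
    unfold I_a0 I_a1 I_b0 I_b1 I_c0 I_c1 I_d0 I_d1 I_n0 I_n1
    ring
  rw [h]
  positivity

lemma I_e2 (X r z : ℝ) (hX : 0 < X) (hr : 0 ≤ r) (hz : 0 < z) :
    0 < 
    (I_b0 X r z) * (I_d1 X r z) * (I_n1 X r z) + (I_b0 X r z) * (I_d2 X r z) * (I_n0 X r z) +
    (I_b1 X r z) * (I_d0 X r z) * (I_n1 X r z) + (I_b1 X r z) * (I_d1 X r z) * (I_n0 X r z) +
    (I_b2 X r z) * (I_d0 X r z) * (I_n0 X r z) + 2 * (I_c0 X r z) * (I_d0 X r z) * (I_d2 X r z)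
    + (I_c0 X r z) * (I_d1 X r z) ^ 2 + 2 * (I_c1 X r z) * (I_d0 X r z) * (I_d1 X r z) + 2 *
    (I_a0 X r z) * (I_n0 X r z) * (I_n1 X r z) + (I_a0 X r z) * (I_n1 X r z) ^ 2 * r + 2 *
    (I_a1 X r z) * (I_n0 X r z) * (I_n1 X r z) * r + (I_a1 X r z) * (I_n0 X r z) ^ 2 + (I_a2 X
    r z) * (I_n0 X r z) ^ 2 * r := by
  have h : 
    (I_b0 X r z) * (I_d1 X r z) * (I_n1 X r z) + (I_b0 X r z) * (I_d2 X r z) * (I_n0 X r z) +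
    (I_b1 X r z) * (I_d0 X r z) * (I_n1 X r z) + (I_b1 X r z) * (I_d1 X r z) * (I_n0 X r z) +
    (I_b2 X r z) * (I_d0 X r z) * (I_n0 X r z) + 2 * (I_c0 X r z) * (I_d0 X r z) * (I_d2 X r z)
    + (I_c0 X r z) * (I_d1 X r z) ^ 2 + 2 * (I_c1 X r z) * (I_d0 X r z) * (I_d1 X r z) + 2 *
    (I_a0 X r z) * (I_n0 X r z) * (I_n1 X r z) + (I_a0 X r z) * (I_n1 X r z) ^ 2 * r + 2 *
    (I_a1 X r z) * (I_n0 X r z) * (I_n1 X r z) * r + (I_a1 X r z) * (I_n0 X r z) ^ 2 + (I_a2 X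
    r z) * (I_n0 X r z) ^ 2 * r =
      (9/2)*X*r*z^10 + (683/4)*X*r^2*z^9 + 1508*X*r^3*z^8 + 6248*X*r^4*z^7 + 14829*X*r^5*z^6 +
      (43801/2)*X*r^6*z^5 + 20757*X*r^7*z^4 + 12568*X*r^8*z^3 + (9321/2)*X*r^9*z^2 +
      (3811/4)*X*r^10*z + 81*X*r^11 + 101*X^2*r*z^9 + (15137/8)*X^2*r^2*z^8 +
      (48157/4)*X^2*r^3*z^7 + (308005/8)*X^2*r^4*z^6 + 71287*X^2*r^5*z^5 +
      (646693/8)*X^2*r^6*z^4 + (226361/4)*X^2*r^7*z^3 + (188739/8)*X^2*r^8*z^2 +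
      (10565/2)*X^2*r^9*z + (1913/4)*X^2*r^10 + 982*X^3*r*z^8 + (45315/4)*X^3*r^2*z^7 +
      (210979/4)*X^3*r^3*z^6 + (256265/2)*X^3*r^4*z^5 + 179170*X^3*r^5*z^4 +
      (592823/4)*X^3*r^6*z^3 + (282435/4)*X^3*r^7*z^2 + (35057/2)*X^3*r^8*z + (3405/2)*X^3*r^9
      + (25/2)*X^3*z^9 + (41689/8)*X^4*r*z^7 + (322743/8)*X^4*r^2*z^6 + (275297/2)*X^4*r^3*z^5
      + 247485*X^4*r^4*z^4 + (1991225/8)*X^4*r^5*z^3 + (1107055/8)*X^4*r^6*z^2 +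
      (154757/4)*X^4*r^7*z + (8145/2)*X^4*r^8 + (679/4)*X^4*z^8 + (32797/2)*X^5*r*z^6 +
      88607*X^5*r^2*z^5 + 218443*X^5*r^3*z^4 + (1112547/4)*X^5*r^4*z^3 + (371193/2)*X^5*r^5*z^2
      + (119315/2)*X^5*r^6*z + 6900*X^5*r^7 + (3747/4)*X^5*z^7 + (63477/2)*X^6*r*z^5 +
      (481973/4)*X^6*r^2*z^4 + 206914*X^6*r^3*z^3 + (1380279/8)*X^6*r^4*z^2 +
      (131173/2)*X^6*r^5*z + (16989/2)*X^6*r^6 + (22243/8)*X^6*z^6 + (152129/4)*X^7*r*z^4 +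
      (395487/4)*X^7*r^2*z^3 + (439147/4)*X^7*r^3*z^2 + 51415*X^7*r^4*z + 7659*X^7*r^5 +
      (19581/4)*X^7*z^5 + (220409/8)*X^8*r*z^3 + (366135/8)*X^8*r^2*z^2 + (225343/8)*X^8*r^3*z
      + (20085/4)*X^8*r^4 + (42135/8)*X^8*z^4 + (22575/2)*X^9*r*z^2 + (41087/4)*X^9*r^2*z +
      2335*X^9*r^3 + (13651/4)*X^9*z^3 + 2244*X^10*r*z + (2925/4)*X^10*r^2 + (5003/4)*X^10*z^2
      + (277/2)*X^11*r + (445/2)*X^11*z + 12*X^12 + (25/4)*r^2*z^10 + (639/8)*r^3*z^9 +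
      (1701/4)*r^4*z^8 + (2529/2)*r^5*z^7 + (4697/2)*r^6*z^6 + (11445/4)*r^7*z^5 +
      (4641/2)*r^8*z^4 + (2473/2)*r^9*z^3 + (1653/4)*r^10*z^2 + (623/8)*r^11*z + (25/4)*r^12 := by
    unfold I_a0 I_a1 I_a2 I_b0 I_b1 I_b2 I_c0 I_c1 I_d0 I_d1 I_d2 I_n0 I_n1
    ring
  rw [h]
  positivity

lemma I_e3 (X r z : ℝ) (hX : 0 < X) (hr : 0 ≤ r) (hz : 0 < z) :
    0 < 
    (I_b0 X r z) * (I_d2 X r z) * (I_n1 X r z) + (I_b1 X r z) * (I_d1 X r z) * (I_n1 X r z) +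
    (I_b1 X r z) * (I_d2 X r z) * (I_n0 X r z) + (I_b2 X r z) * (I_d0 X r z) * (I_n1 X r z) +
    (I_b2 X r z) * (I_d1 X r z) * (I_n0 X r z) + 2 * (I_c0 X r z) * (I_d1 X r z) * (I_d2 X r z)
    + 2 * (I_c1 X r z) * (I_d0 X r z) * (I_d2 X r z) + (I_c1 X r z) * (I_d1 X r z) ^ 2 + (I_a0
    X r z) * (I_n1 X r z) ^ 2 + 2 * (I_a1 X r z) * (I_n0 X r z) * (I_n1 X r z) + (I_a1 X r z) *
    (I_n1 X r z) ^ 2 * r + 2 * (I_a2 X r z) * (I_n0 X r z) * (I_n1 X r z) * r + (I_a2 X r z) *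
    (I_n0 X r z) ^ 2 := by
  have h : 
    (I_b0 X r z) * (I_d2 X r z) * (I_n1 X r z) + (I_b1 X r z) * (I_d1 X r z) * (I_n1 X r z) +
    (I_b1 X r z) * (I_d2 X r z) * (I_n0 X r z) + (I_b2 X r z) * (I_d0 X r z) * (I_n1 X r z) +
    (I_b2 X r z) * (I_d1 X r z) * (I_n0 X r z) + 2 * (I_c0 X r z) * (I_d1 X r z) * (I_d2 X r z)
    + 2 * (I_c1 X r z) * (I_d0 X r z) * (I_d2 X r z) + (I_c1 X r z) * (I_d1 X r z) ^ 2 + (I_a0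
    X r z) * (I_n1 X r z) ^ 2 + 2 * (I_a1 X r z) * (I_n0 X r z) * (I_n1 X r z) + (I_a1 X r z) *
    (I_n1 X r z) ^ 2 * r + 2 * (I_a2 X r z) * (I_n0 X r z) * (I_n1 X r z) * r + (I_a2 X r z) *
    (I_n0 X r z) ^ 2 =
      (217/2)*X*r*z^9 + (4499/4)*X*r^2*z^8 + (20705/4)*X*r^3*z^7 + 13293*X*r^4*z^6 +
      (83815/4)*X*r^5*z^5 + 21061*X*r^6*z^4 + (54039/4)*X*r^7*z^3 + 5330*X*r^8*z^2 +
      (4687/4)*X*r^9*z + (437/4)*X*r^10 + 2*X*z^10 + 1046*X^2*r*z^8 + 8024*X^2*r^2*z^7 +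
      (116263/4)*X^2*r^3*z^6 + (236757/4)*X^2*r^4*z^5 + 72741*X^2*r^5*z^4 +
      (109777/2)*X^2*r^6*z^3 + (98911/4)*X^2*r^7*z^2 + (24223/4)*X^2*r^8*z + (1231/2)*X^2*r^9 +
      (77/2)*X^2*z^9 + 5448*X^3*r*z^7 + (126123/4)*X^3*r^2*z^6 + (354819/4)*X^3*r^3*z^5 +
      138996*X^3*r^4*z^4 + (253911/2)*X^3*r^5*z^3 + (266651/4)*X^3*r^6*z^2 +
      (73839/4)*X^3*r^7*z + 2067*X^3*r^8 + (623/2)*X^3*z^8 + (68073/4)*X^4*r*z^6 +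
      (297945/4)*X^4*r^2*z^5 + 158787*X^4*r^3*z^4 + (365763/2)*X^4*r^4*z^3 +
      (460425/4)*X^4*r^5*z^2 + (147077/4)*X^4*r^6*z + (9201/2)*X^4*r^7 + 1375*X^4*z^7 +
      (133139/4)*X^5*r*z^5 + (217043/2)*X^5*r^2*z^4 + 168049*X^5*r^3*z^3 +
      (528129/4)*X^5*r^4*z^2 + (200081/4)*X^5*r^5*z + (14259/2)*X^5*r^6 + (14683/4)*X^5*z^6 +
      (164467/4)*X^6*r*z^4 + (384873/4)*X^6*r^2*z^3 + (402465/4)*X^6*r^3*z^2 +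
      (188307/4)*X^6*r^4*z + 7854*X^6*r^5 + 6196*X^6*z^5 + (125571/4)*X^7*r*z^3 +
      (196501/4)*X^7*r^2*z^2 + (121093/4)*X^7*r^3*z + 6153*X^7*r^4 + (26671/4)*X^7*z^4 +
      (55781/4)*X^8*r*z^2 + (50929/4)*X^8*r^2*z + (13443/4)*X^8*r^3 + (17879/4)*X^8*z^3 +
      3163*X^9*r*z + (4877/4)*X^9*r^2 + (7015/4)*X^9*z^2 + (529/2)*X^10*r + (705/2)*X^10*z +
      26*X^11 + (9/2)*r*z^10 + (133/2)*r^2*z^9 + (1551/4)*r^3*z^8 + 1231*r^4*z^7 + 2409*r^5*z^6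
      + 3072*r^6*z^5 + (5203/2)*r^7*z^4 + 1449*r^8*z^3 + (1017/2)*r^9*z^2 + (203/2)*r^10*z +
      (35/4)*r^11 := by
    unfold I_a0 I_a1 I_a2 I_b0 I_b1 I_b2 I_c0 I_c1 I_d0 I_d1 I_d2 I_n0 I_n1
    ring
  rw [h]
  positivity

lemma I_e4 (X r z : ℝ) (hX : 0 < X) (hr : 0 ≤ r) (hz : 0 < z) :
    0 < 
    (I_b1 X r z) * (I_d2 X r z) * (I_n1 X r z) + (I_b2 X r z) * (I_d1 X r z) * (I_n1 X r z) +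
    (I_b2 X r z) * (I_d2 X r z) * (I_n0 X r z) + (I_c0 X r z) * (I_d2 X r z) ^ 2 + 2 * (I_c1 X
    r z) * (I_d1 X r z) * (I_d2 X r z) + (I_a1 X r z) * (I_n1 X r z) ^ 2 + 2 * (I_a2 X r z) *
    (I_n0 X r z) * (I_n1 X r z) + (I_a2 X r z) * (I_n1 X r z) ^ 2 * r := by
  have h : 
    (I_b1 X r z) * (I_d2 X r z) * (I_n1 X r z) + (I_b2 X r z) * (I_d1 X r z) * (I_n1 X r z) +
    (I_b2 X r z) * (I_d2 X r z) * (I_n0 X r z) + (I_c0 X r z) * (I_d2 X r z) ^ 2 + 2 * (I_c1 X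
    r z) * (I_d1 X r z) * (I_d2 X r z) + (I_a1 X r z) * (I_n1 X r z) ^ 2 + 2 * (I_a2 X r z) *
    (I_n0 X r z) * (I_n1 X r z) + (I_a2 X r z) * (I_n1 X r z) ^ 2 * r =
      311*X*r*z^8 + 1739*X*r^2*z^7 + (10075/2)*X*r^3*z^6 + (17293/2)*X*r^4*z^5 + 9285*X*r^5*z^4
      + 6296*X*r^6*z^3 + (5223/2)*X*r^7*z^2 + (1205/2)*X*r^8*z + 59*X*r^9 + 20*X*z^9 +
      (3827/2)*X^2*r*z^7 + 8660*X^2*r^2*z^6 + 20310*X^2*r^3*z^5 + (55275/2)*X^2*r^4*z^4 +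
      (45219/2)*X^2*r^5*z^3 + 10921*X^2*r^6*z^2 + 2855*X^2*r^7*z + 310*X^2*r^8 +
      (319/2)*X^2*z^8 + 6544*X^3*r*z^6 + (47277/2)*X^3*r^2*z^5 + 43530*X^3*r^3*z^4 +
      44775*X^3*r^4*z^3 + 25902*X^3*r^5*z^2 + (15653/2)*X^3*r^6*z + 956*X^3*r^7 + 692*X^3*z^7 +
      13640*X^4*r*z^5 + 38278*X^4*r^2*z^4 + 52832*X^4*r^3*z^3 + 38128*X^4*r^4*z^2 +
      13688*X^4*r^5*z + 1918*X^4*r^6 + 1836*X^4*z^6 + (35653/2)*X^5*r*z^4 +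
      (74315/2)*X^5*r^2*z^3 + (71371/2)*X^5*r^3*z^2 + (31697/2)*X^5*r^4*z + 2618*X^5*r^5 +
      3124*X^5*z^5 + 14429*X^6*r*z^3 + 20747*X^6*r^2*z^2 + 12155*X^6*r^3*z + 2464*X^6*r^4 +
      3437*X^6*z^4 + 6853*X^7*r*z^2 + (11915/2)*X^7*r^2*z + 1580*X^7*r^3 + (4775/2)*X^7*z^3 +
      1694*X^8*r*z + 661*X^8*r^2 + 985*X^8*z^2 + 163*X^9*r + 213*X^9*z + 18*X^10 + (43/2)*r*z^9
      + 148*r^2*z^8 + (1037/2)*r^3*z^7 + 1086*r^4*z^6 + (2917/2)*r^5*z^5 + 1289*r^6*z^4 +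
      (1491/2)*r^7*z^3 + 271*r^8*z^2 + 56*r^9*z + 5*r^10 + z^10 := by
    unfold I_a1 I_a2 I_b1 I_b2 I_c0 I_c1 I_d1 I_d2 I_n0 I_n1
    ring
  rw [h]
  positivity

lemma I_e5 (X r z : ℝ) (hX : 0 < X) (hr : 0 ≤ r) (hz : 0 < z) :
    0 < 
    (I_b2 X r z) * (I_d2 X r z) * (I_n1 X r z) + (I_c1 X r z) * (I_d2 X r z) ^ 2 + (I_a2 X r z)
    * (I_n1 X r z) ^ 2 := by
  have h : 
    (I_b2 X r z) * (I_d2 X r z) * (I_n1 X r z) + (I_c1 X r z) * (I_d2 X r z) ^ 2 + (I_a2 X r z)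
    * (I_n1 X r z) ^ 2 =
      185*X*r*z^7 + 649*X*r^2*z^6 + 1251*X*r^3*z^5 + 1455*X*r^4*z^4 + 1047*X*r^5*z^3 +
      455*X*r^6*z^2 + 109*X*r^7*z + 11*X*r^8 + 22*X*z^8 + 777*X^2*r*z^6 + 2292*X^2*r^2*z^5 +
      3591*X^2*r^3*z^4 + 3239*X^2*r^4*z^3 + 1683*X^2*r^5*z^2 + 466*X^2*r^6*z + 53*X^2*r^7 +
      107*X^2*z^7 + 1828*X^3*r*z^5 + 4361*X^3*r^2*z^4 + 5272*X^3*r^3*z^3 + 3415*X^3*r^4*z^2 +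
      1124*X^3*r^5*z + 147*X^3*r^6 + 301*X^3*z^6 + 2607*X^4*r*z^4 + 4766*X^4*r^2*z^3 +
      4110*X^4*r^3*z^2 + 1675*X^4*r^4*z + 259*X^4*r^5 + 535*X^4*z^5 + 2271*X^5*r*z^3 +
      2937*X^5*r^2*z^2 + 1581*X^5*r^3*z + 301*X^5*r^4 + 614*X^5*z^4 + 1155*X^6*r*z^2 +
      924*X^6*r^2*z + 231*X^6*r^3 + 446*X^6*z^3 + 306*X^7*r*z + 113*X^7*r^2 + 193*X^7*z^2 +
      32*X^8*r + 44*X^8*z + 4*X^9 + 19*r*z^8 + 77*r^2*z^7 + 176*r^3*z^6 + 251*r^4*z^5 +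
      232*r^5*z^4 + 139*r^6*z^3 + 52*r^7*z^2 + 11*r^8*z + r^9 + 2*z^9 := by
    unfold I_a2 I_b2 I_c1 I_d2 I_n1
    ring
  rw [h]
  positivity

lemma P12_I_pos (X r v : ℝ) (hX : 0 < X) (hr : 0 ≤ r) (hv : 0 ≤ v) (hz : 0 < 1 - 2 * X - r) :
    0 < P12 X (X ^ 2 + r) (1 - 2 * X - r) (X + (r + v)) (1 - X) (r + v) r := by
  obtain ⟨z, hzz⟩ : ∃ z : ℝ, z = 1 - 2 * X - r := ⟨_, rfl⟩
  rw [← hzz] at hz ⊢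
  unfold P12
  rw [I_eq_n X r z v hzz, I_eq_d X r z v hzz, I_eq_a X r z v hzz, I_eq_b X r z v hzz, I_eq_c X r z v hzz]
  have h0 := I_e0 X r z hX hr hz
  have h1 := I_e1 X r z hX hr hz
  have h2 := I_e2 X r z hX hr hz
  have h3 := I_e3 X r z hX hr hz
  have h4 := I_e4 X r z hX hr hz
  have h5 := I_e5 X r z hX hr hz
  have g1 := mul_nonneg h1.le (pow_nonneg hv 1)
  have g2 := mul_nonneg h2.le (pow_nonneg hv 2)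
  have g3 := mul_nonneg h3.le (pow_nonneg hv 3)
  have g4 := mul_nonneg h4.le (pow_nonneg hv 4)
  have g5 := mul_nonneg h5.le (pow_nonneg hv 5)
  have hsum := add_pos_of_pos_of_nonneg h0 (add_nonneg g1 (add_nonneg g2 (add_nonneg g3 (add_nonneg g4 g5))))
  refine lt_of_lt_of_eq hsum ?_
  ring

end Mocanu
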