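import Pool.Agent.Helper267_mocanu.CertA

/-! Polynomial certificate, region II. -/

set_option autoImplicit false
set_option maxHeartbeats 40000000
set_option maxRecDepth 100000

noncomputable section

namespace Mocanu

def II_n0 (q x a : ℝ) : ℝ :=
    12*a*q*x^2 + 19*a*q^2*x + 9*a*q^3 + 2*a*x^3 + 6*a^2*q*x + 3*a^2*q^2 + 3*a^2*x^2 + 2*q*x^3 +
    9*q^2*x^2 + 13*q^3*x + 6*q^4

def II_n1 (q x a : ℝ) : ℝ :=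
    10*a*q*x + (23/2)*a*q^2 + 2*a*x^2 + 6*a^2*q + 3*a^2*x + a^3 + 2*q*x^2 + (15/2)*q^2*x +
    7*q^3

def II_d0 (q x a : ℝ) : ℝ :=
    2*a*q*x^3 + (25/2)*a*q^2*x^2 + 18*a*q^3*x + 6*a*q^4 + 12*a^2*q*x^2 + (41/2)*a^2*q^2*x +
    8*a^2*q^3 + a^2*x^3 + 6*a^3*q*x + (5/2)*a^3*q^2 + 3*a^3*x^2 + (1/2)*q^2*x^3 + 2*q^3*x^2 +
    2*q^4*x

def II_d1 (q x a : ℝ) : ℝ :=
    4*a*q*x^2 + 17*a*q^2*x + 15*a*q^3 + 16*a^2*q*x + 19*a^2*q^2 + 2*a^2*x^2 + 8*a^3*q + 4*a^3*x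
    + a^4 + q^2*x^2 + 3*q^3*x + 2*q^4

def II_d2 (q x a : ℝ) : ℝ :=
    2*a*q*x + (9/2)*a*q^2 + 4*a^2*q + a^2*x + a^3 + (1/2)*q^2*x + q^3

def II_a0 (q x a : ℝ) : ℝ :=
    (1/2)*a*q^5*x^2 + (9/4)*a^2*q^4*x^2 - a^2*q^5*x + 2*a^3*q^3*x^2 - (25/2)*a^3*q^4*x -
    (15/2)*a^3*q^5 + (1/2)*a^4*q^2*x^2 - 24*a^4*q^3*x - (71/4)*a^4*q^4 - 19*a^5*q^2*x -
    16*a^5*q^3 - 7*a^6*q*x - (13/2)*a^6*q^2 - a^7*q - a^7*x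

def II_a1 (q x a : ℝ) : ℝ :=
    a*q^5*x + (9/2)*a^2*q^4*x - a^2*q^5 + 4*a^3*q^3*x - (25/2)*a^3*q^4 + a^4*q^2*x - 24*a^4*q^3
    - 19*a^5*q^2 - 7*a^6*q - a^7

def II_a2 (q x a : ℝ) : ℝ :=
    (1/2)*a*q^5 + (9/4)*a^2*q^4 + 2*a^3*q^3 + (1/2)*a^4*q^2

def II_b0 (q x a : ℝ) : ℝ :=
    4*a*q^3*x^4 + 21*a*q^4*x^3 + (59/2)*a*q^5*x^2 + 8*a*q^6*x - 4*a*q^7 + 6*a^2*q^2*x^4 +
    34*a^2*q^3*x^3 + (141/4)*a^2*q^4*x^2 - 12*a^2*q^5*x - 16*a^2*q^6 + 4*a^3*q*x^4 +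
    26*a^3*q^2*x^3 + 4*a^3*q^3*x^2 - (111/2)*a^3*q^4*x - (61/2)*a^3*q^5 + 9*a^4*q*x^3 -
    (43/2)*a^4*q^2*x^2 - 66*a^4*q^3*x - (119/4)*a^4*q^4 + a^4*x^4 - 15*a^5*q*x^2 - 33*a^5*q^2*x
    - 14*a^5*q^3 + a^5*x^3 - 6*a^6*q*x - (5/2)*a^6*q^2 - 3*a^6*x^2 + q^4*x^4 + 5*q^5*x^3 +
    8*q^6*x^2 + 4*q^7*x

def II_b1 (q x a : ℝ) : ℝ :=
    8*a*q^3*x^3 + 39*a*q^4*x^2 + 59*a*q^5*x + 27*a*q^6 + 12*a^2*q^2*x^3 + 66*a^2*q^3*x^2 +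
    (213/2)*a^2*q^4*x + 47*a^2*q^5 + 8*a^3*q*x^3 + 54*a^3*q^2*x^2 + 92*a^3*q^3*x +
    (59/2)*a^3*q^4 + 21*a^4*q*x^2 + 38*a^4*q^2*x - 6*a^4*q^3 + 2*a^4*x^3 + 6*a^5*q*x -
    16*a^5*q^2 + 3*a^5*x^2 - 7*a^6*q - a^7 + 2*q^4*x^3 + 9*q^5*x^2 + 13*q^6*x + 6*q^7

def II_b2 (q x a : ℝ) : ℝ :=
    4*a*q^3*x^2 + 18*a*q^4*x + 21*a*q^5 + 6*a^2*q^2*x^2 + 32*a^2*q^3*x + (91/2)*a^2*q^4 +
    4*a^3*q*x^2 + 28*a^3*q^2*x + 48*a^3*q^3 + 12*a^4*q*x + 27*a^4*q^2 + a^4*x^2 + 8*a^5*q +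
    2*a^5*x + a^6 + q^4*x^2 + 4*q^5*x + 4*q^6

def II_c0 (q x a : ℝ) : ℝ :=
    8*a*q^3*x^3 + 39*a*q^4*x^2 + 58*a*q^5*x + 27*a*q^6 + 12*a^2*q^2*x^3 + 66*a^2*q^3*x^2 +
    102*a^2*q^4*x + 48*a^2*q^5 + 8*a^3*q*x^3 + 54*a^3*q^2*x^2 + 88*a^3*q^3*x + 42*a^3*q^4 +
    21*a^4*q*x^2 + 37*a^4*q^2*x + 18*a^4*q^3 + 2*a^4*x^3 + 6*a^5*q*x + 3*a^5*q^2 + 3*a^5*x^2 +
    2*q^4*x^3 + 9*q^5*x^2 + 13*q^6*x + 6*q^7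

def II_c1 (q x a : ℝ) : ℝ :=
    4*a*q^3*x^2 + 18*a*q^4*x + (41/2)*a*q^5 + 6*a^2*q^2*x^2 + 32*a^2*q^3*x + (173/4)*a^2*q^4 +
    4*a^3*q*x^2 + 28*a^3*q^2*x + 46*a^3*q^3 + 12*a^4*q*x + (53/2)*a^4*q^2 + a^4*x^2 + 8*a^5*q +
    2*a^5*x + a^6 + q^4*x^2 + 4*q^5*x + 4*q^6

lemma II_eq_n (q x a w : ℝ) (ha : a = 1 - 2 * q - x) :
    N2 (q + x) (q ^ 2) (1 - 2 * (q + x) - (q ^ 2 - (q + x) ^ 2)) (q + x + w) (1 - (q + x)) =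
    (II_n0 q x a) + (II_n1 q x a) * w := by
  subst ha
  unfold N2 II_n0 II_n1
  ring

lemma II_eq_d (q x a w : ℝ) (ha : a = 1 - 2 * q - x) :
    D4 (q + x) (q ^ 2) (1 - 2 * (q + x) - (q ^ 2 - (q + x) ^ 2)) (q + x + w) (1 - (q + x)) =
    (II_d0 q x a) + (II_d1 q x a) * w + (II_d2 q x a) * w ^ 2 := by
  subst ha
  unfold D4 II_d0 II_d1 II_d2
  ring

lemma II_eq_a (q x a w : ℝ) (ha : a = 1 - 2 * q - x) :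
    V28 (q ^ 2) (1 - 2 * (q + x) - (q ^ 2 - (q + x) ^ 2)) (q + x + w) (1 - (q + x)) =
    (II_a0 q x a) + (II_a1 q x a) * w + (II_a2 q x a) * w ^ 2 := by
  subst ha
  unfold V28 II_a0 II_a1 II_a2
  ring

lemma II_eq_b (q x a w : ℝ) (ha : a = 1 - 2 * q - x) :
    V16 (q + x) (q ^ 2) (1 - 2 * (q + x) - (q ^ 2 - (q + x) ^ 2)) (q + x + w) (1 - (q + x)) w (q ^ 2 - (q + x) ^ 2) =
    (II_b0 q x a) + (II_b1 q x a) * w + (II_b2 q x a) * w ^ 2 := by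
  subst ha
  unfold V16 II_b0 II_b1 II_b2
  ring

lemma II_eq_c (q x a w : ℝ) (ha : a = 1 - 2 * q - x) :
    V04 (q + x) (q ^ 2) (1 - 2 * (q + x) - (q ^ 2 - (q + x) ^ 2)) (1 - (q + x)) w (q ^ 2 - (q + x) ^ 2) =
    (II_c0 q x a) + (II_c1 q x a) * w := by
  subst ha
  unfold V04 II_c0 II_c1
  ring

lemma II_e0 (q x a : ℝ) (hq : 0 < q) (hx : 0 ≤ x) (ha : 0 < a) :
    0 < 
    (II_b0 q x a) * (II_d0 q x a) * (II_n0 q x a) + (II_c0 q x a) * (II_d0 q x a) ^ 2 := by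
  have h : 
    (II_b0 q x a) * (II_d0 q x a) * (II_n0 q x a) + (II_c0 q x a) * (II_d0 q x a) ^ 2 =
      9*a*q^6*x^10 + 139*a*q^7*x^9 + (3695/4)*a*q^8*x^8 + (13869/4)*a*q^9*x^7 + 8085*a*q^10*x^6
      + (24189/2)*a*q^11*x^5 + 11517*a*q^12*x^4 + 6638*a*q^13*x^3 + 2044*a*q^14*x^2 +
      240*a*q^15*x + 32*a^2*q^5*x^10 + (1089/2)*a^2*q^6*x^9 + (15695/4)*a^2*q^7*x^8 +
      (126401/8)*a^2*q^8*x^7 + (314367/8)*a^2*q^9*x^6 + (125335/2)*a^2*q^10*x^5 +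
      (128131/2)*a^2*q^11*x^4 + 40455*a^2*q^12*x^3 + 14370*a^2*q^13*x^2 + 2292*a^2*q^14*x +
      72*a^2*q^15 + 60*a^3*q^4*x^10 + 1140*a^3*q^5*x^9 + (35867/4)*a^3*q^6*x^8 +
      (77587/2)*a^3*q^7*x^7 + 102618*a^3*q^8*x^6 + 173246*a^3*q^9*x^5 + (751171/4)*a^3*q^10*x^4
      + 127129*a^3*q^11*x^3 + 49893*a^3*q^12*x^2 + 9586*a^3*q^13*x + 564*a^3*q^14 +
      65*a^4*q^3*x^10 + 1418*a^4*q^4*x^9 + (49481/4)*a^4*q^5*x^8 + (463751/8)*a^4*q^6*x^7 +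
      (327043/2)*a^4*q^7*x^6 + (583577/2)*a^4*q^8*x^5 + (2667815/8)*a^4*q^9*x^4 +
      (957219/4)*a^4*q^10*x^3 + (202831/2)*a^4*q^11*x^2 + 22103*a^4*q^12*x + 1734*a^4*q^13 +
      41*a^5*q^2*x^10 + 1081*a^5*q^3*x^9 + (43049/4)*a^5*q^4*x^8 + 55464*a^5*q^5*x^7 +
      (1343875/8)*a^5*q^6*x^6 + (1269025/4)*a^5*q^7*x^5 + (3049547/8)*a^5*q^8*x^4 +
      (1151131/4)*a^5*q^9*x^3 + (259291/2)*a^5*q^10*x^2 + (61785/2)*a^5*q^11*x + 2850*a^5*q^12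
      + 14*a^6*q*x^10 + (989/2)*a^6*q^2*x^9 + (11827/2)*a^6*q^3*x^8 + 34397*a^6*q^4*x^7 +
      (452837/4)*a^6*q^5*x^6 + (454521/2)*a^6*q^6*x^5 + 286877*a^6*q^7*x^4 +
      (1813683/8)*a^6*q^8*x^3 + (859097/8)*a^6*q^9*x^2 + 27333*a^6*q^10*x + (5589/2)*a^6*q^11 +
      124*a^7*q*x^9 + 1973*a^7*q^2*x^8 + 13560*a^7*q^3*x^7 + (197871/4)*a^7*q^4*x^6 +
      (212753/2)*a^7*q^5*x^5 + 141282*a^7*q^6*x^4 + 116537*a^7*q^7*x^3 + 57608*a^7*q^8*x^2 +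
      15428*a^7*q^9*x + (6771/4)*a^7*q^10 + 2*a^7*x^10 + 360*a^8*q*x^8 + 3202*a^8*q^2*x^7 +
      13381*a^8*q^3*x^6 + (124845/4)*a^8*q^4*x^5 + (175109/4)*a^8*q^5*x^4 +
      (301203/8)*a^8*q^6*x^3 + (38655/2)*a^8*q^7*x^2 + 5392*a^8*q^8*x + (4983/8)*a^8*q^9 +
      13*a^8*x^9 + 396*a^9*q*x^7 + 2011*a^9*q^2*x^6 + 5187*a^9*q^3*x^5 + 7732*a^9*q^4*x^4 +
      (13875/2)*a^9*q^5*x^3 + (29495/8)*a^9*q^6*x^2 + (4257/4)*a^9*q^7*x + (1023/8)*a^9*q^8 +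
      27*a^9*x^8 + 126*a^10*q*x^6 + (741/2)*a^10*q^2*x^5 + (1185/2)*a^10*q^3*x^4 +
      (2223/4)*a^10*q^4*x^3 + (1221/4)*a^10*q^5*x^2 + (363/4)*a^10*q^6*x + (45/4)*a^10*q^7 +
      18*a^10*x^7 + q^7*x^10 + 14*q^8*x^9 + (341/4)*q^9*x^8 + (1179/4)*q^10*x^7 +
      (1265/2)*q^11*x^6 + 862*q^12*x^5 + 728*q^13*x^4 + 348*q^14*x^3 + 72*q^15*x^2 := by
    unfold II_b0 II_c0 II_d0 II_n0
    ring
  rw [h]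
  positivity

lemma II_e1 (q x a : ℝ) (hq : 0 < q) (hx : 0 ≤ x) (ha : 0 < a) :
    0 < 
    (II_b0 q x a) * (II_d0 q x a) * (II_n1 q x a) + (II_b0 q x a) * (II_d1 q x a) * (II_n0 q x
    a) + (II_b1 q x a) * (II_d0 q x a) * (II_n0 q x a) + 2 * (II_c0 q x a) * (II_d0 q x a) *
    (II_d1 q x a) + (II_c1 q x a) * (II_d0 q x a) ^ 2 + (II_a0 q x a) * (II_n0 q x a) ^ 2 := by
  have h : 
    (II_b0 q x a) * (II_d0 q x a) * (II_n1 q x a) + (II_b0 q x a) * (II_d1 q x a) * (II_n0 q x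
    a) + (II_b1 q x a) * (II_d0 q x a) * (II_n0 q x a) + 2 * (II_c0 q x a) * (II_d0 q x a) *
    (II_d1 q x a) + (II_c1 q x a) * (II_d0 q x a) ^ 2 + (II_a0 q x a) * (II_n0 q x a) ^ 2 =
      45*a*q^6*x^9 + 653*a*q^7*x^8 + (16221/4)*a*q^8*x^7 + (56465/4)*a*q^9*x^6 +
      (120829/4)*a*q^10*x^5 + 40850*a*q^11*x^4 + 34379*a*q^12*x^3 + 16870*a*q^13*x^2 +
      4112*a*q^14*x + 312*a*q^15 + 160*a^2*q^5*x^9 + 2556*a^2*q^6*x^8 + (68867/4)*a^2*q^7*x^7 +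
      64358*a^2*q^8*x^6 + (1176387/8)*a^2*q^9*x^5 + 212081*a^2*q^10*x^4 +
      (382629/2)*a^2*q^11*x^3 + 102262*a^2*q^12*x^2 + 28360*a^2*q^13*x + 2856*a^2*q^14 +
      300*a^3*q^4*x^9 + 5348*a^3*q^5*x^8 + (157461/4)*a^3*q^6*x^7 + (634019/4)*a^3*q^7*x^6 +
      (3091621/8)*a^3*q^8*x^5 + (4734445/8)*a^3*q^9*x^4 + 566759*a^3*q^10*x^3 +
      (647531/2)*a^3*q^11*x^2 + 97895*a^3*q^12*x + 11386*a^3*q^13 + 325*a^4*q^3*x^9 +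
      6649*a^4*q^4*x^8 + (217563/4)*a^4*q^5*x^7 + (952809/4)*a^4*q^6*x^6 +
      (1245325/2)*a^4*q^7*x^5 + (4053013/4)*a^4*q^8*x^4 + (4107605/4)*a^4*q^9*x^3 +
      621554*a^4*q^10*x^2 + 201021*a^4*q^11*x + 25712*a^4*q^12 + 205*a^5*q^2*x^9 +
      5071*a^5*q^3*x^8 + (190027/4)*a^5*q^4*x^7 + (921189/4)*a^5*q^5*x^6 +
      (1303597/2)*a^5*q^6*x^5 + (4528889/4)*a^5*q^7*x^4 + (4858589/4)*a^5*q^8*x^3 +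
      (3102807/4)*a^5*q^9*x^2 + (1061887/4)*a^5*q^10*x + (72849/2)*a^5*q^11 + 70*a^6*q*x^9 +
      2325*a^6*q^2*x^8 + (52635/2)*a^6*q^3*x^7 + (290943/2)*a^6*q^4*x^6 + 453270*a^6*q^5*x^5 +
      (6783083/8)*a^6*q^6*x^4 + 966061*a^6*q^7*x^3 + 650156*a^6*q^8*x^2 + (1871925/8)*a^6*q^9*x
      + (67893/2)*a^6*q^10 + 586*a^7*q*x^8 + (17821/2)*a^7*q^2*x^7 + (118307/2)*a^7*q^3*x^6 +
      208580*a^7*q^4*x^5 + 426331*a^7*q^5*x^4 + (1038805/2)*a^7*q^6*x^3 +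
      (737775/2)*a^7*q^7*x^2 + (1113395/8)*a^7*q^8*x + (169307/8)*a^7*q^9 + 10*a^7*x^9 +
      1666*a^8*q*x^7 + (29419/2)*a^8*q^2*x^6 + (123107/2)*a^8*q^3*x^5 + (563033/4)*a^8*q^4*x^4
      + (741763/4)*a^8*q^5*x^3 + (558219/4)*a^8*q^6*x^2 + (220611/4)*a^8*q^7*x +
      (34981/4)*a^8*q^8 + 62*a^8*x^8 + 1990*a^9*q*x^6 + (21689/2)*a^9*q^2*x^5 +
      (57735/2)*a^9*q^3*x^4 + (167447/4)*a^9*q^4*x^3 + (134491/4)*a^9*q^5*x^2 +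
      (55755/4)*a^9*q^6*x + (4597/2)*a^9*q^7 + 130*a^9*x^7 + 978*a^10*q*x^5 +
      (6529/2)*a^10*q^2*x^4 + 5361*a^10*q^3*x^3 + (18591/4)*a^10*q^4*x^2 + (4057/2)*a^10*q^5*x
      + (2781/8)*a^10*q^6 + 108*a^10*x^6 + 150*a^11*q*x^4 + 293*a^11*q^2*x^3 + 279*a^11*q^3*x^2
      + 129*a^11*q^4*x + 23*a^11*q^5 + 30*a^11*x^5 + 5*q^7*x^9 + 66*q^8*x^8 + (1507/4)*q^9*x^7
      + (2425/2)*q^10*x^6 + (4801/2)*q^11*x^5 + 2984*q^12*x^4 + 2264*q^13*x^3 + 952*q^14*x^2 +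
      168*q^15*x := by
    unfold II_a0 II_b0 II_b1 II_c0 II_c1 II_d0 II_d1 II_n0 II_n1
    ring
  rw [h]
  positivity

lemma II_e2 (q x a : ℝ) (hq : 0 < q) (hx : 0 ≤ x) (ha : 0 < a) :
    0 < 
    (II_b0 q x a) * (II_d1 q x a) * (II_n1 q x a) + (II_b0 q x a) * (II_d2 q x a) * (II_n0 q x
    a) + (II_b1 q x a) * (II_d0 q x a) * (II_n1 q x a) + (II_b1 q x a) * (II_d1 q x a) * (II_n0
    q x a) + (II_b2 q x a) * (II_d0 q x a) * (II_n0 q x a) + 2 * (II_c0 q x a) * (II_d0 q x a)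
    * (II_d2 q x a) + (II_c0 q x a) * (II_d1 q x a) ^ 2 + 2 * (II_c1 q x a) * (II_d0 q x a) *
    (II_d1 q x a) + 2 * (II_a0 q x a) * (II_n0 q x a) * (II_n1 q x a) + (II_a1 q x a) * (II_n0
    q x a) ^ 2 := by
  have h : 
    (II_b0 q x a) * (II_d1 q x a) * (II_n1 q x a) + (II_b0 q x a) * (II_d2 q x a) * (II_n0 q x
    a) + (II_b1 q x a) * (II_d0 q x a) * (II_n1 q x a) + (II_b1 q x a) * (II_d1 q x a) * (II_n0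
    q x a) + (II_b2 q x a) * (II_d0 q x a) * (II_n0 q x a) + 2 * (II_c0 q x a) * (II_d0 q x a)
    * (II_d2 q x a) + (II_c0 q x a) * (II_d1 q x a) ^ 2 + 2 * (II_c1 q x a) * (II_d0 q x a) *
    (II_d1 q x a) + 2 * (II_a0 q x a) * (II_n0 q x a) * (II_n1 q x a) + (II_a1 q x a) * (II_n0
    q x a) ^ 2 =
      90*a*q^6*x^8 + 1222*a*q^7*x^7 + (28157/4)*a*q^8*x^6 + (89755/4)*a*q^9*x^5 +
      (172581/4)*a*q^10*x^4 + 50925*a*q^11*x^3 + 35642*a*q^12*x^2 + 13256*a*q^13*x +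
      1924*a*q^14 + 320*a^2*q^5*x^8 + 4779*a^2*q^6*x^7 + (119479/4)*a^2*q^7*x^6 +
      (818701/8)*a^2*q^8*x^5 + (420465/2)*a^2*q^9*x^4 + 264461*a^2*q^10*x^3 +
      197683*a^2*q^11*x^2 + 79290*a^2*q^12*x + 12748*a^2*q^13 + 600*a^3*q^4*x^8 +
      9992*a^3*q^5*x^7 + (273365/4)*a^3*q^6*x^6 + 252881*a^3*q^7*x^5 + (4447989/8)*a^3*q^8*x^4
      + (1488737/2)*a^3*q^9*x^3 + 590940*a^3*q^10*x^2 + 252367*a^3*q^11*x + 43658*a^3*q^12 +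
      650*a^4*q^3*x^8 + 12416*a^4*q^4*x^7 + (378395/4)*a^4*q^5*x^6 + (3058807/8)*a^4*q^6*x^5 +
      (1811693/2)*a^4*q^7*x^4 + 1294781*a^4*q^8*x^3 + (4365411/4)*a^4*q^9*x^2 +
      (1975653/4)*a^4*q^10*x + 90815*a^4*q^11 + 410*a^5*q^2*x^8 + 9474*a^5*q^3*x^7 +
      (331963/4)*a^5*q^4*x^6 + (747341/2)*a^5*q^5*x^5 + (7725437/8)*a^5*q^6*x^4 +
      (2968467/2)*a^5*q^7*x^3 + (5329809/4)*a^5*q^8*x^2 + (2554403/4)*a^5*q^9*x +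
      (496367/4)*a^5*q^10 + 140*a^6*q*x^8 + 4355*a^6*q^2*x^7 + (92771/2)*a^6*q^3*x^6 +
      240390*a^6*q^4*x^5 + (2765067/4)*a^6*q^5*x^4 + (2312433/2)*a^6*q^6*x^3 +
      (4451133/4)*a^6*q^7*x^2 + (4528307/8)*a^6*q^8*x + 116000*a^6*q^9 + 1104*a^7*q*x^7 +
      (31903/2)*a^7*q^2*x^6 + 100669*a^7*q^3*x^5 + (1330561/4)*a^7*q^4*x^4 + 617021*a^7*q^5*x^3
      + (2574037/4)*a^7*q^6*x^2 + (698339/2)*a^7*q^7*x + (603975/8)*a^7*q^8 + 20*a^7*x^8 +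
      3058*a^8*q*x^6 + 26208*a^8*q^2*x^5 + (210217/2)*a^8*q^3*x^4 + 222818*a^8*q^4*x^3 +
      (1024173/4)*a^8*q^5*x^2 + (1195453/8)*a^8*q^6*x + (68353/2)*a^8*q^7 + 118*a^8*x^7 +
      3808*a^9*q*x^5 + (41193/2)*a^9*q^2*x^4 + 52491*a^9*q^3*x^3 + (272817/4)*a^9*q^4*x^2 +
      (86709/2)*a^9*q^5*x + (84303/8)*a^9*q^6 + 248*a^9*x^6 + 2216*a^10*q*x^4 +
      (14965/2)*a^10*q^2*x^3 + (22943/2)*a^10*q^3*x^2 + 8092*a^10*q^4*x + (8421/4)*a^10*q^5 +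
      232*a^10*x^5 + 552*a^11*q*x^3 + 1080*a^11*q^2*x^2 + 870*a^11*q^3*x + (979/4)*a^11*q^4 +
      96*a^11*x^4 + 42*a^12*q*x^2 + (81/2)*a^12*q^2*x + (25/2)*a^12*q^3 + 14*a^12*x^3 +
      10*q^7*x^8 + 124*q^8*x^7 + (2635/4)*q^9*x^6 + (7795/4)*q^10*x^5 + 3486*q^11*x^4 +
      3818*q^12*x^3 + 2452*q^13*x^2 + 812*q^14*x + 96*q^15 := by
    unfold II_a0 II_a1 II_b0 II_b1 II_b2 II_c0 II_c1 II_d0 II_d1 II_d2 II_n0 II_n1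
    ring
  rw [h]
  positivity

lemma II_e3 (q x a : ℝ) (hq : 0 < q) (hx : 0 ≤ x) (ha : 0 < a) :
    0 < 
    (II_b0 q x a) * (II_d2 q x a) * (II_n1 q x a) + (II_b1 q x a) * (II_d1 q x a) * (II_n1 q x
    a) + (II_b1 q x a) * (II_d2 q x a) * (II_n0 q x a) + (II_b2 q x a) * (II_d0 q x a) * (II_n1
    q x a) + (II_b2 q x a) * (II_d1 q x a) * (II_n0 q x a) + 2 * (II_c0 q x a) * (II_d1 q x a)
    * (II_d2 q x a) + 2 * (II_c1 q x a) * (II_d0 q x a) * (II_d2 q x a) + (II_c1 q x a) *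
    (II_d1 q x a) ^ 2 + (II_a0 q x a) * (II_n1 q x a) ^ 2 + 2 * (II_a1 q x a) * (II_n0 q x a) *
    (II_n1 q x a) + (II_a2 q x a) * (II_n0 q x a) ^ 2 := by
  have h : 
    (II_b0 q x a) * (II_d2 q x a) * (II_n1 q x a) + (II_b1 q x a) * (II_d1 q x a) * (II_n1 q x
    a) + (II_b1 q x a) * (II_d2 q x a) * (II_n0 q x a) + (II_b2 q x a) * (II_d0 q x a) * (II_n1
    q x a) + (II_b2 q x a) * (II_d1 q x a) * (II_n0 q x a) + 2 * (II_c0 q x a) * (II_d1 q x a)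
    * (II_d2 q x a) + 2 * (II_c1 q x a) * (II_d0 q x a) * (II_d2 q x a) + (II_c1 q x a) *
    (II_d1 q x a) ^ 2 + (II_a0 q x a) * (II_n1 q x a) ^ 2 + 2 * (II_a1 q x a) * (II_n0 q x a) *
    (II_n1 q x a) + (II_a2 q x a) * (II_n0 q x a) ^ 2 =
      90*a*q^6*x^7 + 1138*a*q^7*x^6 + (24095/4)*a*q^8*x^5 + (69143/4)*a*q^9*x^4 +
      28975*a*q^10*x^3 + 28254*a*q^11*x^2 + 14736*a*q^12*x + 3132*a*q^13 + 320*a^2*q^5*x^7 +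
      4446*a^2*q^6*x^6 + (102185/4)*a^2*q^7*x^5 + (315447/4)*a^2*q^8*x^4 + 141282*a^2*q^9*x^3 +
      146629*a^2*q^10*x^2 + 81284*a^2*q^11*x + 18416*a^2*q^12 + 600*a^3*q^4*x^7 +
      9288*a^3*q^5*x^6 + (233999/4)*a^3*q^6*x^5 + (782431/4)*a^3*q^7*x^4 + 376206*a^3*q^8*x^3 +
      416445*a^3*q^9*x^2 + 245219*a^3*q^10*x + 58944*a^3*q^11 + 650*a^4*q^3*x^7 +
      11534*a^4*q^4*x^6 + (324617/4)*a^4*q^5*x^5 + (595557/2)*a^4*q^6*x^4 +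
      (1240653/2)*a^4*q^7*x^3 + 736612*a^4*q^8*x^2 + (1848391/4)*a^4*q^9*x + 117854*a^4*q^10 +
      410*a^5*q^2*x^7 + 8806*a^5*q^3*x^6 + (286217/4)*a^5*q^4*x^5 + (1177637/4)*a^5*q^5*x^4 +
      (1347855/2)*a^5*q^6*x^3 + (1733271/2)*a^5*q^7*x^2 + (2330585/4)*a^5*q^8*x +
      (632613/4)*a^5*q^9 + 140*a^6*q*x^7 + 4060*a^6*q^2*x^6 + (80773/2)*a^6*q^3*x^5 +
      (385983/2)*a^6*q^4*x^4 + 496390*a^6*q^5*x^3 + 701311*a^6*q^6*x^2 + (2040077/4)*a^6*q^7*x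
      + (592777/4)*a^6*q^8 + 1036*a^7*q*x^6 + (28243/2)*a^7*q^2*x^5 + (166375/2)*a^7*q^3*x^4 +
      249030*a^7*q^4*x^3 + 395064*a^7*q^5*x^2 + (1260491/4)*a^7*q^6*x + (395571/4)*a^7*q^7 +
      20*a^7*x^7 + 2778*a^8*q*x^5 + (45195/2)*a^8*q^2*x^4 + 83510*a^8*q^3*x^3 +
      (307789/2)*a^8*q^4*x^2 + (549919/4)*a^8*q^5*x + (94425/2)*a^8*q^6 + 112*a^8*x^6 +
      3490*a^9*q*x^4 + 17800*a^9*q^2*x^3 + 40320*a^9*q^3*x^2 + (166711/4)*a^9*q^4*x +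
      (63867/4)*a^9*q^5 + 234*a^9*x^5 + 2160*a^10*q*x^3 + 6696*a^10*q^2*x^2 +
      (16923/2)*a^10*q^3*x + 3722*a^10*q^4 + 232*a^10*x^4 + 624*a^11*q*x^2 +
      (2145/2)*a^11*q^2*x + (1133/2)*a^11*q^3 + 112*a^11*x^3 + 74*a^12*q*x + (101/2)*a^12*q^2 +
      24*a^12*x^2 + 2*a^13*q + 2*a^13*x + 10*q^7*x^7 + 116*q^8*x^6 + (2273/4)*q^9*x^5 +
      1519*q^10*x^4 + 2382*q^11*x^3 + 2176*q^12*x^2 + 1060*q^13*x + 208*q^14 := by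
    unfold II_a0 II_a1 II_a2 II_b0 II_b1 II_b2 II_c0 II_c1 II_d0 II_d1 II_d2 II_n0 II_n1
    ring
  rw [h]
  positivity

lemma II_e4 (q x a : ℝ) (hq : 0 < q) (hx : 0 ≤ x) (ha : 0 < a) :
    0 < 
    (II_b1 q x a) * (II_d2 q x a) * (II_n1 q x a) + (II_b2 q x a) * (II_d1 q x a) * (II_n1 q x
    a) + (II_b2 q x a) * (II_d2 q x a) * (II_n0 q x a) + (II_c0 q x a) * (II_d2 q x a) ^ 2 + 2
    * (II_c1 q x a) * (II_d1 q x a) * (II_d2 q x a) + (II_a1 q x a) * (II_n1 q x a) ^ 2 + 2 *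
    (II_a2 q x a) * (II_n0 q x a) * (II_n1 q x a) := by
  have h : 
    (II_b1 q x a) * (II_d2 q x a) * (II_n1 q x a) + (II_b2 q x a) * (II_d1 q x a) * (II_n1 q x
    a) + (II_b2 q x a) * (II_d2 q x a) * (II_n0 q x a) + (II_c0 q x a) * (II_d2 q x a) ^ 2 + 2
    * (II_c1 q x a) * (II_d1 q x a) * (II_d2 q x a) + (II_a1 q x a) * (II_n1 q x a) ^ 2 + 2 *
    (II_a2 q x a) * (II_n0 q x a) * (II_n1 q x a) =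
      45*a*q^6*x^6 + 527*a*q^7*x^5 + 2532*a*q^8*x^4 + 6384*a*q^9*x^3 + 8896*a*q^10*x^2 +
      6480*a*q^11*x + 1920*a*q^12 + 160*a^2*q^5*x^6 + (4113/2)*a^2*q^6*x^5 +
      (21463/2)*a^2*q^7*x^4 + 29142*a^2*q^8*x^3 + 43434*a^2*q^9*x^2 + 33640*a^2*q^10*x +
      10544*a^2*q^11 + 300*a^3*q^4*x^6 + 4292*a^3*q^5*x^5 + 24603*a^3*q^6*x^4 +
      72624*a^3*q^7*x^3 + 116650*a^3*q^8*x^2 + 96664*a^3*q^9*x + 32216*a^3*q^10 +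
      325*a^4*q^3*x^6 + 5326*a^4*q^4*x^5 + 34224*a^4*q^5*x^4 + 111469*a^4*q^6*x^3 +
      195154*a^4*q^7*x^2 + 174540*a^4*q^8*x + 62269*a^4*q^9 + 205*a^5*q^2*x^6 +
      4069*a^5*q^3*x^5 + 30352*a^5*q^4*x^4 + 111676*a^5*q^5*x^3 + 216671*a^5*q^6*x^2 +
      211669*a^5*q^7*x + 81546*a^5*q^8 + 70*a^6*q*x^6 + (3765/2)*a^6*q^2*x^5 +
      17319*a^6*q^3*x^4 + 74714*a^6*q^4*x^3 + 164624*a^6*q^5*x^2 + (357261/2)*a^6*q^6*x +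
      (150371/2)*a^6*q^7 + 484*a^7*q*x^5 + (12331/2)*a^7*q^2*x^4 + 33182*a^7*q^3*x^3 +
      86214*a^7*q^4*x^2 + 106456*a^7*q^5*x + 49749*a^7*q^6 + 10*a^7*x^6 + 1246*a^8*q*x^4 +
      9399*a^8*q^2*x^3 + 30635*a^8*q^3*x^2 + 44664*a^8*q^4*x + 23720*a^8*q^5 + 53*a^8*x^5 +
      1536*a^9*q*x^3 + 7050*a^9*q^2*x^2 + 12893*a^9*q^3*x + 8062*a^9*q^4 + 109*a^9*x^4 +
      946*a^10*q*x^2 + (4861/2)*a^10*q^2*x + 1897*a^10*q^3 + 110*a^10*x^3 + 268*a^11*q*x +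
      (583/2)*a^11*q^2 + 56*a^11*x^2 + 26*a^12*q + 13*a^12*x + a^13 + 5*q^7*x^6 + 54*q^8*x^5 +
      241*q^9*x^4 + 568*q^10*x^3 + 744*q^11*x^2 + 512*q^12*x + 144*q^13 := by
    unfold II_a1 II_a2 II_b1 II_b2 II_c0 II_c1 II_d1 II_d2 II_n0 II_n1
    ring
  rw [h]
  positivity

lemma II_e5 (q x a : ℝ) (hq : 0 < q) (hx : 0 ≤ x) (ha : 0 < a) :
    0 < 
    (II_b2 q x a) * (II_d2 q x a) * (II_n1 q x a) + (II_c1 q x a) * (II_d2 q x a) ^ 2 + (II_a2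
    q x a) * (II_n1 q x a) ^ 2 := by
  have h : 
    (II_b2 q x a) * (II_d2 q x a) * (II_n1 q x a) + (II_c1 q x a) * (II_d2 q x a) ^ 2 + (II_a2
    q x a) * (II_n1 q x a) ^ 2 =
      9*a*q^6*x^5 + 97*a*q^7*x^4 + 416*a*q^8*x^3 + 888*a*q^9*x^2 + 944*a*q^10*x + 400*a*q^11 +
      32*a^2*q^5*x^5 + 378*a^2*q^6*x^4 + 1762*a^2*q^7*x^3 + 4060*a^2*q^8*x^2 + 4632*a^2*q^9*x +
      2096*a^2*q^10 + 60*a^3*q^4*x^5 + 788*a^3*q^5*x^4 + 4046*a^3*q^6*x^3 + 10186*a^3*q^7*x^2 +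
      12608*a^3*q^8*x + 6152*a^3*q^9 + 65*a^4*q^3*x^5 + 977*a^4*q^4*x^4 + 5648*a^4*q^5*x^3 +
      15808*a^4*q^6*x^2 + 21533*a^4*q^7*x + 11466*a^4*q^8 + 41*a^5*q^2*x^5 + 747*a^5*q^3*x^4 +
      5044*a^5*q^4*x^3 + 16104*a^5*q^5*x^2 + 24609*a^5*q^6*x + 14517*a^5*q^7 + 14*a^6*q*x^5 +
      347*a^6*q^2*x^4 + 2914*a^6*q^3*x^3 + 11038*a^6*q^4*x^2 + 19440*a^6*q^5*x + 12958*a^6*q^6
      + 90*a^7*q*x^4 + 1058*a^7*q^2*x^3 + 5070*a^7*q^3*x^2 + 10712*a^7*q^4*x + 8292*a^7*q^5 +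
      2*a^7*x^5 + 220*a^8*q*x^3 + 1502*a^8*q^2*x^2 + 4061*a^8*q^3*x + 3801*a^8*q^4 + 10*a^8*x^4
      + 260*a^9*q*x^2 + 1013*a^9*q^2*x + 1223*a^9*q^3 + 20*a^9*x^3 + 150*a^10*q*x +
      263*a^10*q^2 + 20*a^10*x^2 + 34*a^11*q + 10*a^11*x + 2*a^12 + q^7*x^5 + 10*q^8*x^4 +
      40*q^9*x^3 + 80*q^10*x^2 + 80*q^11*x + 32*q^12 := by
    unfold II_a2 II_b2 II_c1 II_d2 II_n1
    ring
  rw [h]
  positivity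

lemma P12_II_pos (q x w : ℝ) (hq : 0 < q) (hx : 0 ≤ x) (ha : 0 < 1 - 2 * q - x) (hw : 0 < w) :
    0 < P12 (q + x) (q ^ 2) (1 - 2 * (q + x) - (q ^ 2 - (q + x) ^ 2)) (q + x + w) (1 - (q + x)) w
      (q ^ 2 - (q + x) ^ 2) := by
  obtain ⟨a, haa⟩ : ∃ a : ℝ, a = 1 - 2 * q - x := ⟨_, rfl⟩
  rw [← haa] at ha
  unfold P12
  rw [II_eq_n q x a w haa, II_eq_d q x a w haa, II_eq_a q x a w haa, II_eq_b q x a w haa, II_eq_c q x a w haa]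
  have h0 := II_e0 q x a hq hx ha
  have h1 := II_e1 q x a hq hx ha
  have h2 := II_e2 q x a hq hx ha
  have h3 := II_e3 q x a hq hx ha
  have h4 := II_e4 q x a hq hx ha
  have h5 := II_e5 q x a hq hx ha
  have g1 := mul_nonneg h1.le (pow_nonneg hw.le 1)
  have g2 := mul_nonneg h2.le (pow_nonneg hw.le 2)
  have g3 := mul_nonneg h3.le (pow_nonneg hw.le 3)
  have g4 := mul_nonneg h4.le (pow_nonneg hw.le 4)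
  have g5 := mul_nonneg h5.le (pow_nonneg hw.le 5)
  have hsum := add_pos_of_pos_of_nonneg h0 (add_nonneg g1 (add_nonneg g2 (add_nonneg g3 (add_nonneg g4 g5))))
  refine lt_of_lt_of_eq hsum ?_
  ring

end Mocanu
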