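import Pool.Agent.Helper267_mocanu.Stmts

/-!
# Alpha-convex functions: task T10 (half planes in the image)
-/

set_option autoImplicit false

namespace Mocanu

open Complex Set Filter Topology MeasureTheory Metric

theorem t10_isClosed_Pb : IsClosed Pb := isClosed_le continuous_const Complex.continuous_re

theorem t10_isOpen_Po : IsOpen Po := isOpen_lt continuous_const Complex.continuous_re

theorem t10_Po_sub : Po ⊆ Pb := by
  intro W h
  have h' : (1:ℝ) / 2 < W.re := h
  exact h'.le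

theorem t10_segment {v₁ v₂ : ℂ} (h₁ : v₁ ∈ Pb) (h₂ : v₂ ∈ Pb) {t : ℝ} (ht : t ∈ Icc (0:ℝ) 1) :
    v₂ + (t : ℂ) * (v₁ - v₂) ∈ Pb := by
  have e : (v₂ + (t : ℂ) * (v₁ - v₂)).re = (1 - t) * v₂.re + t * v₁.re := by
    simp [Complex.add_re, Complex.mul_re]; ring
  have a1 : 1 / 2 ≤ v₁.re := h₁
  have a2 : 1 / 2 ≤ v₂.re := h₂
  show 1 / 2 ≤ (v₂ + (t : ℂ) * (v₁ - v₂)).re
  rw [e]
  nlinarith [ht.1, ht.2]

/-- lower bound for differences (Noshiro-Warschawski) -/
theorem t10_lower (κ : ℂ → ℂ) (U : Set ℂ) (hU : IsOpen U) (hPU : Pb ⊆ U) (hκ : DifferentiableOn ℂ κ U)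
    (c : ℝ) (hd : ∀ W ∈ Pb, c ≤ (deriv κ W).re) :
    ∀ v₁ ∈ Pb, ∀ v₂ ∈ Pb, c * ‖v₁ - v₂‖ ≤ ‖κ v₁ - κ v₂‖ := by
  intro v₁ h₁ v₂ h₂
  set d : ℂ := v₁ - v₂ with hdd
  set cd : ℂ := (starRingEnd ℂ) d with hcd
  rcases eq_or_ne d 0 with h0 | h0
  · rw [h0]; simp
  have hder : ∀ t ∈ Icc (0:ℝ) 1, HasDerivAt (fun t : ℝ => (κ (v₂ + (t : ℂ) * d) * cd).re)
      ((deriv κ (v₂ + (t : ℂ) * d) * d * cd).re) t := by
    intro t ht
    have hp : v₂ + (t : ℂ) * d ∈ Pb := t10_segment h₁ h₂ ht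
    have hk : HasDerivAt κ (deriv κ (v₂ + (t : ℂ) * d)) (v₂ + (t : ℂ) * d) :=
      ((hκ _ (hPU hp)).differentiableAt (hU.mem_nhds (hPU hp))).hasDerivAt
    have hl : HasDerivAt (fun t : ℝ => v₂ + (t : ℂ) * d) d t := by
      have h := ((Complex.ofRealCLM.hasDerivAt (x := t)).mul_const d).const_add v₂
      simpa using h
    have hcomp : HasDerivAt (fun t : ℝ => κ (v₂ + (t : ℂ) * d)) (deriv κ (v₂ + (t : ℂ) * d) * d) t :=
      HasDerivAt.comp t hk hl
    have h3 := hcomp.mul_const cd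
    exact (Complex.reCLM.hasFDerivAt).comp_hasDerivAt t h3
  have hval : ∀ z : ℂ, (z * d * cd).re = ‖d‖ ^ 2 * z.re := by
    intro z
    rw [mul_assoc, hcd, Complex.mul_conj, Complex.normSq_eq_norm_sq, Complex.mul_re]
    simp only [Complex.ofReal_re, Complex.ofReal_im, mul_zero, sub_zero]
    ring
  have key := Convex.mul_sub_le_image_sub_of_le_deriv (D := Icc (0:ℝ) 1) (convex_Icc 0 1)
    (f := fun t : ℝ => (κ (v₂ + (t : ℂ) * d) * cd).re)
    (fun t ht => (hder t ht).continuousAt.continuousWithinAt)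
    (fun t ht => (hder t (interior_subset ht)).differentiableAt.differentiableWithinAt)
    (C := c * ‖d‖ ^ 2)
    (fun t ht => by
      rw [(hder t (interior_subset ht)).deriv, hval]
      have := hd _ (t10_segment h₁ h₂ (interior_subset ht))
      have h2 : 0 ≤ ‖d‖ ^ 2 := by positivity
      rw [← hdd] at this
      nlinarith)
    0 (by simp) 1 (by simp) zero_le_one
  have e1 : v₂ + ((1:ℝ) : ℂ) * d = v₁ := by rw [hdd]; push_cast; ring
  have e0 : v₂ + ((0:ℝ) : ℂ) * d = v₂ := by push_cast; ring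
  simp only [e1, e0] at key
  have h4 : (κ v₁ * cd).re - (κ v₂ * cd).re ≤ ‖κ v₁ - κ v₂‖ * ‖d‖ := by
    rw [← Complex.sub_re, ← sub_mul]
    calc ((κ v₁ - κ v₂) * cd).re ≤ ‖(κ v₁ - κ v₂) * cd‖ := Complex.re_le_norm _
      _ = ‖κ v₁ - κ v₂‖ * ‖d‖ := by rw [norm_mul, hcd, Complex.norm_conj]
  have hpos : 0 < ‖d‖ := norm_pos_iff.2 h0
  have h5 : c * ‖d‖ * ‖d‖ ≤ ‖κ v₁ - κ v₂‖ * ‖d‖ := by nlinarith
  exact le_of_mul_le_mul_right h5 hpos

/-- the image of the open half plane is open -/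
theorem t10_open (κ : ℂ → ℂ) (U : Set ℂ) (hU : IsOpen U) (hPU : Pb ⊆ U) (hκ : DifferentiableOn ℂ κ U)
    (c : ℝ) (hc : 0 < c) (hd : ∀ W ∈ Pb, c ≤ (deriv κ W).re) : IsOpen (κ '' Po) := by
  rw [isOpen_iff_mem_nhds]
  rintro _ ⟨v, hv, rfl⟩
  have hvU : v ∈ U := hPU (t10_Po_sub hv)
  have hs : HasStrictDerivAt κ (deriv κ v) v := (hκ.analyticAt (hU.mem_nhds hvU)).hasStrictDerivAt
  have hne : deriv κ v ≠ 0 := by
    intro h
    have := hd v (t10_Po_sub hv)
    rw [h] at this
    simp at this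
    linarith
  rw [← hs.map_nhds_eq hne, Filter.mem_map]
  exact Filter.mem_of_superset (t10_isOpen_Po.mem_nhds hv) (subset_preimage_image κ Po)

/-- Task T10 -/
theorem t10 : T10 := by
  intro κ U hU hPU hκ c hc hd ε hε hstar v hv s hs
  have hvb : v ∈ Pb := t10_Po_sub hv
  set R : ℝ := ε * (v.re - 1 / 2) with hR
  have hRpos : 0 < R := by
    have : (1:ℝ) / 2 < v.re := hv
    exact mul_pos hε (by linarith)
  set S : Set ℂ := {s : ℂ | -R < s.re} with hS
  have hdne : deriv κ v ≠ 0 := by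
    intro h
    have := hd v hvb
    rw [h] at this
    simp at this
    linarith
  have hSconv : Convex ℝ S := convex_halfSpace_re_gt (-R)
  have hSconn : IsPreconnected ((fun s : ℂ => κ v + deriv κ v * s) '' S) :=
    hSconv.isPreconnected.image _ (by fun_prop)
  have hlow := t10_lower κ U hU hPU hκ c hd
  have hsub : (fun s : ℂ => κ v + deriv κ v * s) '' S ⊆ κ '' Po := by
    refine hSconn.subset_of_closure_inter_subset (t10_open κ U hU hPU hκ c hc hd) ?_ ?_
    · refine ⟨κ v, ⟨0, ?_, by simp⟩, ⟨v, hv, rfl⟩⟩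
      show -R < (0 : ℂ).re
      simpa using hRpos
    · rintro w ⟨hw, s', hs', hws⟩
      obtain ⟨x, hx, hxlim⟩ := mem_closure_iff_seq_limit.1 hw
      choose y hy hyx using hx
      have hcau : CauchySeq y := by
        have hcx : CauchySeq x := hxlim.cauchySeq
        rw [Metric.cauchySeq_iff] at hcx ⊢
        intro δ hδ
        obtain ⟨N, hN⟩ := hcx (c * δ) (mul_pos hc hδ)
        refine ⟨N, fun m hm n hn => ?_⟩
        have h1 := hN m hm n hn
        rw [dist_eq_norm] at h1 ⊢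
        have h2 := hlow (y m) (t10_Po_sub (hy m)) (y n) (t10_Po_sub (hy n))
        rw [hyx, hyx] at h2
        have h3 : c * ‖y m - y n‖ < c * δ := lt_of_le_of_lt h2 h1
        exact lt_of_mul_lt_mul_left h3 hc.le
      obtain ⟨z, hz⟩ := cauchySeq_tendsto_of_complete hcau
      have hzb : z ∈ Pb := t10_isClosed_Pb.mem_of_tendsto hz (Eventually.of_forall fun n => t10_Po_sub (hy n))
      have hkz : κ z = w := by
        have hcont : ContinuousAt κ z := ((hκ z (hPU hzb)).differentiableAt (hU.mem_nhds (hPU hzb))).continuousAt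
        have h1 : Tendsto (fun n => κ (y n)) atTop (𝓝 (κ z)) := hcont.tendsto.comp hz
        have h2 : Tendsto (fun n => κ (y n)) atTop (𝓝 w) := by
          simpa only [hyx] using hxlim
        exact tendsto_nhds_unique h1 h2
      have hz12 : (1:ℝ) / 2 ≤ z.re := hzb
      rcases hz12.lt_or_eq with hlt | heq
      · exact ⟨z, hlt, hkz⟩
      · exfalso
        have hbp : bp (2 * z.im) = z := by
          unfold bp
          apply Complex.ext
          · simp [Complex.add_re, Complex.mul_re]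
            linarith
          · simp [Complex.add_im, Complex.mul_im]
        have h1 := hstar v hvb (2 * z.im)
        rw [hbp, hkz, ← hws] at h1
        have h2 : (κ v - (fun s : ℂ => κ v + deriv κ v * s) s') / deriv κ v = -s' := by
          field_simp
          ring
        rw [h2, Complex.neg_re] at h1
        have h3 : -R < s'.re := hs'
        linarith
  exact hsub ⟨s, hs, rfl⟩

end Mocanu
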