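import Pool.Agent.Helper267_mocanu.Stmts

/-!
Task T11: continuation, Jack's lemma.
-/

set_option autoImplicit false

namespace Mocanu

namespace Cont

open Complex Set Filter Topology MeasureTheory Metric

lemma convex_Pb : Convex ℝ Pb := convex_halfSpace_re_ge (1 / 2)

lemma isClosed_Pb : IsClosed Pb := isClosed_le continuous_const Complex.continuous_re

lemma isOpen_Po : IsOpen Po := isOpen_lt continuous_const Complex.continuous_re

lemma Po_sub : Po ⊆ Pb := fun W hW => le_of_lt (show (1 : ℝ) / 2 < W.re from hW)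

lemma one_Po : (1 : ℂ) ∈ Po := by
  change (1 : ℝ) / 2 < (1 : ℂ).re
  norm_num

lemma hasDerivWithinAt_of_comp {f g h : ℂ → ℂ} {f' h' a : ℂ} {s : Set ℂ}
    (hst : ContinuousWithinAt g s a) (hf : HasDerivAt f f' (g a)) (hh : HasDerivWithinAt h h' s a)
    (hf' : f' ≠ 0) (hcomp : f ∘ g =ᶠ[𝓝[s] a] h) (ha : a ∈ s) :
    HasDerivWithinAt g (h' / f') s a := by
  convert! (HasFDerivWithinAt.of_comp_of_leftInverse (t := univ)
    (by rw [nhdsWithin_univ]; exact hst) hf.hasFDerivAt.hasFDerivWithinAt hh.hasFDerivWithinAt hcomp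
    (f'symm := .toSpanSingleton ℂ f'⁻¹) (fun _ ↦ by simp [hf']) ha) |>.hasDerivWithinAt using 1
  simp [div_eq_mul_inv]

section

variable {Φ : ℂ → ℂ} {U : Set ℂ} {c : ℝ}

lemma hasDerivAt' (hU : IsOpen U) (hPU : Pb ⊆ U) (hd : DifferentiableOn ℂ Φ U) {W : ℂ}
    (hW : W ∈ Pb) : HasDerivAt Φ (deriv Φ W) W :=
  (hd.differentiableAt (hU.mem_nhds (hPU hW))).hasDerivAt

lemma deriv_ne (hc : 0 < c) (hder : ∀ W ∈ Pb, c ≤ (deriv Φ W).re) {W : ℂ} (hW : W ∈ Pb) :
    deriv Φ W ≠ 0 := by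
  intro h
  have := hder W hW
  rw [h] at this
  simp at this
  linarith

lemma anti (hU : IsOpen U) (hPU : Pb ⊆ U) (hd : DifferentiableOn ℂ Φ U)
    (hder : ∀ W ∈ Pb, c ≤ (deriv Φ W).re) {p q : ℂ} (hp : p ∈ Pb) (hq : q ∈ Pb) :
    c * ‖p - q‖ ≤ ‖Φ p - Φ q‖ := by
  set d := p - q with hdd
  by_cases h0 : d = 0
  · rw [h0]; simp
  have hseg : ∀ s ∈ Icc (0 : ℝ) 1, q + s * d ∈ Pb := by
    intro s hs
    have h1 : ((1 : ℝ) - s) • q + s • p ∈ Pb :=
      convex_Pb hq hp (by linarith [hs.2]) hs.1 (by ring)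
    have h2 : ((1 : ℝ) - s) • q + s • p = q + s * d := by
      rw [hdd, Complex.real_smul, Complex.real_smul]
      push_cast
      ring
    rwa [h2] at h1
  set φ : ℝ → ℝ := fun s => ((starRingEnd ℂ) d * Φ (q + s * d)).re with hφ
  have hφd : ∀ s ∈ Icc (0 : ℝ) 1,
      HasDerivAt φ (((starRingEnd ℂ) d * (deriv Φ (q + s * d) * d)).re) s := by
    intro s hs
    have h1 : HasDerivAt (fun s : ℝ => q + (s : ℂ) * d) d s := by
      have h2 : HasDerivAt (fun s : ℝ => (s : ℂ)) 1 s := Complex.ofRealCLM.hasDerivAt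
      have h3 := (h2.mul_const d).const_add q
      simpa using h3
    have h2 : HasDerivAt (fun s : ℝ => Φ (q + (s : ℂ) * d)) (deriv Φ (q + s * d) * d) s := by
      have h2 := (hasDerivAt' hU hPU hd (hseg s hs)).scomp s h1
      rw [smul_eq_mul, mul_comm] at h2
      exact h2
    have h3 := h2.const_mul ((starRingEnd ℂ) d)
    exact (Complex.reCLM.hasFDerivAt.comp_hasDerivAt s h3)
  have hlow : ∀ s ∈ Icc (0 : ℝ) 1,
      c * ‖d‖ ^ 2 ≤ (((starRingEnd ℂ) d * (deriv Φ (q + s * d) * d)).re) := by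
    intro s hs
    have h1 : (starRingEnd ℂ) d * (deriv Φ (q + s * d) * d) =
        ((‖d‖ ^ 2 : ℝ) : ℂ) * deriv Φ (q + s * d) := by
      have h2 : (starRingEnd ℂ) d * d = ((‖d‖ ^ 2 : ℝ) : ℂ) := by
        rw [mul_comm, Complex.mul_conj, Complex.normSq_eq_norm_sq]
      rw [← h2]; ring
    rw [h1, Complex.re_ofReal_mul]
    have h3 := hder _ (hseg s hs)
    nlinarith [sq_nonneg ‖d‖]
  have hmv := (convex_Icc (0 : ℝ) 1).mul_sub_le_image_sub_of_le_deriv (f := φ) (C := c * ‖d‖ ^ 2)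
    (fun s hs => (hφd s hs).continuousAt.continuousWithinAt)
    (fun s hs => (hφd s (interior_subset hs)).differentiableAt.differentiableWithinAt)
    (fun s hs => by
      rw [(hφd s (interior_subset hs)).deriv]
      exact hlow s (interior_subset hs)) 0 (by simp) 1 (by simp) zero_le_one
  have h4 : φ 1 - φ 0 = ((starRingEnd ℂ) d * (Φ p - Φ q)).re := by
    simp only [hφ]
    rw [← Complex.sub_re, ← mul_sub]
    congr 2
    rw [hdd]
    push_cast
    congr 2 <;> ring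
  have h5 : ((starRingEnd ℂ) d * (Φ p - Φ q)).re ≤ ‖d‖ * ‖Φ p - Φ q‖ := by
    refine (Complex.re_le_norm _).trans ?_
    rw [norm_mul, RCLike.norm_conj]
  rw [h4] at hmv
  have h6 : 0 < ‖d‖ := norm_pos_iff.2 h0
  have h7 : ‖d‖ * (c * ‖d‖) ≤ ‖d‖ * ‖Φ p - Φ q‖ := by nlinarith
  exact le_of_mul_le_mul_left h7 h6

lemma injOn' (hU : IsOpen U) (hPU : Pb ⊆ U) (hd : DifferentiableOn ℂ Φ U) (hc : 0 < c)
    (hder : ∀ W ∈ Pb, c ≤ (deriv Φ W).re) : InjOn Φ Pb := by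
  intro p hp q hq h
  have := anti hU hPU hd hder hp hq
  rw [h, sub_self, norm_zero] at this
  have h1 : ‖p - q‖ ≤ 0 := by
    by_contra hcon
    push Not at hcon
    nlinarith
  exact sub_eq_zero.1 (norm_le_zero_iff.1 h1)

lemma isOpen_S (hU : IsOpen U) (hPU : Pb ⊆ U) (hd : DifferentiableOn ℂ Φ U) (hc : 0 < c)
    (hder : ∀ W ∈ Pb, c ≤ (deriv Φ W).re) : IsOpen (Φ '' Po) := by
  rw [isOpen_iff_mem_nhds]
  rintro _ ⟨p, hp, rfl⟩
  have h1 : HasStrictDerivAt Φ (deriv Φ p) p :=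
    ((hd.analyticAt (hU.mem_nhds (hPU (Po_sub hp)))).hasStrictDerivAt)
  rw [← h1.map_nhds_eq (deriv_ne hc hder (Po_sub hp))]
  exact image_mem_map (isOpen_Po.mem_nhds hp)

lemma closure_sub (hU : IsOpen U) (hPU : Pb ⊆ U) (hd : DifferentiableOn ℂ Φ U) (hc : 0 < c)
    (hder : ∀ W ∈ Pb, c ≤ (deriv Φ W).re) : closure (Φ '' Pb) ⊆ Φ '' Pb := by
  intro y hy
  set M : ℝ := (‖y - Φ 1‖ + 1) / c with hM
  have hK : IsCompact (Pb ∩ closedBall (1 : ℂ) M) :=
    (isCompact_closedBall _ _).inter_left isClosed_Pb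
  have hF : IsClosed (Φ '' (Pb ∩ closedBall (1 : ℂ) M)) :=
    (hK.image_of_continuousOn (hd.continuousOn.mono
      (inter_subset_left.trans hPU))).isClosed
  have h1 : ball y 1 ∩ Φ '' Pb ⊆ Φ '' (Pb ∩ closedBall (1 : ℂ) M) := by
    rintro _ ⟨hb, p, hp, rfl⟩
    refine ⟨p, ⟨hp, ?_⟩, rfl⟩
    rw [mem_closedBall, dist_eq_norm, hM, le_div_iff₀ hc, mul_comm]
    refine (anti hU hPU hd hder hp (Po_sub one_Po)).trans ?_
    rw [mem_ball, dist_eq_norm] at hb
    calc ‖Φ p - Φ 1‖ = ‖(Φ p - y) + (y - Φ 1)‖ := by congr 1; ring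
      _ ≤ ‖Φ p - y‖ + ‖y - Φ 1‖ := norm_add_le _ _
      _ ≤ ‖y - Φ 1‖ + 1 := by linarith
  have h2 : y ∈ closure (ball y 1 ∩ Φ '' Pb) :=
    isOpen_ball.inter_closure ⟨mem_ball_self one_pos, hy⟩
  have h3 := closure_minimal h1 hF h2
  obtain ⟨p, hp, hpy⟩ := h3
  exact ⟨p, hp.1, hpy⟩

/-- the inverse function -/
noncomputable def gi (Φ : ℂ → ℂ) : ℂ → ℂ := Function.invFunOn Φ Pb

lemma gi_mem {y : ℂ} (hy : y ∈ Φ '' Pb) : gi Φ y ∈ Pb := by
  obtain ⟨p, hp, rfl⟩ := hy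
  exact Function.invFunOn_mem ⟨p, hp, rfl⟩

lemma gi_eq {y : ℂ} (hy : y ∈ Φ '' Pb) : Φ (gi Φ y) = y := by
  obtain ⟨p, hp, rfl⟩ := hy
  exact Function.invFunOn_eq ⟨p, hp, rfl⟩

lemma gi_of (hU : IsOpen U) (hPU : Pb ⊆ U) (hd : DifferentiableOn ℂ Φ U) (hc : 0 < c)
    (hder : ∀ W ∈ Pb, c ≤ (deriv Φ W).re) {p : ℂ} (hp : p ∈ Pb) : gi Φ (Φ p) = p :=
  injOn' hU hPU hd hc hder (gi_mem ⟨p, hp, rfl⟩) hp (gi_eq ⟨p, hp, rfl⟩)

lemma gi_Po (hU : IsOpen U) (hPU : Pb ⊆ U) (hd : DifferentiableOn ℂ Φ U) (hc : 0 < c)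
    (hder : ∀ W ∈ Pb, c ≤ (deriv Φ W).re) {y : ℂ} (hy : y ∈ Φ '' Po) : gi Φ y ∈ Po := by
  obtain ⟨p, hp, rfl⟩ := hy
  rw [gi_of hU hPU hd hc hder (Po_sub hp)]
  exact hp

lemma gi_lip (hU : IsOpen U) (hPU : Pb ⊆ U) (hd : DifferentiableOn ℂ Φ U)
    (hder : ∀ W ∈ Pb, c ≤ (deriv Φ W).re) {y y' : ℂ} (hy : y ∈ Φ '' Pb) (hy' : y' ∈ Φ '' Pb) :
    c * ‖gi Φ y - gi Φ y'‖ ≤ ‖y - y'‖ := by
  have := anti hU hPU hd hder (gi_mem hy) (gi_mem hy')
  rwa [gi_eq hy, gi_eq hy'] at this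

/-- continuity of `gi ∘ u` -/
lemma V_cont (hU : IsOpen U) (hPU : Pb ⊆ U) (hd : DifferentiableOn ℂ Φ U) (hc : 0 < c)
    (hder : ∀ W ∈ Pb, c ≤ (deriv Φ W).re) {u : ℂ → ℂ} {K : Set ℂ}
    (hK : ∀ z ∈ K, u z ∈ Φ '' Pb) {z₀ : ℂ} (hz₀ : z₀ ∈ K) (hu : ContinuousWithinAt u K z₀) :
    ContinuousWithinAt (fun z => gi Φ (u z)) K z₀ := by
  rw [Metric.continuousWithinAt_iff] at hu ⊢
  intro ε hε
  obtain ⟨δ, hδ, h⟩ := hu (c * ε) (by positivity)
  refine ⟨δ, hδ, fun z hz hzd => ?_⟩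
  have h1 := h hz hzd
  have h2 := gi_lip hU hPU hd hder (hK z hz) (hK z₀ hz₀)
  rw [dist_eq_norm] at h1 ⊢
  have h3 : c * ‖gi Φ (u z) - gi Φ (u z₀)‖ < c * ε := lt_of_le_of_lt h2 h1
  exact lt_of_mul_lt_mul_left h3 hc.le

lemma V_deriv (hU : IsOpen U) (hPU : Pb ⊆ U) (hd : DifferentiableOn ℂ Φ U) (hc : 0 < c)
    (hder : ∀ W ∈ Pb, c ≤ (deriv Φ W).re) {u : ℂ → ℂ} {K : Set ℂ}
    (hK : ∀ z ∈ K, u z ∈ Φ '' Pb) {z₀ : ℂ} (hz₀ : z₀ ∈ K) {u1 : ℂ}
    (hu : HasDerivWithinAt u u1 K z₀) :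
    HasDerivWithinAt (fun z => gi Φ (u z)) (u1 / deriv Φ (gi Φ (u z₀))) K z₀ := by
  refine hasDerivWithinAt_of_comp (f := Φ) (h := u)
    (V_cont hU hPU hd hc hder hK hz₀ hu.continuousWithinAt)
    (hasDerivAt' hU hPU hd (gi_mem (hK z₀ hz₀))) hu (deriv_ne hc hder (gi_mem (hK z₀ hz₀))) ?_ hz₀
  filter_upwards [self_mem_nhdsWithin] with z hz
  exact gi_eq (hK z hz)

end

/-- `(V - 1)/V` -/
lemma norm_w_le {V : ℂ} (hV : V ∈ Pb) : ‖(V - 1) / V‖ ≤ 1 := by
  have hV' : (1 : ℝ) / 2 ≤ V.re := hV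
  have hne : V ≠ 0 := by
    rintro rfl
    simp at hV'
    linarith
  rw [norm_div, div_le_one (norm_pos_iff.2 hne)]
  rw [← sq_le_sq₀ (norm_nonneg _) (norm_nonneg _), ← Complex.normSq_eq_norm_sq,
    ← Complex.normSq_eq_norm_sq, Complex.normSq_apply, Complex.normSq_apply]
  simp only [Complex.sub_re, Complex.one_re, Complex.sub_im, Complex.one_im]
  nlinarith

lemma norm_w_eq {V : ℂ} (hV : V.re = 1 / 2) : ‖(V - 1) / V‖ = 1 := by
  have hne : V ≠ 0 := by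
    rintro rfl
    simp at hV
  rw [norm_div, div_eq_one_iff_eq (norm_ne_zero_iff.2 hne)]
  rw [← sq_eq_sq₀ (norm_nonneg _) (norm_nonneg _), ← Complex.normSq_eq_norm_sq,
    ← Complex.normSq_eq_norm_sq, Complex.normSq_apply, Complex.normSq_apply]
  simp only [Complex.sub_re, Complex.one_re, Complex.sub_im, Complex.one_im, hV]
  ring

/-- Jack's lemma, with one sided derivatives. -/
lemma jack {w : ℂ → ℂ} {r : ℝ} {z₀ w₁ : ℂ} (hr : 0 < r) (hz₀ : ‖z₀‖ = r)
    (hw : ∀ z ∈ closedBall (0 : ℂ) r, ‖w z‖ ≤ ‖z‖ / r) (hw0 : ‖w z₀‖ = 1)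
    (hd : HasDerivWithinAt w w₁ (closedBall 0 r) z₀) :
    ((starRingEnd ℂ) (w z₀) * (w₁ * z₀)).im = 0 ∧
      1 ≤ ((starRingEnd ℂ) (w z₀) * (w₁ * z₀)).re := by
  have hz₀m : z₀ ∈ closedBall (0 : ℂ) r := by rw [mem_closedBall_zero_iff, hz₀]
  constructor
  · -- tangential
    set γ : ℝ → ℂ := fun θ => z₀ * Complex.exp (θ * I) with hγ
    have hγ0 : γ 0 = z₀ := by simp [hγ]
    have hγn : ∀ θ, ‖γ θ‖ = r := by
      intro θ
      rw [hγ]
      simp only [norm_mul, Complex.norm_exp_ofReal_mul_I, mul_one, hz₀]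
    have hγd : HasDerivAt γ (z₀ * I) 0 := by
      have h1 : HasDerivAt (fun θ : ℝ => (θ : ℂ) * I) I 0 := by
        have h2 : HasDerivAt (fun s : ℝ => (s : ℂ)) 1 (0 : ℝ) := Complex.ofRealCLM.hasDerivAt
        simpa using h2.mul_const I
      have h2 := h1.cexp.const_mul z₀
      simpa using h2
    have hcomp : HasDerivAt (w ∘ γ) ((z₀ * I) • w₁) 0 := by
      refine HasDerivWithinAt.scomp_hasDerivAt_of_eq 0 hd hγd (fun θ => ?_) hγ0.symm
      rw [mem_closedBall_zero_iff, hγn]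
    have hsq : HasDerivAt (fun θ : ℝ => ‖w (γ θ)‖ ^ 2)
        (2 * ((starRingEnd ℂ) (w z₀) * ((z₀ * I) * w₁)).re) 0 := by
      have h1 := hcomp.norm_sq
      convert! h1 using 1
      rw [Function.comp_apply, hγ0, Complex.inner]
      simp [smul_eq_mul]
      ring
    have hmax : IsLocalMax (fun θ : ℝ => ‖w (γ θ)‖ ^ 2) 0 := by
      refine Filter.Eventually.of_forall fun θ => ?_
      have h1 : ‖w (γ θ)‖ ≤ 1 := by
        have := hw (γ θ) (by rw [mem_closedBall_zero_iff, hγn])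
        rwa [hγn, div_self hr.ne'] at this
      simp only [hγ0, hw0]
      have h2 := norm_nonneg (w (γ θ))
      nlinarith
    have h3 := hmax.hasDerivAt_eq_zero hsq
    have h4 : (starRingEnd ℂ) (w z₀) * ((z₀ * I) * w₁) =
        ((starRingEnd ℂ) (w z₀) * (w₁ * z₀)) * I := by ring
    rw [h4, Complex.mul_I_re] at h3
    linarith
  · -- radial
    set γ : ℝ → ℂ := fun s => (s : ℂ) * z₀ with hγ
    have hγ1 : γ 1 = z₀ := by simp [hγ]
    have hγd : HasDerivWithinAt γ z₀ (Icc 0 1) 1 := by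
      have h2 : HasDerivAt (fun s : ℝ => (s : ℂ)) 1 (1 : ℝ) := Complex.ofRealCLM.hasDerivAt
      simpa using (h2.mul_const z₀).hasDerivWithinAt
    have hmaps : MapsTo γ (Icc 0 1) (closedBall 0 r) := by
      intro s hs
      rw [mem_closedBall_zero_iff, hγ]
      simp only [norm_mul, Complex.norm_real, Real.norm_eq_abs, hz₀, abs_of_nonneg hs.1]
      nlinarith [hs.2]
    have hcomp : HasDerivWithinAt (w ∘ γ) (z₀ • w₁) (Icc 0 1) 1 :=
      HasDerivWithinAt.scomp_of_eq 1 hd hγd hmaps hγ1.symm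
    have hsq : HasDerivWithinAt (fun s : ℝ => ‖w (γ s)‖ ^ 2 - s ^ 2)
        (2 * ((starRingEnd ℂ) (w z₀) * (z₀ * w₁)).re - 2) (Icc 0 1) 1 := by
      have h1 := hcomp.norm_sq
      have h2 : HasDerivWithinAt (fun s : ℝ => s ^ 2) 2 (Icc 0 1) 1 := by
        simpa using (hasDerivAt_pow 2 (1 : ℝ)).hasDerivWithinAt
      refine HasDerivWithinAt.sub ?_ h2
      convert! h1 using 1
      rw [Function.comp_apply, hγ1, Complex.inner]
      simp [smul_eq_mul]
      ring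
    have hle : ∀ s ∈ Icc (0 : ℝ) 1, ‖w (γ s)‖ ^ 2 - s ^ 2 ≤ 0 := by
      intro s hs
      have h1 := hw (γ s) (hmaps hs)
      have h2 : ‖γ s‖ / r = s := by
        simp only [hγ, norm_mul, Complex.norm_real, Real.norm_eq_abs, hz₀, abs_of_nonneg hs.1]
        field_simp
      rw [h2] at h1
      have h3 := norm_nonneg (w (γ s))
      nlinarith
    have heq : ‖w (γ 1)‖ ^ 2 - (1 : ℝ) ^ 2 = 0 := by rw [hγ1, hw0]; norm_num
    -- the slope from the left is nonnegative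
    have hslope : 0 ≤ 2 * ((starRingEnd ℂ) (w z₀) * (z₀ * w₁)).re - 2 := by
      rw [hasDerivWithinAt_iff_tendsto_slope] at hsq
      have hne : (𝓝[Icc (0 : ℝ) 1 \ {1}] 1).NeBot := by
        have h1 : Ico (0 : ℝ) 1 ⊆ Icc (0 : ℝ) 1 \ {1} := by
          intro s hs
          exact ⟨⟨hs.1, hs.2.le⟩, fun h => by
            rw [mem_singleton_iff] at h
            linarith [hs.2]⟩
        have h2 : (𝓝[Ico (0 : ℝ) 1] 1).NeBot := by
          rw [nhdsWithin_Ico_eq_nhdsLT (by norm_num : (0 : ℝ) < 1)]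
          infer_instance
        exact h2.mono (nhdsWithin_mono _ h1)
      refine ge_of_tendsto hsq ?_
      filter_upwards [self_mem_nhdsWithin] with s hs
      rw [slope_def_field]
      have h1 := hle s hs.1
      have h2 : s < 1 := lt_of_le_of_ne hs.1.2 hs.2
      rw [heq]
      exact div_nonneg_of_nonpos (by linarith) (by linarith)
    have h4 : (starRingEnd ℂ) (w z₀) * (z₀ * w₁) = (starRingEnd ℂ) (w z₀) * (w₁ * z₀) := by ring
    rw [h4] at hslope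
    linarith

end Cont

open Cont Complex Set Filter Topology MeasureTheory Metric in
theorem t11 : T11 := by
  intro Φ U hU hPU hd c hc hder u hu hu0 hno
  have hS := isOpen_S hU hPU hd hc hder
  have hsub : Φ '' Po ⊆ Φ '' Pb := image_mono Po_sub
  have hall : ∀ z ∈ ball (0 : ℂ) 1, u z ∈ Φ '' Po := by
    by_contra hcon
    push Not at hcon
    obtain ⟨z1, hz1, hz1'⟩ := hcon
    have hz1n : ‖z1‖ < 1 := by simpa using hz1
    have hcb : ∀ r : ℝ, r < 1 → closedBall (0 : ℂ) r ⊆ ball 0 1 := fun r hr =>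
      closedBall_subset_ball hr
    have hKc : IsClosed (closedBall (0 : ℂ) ‖z1‖ ∩ u ⁻¹' (Φ '' Po)ᶜ) :=
      (hu.continuousOn.mono (hcb _ hz1n)).preimage_isClosed_of_isClosed isClosed_closedBall
        hS.isClosed_compl
    have hK : IsCompact (closedBall (0 : ℂ) ‖z1‖ ∩ u ⁻¹' (Φ '' Po)ᶜ) :=
      (isCompact_closedBall _ _).of_isClosed_subset hKc inter_subset_left
    obtain ⟨z₀, ⟨hz₀b, hz₀S⟩, hmin⟩ := hK.exists_isMinOn
      ⟨z1, by simp, hz1'⟩ (continuous_norm.continuousOn)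
    have hz₀S' : u z₀ ∉ Φ '' Po := hz₀S
    set r : ℝ := ‖z₀‖ with hr
    have hr1 : r < 1 := lt_of_le_of_lt (by simpa using hz₀b) hz1n
    have hz₀0 : z₀ ≠ 0 := by
      rintro rfl
      apply hz₀S'
      rw [hu0]
      exact ⟨1, one_Po, rfl⟩
    have hr0 : 0 < r := norm_pos_iff.2 hz₀0
    have hz₀ball : z₀ ∈ ball (0 : ℂ) 1 := by simpa using hr1
    have hgood : ∀ z ∈ ball (0 : ℂ) r, u z ∈ Φ '' Po := by
      intro z hz
      rw [mem_ball_zero_iff] at hz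
      by_contra hcon
      have h1 : z ∈ closedBall (0 : ℂ) ‖z1‖ ∩ u ⁻¹' (Φ '' Po)ᶜ := by
        refine ⟨?_, hcon⟩
        rw [mem_closedBall_zero_iff]
        rw [mem_closedBall_zero_iff] at hz₀b
        linarith
      have h2 : ‖z₀‖ ≤ ‖z‖ := hmin h1
      linarith
    have hclosed : ∀ z ∈ closedBall (0 : ℂ) r, u z ∈ Φ '' Pb := by
      intro z hz
      apply closure_sub hU hPU hd hc hder
      have h1 : closure (ball (0 : ℂ) r) = closedBall 0 r := closure_ball 0 hr0.ne'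
      have h2 : ContinuousOn u (closure (ball (0 : ℂ) r)) := by
        rw [h1]
        exact hu.continuousOn.mono (hcb r hr1)
      have h3 := h2.image_closure ⟨z, by rw [h1]; exact hz, rfl⟩
      refine closure_mono ?_ h3
      rintro _ ⟨z', hz', rfl⟩
      exact hsub (hgood z' hz')
    set V : ℂ → ℂ := fun z => gi Φ (u z) with hV
    have hz₀c : z₀ ∈ closedBall (0 : ℂ) r := by rw [mem_closedBall_zero_iff]
    have hVPb : ∀ z ∈ closedBall (0 : ℂ) r, V z ∈ Pb := fun z hz => gi_mem (hclosed z hz)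
    have hVne : ∀ z ∈ closedBall (0 : ℂ) r, V z ≠ 0 := by
      intro z hz h0
      have h1 : (1 : ℝ) / 2 ≤ (V z).re := hVPb z hz
      rw [h0] at h1
      norm_num at h1
    have hV0 : V 0 = 1 := by
      rw [hV]
      simp only
      rw [hu0]
      exact gi_of hU hPU hd hc hder (Po_sub one_Po)
    have huV : u z₀ = Φ (V z₀) := (gi_eq (hclosed z₀ hz₀c)).symm
    have hVre : (V z₀).re = 1 / 2 := by
      apply le_antisymm _ (hVPb z₀ hz₀c)
      by_contra hcon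
      push Not at hcon
      apply hz₀S'
      rw [huV]
      exact ⟨V z₀, hcon, rfl⟩
    have hbp : bp (2 * (V z₀).im) = V z₀ := by
      apply Complex.ext
      · rw [bp, hVre]
        simp
      · rw [bp]
        simp
    have huz₀ : HasDerivAt u (deriv u z₀) z₀ :=
      (hu.differentiableAt (isOpen_ball.mem_nhds hz₀ball)).hasDerivAt
    have hVd := V_deriv hU hPU hd hc hder hclosed hz₀c
      (huz₀.hasDerivWithinAt (s := closedBall (0 : ℂ) r))
    change HasDerivWithinAt V (deriv u z₀ / deriv Φ (V z₀)) (closedBall 0 r) z₀ at hVd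
    set V1 : ℂ := deriv u z₀ / deriv Φ (V z₀) with hV1
    have hΦne : deriv Φ (V z₀) ≠ 0 := deriv_ne hc hder (hVPb z₀ hz₀c)
    set w : ℂ → ℂ := fun z => (V z - 1) / V z with hw
    have hwd : HasDerivWithinAt w (V1 / (V z₀) ^ 2) (closedBall 0 r) z₀ := by
      have h1 := (hVd.sub_const 1).div hVd (hVne z₀ hz₀c)
      convert! h1 using 1
      ring
    have hwdiff : DifferentiableOn ℂ w (ball 0 r) := by
      have h1 : DifferentiableOn ℂ V (ball 0 r) := by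
        intro z hz
        have h2 : HasDerivAt u (deriv u z) z :=
          (hu.differentiableAt (isOpen_ball.mem_nhds (hcb r hr1 (ball_subset_closedBall hz)))).hasDerivAt
        exact (V_deriv hU hPU hd hc hder (K := ball 0 r)
          (fun z hz => hclosed z (ball_subset_closedBall hz)) hz
          h2.hasDerivWithinAt).differentiableWithinAt
      exact (h1.sub_const 1).div h1 fun z hz => hVne z (ball_subset_closedBall hz)
    have hw0 : w 0 = 0 := by simp [hw, hV0]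
    have hwle : ∀ z ∈ closedBall (0 : ℂ) r, ‖w z‖ ≤ 1 := fun z hz => norm_w_le (hVPb z hz)
    have hschwarz : ∀ z ∈ closedBall (0 : ℂ) r, ‖w z‖ ≤ ‖z‖ / r := by
      intro z hz
      rcases (mem_closedBall_zero_iff.1 hz).lt_or_eq with h | h
      · have h1 := Complex.dist_le_div_mul_dist_of_mapsTo_ball (R₂ := 1) hwdiff
          (fun z hz => by
            rw [hw0, mem_closedBall_zero_iff]
            exact hwle z (ball_subset_closedBall hz)) (mem_ball_zero_iff.2 h)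
        rw [hw0, dist_zero_right, dist_zero_right] at h1
        calc ‖w z‖ ≤ 1 / r * ‖z‖ := h1
          _ = ‖z‖ / r := by ring
      · rw [h, div_self hr0.ne']
        exact hwle z hz
    have hw1 : ‖w z₀‖ = 1 := norm_w_eq hVre
    obtain ⟨him, hre⟩ := jack hr0 hr.symm hschwarz hw1 hwd
    set T : ℝ := ((starRingEnd ℂ) (w z₀) * (V1 / (V z₀) ^ 2 * z₀)).re with hT
    have hTeq : (starRingEnd ℂ) (w z₀) * (V1 / (V z₀) ^ 2 * z₀) = (T : ℂ) := by
      apply Complex.ext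
      · rw [Complex.ofReal_re]
      · rw [Complex.ofReal_im, him]
    have hww : w z₀ * (starRingEnd ℂ) (w z₀) = 1 := by
      rw [Complex.mul_conj, Complex.normSq_eq_norm_sq, hw1]
      norm_num
    have hfin : V1 / (V z₀) ^ 2 * z₀ = (T : ℂ) * w z₀ := by
      calc V1 / (V z₀) ^ 2 * z₀ = (w z₀ * (starRingEnd ℂ) (w z₀)) * (V1 / (V z₀) ^ 2 * z₀) := by
            rw [hww, one_mul]
        _ = ((starRingEnd ℂ) (w z₀) * (V1 / (V z₀) ^ 2 * z₀)) * w z₀ := by ring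
        _ = (T : ℂ) * w z₀ := by rw [hTeq]
    refine hno z₀ hz₀ball hz₀0 (2 * (V z₀).im) T hre ?_ ?_
    · rw [hbp, huV]
    · rw [hbp]
      have hVz := hVne z₀ hz₀c
      have h1 : w z₀ = (V z₀ - 1) / V z₀ := rfl
      rw [h1, hV1] at hfin
      field_simp at hfin
      linear_combination hfin
  refine ⟨fun z => gi Φ (u z), ?_, ?_, fun z hz => gi_Po hU hPU hd hc hder (hall z hz),
    fun z hz => (gi_eq (hsub (hall z hz))).symm⟩
  · intro z hz
    exact (V_deriv hU hPU hd hc hder (K := ball 0 1) (fun z hz => hsub (hall z hz)) hz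
      ((hu.differentiableAt (isOpen_ball.mem_nhds hz)).hasDerivAt.hasDerivWithinAt)).differentiableWithinAt
  · simp only
    rw [hu0]
    exact gi_of hU hPU hd hc hder (Po_sub one_Po)

end Mocanu
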