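import Pool.Agent.Helper267_mocanu.Stmts

/-! Task T12: starlikeness in the log-plane. -/

set_option autoImplicit false

namespace Mocanu

open Complex Set Filter Topology MeasureTheory Metric

lemma t12_ne_zero {W : ℂ} (hW : W ∈ Pb) : W ≠ 0 := by
  rintro rfl
  simp only [Pb, mem_ofPred_eq, zero_re] at hW
  norm_num at hW

lemma t12_bp_mem (t : ℝ) : bp t ∈ Pb := by
  simp only [Pb, mem_ofPred_eq, bp]
  simp

lemma t12_bp_re (t : ℝ) : (bp t).re = 1 / 2 := by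
  simp [bp]

/-- `|W - 1| ≤ |W|` on `Pb` -/
lemma t12_norm_le {W : ℂ} (hW : 1 / 2 < W.re) : ‖(W - 1) / W‖ < 1 := by
  have h0 : W ≠ 0 := t12_ne_zero (by simp only [Pb, mem_ofPred_eq]; exact hW.le)
  have h1 : 0 < ‖W‖ := norm_pos_iff.mpr h0
  rw [norm_div, div_lt_one h1]
  have h2 : ‖W - 1‖ ^ 2 < ‖W‖ ^ 2 := by
    rw [← normSq_eq_norm_sq, ← normSq_eq_norm_sq, normSq_apply, normSq_apply]
    simp only [sub_re, sub_im, one_re, one_im]
    nlinarith
  exact lt_of_pow_lt_pow_left₀ 2 h1.le h2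

lemma t12_norm_eq (t : ℝ) : ‖(bp t - 1) / bp t‖ = 1 := by
  have h0 : bp t ≠ 0 := t12_ne_zero (t12_bp_mem t)
  have h1 : 0 < ‖bp t‖ := norm_pos_iff.mpr h0
  rw [norm_div, div_eq_one_iff_eq h1.ne']
  have h2 : ‖bp t - 1‖ ^ 2 = ‖bp t‖ ^ 2 := by
    rw [← normSq_eq_norm_sq, ← normSq_eq_norm_sq, normSq_apply, normSq_apply]
    simp only [sub_re, sub_im, one_re, one_im, t12_bp_re]
    ring
  exact (pow_left_inj₀ (norm_nonneg _) (norm_nonneg _) two_ne_zero).mp h2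

/-- `1/(1-z)` is in `Pb` for `|z| ≤ 1`, `z ≠ 1` -/
lemma t12_inv_mem {z : ℂ} (hz : ‖z‖ ≤ 1) (h1 : z ≠ 1) : 1 / (1 - z) ∈ Pb := by
  have h2 : (1 - z) ≠ 0 := sub_ne_zero.mpr (Ne.symm h1)
  have h3 : 0 < normSq (1 - z) := normSq_pos.mpr h2
  simp only [Pb, mem_ofPred_eq, one_div, inv_re]
  rw [le_div_iff₀ h3]
  have h4 : normSq z ≤ 1 := by
    rw [normSq_eq_norm_sq]
    exact pow_le_one₀ (norm_nonneg _) hz
  rw [normSq_apply] at h4 ⊢
  simp only [sub_re, sub_im, one_re, one_im] at *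
  nlinarith

/-- the function in the log-plane -/
noncomputable def t12L (l : ℂ → ℂ) (s : ℂ) : ℂ := s + l (1 / (1 - exp s))

lemma t12_deriv {l : ℂ → ℂ} {U : Set ℂ} (hU : IsOpen U) (hPU : Pb ⊆ U)
    (hl : DifferentiableOn ℂ l U) {s : ℂ} (hs : s.re ≤ 0) (h1 : exp s ≠ 1) :
    HasDerivAt (t12L l)
      (1 + (1 / (1 - exp s)) * ((1 / (1 - exp s)) - 1) * deriv l (1 / (1 - exp s))) s := by
  have hn : ‖exp s‖ ≤ 1 := by
    rw [norm_exp]
    exact Real.exp_le_one_iff.mpr hs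
  have hm := t12_inv_mem hn h1
  have h2 : (1 - exp s) ≠ 0 := sub_ne_zero.mpr (Ne.symm h1)
  have hd : HasDerivAt l (deriv l (1 / (1 - exp s))) (1 / (1 - exp s)) :=
    (hl.differentiableAt (hU.mem_nhds (hPU hm))).hasDerivAt
  have h3 : HasDerivAt (fun s => 1 / (1 - exp s)) (exp s / (1 - exp s) ^ 2) s := by
    have h4 : HasDerivAt (fun s : ℂ => 1 - exp s) (-exp s) s := by
      simpa using (hasDerivAt_exp s).const_sub 1
    have h5 := h4.inv h2
    simp only [neg_neg] at h5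
    have h6 : (fun s : ℂ => 1 / (1 - exp s)) = (fun s : ℂ => 1 - exp s)⁻¹ := by
      funext w
      simp
    rw [h6]
    exact h5
  have h7 := (hasDerivAt_id s).add (hd.comp s h3)
  refine h7.congr_deriv ?_
  field_simp
  ring

theorem t12 : T12 := by
  intro l U hU hPU hl hpos V₂ hV₂ t T hT heq
  have hV₂' : 1 / 2 < V₂.re := hV₂
  have hb0 : bp t ≠ 0 := t12_ne_zero (t12_bp_mem t)
  have hV0 : V₂ ≠ 0 := t12_ne_zero (by simp only [Pb, mem_ofPred_eq]; exact hV₂'.le)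
  obtain ⟨z₁, hz₁⟩ : ∃ z₁, z₁ = (bp t - 1) / bp t := ⟨_, rfl⟩
  obtain ⟨z₂, hz₂⟩ : ∃ z₂, z₂ = (V₂ - 1) / V₂ := ⟨_, rfl⟩
  have hn1 : ‖z₁‖ = 1 := by rw [hz₁]; exact t12_norm_eq t
  have hn2 : ‖z₂‖ < 1 := by rw [hz₂]; exact t12_norm_le hV₂'
  have hT0 : (0 : ℝ) < T := by linarith
  have hT0' : (T : ℂ) ≠ 0 := by exact_mod_cast hT0.ne'
  have h1z1 : z₁ ≠ 0 := by
    intro h
    rw [h, norm_zero] at hn1
    norm_num at hn1
  rw [← hz₁, ← hz₂] at heq
  have h1z2 : z₂ ≠ 0 := by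
    intro h
    rw [h, mul_zero] at heq
    exact mul_ne_zero hT0' (mul_ne_zero (exp_ne_zero _) h1z1) heq.symm
  have hW1 : 1 / (1 - z₁) = bp t := by
    rw [hz₁]
    field_simp
    ring
  have hW2 : 1 / (1 - z₂) = V₂ := by
    rw [hz₂]
    field_simp
    ring
  have hz1ne : z₁ ≠ 1 := by
    intro h
    rw [h] at hW1
    simp only [sub_self, div_zero] at hW1
    exact hb0 hW1.symm
  -- logarithms
  have he : exp (l V₂ + log z₂) = exp (((Real.log T : ℝ) : ℂ) + l (bp t) + log z₁) := by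
    rw [exp_add, exp_add, exp_add, exp_log h1z1, exp_log h1z2, heq, ← ofReal_exp,
      Real.exp_log hT0]
    ring
  obtain ⟨k, hk⟩ := Complex.exp_eq_exp_iff_exists_int.mp he
  obtain ⟨s₁, hs₁⟩ : ∃ s₁, s₁ = log z₁ := ⟨_, rfl⟩
  obtain ⟨s₂, hs₂⟩ : ∃ s₂, s₂ = log z₂ - k * (2 * Real.pi * I) := ⟨_, rfl⟩
  have hes1 : exp s₁ = z₁ := by rw [hs₁, exp_log h1z1]
  have hes2 : exp s₂ = z₂ := by
    rw [hs₂, exp_sub, exp_log h1z2, exp_int_mul_two_pi_mul_I, div_one]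
  have hre1 : s₁.re = 0 := by
    rw [hs₁, log_re, hn1, Real.log_one]
  have hre2 : s₂.re < 0 := by
    rw [hs₂, sub_re, log_re]
    have h5 : ((k : ℂ) * (2 * Real.pi * I)).re = 0 := by simp
    rw [h5, sub_zero]
    exact Real.log_neg (norm_pos_iff.mpr h1z2) hn2
  have hL1 : t12L l s₁ = s₁ + l (bp t) := by rw [t12L, hes1, hW1]
  have hL2 : t12L l s₂ = s₂ + l V₂ := by rw [t12L, hes2, hW2]
  have hLL : t12L l s₂ - t12L l s₁ = ((Real.log T : ℝ) : ℂ) := by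
    rw [hL1, hL2, hs₂, hs₁]
    linear_combination hk
  obtain ⟨δ, hδ⟩ : ∃ δ, δ = s₂ - s₁ := ⟨_, rfl⟩
  have hδre : δ.re < 0 := by
    rw [hδ, sub_re, hre1]
    linarith
  have hδ0 : δ ≠ 0 := by
    intro h
    rw [h, zero_re] at hδre
    exact lt_irrefl _ hδre
  -- the real function
  have hline : ∀ τ : ℝ, 0 ≤ τ → (s₁ + τ * δ).re ≤ 0 ∧ exp (s₁ + τ * δ) ≠ 1 := by
    intro τ hτ
    have h6 : (s₁ + τ * δ).re = τ * δ.re := by
      rw [add_re, hre1, re_ofReal_mul, zero_add]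
    constructor
    · rw [h6]
      exact mul_nonpos_of_nonneg_of_nonpos hτ hδre.le
    · rcases hτ.eq_or_lt with h | h
      · rw [← h]
        simp only [ofReal_zero, zero_mul, add_zero]
        rw [hes1]
        exact hz1ne
      · intro h7
        have h8 : ‖exp (s₁ + τ * δ)‖ = 1 := by rw [h7, norm_one]
        rw [norm_exp, h6, Real.exp_eq_one_iff] at h8
        have : τ * δ.re < 0 := mul_neg_of_pos_of_neg h hδre
        linarith
  obtain ⟨h, hh⟩ : ∃ h : ℝ → ℝ, h = fun τ : ℝ => (t12L l (s₁ + τ * δ) / δ).re := ⟨_, rfl⟩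
  have hderiv : ∀ τ : ℝ, 0 ≤ τ → ∃ d : ℝ, 0 < d ∧ HasDerivAt h d τ := by
    intro τ hτ
    obtain ⟨h8, h9⟩ := hline τ hτ
    have h10 := t12_deriv hU hPU hl h8 h9
    have hn : ‖exp (s₁ + τ * δ)‖ ≤ 1 := by
      rw [norm_exp]
      exact Real.exp_le_one_iff.mpr h8
    have h11 := hpos _ (t12_inv_mem hn h9)
    refine ⟨_, h11, ?_⟩
    have h12 : HasDerivAt (fun τ : ℝ => s₁ + (τ : ℂ) * δ) δ τ := by
      have := ((hasDerivAt_id τ).ofReal_comp.mul_const δ).const_add s₁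
      simpa using this
    have h13 := (HasDerivAt.comp τ h10 h12).div_const δ
    rw [mul_div_cancel_right₀ _ hδ0] at h13
    have h14 := (Complex.reCLM.hasFDerivAt (x := t12L l (s₁ + τ * δ) / δ)).comp_hasDerivAt τ h13
    rw [hh]
    exact h14
  have hmono : StrictMonoOn h (Icc 0 1) := by
    apply strictMonoOn_of_deriv_pos (convex_Icc 0 1)
    · intro τ hτ
      obtain ⟨d, -, hd⟩ := hderiv τ hτ.1
      exact hd.continuousAt.continuousWithinAt
    · intro τ hτ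
      rw [interior_Icc] at hτ
      obtain ⟨d, hd0, hd⟩ := hderiv τ hτ.1.le
      rw [hd.deriv]
      exact hd0
  have h15 : h 0 < h 1 := hmono (by simp) (by simp) one_pos
  have h16 : h 1 - h 0 = (((Real.log T : ℝ) : ℂ) / δ).re := by
    rw [← hLL, hh]
    simp only [ofReal_zero, zero_mul, add_zero, ofReal_one, one_mul]
    rw [hδ, add_sub_cancel, sub_div, sub_re]
  have h17 : (((Real.log T : ℝ) : ℂ) / δ).re = Real.log T * δ.re / normSq δ := by
    rw [div_re]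
    simp
  have h18 : Real.log T * δ.re / normSq δ ≤ 0 := by
    apply div_nonpos_of_nonpos_of_nonneg
    · exact mul_nonpos_of_nonneg_of_nonpos (Real.log_nonneg hT) hδre.le
    · exact normSq_nonneg _
  linarith

end Mocanu
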