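import Pool.Agent.Helper267_mocanu.Stmts

/-!
# Task T13 (project AKC): starlikeness of `Q - 1` and subordination
-/

set_option autoImplicit false

namespace Mocanu

open Complex Set Filter Topology MeasureTheory Metric

namespace T13

/-- An injective holomorphic function has non-zero derivative. -/
lemma inj_deriv {f : ℂ → ℂ} {ρ : ℝ} (hρ : 0 < ρ) (hf : DifferentiableOn ℂ f (ball 0 ρ))
    (hinj : InjOn f (ball 0 ρ)) : deriv f 0 ≠ 0 := by
  intro hd0
  have hb : ball (0:ℂ) ρ ∈ 𝓝 0 := ball_mem_nhds _ hρ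
  have hfa : AnalyticAt ℂ f 0 := hf.analyticAt hb
  have hFa : AnalyticAt ℂ (fun z => f z - f 0) 0 := hfa.sub analyticAt_const
  have hne : ¬ ∀ᶠ z in 𝓝 (0:ℂ), f z - f 0 = 0 := by
    intro h
    have h1 : ∀ᶠ z in 𝓝[≠] (0:ℂ), z ∈ ball (0:ℂ) ρ ∧ f z - f 0 = 0 ∧ z ≠ 0 := by
      have h2 : ∀ᶠ z in 𝓝[≠] (0:ℂ), z ∈ ball (0:ℂ) ρ ∧ f z - f 0 = 0 :=
        (((show ∀ᶠ z in 𝓝 (0:ℂ), z ∈ ball (0:ℂ) ρ from hb).and h)).filter_mono nhdsWithin_le_nhds
      filter_upwards [h2, self_mem_nhdsWithin] with z hz hz2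
      exact ⟨hz.1, hz.2, hz2⟩
    obtain ⟨z, hz1, hz2, hz3⟩ := h1.exists
    exact hz3 (hinj hz1 (mem_ball_self hρ) (sub_eq_zero.1 hz2))
  obtain ⟨k, g, hg, hg0, hFg⟩ := (hFa.exists_eventuallyEq_pow_smul_nonzero_iff).2 hne
  simp only [sub_zero, smul_eq_mul] at hFg
  have hk0 : k ≠ 0 := by
    rintro rfl
    have := hFg.self_of_nhds
    simp only [sub_self, pow_zero, one_mul] at this
    exact hg0 this.symm
  have hk1 : k ≠ 1 := by
    rintro rfl
    have h1 : HasDerivAt (fun z : ℂ => z ^ 1 * g z) (g 0) 0 := by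
      have h2 : HasDerivAt (fun z : ℂ => z * g z) (1 * g 0 + 0 * deriv g 0) 0 :=
        (hasDerivAt_id' (0:ℂ)).mul hg.differentiableAt.hasDerivAt
      rw [one_mul, zero_mul, add_zero] at h2
      simpa only [pow_one] using h2
    have h2 : HasDerivAt (fun z => f z - f 0) (g 0) 0 := h1.congr_of_eventuallyEq hFg
    have h3 : HasDerivAt (fun z => f z - f 0) (deriv f 0) 0 :=
      (hfa.differentiableAt.hasDerivAt).sub_const _
    rw [hd0] at h3
    exact hg0 (h2.unique h3)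
  obtain ⟨c, hc⟩ := IsAlgClosed.exists_pow_nat_eq (g 0) (Nat.pos_of_ne_zero hk0)
  have hc0 : c ≠ 0 := by
    rintro rfl
    rw [zero_pow hk0] at hc
    exact hg0 hc.symm
  set h : ℂ → ℂ := fun z => c * Complex.exp (Complex.log (g z / g 0) / k) with hh
  have hgd : AnalyticAt ℂ (fun z => g z / g 0) 0 := hg.div analyticAt_const hg0
  have hha : AnalyticAt ℂ h 0 := by
    have h1 : AnalyticAt ℂ (fun z => Complex.log (g z / g 0)) 0 :=
      hgd.clog (by simp only [div_self hg0]; exact Complex.one_mem_slitPlane)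
    have h2 : AnalyticAt ℂ (fun z => Complex.log (g z / g 0) / (k:ℂ)) 0 :=
      h1.div analyticAt_const (by exact_mod_cast hk0)
    exact analyticAt_const.mul h2.cexp
  have hh0 : h 0 = c := by simp [hh, div_self hg0]
  have hhk : ∀ᶠ z in 𝓝 (0:ℂ), h z ^ k = g z := by
    filter_upwards [hg.continuousAt.eventually_ne hg0] with z hz
    simp only [hh]
    rw [mul_pow, hc, ← Complex.exp_nat_mul]
    have hk' : (k:ℂ) ≠ 0 := by exact_mod_cast hk0
    rw [mul_div_cancel₀ _ hk', Complex.exp_log (div_ne_zero hz hg0)]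
    field_simp
  set ψ : ℂ → ℂ := fun z => z * h z with hψ
  have hψa : AnalyticAt ℂ ψ 0 := analyticAt_id.mul hha
  have hψd : HasDerivAt ψ c 0 := by
    have h2 := (hasDerivAt_id (0:ℂ)).mul hha.differentiableAt.hasDerivAt
    simp only [id, one_mul, zero_mul, add_zero] at h2
    rw [hh0] at h2
    exact h2
  have hψs : HasStrictDerivAt ψ c 0 := by
    have := hψa.hasStrictDerivAt
    rwa [hψd.deriv] at this
  have hmap := hψs.map_nhds_eq hc0
  have hψ0 : ψ 0 = 0 := by simp [hψ]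
  rw [hψ0] at hmap
  set V : Set ℂ := {z | z ∈ ball (0:ℂ) ρ ∧ f z - f 0 = ψ z ^ k} with hV
  have hVn : V ∈ 𝓝 (0:ℂ) := by
    filter_upwards [hb, hFg, hhk] with z h1 h2 h3
    refine ⟨h1, ?_⟩
    simp only [hψ]
    rw [h2, mul_pow, h3]
  have hS : ψ '' V ∈ 𝓝 (0:ℂ) := by rw [← hmap]; exact image_mem_map hVn
  have hζ := Complex.isPrimitiveRoot_exp k hk0
  set ζ := Complex.exp (2 * Real.pi * Complex.I / k) with hζd
  have hζ1 : ζ ≠ 1 := hζ.ne_one (by omega)
  have hS2 : ∀ᶠ w in 𝓝 (0:ℂ), ζ * w ∈ ψ '' V := by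
    have hcm : Tendsto (fun w : ℂ => ζ * w) (𝓝 0) (𝓝 0) := by
      have : Continuous fun w : ℂ => ζ * w := by fun_prop
      have := this.tendsto 0
      rwa [mul_zero] at this
    exact hcm.eventually hS
  have hex : ∀ᶠ w in 𝓝[≠] (0:ℂ), (w ∈ ψ '' V ∧ ζ * w ∈ ψ '' V) ∧ w ≠ 0 := by
    have h2 : ∀ᶠ w in 𝓝[≠] (0:ℂ), w ∈ ψ '' V ∧ ζ * w ∈ ψ '' V :=
      ((show ∀ᶠ w in 𝓝 (0:ℂ), w ∈ ψ '' V from hS).and hS2).filter_mono nhdsWithin_le_nhds
    filter_upwards [h2, self_mem_nhdsWithin] with z hz hz2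
    exact ⟨hz, hz2⟩
  obtain ⟨w, ⟨⟨z1, hz1, e1⟩, ⟨z2, hz2, e2⟩⟩, hw⟩ := hex.exists
  have h3 : f z1 = f z2 := by
    have a1 := hz1.2
    have a2 := hz2.2
    rw [e1] at a1
    rw [e2, mul_pow, hζ.pow_eq_one, one_mul] at a2
    rw [← a2] at a1
    exact sub_left_injective a1
  have h4 := hinj hz1.1 hz2.1 h3
  rw [h4, e2] at e1
  have h5 : (ζ - 1) * w = 0 := by linear_combination e1
  rcases mul_eq_zero.1 h5 with h6 | h6
  · exact hζ1 (sub_eq_zero.1 h6)
  · exact hw h6

/-- the same at any point of the disc -/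
lemma deriv_ne_zero {f : ℂ → ℂ} (hf : DifferentiableOn ℂ f (ball 0 1)) (hinj : InjOn f (ball 0 1))
    {z₀ : ℂ} (hz₀ : z₀ ∈ ball (0:ℂ) 1) : deriv f z₀ ≠ 0 := by
  have hρ : 0 < 1 - ‖z₀‖ := by
    have := mem_ball_zero_iff.1 hz₀
    linarith
  have hsub : ∀ z ∈ ball (0:ℂ) (1 - ‖z₀‖), z + z₀ ∈ ball (0:ℂ) 1 := by
    intro z hz
    rw [mem_ball_zero_iff] at hz ⊢
    calc ‖z + z₀‖ ≤ ‖z‖ + ‖z₀‖ := norm_add_le _ _
      _ < 1 := by linarith
  have h1 : DifferentiableOn ℂ (fun z => f (z + z₀)) (ball 0 (1 - ‖z₀‖)) := by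
    apply hf.comp ((differentiable_id.add_const z₀).differentiableOn)
    intro z hz
    exact hsub z hz
  have h2 : InjOn (fun z => f (z + z₀)) (ball 0 (1 - ‖z₀‖)) := by
    intro z hz w hw h
    have := hinj (hsub z hz) (hsub w hw) h
    exact add_right_cancel this
  have h3 := inj_deriv hρ h1 h2
  rw [deriv_comp_add_const] at h3
  simpa using h3

lemma bp_mem (t : ℝ) : bp t ∈ Pb := by
  simp [bp, Pb]

lemma bp_re (t : ℝ) : (bp t).re = 1 / 2 := by
  simp [bp]

lemma two_bp (t : ℝ) : 2 * bp t - 1 = (t : ℂ) * I := by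
  simp only [bp]; ring

lemma ne_zero_of_re {W : ℂ} (h : 0 < W.re) : W ≠ 0 := by
  rintro rfl; simp at h

lemma mem_slit_of_re {W : ℂ} (h : 0 < W.re) : W ∈ slitPlane := by
  left; exact h

lemma isOpen_RH : IsOpen RH := isOpen_lt continuous_const Complex.continuous_re

lemma isOpen_Po : IsOpen Po := isOpen_lt continuous_const Complex.continuous_re

/-- `W (W - 1) Q' = b Q (2 W - 1 - Q)` -/
lemma ode_Q {b : ℝ} {v : ℂ → ℂ} (hB : VBase b v) {W : ℂ} (hW : W ∈ RH) (hv : v W ≠ 0) :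
    W * (W - 1) * deriv (fun w => (v w)⁻¹) W = b * (v W)⁻¹ * (2 * W - 1 - (v W)⁻¹) := by
  have hd : HasDerivAt v (deriv v W) W := (hB.diff.differentiableAt (isOpen_RH.mem_nhds hW)).hasDerivAt
  have h1 := (hd.fun_inv hv).deriv
  rw [h1]
  have hode := hB.ode W hW
  field_simp
  linear_combination (-1 : ℂ) * hode

/-- the logarithm `log (W (Q - 1)/(W - 1))` -/
noncomputable def lf (v : ℂ → ℂ) (W : ℂ) : ℂ := log (Psi v W) - log (W * v W) + log W

end T13

theorem t13a : T13a := by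
  intro h12 b v hv V₂ hV₂ t T hT hcon
  obtain ⟨U, hU, hPbU, hURH, hUp⟩ := hv.low.nbhd
  have hvd : ∀ W ∈ U, HasDerivAt v (deriv v W) W := fun W hW =>
    (hv.base.diff.differentiableAt (T13.isOpen_RH.mem_nhds (hURH hW))).hasDerivAt
  have hpsid : ∀ W ∈ U, DifferentiableAt ℂ (Psi v) W := fun W hW =>
    hv.low.psi_diff.differentiableAt (T13.isOpen_RH.mem_nhds (hURH hW))
  have hld : DifferentiableOn ℂ (T13.lf v) U := by
    intro W hW
    obtain ⟨hv0, hp0, h1, h2⟩ := hUp W hW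
    apply DifferentiableAt.differentiableWithinAt
    unfold T13.lf
    apply DifferentiableAt.add
    · apply DifferentiableAt.sub
      · exact (hpsid W hW).clog (T13.mem_slit_of_re h2)
      · exact (differentiableAt_id.mul (hvd W hW).differentiableAt).clog (T13.mem_slit_of_re h1)
    · exact differentiableAt_id.clog (T13.mem_slit_of_re (hURH hW))
  have hexp : ∀ W ∈ U, exp (T13.lf v W) * ((W - 1) / W) = (v W)⁻¹ - 1 := by
    intro W hW
    obtain ⟨hv0, hp0, h1, h2⟩ := hUp W hW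
    have hW0 : W ≠ 0 := T13.ne_zero_of_re (hURH hW)
    unfold T13.lf
    rw [exp_add, exp_sub, exp_log hp0, exp_log (mul_ne_zero hW0 hv0), exp_log hW0]
    by_cases h : W = 1
    · subst h
      rw [hv.base.one]; simp
    · have h' : W - 1 ≠ 0 := sub_ne_zero.2 h
      rw [hv.low.psi_eq W h]
      field_simp
  have hpos : ∀ W ∈ Pb, 0 < (1 + W * (W - 1) * deriv (T13.lf v) W).re := by
    intro W hW
    by_cases h : W = 1
    · subst h; simp
    · have hWU := hPbU hW
      obtain ⟨hv0, hp0, h1, h2⟩ := hUp W hWU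
      have hW0 : W ≠ 0 := T13.ne_zero_of_re (hURH hWU)
      have h' : W - 1 ≠ 0 := sub_ne_zero.2 h
      have hpe := hv.low.psi_eq W h
      have hv1 : 1 - v W ≠ 0 := by
        intro h0
        rw [h0] at hpe
        simp at hpe
        exact hp0 hpe
      -- derivative of `Psi`
      have hPd : HasDerivAt (Psi v)
          ((((-(deriv v W)) * W + (1 - v W) * 1) * (W - 1) - ((1 - v W) * W) * 1) / (W - 1) ^ 2) W := by
        have e1 : HasDerivAt (fun w => (1 - v w) * w / (w - 1))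
            ((((-(deriv v W)) * W + (1 - v W) * 1) * (W - 1) - ((1 - v W) * W) * 1) / (W - 1) ^ 2) W := by
          exact (((hvd W hWU).const_sub 1).mul (hasDerivAt_id W)).div ((hasDerivAt_id W).sub_const 1) h'
        apply e1.congr_of_eventuallyEq
        filter_upwards [isOpen_ne.mem_nhds h] with w hw
        exact hv.low.psi_eq w hw
      have hl1 : HasDerivAt (fun w => log (Psi v w)) _ W := hPd.clog (T13.mem_slit_of_re h2)
      have hl2 : HasDerivAt (fun w => log (w * v w)) ((1 * v W + W * deriv v W) / (W * v W)) W :=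
        ((hasDerivAt_id W).mul (hvd W hWU)).clog (T13.mem_slit_of_re h1)
      have hl3 : HasDerivAt (fun w => log w) (1 / W) W :=
        (hasDerivAt_id W).clog (T13.mem_slit_of_re (hURH hWU))
      have hl : HasDerivAt (T13.lf v) _ W := (hl1.sub hl2).add hl3
      have hst := hv.star W hW
      convert hst using 2
      rw [hl.deriv]
      unfold St sf
      rw [hpe]
      have hode := hv.base.ode W (hURH hWU)
      have hdv : deriv v W = (b - b * (2 * W - 1) * v W) / (W * (W - 1)) := by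
        field_simp
        linear_combination hode
      rw [hdv]
      field_simp
      ring
  apply h12 (T13.lf v) U hU hPbU hld hpos V₂ hV₂ t T hT
  have hV₂' : V₂ ∈ Pb := le_of_lt (show 1 / 2 < V₂.re from hV₂)
  rw [hexp V₂ (hPbU hV₂'), hexp (bp t) (hPbU (T13.bp_mem t)), hcon]
  ring

theorem t13b : T13b := by
  intro h11 h13a h12 b v hv f hf
  obtain ⟨hfd, hfi, hf0, hf1, hfc⟩ := hf
  have hb := hv.base.hb
  have hb0 : (b : ℂ) ≠ 0 := by
    have : (b : ℝ) ≠ 0 := by linarith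
    exact_mod_cast this
  obtain ⟨U, hU, hPbU, hURH, hUp⟩ := hv.low.nbhd
  have hop : IsOpen (ball (0:ℂ) 1) := isOpen_ball
  have h0m : (0:ℂ) ∈ ball (0:ℂ) 1 := mem_ball_self one_pos
  -- `g = f / z`
  set g : ℂ → ℂ := dslope f 0 with hg
  have hgd : DifferentiableOn ℂ g (ball 0 1) :=
    (Complex.differentiableOn_dslope (hop.mem_nhds h0m)).2 hfd
  have hg0 : g 0 = 1 := by rw [hg, dslope_same, hf1]
  have hgz : ∀ z : ℂ, f z = z * g z := by
    intro z
    have := sub_smul_dslope f 0 z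
    simp only [sub_zero, smul_eq_mul, hf0] at this
    rw [hg, this]
  have hgne : ∀ z ∈ ball (0:ℂ) 1, g z ≠ 0 := by
    intro z hz h
    by_cases hz0 : z = 0
    · rw [hz0, hg0] at h; exact one_ne_zero h
    · have h1 : f z = f 0 := by rw [hgz z, h, mul_zero, hf0]
      exact hz0 (hfi hz h0m h1)
  have hf'ne : ∀ z ∈ ball (0:ℂ) 1, deriv f z ≠ 0 := fun z hz => T13.deriv_ne_zero hfd hfi hz
  have hf'd : DifferentiableOn ℂ (deriv f) (ball 0 1) := hfd.deriv hop
  have hgat : ∀ z ∈ ball (0:ℂ) 1, HasDerivAt g (deriv g z) z := fun z hz =>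
    (hgd.differentiableAt (hop.mem_nhds hz)).hasDerivAt
  have hf'at : ∀ z ∈ ball (0:ℂ) 1, HasDerivAt (deriv f) (deriv (deriv f) z) z := fun z hz =>
    (hf'd.differentiableAt (hop.mem_nhds hz)).hasDerivAt
  -- `f' = g + z g'`
  have hf'eq : ∀ z ∈ ball (0:ℂ) 1, deriv f z = g z + z * deriv g z := by
    intro z hz
    have h1 : HasDerivAt (fun w => w * g w) (1 * g z + z * deriv g z) z :=
      (hasDerivAt_id z).mul (hgat z hz)
    have h2 : f = fun w => w * g w := funext hgz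
    rw [h2]
    rw [h1.deriv]; ring
  set h : ℂ → ℂ := fun z => deriv f z / g z with hh
  have hhd : DifferentiableOn ℂ h (ball 0 1) := hf'd.div hgd hgne
  have hh0 : h 0 = 1 := by
    simp only [hh]; rw [hf1, hg0]; norm_num
  have hhne : ∀ z ∈ ball (0:ℂ) 1, h z ≠ 0 := fun z hz => div_ne_zero (hf'ne z hz) (hgne z hz)
  have hhat : ∀ z ∈ ball (0:ℂ) 1, HasDerivAt h
      ((deriv (deriv f) z * g z - deriv f z * deriv g z) / (g z) ^ 2) z := fun z hz =>
    (hf'at z hz).div (hgat z hz) (hgne z hz)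
  have hcond : ∀ z ∈ ball (0:ℂ) 1, z ≠ 0 → 0 < (h z + ((1 / b : ℝ) : ℂ) * (z * deriv h z / h z)).re := by
    intro z hz hz0
    have h1 := hfc z hz hz0
    convert h1 using 2
    rw [(hhat z hz).deriv, hgz z]
    simp only [hh]
    have e1 := hf'ne z hz
    have e2 := hgne z hz
    have e3 := hf'eq z hz
    have e4 : z * deriv g z = deriv f z - g z := by rw [e3]; ring
    push_cast
    have e5 : z * ((deriv (deriv f) z * g z - deriv f z * deriv g z) / g z ^ 2) / (deriv f z / g z) =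
        1 + z * deriv (deriv f) z / deriv f z - deriv f z / g z := by
      field_simp
      linear_combination (-(deriv f z)) * e4
    rw [e5]
    have e6 : z * deriv f z / (z * g z) = deriv f z / g z := by
      field_simp
    rw [e6]
    ring
  have hBd := hv.base
  -- Step 1
  obtain ⟨c, hc, hcQ⟩ := hv.dQ
  have hQd : DifferentiableOn ℂ (fun w => (v w)⁻¹) U := by
    intro W hW
    exact (((hBd.diff.differentiableAt (T13.isOpen_RH.mem_nhds (hURH hW)))).inv (hUp W hW).1).differentiableWithinAt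
  obtain ⟨V2, hV2d, hV20, hV2P, hV2e⟩ := h11 (fun w => (v w)⁻¹) U hU hPbU hQd c hc hcQ h hhd
    (by rw [hh0, hBd.one]; simp) (by
      intro z₀ hz₀ hz₀0 t T hT e1 e2
      have hbm := T13.bp_mem t
      have hbU := hPbU hbm
      have hv0 := (hUp (bp t) hbU).1
      have hode := T13.ode_Q hBd (hURH hbU) hv0
      have e3 : z₀ * deriv h z₀ = T * (b * (v (bp t))⁻¹ * (2 * bp t - 1 - (v (bp t))⁻¹)) := by
        rw [e2, ← hode]; ring
      have hpos := hcond z₀ hz₀ hz₀0
      have e4 : h z₀ + ((1 / b : ℝ) : ℂ) * (z₀ * deriv h z₀ / h z₀) =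
          (v (bp t))⁻¹ + T * ((t : ℂ) * I - (v (bp t))⁻¹) := by
        rw [e3, e1, T13.two_bp]
        push_cast
        field_simp
      rw [e4] at hpos
      have hX := hv.X_pos t
      have e5 : ((v (bp t))⁻¹ + T * ((t : ℂ) * I - (v (bp t))⁻¹)).re =
          (1 - T) * ((v (bp t))⁻¹).re := by
        simp only [add_re, mul_re, sub_re, sub_im, ofReal_re, ofReal_im, I_re, I_im, mul_im]
        ring
      rw [e5] at hpos
      nlinarith [mul_nonneg (sub_nonneg.2 hT) hX.le])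
  -- Step 2
  obtain ⟨U', hU', hPbU', hURH', hkd⟩ := hv.kb.nbhd
  obtain ⟨c', hc', hck⟩ := hv.dk
  obtain ⟨V, hVd, hV0, hVP, hVe⟩ := h11 (kap b v) U' hU' hPbU' hkd c' hc' hck g hgd
    (by rw [hg0, hv.kb.one]) (by
      intro z₀ hz₀ hz₀0 t T hT e1 e2
      have hbm := T13.bp_mem t
      have hode := hv.kb.ode (bp t) hbm
      have e3 : z₀ * deriv g z₀ = T * (g z₀ * ((v (bp t))⁻¹ - 1)) := by
        rw [e2, e1, ← hode]; ring
      have hg1 := hgne z₀ hz₀
      have e4 : h z₀ = 1 + T * ((v (bp t))⁻¹ - 1) := by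
        simp only [hh]
        rw [hf'eq z₀ hz₀, e3]
        field_simp
      have e5 := hV2e z₀ hz₀
      exact h13a h12 b v hv (V2 z₀) (hV2P z₀ hz₀) t T hT (by rw [← e4, e5]))
  refine ⟨V, hVd, hV0, hVP, ?_⟩
  intro z hz
  rw [hgz z, hVe z hz]

end Mocanu
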