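import Pool.Agent.Helper267_mocanu.Stmts

/-! Task T14 (helper720): the extreme point argument. -/

set_option autoImplicit false

namespace Mocanu

open Complex Set Filter Topology MeasureTheory Metric

theorem t14_compact_hull {E : Type*} [NormedAddCommGroup E] [NormedSpace ℝ E]
    [FiniteDimensional ℝ E] {s : Set E} (hs : IsCompact s) : IsCompact (convexHull ℝ s) := by
  classical
  rcases s.eq_empty_or_nonempty with rfl | ⟨x0, hx0⟩
  · rw [convexHull_empty]
    exact isCompact_empty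
  obtain ⟨n, hn⟩ : ∃ n, n = Module.finrank ℝ E + 1 := ⟨_, rfl⟩
  have hK : IsCompact ((stdSimplex ℝ (Fin n)) ×ˢ (Set.pi Set.univ (fun _ : Fin n => s))) :=
    (isCompact_stdSimplex ℝ (Fin n)).prod (isCompact_univ_pi fun _ => hs)
  have hcont : Continuous (fun p : (Fin n → ℝ) × (Fin n → E) => ∑ i, p.1 i • p.2 i) := by
    refine continuous_finsetSum _ fun i _ => ?_
    exact ((continuous_apply i).comp continuous_fst).smul ((continuous_apply i).comp continuous_snd)
  have heq : convexHull ℝ s = (fun p : (Fin n → ℝ) × (Fin n → E) => ∑ i, p.1 i • p.2 i) ''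
      ((stdSimplex ℝ (Fin n)) ×ˢ (Set.pi Set.univ (fun _ : Fin n => s))) := by
    apply Set.Subset.antisymm
    · intro x hx
      obtain ⟨ι, hι, z, w, hz, hai, hw0, hw1, hwz⟩ := eq_pos_convex_span_of_mem_convexHull hx
      have hcard : Fintype.card ι ≤ Fintype.card (Fin n) := by
        have h1 := hai.card_le_finrank_succ
        have h2 := Submodule.finrank_le (vectorSpan ℝ (Set.range z))
        rw [Fintype.card_fin, hn]
        omega
      obtain ⟨e⟩ := Function.Embedding.nonempty_of_card_le hcard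
      refine ⟨(Function.extend e w 0, Function.extend e z (fun _ => x0)), ⟨⟨?_, ?_⟩, ?_⟩, ?_⟩
      · intro j
        show (0 : ℝ) ≤ Function.extend e w 0 j
        by_cases hj : ∃ i, e i = j
        · obtain ⟨i, rfl⟩ := hj
          rw [e.injective.extend_apply]
          exact (hw0 i).le
        · rw [Function.extend_apply' _ _ _ hj]
          exact le_rfl
      · rw [← hw1]
        symm
        refine Fintype.sum_of_injective e e.injective _ _ ?_ ?_
        · intro j hj
          show Function.extend e w 0 j = 0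
          rw [Function.extend_apply' _ _ _ hj]
          rfl
        · intro i
          show w i = Function.extend e w 0 (e i)
          rw [e.injective.extend_apply]
      · intro j _
        by_cases hj : ∃ i, e i = j
        · obtain ⟨i, rfl⟩ := hj
          show Function.extend e z (fun _ => x0) (e i) ∈ s
          rw [e.injective.extend_apply]
          exact hz ⟨i, rfl⟩
        · show Function.extend e z (fun _ => x0) j ∈ s
          rw [Function.extend_apply' _ _ _ hj]
          exact hx0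
      · rw [← hwz]
        symm
        refine Fintype.sum_of_injective e e.injective _ _ ?_ ?_
        · intro j hj
          show Function.extend e w 0 j • Function.extend e z (fun _ => x0) j = 0
          rw [Function.extend_apply' w _ _ hj]
          simp
        · intro i
          show w i • z i = Function.extend e w 0 (e i) • Function.extend e z (fun _ => x0) (e i)
          rw [e.injective.extend_apply, e.injective.extend_apply]
    · rintro _ ⟨⟨w, z⟩, ⟨⟨hw0, hw1⟩, hz⟩, rfl⟩
      refine (convex_convexHull ℝ s).sum_mem (fun i _ => hw0 i) hw1 (fun i _ => ?_)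
      exact subset_convexHull ℝ s (hz i (Set.mem_univ i))
  rw [heq]
  exact hK.image hcont

/-- expansion: lower Lipschitz bound -/
theorem t14_lower {κ : ℂ → ℂ} {U : Set ℂ} (hU : IsOpen U) (hPU : Pb ⊆ U)
    (hκ : DifferentiableOn ℂ κ U) {c : ℝ} (hc : ∀ W ∈ Pb, c ≤ (deriv κ W).re)
    {v w : ℂ} (hv : v ∈ Pb) (hw : w ∈ Pb) : c * ‖v - w‖ ≤ ‖κ v - κ w‖ := by
  have hseg : ∀ t ∈ Icc (0:ℝ) 1, w + (t:ℂ) * (v - w) ∈ Pb := by
    intro t ht
    have h1 : (1/2 : ℝ) ≤ v.re := hv
    have h2 : (1/2 : ℝ) ≤ w.re := hw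
    show (1/2 : ℝ) ≤ (w + (t:ℂ) * (v - w)).re
    simp only [add_re, mul_re, ofReal_re, sub_re, ofReal_im, zero_mul, sub_zero]
    nlinarith [ht.1, ht.2, mul_nonneg ht.1 (sub_nonneg.2 h1), mul_nonneg (sub_nonneg.2 ht.2) (sub_nonneg.2 h2)]
  set d := v - w with hd
  let g : ℝ → ℝ := fun t => (κ (w + (t:ℂ) * d) * (starRingEnd ℂ) d).re
  have hder : ∀ t ∈ Icc (0:ℝ) 1, HasDerivAt g ((deriv κ (w + (t:ℂ) * d)).re * ‖d‖ ^ 2) t := by
    intro t ht
    have hW := hseg t ht
    have h1 : HasDerivAt κ (deriv κ (w + (t:ℂ) * d)) (w + (t:ℂ) * d) :=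
      ((hκ _ (hPU hW)).differentiableAt (hU.mem_nhds (hPU hW))).hasDerivAt
    have h2 : HasDerivAt (fun s : ℝ => w + (s:ℂ) * d) d t := by
      have := ((HasDerivAt.ofReal_comp (hasDerivAt_id t)).mul_const d).const_add w
      simpa using this
    have h3 := (h1.comp_of_eq t h2 rfl).mul_const ((starRingEnd ℂ) d)
    have h4 : HasDerivAt g (deriv κ (w + (t:ℂ) * d) * d * (starRingEnd ℂ) d).re t := by
      have := (Complex.reCLM.hasFDerivAt.comp_hasDerivAt t h3)
      simpa [g, Function.comp_def] using this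
    convert h4 using 1
    rw [mul_assoc, Complex.mul_conj, Complex.re_mul_ofReal, Complex.normSq_eq_norm_sq]
  have hcont : ContinuousOn g (Icc (0:ℝ) 1) := fun t ht => (hder t ht).continuousAt.continuousWithinAt
  have key := (convex_Icc (0:ℝ) 1).mul_sub_le_image_sub_of_le_deriv (f := g) (C := c * ‖d‖ ^ 2) hcont
    (by
      intro t ht
      rw [interior_Icc] at ht
      exact (hder t (Ioo_subset_Icc_self ht)).differentiableAt.differentiableWithinAt)
    (by
      intro t ht
      rw [interior_Icc] at ht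
      rw [(hder t (Ioo_subset_Icc_self ht)).deriv]
      exact mul_le_mul_of_nonneg_right (hc _ (hseg t (Ioo_subset_Icc_self ht))) (by positivity))
    0 (by simp) 1 (by simp) zero_le_one
  have h5 : g 1 - g 0 ≤ ‖κ v - κ w‖ * ‖d‖ := by
    have : g 1 - g 0 = ((κ v - κ w) * (starRingEnd ℂ) d).re := by
      simp only [g, ofReal_one, one_mul, ofReal_zero, zero_mul, add_zero]
      rw [← sub_re, ← sub_mul, hd]
      congr 3
      ring
    rw [this]
    calc _ ≤ ‖(κ v - κ w) * (starRingEnd ℂ) d‖ := Complex.re_le_norm _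
      _ = _ := by rw [norm_mul, Complex.norm_conj]
  rcases eq_or_lt_of_le (norm_nonneg d) with h0 | h0
  · rw [← h0, mul_zero]
    exact norm_nonneg _
  · have : c * ‖d‖ * ‖d‖ ≤ ‖κ v - κ w‖ * ‖d‖ := by nlinarith
    exact le_of_mul_le_mul_right this h0

theorem t14_Po_sub : Po ⊆ Pb := fun W (hW : 1/2 < W.re) => (le_of_lt hW : 1/2 ≤ W.re)

theorem t14_Po_open : IsOpen Po := isOpen_lt continuous_const Complex.continuous_re

/-- lifting through `κ` -/
theorem t14_lift {κ : ℂ → ℂ} {U : Set ℂ} (hU : IsOpen U) (hPU : Pb ⊆ U)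
    (hκ : DifferentiableOn ℂ κ U) {c : ℝ} (hc0 : 0 < c) (hc : ∀ W ∈ Pb, c ≤ (deriv κ W).re)
    {A : ℂ → ℂ} (hA : DifferentiableOn ℂ A (ball 0 1)) (hA0 : A 0 = κ 1)
    (hAm : ∀ z ∈ ball (0:ℂ) 1, A z ∈ κ '' Po) :
    ∃ V ∈ PP, ∀ z ∈ ball (0:ℂ) 1, κ (V z) = A z := by
  classical
  have hinj : InjOn κ Po := by
    intro v hv w hw h
    have := t14_lower hU hPU hκ hc (t14_Po_sub hv) (t14_Po_sub hw)
    rw [h, sub_self, norm_zero] at this
    have h2 : ‖v - w‖ ≤ 0 := by
      by_contra h3
      push Not at h3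
      have := mul_pos hc0 h3
      linarith
    exact sub_eq_zero.1 (norm_le_zero_iff.1 h2)
  let g : ℂ → ℂ := Function.invFunOn κ Po
  have hg : ∀ y ∈ κ '' Po, g y ∈ Po ∧ κ (g y) = y := by
    rintro y hy
    exact ⟨Function.invFunOn_mem hy, Function.invFunOn_eq hy⟩
  have hgd : ∀ y ∈ κ '' Po, DifferentiableAt ℂ g y := by
    rintro y hy
    obtain ⟨hw, hwy⟩ := hg y hy
    have hPo : Po ∈ 𝓝 (g y) := t14_Po_open.mem_nhds hw
    have hUn : U ∈ 𝓝 (g y) := hU.mem_nhds (hPU (t14_Po_sub hw))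
    have han : AnalyticAt ℂ κ (g y) := hκ.analyticAt hUn
    have hd0 : deriv κ (g y) ≠ 0 := by
      intro h
      have := hc _ (t14_Po_sub hw)
      rw [h, zero_re] at this
      linarith
    have himg : κ '' Po ∈ 𝓝 y := by
      have h1 := han.hasStrictDerivAt.map_nhds_eq hd0
      rw [hwy] at h1
      rw [← h1]
      exact image_mem_map hPo
    have hcont : ContinuousAt g y := by
      rw [Metric.continuousAt_iff]
      intro ε hε
      obtain ⟨δ, hδ, hδs⟩ := Metric.mem_nhds_iff.1 himg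
      refine ⟨min δ (c * ε), lt_min hδ (mul_pos hc0 hε), fun {x} hx => ?_⟩
      have hxm : x ∈ κ '' Po := hδs (mem_ball.2 (lt_of_lt_of_le hx (min_le_left _ _)))
      obtain ⟨h1, h2⟩ := hg x hxm
      have h3 := t14_lower hU hPU hκ hc (t14_Po_sub h1) (t14_Po_sub hw)
      rw [h2, hwy, ← dist_eq_norm, ← dist_eq_norm] at h3
      have h4 : c * dist (g x) (g y) < c * ε := lt_of_le_of_lt h3 (lt_of_lt_of_le hx (min_le_right _ _))
      exact lt_of_mul_lt_mul_left h4 hc0.le
    have h5 : HasDerivAt κ (deriv κ (g y)) (g y) := han.differentiableAt.hasDerivAt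
    exact (HasDerivAt.of_local_left_inverse hcont h5 hd0
      (Filter.mem_of_superset himg fun x hx => (hg x hx).2)).differentiableAt
  refine ⟨fun z => g (A z), ⟨?_, ?_, ?_⟩, ?_⟩
  · intro z hz
    have h1 : DifferentiableAt ℂ A z := (hA z hz).differentiableAt (isOpen_ball.mem_nhds hz)
    exact ((hgd _ (hAm z hz)).comp z h1).differentiableWithinAt
  · have h1 : (1:ℂ) ∈ Po := by
      show (1/2:ℝ) < (1:ℂ).re
      norm_num
    have h0 : (0:ℂ) ∈ ball (0:ℂ) 1 := by simp
    obtain ⟨h2, h3⟩ := hg _ (hAm 0 h0)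
    exact hinj h2 h1 (by rw [h3, hA0])
  · intro z hz
    exact (hg _ (hAm z hz)).1
  · intro z hz
    exact (hg _ (hAm z hz)).2

theorem t14_cvec_congr {n : ℕ} {V W : ℂ → ℂ} (h : ∀ z ∈ ball (0:ℂ) 1, V z = W z) :
    cvec n V = cvec n W := by
  have h1 : V =ᶠ[𝓝 0] W := Filter.mem_of_superset (ball_mem_nhds (0:ℂ) one_pos) h
  funext j
  simp only [cvec]
  rw [h1.iteratedDeriv_eq]

theorem t14_iter_congr {n : ℕ} {V W : ℂ → ℂ} (h : ∀ z ∈ ball (0:ℂ) 1, V z = W z) :
    iteratedDeriv n V 0 = iteratedDeriv n W 0 := by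
  have h1 : V =ᶠ[𝓝 0] W := Filter.mem_of_superset (ball_mem_nhds (0:ℂ) one_pos) h
  rw [h1.iteratedDeriv_eq]

theorem t14_cvec_lin {n : ℕ} {A B : ℂ → ℂ} (hA : DifferentiableOn ℂ A (ball 0 1))
    (hB : DifferentiableOn ℂ B (ball 0 1)) (l : ℂ) (m : ℂ) :
    cvec n (fun z => l * A z + m * B z) = l • cvec n A + m • cvec n B := by
  have h0 : ball (0:ℂ) 1 ∈ 𝓝 (0:ℂ) := ball_mem_nhds (0:ℂ) one_pos
  have hA' : AnalyticAt ℂ A 0 := hA.analyticAt h0
  have hB' : AnalyticAt ℂ B 0 := hB.analyticAt h0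
  funext j
  simp only [cvec, Pi.add_apply, Pi.smul_apply, smul_eq_mul]
  have h1 : iteratedDeriv ((j:ℕ) + 1) (fun z => l * A z + m * B z) 0 =
      l * iteratedDeriv ((j:ℕ) + 1) A 0 + m * iteratedDeriv ((j:ℕ) + 1) B 0 := by
    have h2 : (fun z => l * A z + m * B z) = (fun z => l * A z) + (fun z => m * B z) := rfl
    rw [h2, iteratedDeriv_add (contDiffAt_const.mul hA'.contDiffAt) (contDiffAt_const.mul hB'.contDiffAt),
      iteratedDeriv_const_mul_field, iteratedDeriv_const_mul_field]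
  rw [h1]
  ring

theorem t14_rot (F : ℂ → ℂ) (x : ℂ) (n : ℕ) :
    iteratedDeriv n (fun z => F (x * z)) = fun z => x ^ n * iteratedDeriv n F (x * z) := by
  induction n with
  | zero => funext z; simp
  | succ n ih =>
    funext z
    rw [iteratedDeriv_succ, ih, iteratedDeriv_succ]
    have h1 : deriv (fun z => x ^ n * iteratedDeriv n F (x * z)) z =
        x ^ n * deriv (fun z => iteratedDeriv n F (x * z)) z := by
      rw [deriv_const_mul_field]
    rw [h1]
    have h2 := deriv_comp_mul_left (c := x) (f := iteratedDeriv n F) (x := z)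
    rw [h2, smul_eq_mul]
    ring

theorem t14 : T14 := by
  intro h14a h14b h14c h14d κ U hU hPU hκ c hc0 hc ε hε hhp
  have h1Po : (1:ℂ) ∈ Po := by
    show (1/2:ℝ) < (1:ℂ).re
    norm_num
  have hκPo : DifferentiableOn ℂ κ Po := hκ.mono (t14_Po_sub.trans hPU)
  have hd1 : deriv κ 1 ≠ 0 := by
    intro h
    have := hc 1 (t14_Po_sub h1Po)
    rw [h, zero_re] at this
    linarith
  have hκV : ∀ V ∈ PP, DifferentiableOn ℂ (fun z => κ (V z)) (ball 0 1) := by
    intro V hV
    exact hκPo.comp hV.1 hV.2.2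
  suffices main : ∀ (n : ℕ), ∀ V ∈ PP, ∀ j : Fin n, ‖cvec n (fun z => κ (V z)) j‖ ≤
      ‖cvec n (fun z => κ (1 / (1 - z))) j‖ by
    intro V hV n hn
    obtain ⟨m, rfl⟩ : ∃ m, n = m + 1 := ⟨n - 1, by omega⟩
    have h := main (m + 1) V hV ⟨m, Nat.lt_succ_self m⟩
    simp only [cvec, norm_div] at h
    have hpos : 0 < ‖((m + 1).factorial : ℂ)‖ := by
      rw [norm_pos_iff]
      exact_mod_cast (Nat.factorial_pos _).ne'
    exact (div_le_div_iff_of_pos_right hpos).1 h
  intro n
  obtain ⟨B, hBc, hB⟩ := h14c κ hκPo n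
  -- the moment hull
  set Mc : Set (Fin n → ℂ) := mcurve n '' {x : ℂ | ‖x‖ = 1} with hMc
  set M : Set (Fin n → ℂ) := convexHull ℝ Mc with hM
  have hmc : Continuous (mcurve n) := by
    refine continuous_pi fun j => ?_
    simp only [mcurve]
    exact continuous_pow _
  have hcirc : IsCompact {x : ℂ | ‖x‖ = 1} := by
    have : {x : ℂ | ‖x‖ = 1} = sphere (0:ℂ) 1 := by
      ext x; simp
    rw [this]
    exact isCompact_sphere _ _
  have hMcomp : IsCompact M := t14_compact_hull (hcirc.image hmc)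
  -- combination in PP
  have hcomb : ∀ V₁ ∈ PP, ∀ V₂ ∈ PP, ∀ l : ℝ, 0 ≤ l → l ≤ 1 →
      (fun z => (l:ℂ) * V₁ z + (1 - l) * V₂ z) ∈ PP ∧
      cvec n (fun z => (l:ℂ) * V₁ z + (1 - l) * V₂ z) =
        (l:ℂ) • cvec n V₁ + ((1 - l : ℝ) : ℂ) • cvec n V₂ := by
    intro V₁ h₁ V₂ h₂ l hl0 hl1
    exact ⟨(h14b.1 V₁ h₁ V₂ h₂ l hl0 hl1).1, (h14b.1 V₁ h₁ V₂ h₂ l hl0 hl1).2 n⟩
  have hsmul : ∀ (l : ℝ) (y : Fin n → ℂ), (l : ℂ) • y = l • y := by
    intro l y
    funext j
    simp
  have hMS : ∀ y ∈ M, ∃ V ∈ PP, cvec n V = y := by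
    have hconv : Convex ℝ {y : Fin n → ℂ | ∃ V ∈ PP, cvec n V = y} := by
      rintro y₁ ⟨V₁, h₁, rfl⟩ y₂ ⟨V₂, h₂, rfl⟩ a b ha hb hab
      obtain ⟨hp, hq⟩ := hcomb V₁ h₁ V₂ h₂ a ha (by linarith)
      refine ⟨_, hp, ?_⟩
      rw [hq, hsmul, hsmul]
      have : (1 - a) = b := by linarith
      rw [this]
    intro y hy
    refine (convexHull_min ?_ hconv) hy
    rintro _ ⟨x, hx, rfl⟩
    obtain ⟨h1, h2⟩ := h14b.2 x hx
    exact ⟨_, h1, h2 n⟩
  have hSM : ∀ V ∈ PP, cvec n V ∈ M := fun V hV => h14a n V hV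
  -- the compact set of coefficient vectors
  set Bn : Set (Fin n → ℂ) := B '' M with hBn
  have hBncomp : IsCompact Bn := hMcomp.image hBc
  have hBnmem : ∀ V ∈ PP, cvec n (fun z => κ (V z)) ∈ Bn := by
    intro V hV
    rw [hB V hV]
    exact mem_image_of_mem _ (hSM V hV)
  set K : Set (Fin n → ℂ) := convexHull ℝ Bn with hK
  have hKcomp : IsCompact K := t14_compact_hull hBncomp
  have hKM := closure_convexHull_extremePoints hKcomp (convex_convexHull ℝ Bn)
  set D : Set (Fin n → ℂ) := {y | ∀ j, ‖y j‖ ≤ ‖cvec n (fun z => κ (1 / (1 - z))) j‖} with hD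
  have hDclosed : IsClosed D := by
    rw [hD, Set.ofPred_forall]
    exact isClosed_iInter fun j => isClosed_le ((continuous_apply j).norm) continuous_const
  have hDconv : Convex ℝ D := by
    intro y₁ h₁ y₂ h₂ a b ha hb hab j
    have e1 : (a • y₁ + b • y₂) j = a • y₁ j + b • y₂ j := rfl
    rw [e1]
    calc ‖a • y₁ j + b • y₂ j‖ ≤ ‖a • y₁ j‖ + ‖b • y₂ j‖ := norm_add_le _ _
      _ = a * ‖y₁ j‖ + b * ‖y₂ j‖ := by
        rw [norm_smul, norm_smul, Real.norm_of_nonneg ha, Real.norm_of_nonneg hb]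
      _ ≤ a * ‖cvec n (fun z => κ (1 / (1 - z))) j‖ + b * ‖cvec n (fun z => κ (1 / (1 - z))) j‖ :=
        add_le_add (mul_le_mul_of_nonneg_left (h₁ j) ha) (mul_le_mul_of_nonneg_left (h₂ j) hb)
      _ = _ := by rw [← add_mul, hab, one_mul]
  have hext : K.extremePoints ℝ ⊆ D := by
    intro e he
    have heB : e ∈ Bn := extremePoints_convexHull_subset he
    obtain ⟨y, hyM, rfl⟩ := heB
    -- the vertex claim
    have hvert : y ∈ Mc := by
      by_contra hyn
      -- write y as a convex combination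
      obtain ⟨x1, hx1, l, hl0, hl1, y2, hy2, hy⟩ : ∃ x1 : ℂ, ‖x1‖ = 1 ∧ ∃ l : ℝ, 0 < l ∧ l < 1 ∧
          ∃ y2 ∈ M, y = l • mcurve n x1 + (1 - l) • y2 := by
        have hy' := hyM
        rw [hM] at hy'
        obtain ⟨ι, hι, p, w, hp, hai, hw0, hw1, hwz⟩ := eq_pos_convex_span_of_mem_convexHull hy'
        classical
        have hne : Nonempty ι := by
          by_contra hempty
          rw [not_nonempty_iff] at hempty
          simp at hw1
        obtain ⟨i⟩ := hne
        have hpi : p i ∈ Mc := hp ⟨i, rfl⟩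
        obtain ⟨x1, hx1, hx1p⟩ := hpi
        have hwle : w i ≤ 1 := by
          rw [← hw1]
          exact Finset.single_le_sum (fun j _ => (hw0 j).le) (Finset.mem_univ i)
        have hwne : w i ≠ 1 := by
          intro h1
          apply hyn
          have hothers : ∀ j ∈ Finset.univ.erase i, w j = 0 := by
            have hs : ∑ j ∈ Finset.univ.erase i, w j = 0 := by
              have := Finset.add_sum_erase Finset.univ w (Finset.mem_univ i)
              rw [hw1, h1] at this
              linarith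
            exact (Finset.sum_eq_zero_iff_of_nonneg (fun j _ => (hw0 j).le)).1 hs
          have : y = p i := by
            rw [← hwz, ← Finset.add_sum_erase Finset.univ (fun j => w j • p j) (Finset.mem_univ i), h1,
              one_smul, Finset.sum_eq_zero, add_zero]
            intro j hj
            rw [hothers j hj, zero_smul]
          rw [this]
          exact hp ⟨i, rfl⟩
        have hwlt : w i < 1 := lt_of_le_of_ne hwle hwne
        refine ⟨x1, hx1, w i, hw0 i, hwlt, (1 - w i)⁻¹ • ∑ j ∈ Finset.univ.erase i, w j • p j, ?_, ?_⟩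
        · have hs : ∑ j ∈ Finset.univ.erase i, w j = 1 - w i := by
            have := Finset.add_sum_erase Finset.univ w (Finset.mem_univ i)
            rw [hw1] at this
            linarith
          have hpos : 0 < ∑ j ∈ Finset.univ.erase i, w j := by rw [hs]; linarith
          have := (Finset.univ.erase i).centerMass_mem_convexHull (R := ℝ) (s := Mc) (w := w) (z := p)
            (fun j _ => (hw0 j).le) hpos (fun j _ => hp ⟨j, rfl⟩)
          rw [Finset.centerMass, hs] at this
          exact this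
        · rw [hx1p, smul_smul, mul_inv_cancel₀ (by linarith), one_smul, ← hwz,
            ← Finset.add_sum_erase Finset.univ (fun j => w j • p j) (Finset.mem_univ i)]
      have hyne : mcurve n x1 ≠ y := by
        rintro rfl
        exact hyn ⟨x1, hx1, rfl⟩
      obtain ⟨hV1, hcV1⟩ := h14b.2 x1 hx1
      set V1 : ℂ → ℂ := fun z => 1 / (1 - x1 * z) with hV1def
      obtain ⟨V2, hV2, hcV2⟩ := hMS y2 hy2
      obtain ⟨hV, hcV⟩ := hcomb V1 hV1 V2 hV2 l hl0.le hl1.le
      set V : ℂ → ℂ := fun z => (l:ℂ) * V1 z + (1 - l) * V2 z with hVdef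
      have hcVy : cvec n V = y := by
        rw [hcV, hcV1 n, hcV2, hsmul, hsmul, hy]
      have heV : cvec n (fun z => κ (V z)) = B y := by rw [hB V hV, hcVy]
      -- the perturbed functions
      have hpert : ∀ W ∈ PP, DifferentiableOn ℂ
            (fun z => κ (V z) + ε * deriv κ (V z) * (W z - V z)) (ball 0 1) ∧
          ∃ Ws ∈ PP, ∀ z ∈ ball (0:ℂ) 1, κ (Ws z) = κ (V z) + ε * deriv κ (V z) * (W z - V z) := by
        intro W hW
        have hdκ : DifferentiableOn ℂ (fun z => deriv κ (V z)) (ball 0 1) :=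
          (hκPo.deriv t14_Po_open).comp hV.1 hV.2.2
        have hAd : DifferentiableOn ℂ
            (fun z => κ (V z) + ε * deriv κ (V z) * (W z - V z)) (ball 0 1) :=
          (hκV V hV).add (((differentiableOn_const _).mul hdκ).mul (hW.1.sub hV.1))
        refine ⟨hAd, ?_⟩
        refine t14_lift hU hPU hκ hc0 hc hAd ?_ ?_
        · show κ (V 0) + ε * deriv κ (V 0) * (W 0 - V 0) = κ 1
          rw [hV.2.1, hW.2.1]
          ring
        · intro z hz
          have h1 := hV.2.2 z hz
          have h2 : (1/2:ℝ) < (W z).re := hW.2.2 z hz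
          have h3 := hhp (V z) h1 (ε * (W z - V z)) (by
            rw [re_ofReal_mul, sub_re]
            nlinarith)
          have h4 : κ (V z) + ε * deriv κ (V z) * (W z - V z) =
              κ (V z) + deriv κ (V z) * (ε * (W z - V z)) := by ring
          show κ (V z) + ε * deriv κ (V z) * (W z - V z) ∈ κ '' Po
          rw [h4]
          exact h3
      obtain ⟨hA1d, W1, hW1, hW1e⟩ := hpert V1 hV1
      obtain ⟨hA2d, W2, hW2, hW2e⟩ := hpert V2 hV2
      have hsum : cvec n (fun z => κ (V z)) =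
          (l:ℂ) • cvec n (fun z => κ (W1 z)) + ((1 - l : ℝ) : ℂ) • cvec n (fun z => κ (W2 z)) := by
        rw [t14_cvec_congr hW1e, t14_cvec_congr hW2e, ← t14_cvec_lin hA1d hA2d]
        apply t14_cvec_congr
        intro z hz
        have : V z = (l:ℂ) * V1 z + (1 - l) * V2 z := rfl
        push_cast
        linear_combination (ε * deriv κ (V z)) * this
      have hmem1 : cvec n (fun z => κ (W1 z)) ∈ K := subset_convexHull ℝ Bn (hBnmem W1 hW1)
      have hmem2 : cvec n (fun z => κ (W2 z)) ∈ K := subset_convexHull ℝ Bn (hBnmem W2 hW2)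
      have hopen : B y ∈ openSegment ℝ (cvec n (fun z => κ (W1 z))) (cvec n (fun z => κ (W2 z))) := by
        refine ⟨l, 1 - l, hl0, by linarith, by ring, ?_⟩
        rw [← heV, hsum, hsmul, hsmul]
      have hfin : cvec n (fun z => κ (W1 z)) = B y := by
        have := (mem_extremePoints.1 he).2 _ hmem1 _ hmem2 hopen
        exact this.1
      rw [t14_cvec_congr hW1e, ← heV] at hfin
      have := h14d κ hκPo hd1 ε hε n V hV V1 hV1 hfin
      rw [hcV1 n, hcVy] at this
      exact hyne this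
    obtain ⟨x, hx, rfl⟩ := hvert
    have hx' : ‖x‖ = 1 := hx
    obtain ⟨hVx, hcVx⟩ := h14b.2 x hx'
    have hBx : B (mcurve n x) = cvec n (fun z => κ (1 / (1 - x * z))) := by
      rw [hB _ hVx, hcVx n]
    rw [hBx]
    intro j
    have h1 := t14_rot (fun z => κ (1 / (1 - z))) x ((j:ℕ) + 1)
    have h2 : iteratedDeriv ((j:ℕ) + 1) (fun z => κ (1 / (1 - x * z))) 0 =
        x ^ ((j:ℕ) + 1) * iteratedDeriv ((j:ℕ) + 1) (fun z => κ (1 / (1 - z))) 0 := by
      rw [h1]
      simp
    simp only [cvec]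
    rw [h2, norm_div, norm_mul, norm_pow, hx', one_pow, one_mul, norm_div]
  have hKD : K ⊆ D := by
    rw [← hKM]
    exact closure_minimal (convexHull_min hext hDconv) hDclosed
  intro V hV
  exact hKD (subset_convexHull ℝ Bn (hBnmem V hV))

end Mocanu
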