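import Pool.Agent.Helper267_mocanu.Stmts

/-!
# Task T14ab: coefficient vectors of functions with real part larger than `1/2`
-/

set_option autoImplicit false

namespace Mocanu

open Complex Set Filter Topology MeasureTheory Metric

namespace T14abAux

/-- the convex hull of a compact set in finite dimension is compact -/
theorem isCompact_hull {E : Type*} [NormedAddCommGroup E] [NormedSpace ℝ E]
    [FiniteDimensional ℝ E] {s : Set E} (hs : IsCompact s) : IsCompact (convexHull ℝ s) := by
  classical
  rcases s.eq_empty_or_nonempty with rfl | ⟨s0, hs0⟩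
  · simp
  set d := Module.finrank ℝ E with hd
  set F : (Fin (d + 1) → ℝ) × (Fin (d + 1) → E) → E := fun p => ∑ i, p.1 i • p.2 i with hF
  have hFc : Continuous F := by
    rw [hF]
    fun_prop
  have hK : IsCompact ((stdSimplex ℝ (Fin (d + 1))) ×ˢ (Set.univ.pi fun _ : Fin (d + 1) => s)) :=
    (isCompact_stdSimplex ℝ (Fin (d + 1))).prod (isCompact_univ_pi fun _ => hs)
  have himg : convexHull ℝ s =
      F '' ((stdSimplex ℝ (Fin (d + 1))) ×ˢ (Set.univ.pi fun _ : Fin (d + 1) => s)) := by
    apply Set.Subset.antisymm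
    · intro x hx
      obtain ⟨ι, hι, z, w, hz, hAI, hw, hsum, hx'⟩ := eq_pos_convex_span_of_mem_convexHull hx
      have hcard : Fintype.card ι ≤ d + 1 := by
        have := hAI.card_le_finrank_succ
        refine this.trans ?_
        have h2 : Module.finrank ℝ (vectorSpan ℝ (Set.range z)) ≤ Module.finrank ℝ E :=
          Submodule.finrank_le _
        omega
      obtain ⟨e⟩ : Nonempty (ι ↪ Fin (d + 1)) := by
        apply Function.Embedding.nonempty_of_card_le
        simpa using hcard
      refine ⟨(Function.extend e w 0, Function.extend e z (fun _ => s0)), ⟨⟨?_, ?_⟩, ?_⟩, ?_⟩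
      · intro j
        by_cases hj : ∃ i, e i = j
        · obtain ⟨i, rfl⟩ := hj
          simp only [e.injective.extend_apply]
          exact (hw i).le
        · simp only
          rw [Function.extend_apply' _ _ _ hj]
          simp
      · simp only
        rw [← hsum]
        symm
        apply Fintype.sum_of_injective e e.injective
        · intro j hj
          rw [Function.extend_apply' _ _ _ (by simpa using hj)]
          simp
        · intro i
          rw [e.injective.extend_apply]
      · intro j _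
        by_cases hj : ∃ i, e i = j
        · obtain ⟨i, rfl⟩ := hj
          simp only [e.injective.extend_apply]
          exact hz ⟨i, rfl⟩
        · simp only
          rw [Function.extend_apply' _ _ _ hj]
          exact hs0
      · rw [hF]
        simp only
        rw [← hx']
        symm
        apply Fintype.sum_of_injective e e.injective
        · intro j hj
          rw [Function.extend_apply' w _ _ (by simpa using hj)]
          simp
        · intro i
          rw [e.injective.extend_apply, e.injective.extend_apply]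
    · rintro _ ⟨⟨w, z⟩, ⟨⟨hw0, hw1⟩, hz⟩, rfl⟩
      exact (convex_convexHull ℝ s).sum_mem (fun i _ => hw0 i) hw1
        (fun i _ => subset_convexHull ℝ s (hz i (Set.mem_univ i)))
  rw [himg]
  exact hK.image hFc

/-- circle average of `V z (r/z)^k` -/
theorem avg1 (V : ℂ → ℂ) (hV : DifferentiableOn ℂ V (ball 0 1)) (r : ℝ) (hr : 0 < r) (hr1 : r < 1)
    (k : ℕ) : Real.circleAverage (fun z => V z * ((r : ℂ) / z) ^ k) 0 r =
      (r : ℂ) ^ k * (iteratedDeriv k V 0 / (k.factorial : ℂ)) := by
  have hV' : DifferentiableOn ℂ V (closedBall 0 r) :=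
    hV.mono (closedBall_subset_ball hr1)
  have h1 := hV'.circleIntegral_one_div_sub_center_pow_smul hr k
  rw [Real.circleAverage_eq_circleIntegral hr.ne']
  have h2 : (∮ z in C(0, r), (z - 0)⁻¹ • (V z * ((r : ℂ) / z) ^ k)) =
      (r : ℂ) ^ k * ∮ z in C(0, r), (1 / (z - 0) ^ (k + 1)) • V z := by
    rw [← circleIntegral.integral_const_mul]
    apply circleIntegral.integral_congr hr.le
    intro z hz
    have hz0 : z ≠ 0 := by
      rintro rfl
      simp at hz
      exact hr.ne' hz.symm
    simp only [sub_zero, smul_eq_mul]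
    rw [div_pow, pow_succ]
    have hzk : z ^ k ≠ 0 := pow_ne_zero _ hz0
    field_simp
  rw [h2, h1]
  simp only [smul_eq_mul]
  have h3 : (2 * (Real.pi : ℂ) * I) ≠ 0 := by
    simp [Real.pi_ne_zero]
  have h4 : ((k.factorial : ℂ)) ≠ 0 := by
    exact_mod_cast k.factorial_ne_zero
  field_simp

/-- circle average of `V z (z/r)^k` -/
theorem avg2 (V : ℂ → ℂ) (hV : DifferentiableOn ℂ V (ball 0 1)) (r : ℝ) (hr : 0 < r) (hr1 : r < 1)
    (k : ℕ) (hk : 1 ≤ k) : Real.circleAverage (fun z => V z * (z / (r : ℂ)) ^ k) 0 r = 0 := by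
  have hV' : DifferentiableOn ℂ V (closedBall 0 r) :=
    hV.mono (closedBall_subset_ball hr1)
  have hd : DifferentiableOn ℂ (fun z => V z * (z / (r : ℂ)) ^ k) (closedBall 0 r) := by
    apply hV'.mul
    fun_prop
  have hd' : DiffContOnCl ℂ (fun z => V z * (z / (r : ℂ)) ^ k) (ball 0 |r|) := by
    rw [abs_of_pos hr]
    exact (hd.mono closure_ball_subset_closedBall).diffContOnCl
  rw [hd'.circleAverage]
  have : k ≠ 0 := by omega
  simp [this]

theorem conj_avg (f : ℂ → ℂ) (r : ℝ) (hf : CircleIntegrable f 0 r) :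
    Real.circleAverage (fun z => (starRingEnd ℂ) (f z)) 0 r =
      (starRingEnd ℂ) (Real.circleAverage f 0 r) := by
  have := ContinuousLinearMap.circleAverage_comp_comm
    ((conjCLE : ℂ ≃L[ℝ] ℂ) : ℂ →L[ℝ] ℂ) hf
  exact this

/-- Fourier coefficients of `2 Re V - 1` -/
theorem fourier (V : ℂ → ℂ) (hV : DifferentiableOn ℂ V (ball 0 1)) (r : ℝ) (hr : 0 < r)
    (hr1 : r < 1) (k : ℕ) (hk : 1 ≤ k) :
    Real.circleAverage (fun z => ((2 * (V z).re - 1 : ℝ) : ℂ) * ((r : ℂ) / z) ^ k) 0 r =
      (r : ℂ) ^ k * (iteratedDeriv k V 0 / (k.factorial : ℂ)) := by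
  have hk0 : k ≠ 0 := by omega
  have hc : ContinuousOn V (sphere 0 r) :=
    (hV.mono ((sphere_subset_closedBall).trans (closedBall_subset_ball hr1))).continuousOn
  have hz0 : ∀ z ∈ sphere (0:ℂ) r, z ≠ 0 := by
    intro z hz h
    rw [h] at hz
    simp at hz
    exact hr.ne' hz.symm
  have hq : ContinuousOn (fun z : ℂ => (r : ℂ) / z) (sphere 0 r) :=
    continuousOn_const.div continuousOn_id hz0
  have c1 : CircleIntegrable (fun z => V z * ((r : ℂ) / z) ^ k) 0 r :=
    (hc.mul (hq.pow k)).circleIntegrable hr.le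
  have c2 : CircleIntegrable (fun z => V z * (z / (r : ℂ)) ^ k) 0 r :=
    (hc.mul (by fun_prop)).circleIntegrable hr.le
  have c3 : CircleIntegrable (fun z => (1 : ℂ) * (z / (r : ℂ)) ^ k) 0 r := by
    apply ContinuousOn.circleIntegrable hr.le
    fun_prop
  have c2' : CircleIntegrable (fun z => (starRingEnd ℂ) (V z * (z / (r : ℂ)) ^ k)) 0 r := by
    apply ContinuousOn.circleIntegrable hr.le
    exact Complex.continuous_conj.comp_continuousOn (hc.mul (by fun_prop))
  have c3' : CircleIntegrable (fun z => (starRingEnd ℂ) ((1 : ℂ) * (z / (r : ℂ)) ^ k)) 0 r := by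
    apply ContinuousOn.circleIntegrable hr.le
    exact Complex.continuous_conj.comp_continuousOn (by fun_prop)
  have e1 := avg1 V hV r hr hr1 k
  have e2 := avg2 V hV r hr hr1 k hk
  have e3 := avg2 (fun _ => 1) (differentiableOn_const _) r hr hr1 k hk
  have e2' := conj_avg _ r c2
  have e3' := conj_avg _ r c3
  rw [e2] at e2'
  rw [e3] at e3'
  have h : Set.EqOn (fun z => ((2 * (V z).re - 1 : ℝ) : ℂ) * ((r : ℂ) / z) ^ k)
      ((fun z => V z * ((r : ℂ) / z) ^ k) + ((fun z => (starRingEnd ℂ) (V z * (z / (r : ℂ)) ^ k)) -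
        (fun z => (starRingEnd ℂ) ((1 : ℂ) * (z / (r : ℂ)) ^ k)))) (sphere 0 |r|) := by
    intro z hz
    rw [abs_of_pos hr] at hz
    have hz1 := hz0 z hz
    have hn : z * (starRingEnd ℂ) z = (r : ℂ) ^ 2 := by
      rw [Complex.mul_conj, Complex.normSq_eq_norm_sq]
      simp at hz
      rw [hz]
      push_cast
      ring
    have hr0 : (r : ℂ) ≠ 0 := by exact_mod_cast hr.ne'
    have hdiv : (starRingEnd ℂ) z / (r : ℂ) = (r : ℂ) / z := by
      field_simp
      rw [mul_comm]
      exact hn
    have hre : ((2 * (V z).re - 1 : ℝ) : ℂ) = V z + (starRingEnd ℂ) (V z) - 1 := by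
      rw [Complex.add_conj]
      push_cast
      ring
    simp only [Pi.add_apply, Pi.sub_apply, map_mul, map_pow, map_div₀, Complex.conj_ofReal, hdiv,
      map_one, hre]
    ring
  rw [Real.circleAverage_congr_sphere h, Real.circleAverage_add c1 (c2'.sub c3'),
    Real.circleAverage_sub c2' c3', e1, e2', e3']
  simp

theorem fourier0 (V : ℂ → ℂ) (hV : DifferentiableOn ℂ V (ball 0 1)) (r : ℝ) (hr : 0 < r)
    (hr1 : r < 1) (h0 : V 0 = 1) :
    Real.circleAverage (fun z => (2 * (V z).re - 1 : ℝ)) 0 r = 1 := by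
  have hc : ContinuousOn V (sphere 0 r) :=
    (hV.mono ((sphere_subset_closedBall).trans (closedBall_subset_ball hr1))).continuousOn
  have hd' : DiffContOnCl ℂ V (ball 0 |r|) := by
    rw [abs_of_pos hr]
    exact (hV.mono (closure_ball_subset_closedBall.trans (closedBall_subset_ball hr1))).diffContOnCl
  have e := hd'.circleAverage
  have c1 : CircleIntegrable V 0 r := hc.circleIntegrable hr.le
  have e' := Complex.reCLM.circleAverage_comp_comm c1
  rw [e, h0] at e'
  have c2 : CircleIntegrable (fun z => (2:ℝ) • (V z).re) 0 r := by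
    apply ContinuousOn.circleIntegrable hr.le
    exact (Complex.continuous_re.comp_continuousOn hc).const_smul (2:ℝ)
  have c3 : CircleIntegrable (fun _ : ℂ => (1:ℝ)) 0 r := circleIntegrable_const _ _ _
  have h : (fun z => (2 * (V z).re - 1 : ℝ)) = (fun z => (2:ℝ) • (V z).re) - fun _ => (1:ℝ) := by
    ext z
    simp
  rw [h, Real.circleAverage_sub c2 c3, Real.circleAverage_fun_smul, Real.circleAverage_const]
  have e'' : Real.circleAverage (fun z => (V z).re) 0 r = 1 := by
    have h1 : reCLM (1:ℂ) = 1 := by simp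
    rw [h1] at e'
    exact e'
  rw [e'']
  norm_num

end T14abAux

open T14abAux in
theorem t14a : T14a := by
  intro n V hV
  obtain ⟨hVd, hV0, hVP⟩ := hV
  set K := convexHull ℝ (mcurve n '' {x : ℂ | ‖x‖ = 1}) with hK
  have hmc : Continuous (mcurve n) := by
    unfold mcurve
    fun_prop
  have hcirc : IsCompact {x : ℂ | ‖x‖ = 1} := by
    have : {x : ℂ | ‖x‖ = 1} = sphere 0 1 := by
      ext x; simp
    rw [this]
    exact isCompact_sphere 0 1
  have hKc : IsCompact K := isCompact_hull (hcirc.image hmc)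
  by_contra hcon
  obtain ⟨φ, u, hφ1, hφ2⟩ := geometric_hahn_banach_closed_point (convex_convexHull ℝ _)
    hKc.isClosed hcon
  -- bound on the curve
  have hub : ∀ x : ℂ, ‖x‖ = 1 → φ (mcurve n x) ≤ u := fun x hx =>
    (hφ1 _ (subset_convexHull ℝ _ ⟨x, hx, rfl⟩)).le
  -- the vector at radius `r`
  set cr : ℝ → (Fin n → ℂ) := fun r j => (r : ℂ) ^ ((j : ℕ) + 1) * cvec n V j with hcr
  have key : ∀ r : ℝ, 0 < r → r < 1 → φ (cr r) ≤ u := by
    intro r hr hr1
    have hc : ContinuousOn V (sphere 0 r) :=
      (hVd.mono ((sphere_subset_closedBall).trans (closedBall_subset_ball hr1))).continuousOn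
    have hz0 : ∀ z ∈ sphere (0:ℂ) r, z ≠ 0 := by
      intro z hz h
      rw [h] at hz
      simp at hz
      exact hr.ne' hz.symm
    have hq : ContinuousOn (fun z : ℂ => (r : ℂ) / z) (sphere 0 r) :=
      continuousOn_const.div continuousOn_id hz0
    have hw : ContinuousOn (fun z => (2 * (V z).re - 1 : ℝ)) (sphere 0 r) :=
      ((Complex.continuous_re.comp_continuousOn hc).const_mul 2 |>.congr (fun _ _ => rfl)).sub
        continuousOn_const
    have hvc : ContinuousOn (fun z => (2 * (V z).re - 1 : ℝ) • mcurve n ((r : ℂ) / z))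
        (sphere 0 r) := hw.smul (hmc.comp_continuousOn hq)
    have hvi : CircleIntegrable (fun z => (2 * (V z).re - 1 : ℝ) • mcurve n ((r : ℂ) / z)) 0 r :=
      hvc.circleIntegrable hr.le
    have havg : Real.circleAverage
        (fun z => (2 * (V z).re - 1 : ℝ) • mcurve n ((r : ℂ) / z)) 0 r = cr r := by
      ext j
      have hp := (ContinuousLinearMap.proj (R := ℝ) (φ := fun _ : Fin n => ℂ) j).circleAverage_comp_comm hvi
      have hp' : Real.circleAverage
        (fun z => (2 * (V z).re - 1 : ℝ) • mcurve n ((r : ℂ) / z)) 0 r j =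
        Real.circleAverage (fun z => ((2 * (V z).re - 1 : ℝ) : ℂ) * ((r : ℂ) / z) ^ ((j : ℕ) + 1)) 0 r := by
        rw [ContinuousLinearMap.proj_apply] at hp
        rw [← hp]
        congr 1
      rw [hp', fourier V hVd r hr hr1 _ (by omega)]
      simp [hcr, cvec]
    have hφc := φ.circleAverage_comp_comm hvi
    rw [havg] at hφc
    rw [← hφc]
    have hmono : Real.circleAverage
        (φ ∘ fun z => (2 * (V z).re - 1 : ℝ) • mcurve n ((r : ℂ) / z)) 0 r ≤
        Real.circleAverage (fun z => u • (2 * (V z).re - 1 : ℝ)) 0 r := by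
      apply Real.circleAverage_mono
      · apply ContinuousOn.circleIntegrable hr.le
        exact φ.continuous.comp_continuousOn hvc
      · apply ContinuousOn.circleIntegrable hr.le
        exact hw.const_smul u
      · intro z hz
        rw [abs_of_pos hr] at hz
        simp only [Function.comp_apply, map_smul, smul_eq_mul]
        rw [mul_comm u]
        apply mul_le_mul_of_nonneg_left
        · apply hub
          simp at hz
          rw [norm_div, hz]
          simp [abs_of_pos hr, hr.ne']
        · have hz1 : z ∈ ball (0:ℂ) 1 := by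
            simp at hz ⊢
            linarith
          have := hVP z hz1
          simp only [Po, Set.mem_ofPred_eq] at this
          linarith
    refine hmono.trans ?_
    rw [Real.circleAverage_fun_smul, fourier0 V hVd r hr hr1 hV0]
    simp
  -- the limit
  have hlim : Tendsto (fun r => φ (cr r)) (𝓝[<] 1) (𝓝 (φ (cvec n V))) := by
    have hcont : Continuous (fun r => φ (cr r)) := by
      rw [hcr]
      fun_prop
    have h1 : φ (cr 1) = φ (cvec n V) := by
      congr 1
      ext j
      simp [hcr]
    rw [← h1]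
    exact (hcont.tendsto 1).mono_left nhdsWithin_le_nhds
  have hle : φ (cvec n V) ≤ u := by
    refine le_of_tendsto hlim ?_
    have : ∀ᶠ r : ℝ in 𝓝[<] 1, 0 < r := by
      have : Set.Ioi (0:ℝ) ∈ 𝓝[<] (1:ℝ) := mem_nhdsWithin_of_mem_nhds (Ioi_mem_nhds one_pos)
      exact this
    filter_upwards [this, self_mem_nhdsWithin] with r h1 h2
    exact key r h1 h2
  linarith

namespace T14abAux

theorem PP_contDiffAt {V : ℂ → ℂ} (hV : V ∈ PP) (k : ℕ) : ContDiffAt ℂ k V 0 :=
  (hV.1.analyticAt (ball_mem_nhds 0 one_pos)).contDiffAt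

theorem geom_iter (x : ℂ) (hx : ‖x‖ = 1) (k : ℕ) : ∀ z ∈ ball (0:ℂ) 1,
    iteratedDeriv k (fun z => 1 / (1 - x * z)) z =
      (k.factorial : ℂ) * x ^ k * ((1 - x * z)⁻¹) ^ (k + 1) := by
  induction k with
  | zero =>
    intro z _
    simp
  | succ k ih =>
    intro z hz
    rw [iteratedDeriv_succ]
    have hev : iteratedDeriv k (fun z => 1 / (1 - x * z)) =ᶠ[𝓝 z]
        fun z => (k.factorial : ℂ) * x ^ k * ((1 - x * z)⁻¹) ^ (k + 1) := by
      filter_upwards [isOpen_ball.mem_nhds hz] with w hw
      exact ih w hw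
    rw [hev.deriv_eq]
    have hne : 1 - x * z ≠ 0 := by
      intro h
      have h1 : x * z = 1 := by linear_combination -h
      have h2 : ‖x * z‖ = 1 := by rw [h1]; simp
      rw [norm_mul, hx, one_mul] at h2
      simp at hz
      linarith
    have h1 : HasDerivAt (fun z : ℂ => 1 - x * z) (-x) z := by
      have := ((hasDerivAt_id z).const_mul x).const_sub 1
      simpa using this
    have h2 := ((h1.inv hne).pow (k + 1)).const_mul ((k.factorial : ℂ) * x ^ k)
    have h3 : HasDerivAt (fun z => (k.factorial : ℂ) * x ^ k * ((1 - x * z)⁻¹) ^ (k + 1))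
        (((k + 1).factorial : ℂ) * x ^ (k + 1) * ((1 - x * z)⁻¹) ^ (k + 1 + 1)) z := by
      refine HasDerivAt.congr_deriv h2 ?_
      rw [Nat.factorial_succ]
      push_cast
      have h5 : (- -x / (1 - x * z) ^ 2) = x * ((1 - x * z)⁻¹) ^ 2 := by
        rw [neg_neg, inv_pow, div_eq_mul_inv]
      rw [h5]
      simp only [Pi.inv_apply]
      ring
    exact h3.deriv

end T14abAux

open T14abAux in
theorem t14b : T14b := by
  refine ⟨?_, ?_⟩
  · intro V₁ h₁ V₂ h₂ l hl0 hl1
    refine ⟨⟨?_, ?_, ?_⟩, ?_⟩
    · exact (h₁.1.const_mul _).add (h₂.1.const_mul _)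
    · simp only
      rw [h₁.2.1, h₂.2.1]
      ring
    · intro z hz
      have a1 := h₁.2.2 z hz
      have a2 := h₂.2.2 z hz
      simp only [Po, Set.mem_ofPred_eq] at a1 a2 ⊢
      have : ((l:ℂ) * V₁ z + (1 - l) * V₂ z).re = l * (V₁ z).re + (1 - l) * (V₂ z).re := by
        simp
      rw [this]
      rcases eq_or_lt_of_le hl0 with h | h
      · rw [← h]
        linarith
      · nlinarith [mul_pos h (sub_pos.2 a1), mul_nonneg (sub_nonneg.2 hl1) (sub_pos.2 a2).le]
    · intro n
      ext j
      simp only [cvec, Pi.add_apply, Pi.smul_apply, smul_eq_mul]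
      have c1 : ContDiffAt ℂ ((j:ℕ) + 1 : ℕ) (fun z => (l:ℂ) * V₁ z) 0 :=
        contDiffAt_const.mul (PP_contDiffAt h₁ _)
      have c2 : ContDiffAt ℂ ((j:ℕ) + 1 : ℕ) (fun z => (1 - (l:ℂ)) * V₂ z) 0 :=
        contDiffAt_const.mul (PP_contDiffAt h₂ _)
      rw [iteratedDeriv_fun_add c1 c2, iteratedDeriv_const_mul_field, iteratedDeriv_const_mul_field]
      push_cast
      ring
  · intro x hx
    refine ⟨⟨?_, ?_, ?_⟩, ?_⟩
    · intro z hz
      apply DifferentiableAt.differentiableWithinAt
      have hne : 1 - x * z ≠ 0 := by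
        intro h
        have h1 : x * z = 1 := by linear_combination -h
        have h2 : ‖x * z‖ = 1 := by rw [h1]; simp
        rw [norm_mul, hx, one_mul] at h2
        simp at hz
        linarith
      fun_prop (disch := exact hne)
    · simp
    · intro z hz
      simp only [Po, Set.mem_ofPred_eq]
      set w := x * z with hw
      have hw1 : ‖w‖ < 1 := by
        rw [hw, norm_mul, hx, one_mul]
        simpa using hz
      have hn : Complex.normSq w < 1 := by
        rw [Complex.normSq_eq_norm_sq]
        nlinarith [norm_nonneg w]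
      have hn' : 0 < Complex.normSq (1 - w) := by
        rw [Complex.normSq_pos]
        intro h
        have : w = 1 := by linear_combination -h
        rw [this] at hw1
        simp at hw1
      rw [one_div (1 - w), Complex.inv_re, lt_div_iff₀ hn']
      simp only [Complex.normSq_apply, Complex.sub_re, Complex.sub_im, Complex.one_re,
        Complex.one_im] at hn hn' ⊢
      nlinarith
    · intro n
      ext j
      simp only [cvec, mcurve]
      rw [geom_iter x hx _ 0 (mem_ball_self one_pos)]
      have h4 : ((((j:ℕ) + 1).factorial : ℂ)) ≠ 0 := by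
        exact_mod_cast ((j:ℕ)+1).factorial_ne_zero
      simp only [mul_zero, sub_zero, inv_one, one_pow, mul_one]
      field_simp

end Mocanu
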