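import Pool.Agent.Helper267_mocanu.Stmts
import Pool.Agent.R194.Baz.Tay

/-! Tasks T14c, T14d: local dependence of the coefficients of `κ ∘ V` on those of `V`. -/

set_option autoImplicit false

namespace Mocanu

open Complex Set Filter Topology MeasureTheory Metric
open Pool.Agent.R194.Baz

lemma t14_Po_open : IsOpen Po := isOpen_lt continuous_const Complex.continuous_re

lemma t14_one_mem : (1 : ℂ) ∈ Po := by
  simp only [Po, mem_ofPred_eq, one_re]
  norm_num

lemma t14_an {f : ℂ → ℂ} (hf : DifferentiableOn ℂ f (ball 0 1)) : AnalyticAt ℂ f 0 :=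
  hf.analyticAt (ball_mem_nhds _ one_pos)

lemma t14_comp {κ V : ℂ → ℂ} (hκ : DifferentiableOn ℂ κ Po) (hV : V ∈ PP) :
    DifferentiableOn ℂ (fun z => κ (V z)) (ball 0 1) :=
  hκ.comp hV.1 fun z hz => hV.2.2 z hz

lemma cvec_apply (n : ℕ) (V : ℂ → ℂ) (i : Fin n) :
    cvec n V i = PowerSeries.coeff ((i : ℕ) + 1) (tay V) := by
  rw [cvec, coeff_tay]

lemma t14_dslope {κ : ℂ → ℂ} (hκ : DifferentiableOn ℂ κ Po) :
    DifferentiableOn ℂ (dslope κ 1) Po :=
  (Complex.differentiableOn_dslope (t14_Po_open.mem_nhds t14_one_mem)).mpr hκ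

lemma t14_step {κ V : ℂ → ℂ} (hκ : DifferentiableOn ℂ κ Po) (hV : V ∈ PP) :
    tay (fun z => κ (V z)) = PowerSeries.C (κ 1) +
      tay (fun z => V z - 1) * tay (fun z => dslope κ 1 (V z)) := by
  have h1 : DifferentiableOn ℂ (fun z => V z - 1) (ball 0 1) := hV.1.sub_const 1
  have h2 := t14_comp (t14_dslope hκ) hV
  have h5 : AnalyticAt ℂ (fun z => (V z - 1) * dslope κ 1 (V z)) 0 :=
    (t14_an h1).mul (t14_an h2)
  rw [← tay_mul (t14_an h1) (t14_an h2), ← tay_const, ← tay_add analyticAt_const h5]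
  congr 1
  funext z
  have h3 := sub_smul_dslope κ 1 (V z)
  rw [smul_eq_mul] at h3
  rw [h3]
  ring

lemma t14_sub_one {V : ℂ → ℂ} (hV : V ∈ PP) (p : ℕ) (hp : 1 ≤ p) :
    PowerSeries.coeff p (tay (fun z => V z - 1)) = PowerSeries.coeff p (tay V) := by
  have h1 : (fun z => V z - 1) = fun z => V z + (fun _ : ℂ => (-1 : ℂ)) z := by
    funext z
    ring
  rw [h1, tay_add (t14_an hV.1) analyticAt_const, tay_const, map_add, PowerSeries.coeff_C,
    if_neg (by omega), add_zero]

lemma t14_sub_one_zero {V : ℂ → ℂ} (hV : V ∈ PP) :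
    PowerSeries.coeff 0 (tay (fun z => V z - 1)) = 0 := by
  rw [PowerSeries.coeff_zero_eq_constantCoeff_apply, tay_zero, hV.2.1]
  ring

/-- the coefficient number `j` -/
lemma t14_coeff (j : ℕ) : ∀ κ : ℂ → ℂ, DifferentiableOn ℂ κ Po →
    ∃ b : (Fin j → ℂ) → ℂ, Continuous b ∧ ∀ V ∈ PP,
      PowerSeries.coeff j (tay (fun z => κ (V z))) = b (cvec j V) := by
  induction j using Nat.strong_induction_on with
  | _ j ih =>
    intro κ hκ
    rcases Nat.eq_zero_or_pos j with hj | hj
    · subst hj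
      refine ⟨fun _ => κ 1, continuous_const, fun V hV => ?_⟩
      rw [PowerSeries.coeff_zero_eq_constantCoeff_apply, tay_zero, hV.2.1]
    · obtain ⟨m, rfl⟩ : ∃ m, j = m + 1 := ⟨j - 1, by omega⟩
      have h1 : ∀ q : Fin (m + 1), ∃ b : (Fin (q : ℕ) → ℂ) → ℂ, Continuous b ∧ ∀ V ∈ PP,
          PowerSeries.coeff (q : ℕ) (tay (fun z => dslope κ 1 (V z))) = b (cvec q V) :=
        fun q => ih q q.2 _ (t14_dslope hκ)
      choose b hb1 hb2 using h1
      refine ⟨fun c => ∑ q : Fin (m + 1), c (Fin.rev q) *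
        b q (fun i => c (Fin.castLE (by omega) i)), ?_, ?_⟩
      · refine continuous_finsetSum _ fun q _ => ?_
        refine (continuous_apply _).mul ((hb1 q).comp ?_)
        exact continuous_pi fun i => continuous_apply _
      · intro V hV
        rw [t14_step hκ hV, map_add, PowerSeries.coeff_C, if_neg (by omega), zero_add,
          PowerSeries.coeff_mul, Finset.Nat.sum_antidiagonal_eq_sum_range_succ_mk,
          ← Finset.sum_range_reflect, Finset.sum_range_succ]
        have h2 : m + 1 + 1 - 1 - (m + 1) = 0 := by omega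
        simp only [h2, t14_sub_one_zero hV, zero_mul, add_zero]
        rw [← Fin.sum_univ_eq_sum_range (fun q => PowerSeries.coeff (m + 1 + 1 - 1 - q)
          (tay (fun z => V z - 1)) * PowerSeries.coeff (m + 1 - (m + 1 + 1 - 1 - q))
          (tay (fun z => dslope κ 1 (V z)))) (m + 1)]
        refine Finset.sum_congr rfl fun q _ => ?_
        have hq := q.2
        have h3 : m + 1 + 1 - 1 - (q : ℕ) = ((Fin.rev q : Fin (m + 1)) : ℕ) + 1 := by
          rw [Fin.val_rev]
          omega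
        have h4 : m + 1 - (m + 1 + 1 - 1 - (q : ℕ)) = (q : ℕ) := by omega
        rw [h4, hb2 q V hV, h3, t14_sub_one hV _ (by omega), cvec_apply]
        congr 2

theorem t14c : T14c := by
  intro κ hκ n
  have h1 : ∀ i : Fin n, ∃ b : (Fin ((i : ℕ) + 1) → ℂ) → ℂ, Continuous b ∧ ∀ V ∈ PP,
      PowerSeries.coeff ((i : ℕ) + 1) (tay (fun z => κ (V z))) = b (cvec ((i : ℕ) + 1) V) :=
    fun i => t14_coeff _ κ hκ
  choose b hb1 hb2 using h1
  refine ⟨fun c i => b i (fun k => c (Fin.castLE (by omega) k)), ?_, ?_⟩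
  · refine continuous_pi fun i => (hb1 i).comp ?_
    exact continuous_pi fun k => continuous_apply _
  · intro V hV
    funext i
    rw [cvec_apply, hb2 i V hV]
    rfl

theorem t14d : T14d := by
  intro κ hκ h1 ε hε n V hV V₁ hV₁ heq
  have hκ' : DifferentiableOn ℂ (deriv κ) Po := hκ.deriv t14_Po_open
  have a1 := t14_an (t14_comp hκ hV)
  have a2 := t14_an (t14_comp hκ' hV)
  have a3 := t14_an hV.1
  have a4 := t14_an hV₁.1
  have a5 : AnalyticAt ℂ (fun z => V₁ z - V z) 0 := a4.sub a3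
  have a6 : AnalyticAt ℂ (fun z => (ε : ℂ) * deriv κ (V z)) 0 := analyticAt_const.mul a2
  have h2 : tay (fun z => κ (V z) + ε * deriv κ (V z) * (V₁ z - V z)) =
      tay (fun z => κ (V z)) + tay (fun z => (ε : ℂ) * deriv κ (V z)) *
        tay (fun z => V₁ z - V z) := by
    have a7 : AnalyticAt ℂ (fun z => (ε : ℂ) * deriv κ (V z) * (V₁ z - V z)) 0 := a6.mul a5
    rw [← tay_mul a6 a5, ← tay_add a1 a7]
  have hu : IsUnit (tay (fun z => (ε : ℂ) * deriv κ (V z))) := by
    rw [PowerSeries.isUnit_iff_constantCoeff, tay_zero, hV.2.1, isUnit_iff_ne_zero]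
    exact mul_ne_zero (by exact_mod_cast hε.ne') h1
  have h3 : PowerSeries.X ^ (n + 1) ∣ tay (fun z => (ε : ℂ) * deriv κ (V z)) *
      tay (fun z => V₁ z - V z) := by
    rw [PowerSeries.X_pow_dvd_iff]
    intro m hm
    rcases Nat.eq_zero_or_pos m with h0 | h0
    · subst h0
      rw [PowerSeries.coeff_zero_eq_constantCoeff_apply, map_mul, tay_zero, tay_zero, hV.2.1,
        hV₁.2.1]
      ring
    · obtain ⟨i, rfl⟩ : ∃ i, m = i + 1 := ⟨m - 1, by omega⟩
      have h4 := congrFun heq ⟨i, by omega⟩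
      rw [cvec_apply, cvec_apply, h2, map_add] at h4
      simpa using h4
  rw [IsUnit.dvd_mul_left hu, PowerSeries.X_pow_dvd_iff] at h3
  have h5 : tay V₁ = tay V + tay (fun z => V₁ z - V z) := by
    rw [← tay_add a3 a5]
    congr 1
    funext z
    ring
  funext i
  rw [cvec_apply, cvec_apply, h5, map_add, h3 _ (by have := i.2; omega), add_zero]

end Mocanu
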