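import Pool.Agent.Helper267_mocanu.Stmts

set_option autoImplicit false

namespace Mocanu

open Complex Set Filter Topology MeasureTheory Metric

namespace T15Aux

lemma bp_re (t : ℝ) : (bp t).re = 1 / 2 := by
  simp [bp]

lemma isOpen_RH : IsOpen RH := isOpen_lt continuous_const Complex.continuous_re

lemma Po_sub_Pb : Po ⊆ Pb := by
  intro W hW
  have h : 1 / 2 < W.re := hW
  exact h.le

lemma V_mem {z : ℂ} (hz : z ∈ ball (0:ℂ) 1) : 1 / (1 - z) ∈ Po := by
  have hz' : ‖z‖ < 1 := by simpa using hz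
  have h1 : Complex.normSq z < 1 := by
    rw [Complex.normSq_eq_norm_sq]; nlinarith [norm_nonneg z]
  show 1 / 2 < (1 / (1 - z)).re
  rw [one_div (1 - z), Complex.inv_re]
  have h2 : 0 < Complex.normSq (1 - z) := by
    apply Complex.normSq_pos.2
    intro h
    have : z = 1 := by linear_combination -h
    rw [this] at hz'; simp at hz'
  rw [lt_div_iff₀ h2]
  rw [Complex.normSq_apply] at h1 ⊢
  simp only [Complex.sub_re, Complex.one_re, Complex.sub_im, Complex.one_im]
  nlinarith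

lemma one_sub_ne {z : ℂ} (hz : z ∈ ball (0:ℂ) 1) : 1 - z ≠ 0 := by
  intro h
  have : z = 1 := by linear_combination -h
  rw [this] at hz; simp at hz

lemma V_deriv {z : ℂ} (hz : z ∈ ball (0:ℂ) 1) :
    HasDerivAt (fun z : ℂ => 1 / (1 - z)) ((1 / (1 - z)) ^ 2) z := by
  have h1 : HasDerivAt (fun z : ℂ => 1 - z) (-1) z := by
    simpa using (hasDerivAt_id z).const_sub 1
  have h2 := (hasDerivAt_const z (1:ℂ)).div h1 (one_sub_ne hz)
  refine h2.congr_deriv ?_
  have := one_sub_ne hz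
  field_simp
  ring

/-- Noshiro-Warschawski on a convex set -/
lemma inj_of_re_deriv_pos {S : Set ℂ} (hS : Convex ℝ S) (L L' : ℂ → ℂ)
    (hL : ∀ s ∈ S, HasDerivAt L (L' s) s) (hpos : ∀ s ∈ S, 0 < (L' s).re) : InjOn L S := by
  intro s hs t ht hst
  by_contra hne
  set d := t - s with hd
  have hd0 : d ≠ 0 := by
    intro h; apply hne; linear_combination -h
  have hmem : ∀ x ∈ Icc (0:ℝ) 1, s + (x:ℂ) * d ∈ S := by
    intro x hx
    have := hS hs ht (show 0 ≤ 1 - x by linarith [hx.2]) hx.1 (by ring)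
    convert this using 1
    simp only [Complex.real_smul, hd]
    push_cast; ring
  have hder : ∀ x ∈ Icc (0:ℝ) 1, HasDerivAt (fun x : ℝ => (L (s + (x:ℂ) * d) * (starRingEnd ℂ) d).re)
      ((L' (s + (x:ℂ) * d) * d * (starRingEnd ℂ) d).re) x := by
    intro x hx
    have h1 : HasDerivAt (fun x : ℝ => s + (x:ℂ) * d) d x := by
      have := (((Complex.ofRealCLM.hasDerivAt (x := x)).mul_const d).const_add s)
      simpa using this
    have h2 : HasDerivAt (fun x : ℝ => L (s + (x:ℂ) * d)) (L' (s + (x:ℂ) * d) * d) x :=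
      HasDerivAt.comp (h₂ := L) (h := fun x : ℝ => s + (x:ℂ) * d) x (hL _ (hmem x hx)) h1
    exact Complex.reCLM.hasFDerivAt.comp_hasDerivAt x (h2.mul_const ((starRingEnd ℂ) d))
  have hmono : StrictMonoOn (fun x : ℝ => (L (s + (x:ℂ) * d) * (starRingEnd ℂ) d).re) (Icc 0 1) := by
    apply strictMonoOn_of_deriv_pos (convex_Icc 0 1)
    · intro x hx
      exact (hder x hx).continuousAt.continuousWithinAt
    · intro x hx
      rw [interior_Icc] at hx
      rw [(hder x ⟨hx.1.le, hx.2.le⟩).deriv, mul_assoc, Complex.mul_conj, Complex.re_mul_ofReal]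
      exact mul_pos (hpos _ (hmem x ⟨hx.1.le, hx.2.le⟩)) (Complex.normSq_pos.2 hd0)
  have := hmono (left_mem_Icc.2 zero_le_one) (right_mem_Icc.2 zero_le_one) zero_lt_one
  simp only [Complex.ofReal_zero, zero_mul, add_zero, Complex.ofReal_one, one_mul] at this
  have hs' : s + d = t := by rw [hd]; ring
  rw [hs', hst] at this
  exact lt_irrefl _ this

end T15Aux

open T15Aux

theorem t15a : T15a := by
  intro h3a h4 b v HA W hW
  have hb : 1 < b := HA.base.hb
  have hb0 : 0 < b := by linarith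
  obtain ⟨U, hUo, hPU, hURH, hU⟩ := HA.low.nbhd
  obtain ⟨c, hc, hcW⟩ := HA.low.wv
  have hlam : 0 < 2 - 1 / b := by
    have : 1 / b < 1 := by rw [div_lt_one hb0]; exact hb
    linarith
  have hlam2 : 2 - 1 / b ≤ 2 := by
    have : 0 < 1 / b := by positivity
    linarith
  have key := h3a (fun W => (v W)⁻¹ - ((2 - 1 / b : ℝ) : ℂ) * (W - 1 / 2)) U hUo hPU ?_
    (1 / c + 2) 1 (by norm_num) (by norm_num) ?_ 0 ?_ 0 ?_ W (Po_sub_Pb hW)
  · simp only [Complex.sub_re, Complex.re_ofReal_mul] at key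
    have h1 : (1 / 2 : ℂ).re = 1 / 2 := by norm_num
    rw [h1] at key
    have h2 : 0 < (2 - 1 / b) * (W.re - 1 / 2) := mul_pos hlam (by have : 1 / 2 < W.re := hW; linarith)
    linarith
  · apply DifferentiableOn.sub
    · apply DifferentiableOn.inv
      · exact HA.base.diff.mono hURH
      · intro W hW; exact (hU W hW).1
    · fun_prop
  · intro W hW
    rw [Real.rpow_one]
    have hv0 : v W ≠ 0 := (hU W (hPU hW)).1
    have h1 : ‖(v W)⁻¹‖ ≤ (1 / c) * ‖W‖ := by
      rw [norm_inv]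
      have h2 : c ≤ ‖W‖ * ‖v W‖ := by
        rw [← norm_mul]; exact (hcW W hW).trans (Complex.re_le_norm _)
      rw [inv_le_iff_one_le_mul₀ (norm_pos_iff.2 hv0)]
      rw [div_mul_eq_mul_div, div_mul_eq_mul_div, one_mul, le_div_iff₀ hc, one_mul]
      exact h2
    have h3 : ‖((2 - 1 / b : ℝ) : ℂ) * (W - 1 / 2)‖ ≤ 2 * (1 + ‖W‖) := by
      rw [norm_mul, Complex.norm_real, Real.norm_eq_abs, abs_of_pos hlam]
      have : ‖W - 1 / 2‖ ≤ 1 + ‖W‖ := by
        refine (norm_sub_le _ _).trans ?_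
        have : ‖(1 / 2 : ℂ)‖ ≤ 1 := by norm_num
        linarith
      exact mul_le_mul hlam2 this (norm_nonneg _) (by norm_num)
    calc ‖(v W)⁻¹ - ((2 - 1 / b : ℝ) : ℂ) * (W - 1 / 2)‖ ≤ ‖(v W)⁻¹‖ + ‖((2 - 1 / b : ℝ) : ℂ) * (W - 1 / 2)‖ := norm_sub_le _ _
      _ ≤ (1 / c) * ‖W‖ + 2 * (1 + ‖W‖) := add_le_add h1 h3
      _ ≤ (1 / c + 2) * (1 + ‖W‖) := by
        have : 0 < 1 / c := by positivity
        nlinarith [norm_nonneg W]
  · intro x hx
    obtain ⟨hi, hlo, hhi⟩ := h4 b v HA.base x (by linarith)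
    have hvx : v x = ((v x).re : ℂ) := by
      apply Complex.ext <;> simp [hi]
    have hx0 : 0 < (2 - 1 / b) * (x - 1 / 2) := mul_pos hlam (by linarith)
    have hpos : 0 < (v x).re := by
      refine lt_of_lt_of_le ?_ hlo
      have : 0 < (2 - 1 / b) * (x - 1) := mul_pos hlam (by linarith)
      positivity
    have h1 : ((v x)⁻¹).re = ((v x).re)⁻¹ := by
      rw [hvx, ← Complex.ofReal_inv]; simp
    have h2 : (2 - 1 / b) * (x - 1 / 2) ≤ ((v x).re)⁻¹ := by
      rw [le_inv_comm₀ hx0 hpos, inv_eq_one_div]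
      exact hhi
    simp only [Complex.sub_re, Complex.re_ofReal_mul, h1]
    have h3 : (1 / 2 : ℂ).re = 1 / 2 := by norm_num
    rw [h3, Complex.ofReal_re]
    linarith
  · intro t
    simp only [Complex.sub_re, Complex.re_ofReal_mul, bp_re]
    have h3 : (1 / 2 : ℂ).re = 1 / 2 := by norm_num
    rw [h3]
    have := HA.X_pos t
    linarith

theorem t15b : T15b := by
  intro b v HA hQ
  have hb : 1 < b := HA.base.hb
  have hb0 : 0 < b := by linarith
  have hbc : (b : ℂ) ≠ 0 := by exact_mod_cast hb0.ne'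
  obtain ⟨U, hUo, hPU, hURH, hU⟩ := HA.low.nbhd
  obtain ⟨U₂, hU₂o, hPU₂, hU₂RH, hkd⟩ := HA.kb.nbhd
  have hv0 : ∀ W ∈ Pb, v W ≠ 0 := fun W hW => (hU W (hPU hW)).1
  have hvd : ∀ W ∈ Pb, HasDerivAt v (deriv v W) W := fun W hW =>
    ((HA.base.diff W (hURH (hPU hW))).differentiableAt (isOpen_RH.mem_nhds (hURH (hPU hW)))).hasDerivAt
  have hkap : ∀ W ∈ Pb, HasDerivAt (kap b v) (deriv (kap b v) W) W := fun W hW =>
    ((hkd W (hPU₂ hW)).differentiableAt (hU₂o.mem_nhds (hPU₂ hW))).hasDerivAt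
  have hV : ∀ z ∈ ball (0:ℂ) 1, 1 / (1 - z) ∈ Pb := fun z hz => Po_sub_Pb (V_mem hz)
  have hzV : ∀ z ∈ ball (0:ℂ) 1, z * (1 / (1 - z)) ^ 2 = (1 / (1 - z)) * (1 / (1 - z) - 1) := by
    intro z hz
    have := one_sub_ne hz
    field_simp
    ring
  -- derivative of f
  have hf1 : ∀ z ∈ ball (0:ℂ) 1, HasDerivAt (fun z => z * kap b v (1 / (1 - z)))
      (kap b v (1 / (1 - z)) * (v (1 / (1 - z)))⁻¹) z := by
    intro z hz
    have h1 : HasDerivAt (fun z => kap b v (1 / (1 - z))) (deriv (kap b v) (1 / (1 - z)) * (1 / (1 - z)) ^ 2) z :=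
      HasDerivAt.comp (h₂ := kap b v) (h := fun z : ℂ => 1 / (1 - z)) z (hkap _ (hV z hz)) (V_deriv hz)
    have h2 := (hasDerivAt_id z).mul h1
    refine h2.congr_deriv ?_
    have h3 := HA.kb.ode _ (hV z hz)
    have h4 := hzV z hz
    simp only [id]
    linear_combination (deriv (kap b v) (1 / (1 - z))) * h4 + h3
  have hfd : ∀ z ∈ ball (0:ℂ) 1, deriv (fun z => z * kap b v (1 / (1 - z))) z =
      kap b v (1 / (1 - z)) * (v (1 / (1 - z)))⁻¹ := fun z hz => (hf1 z hz).deriv
  have hf2 : ∀ z ∈ ball (0:ℂ) 1, deriv (deriv (fun z => z * kap b v (1 / (1 - z)))) z =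
      deriv (kap b v) (1 / (1 - z)) * (1 / (1 - z)) ^ 2 * (v (1 / (1 - z)))⁻¹ +
      kap b v (1 / (1 - z)) * (-(deriv v (1 / (1 - z)) * (1 / (1 - z)) ^ 2) / (v (1 / (1 - z))) ^ 2) := by
    intro z hz
    have hev : deriv (fun z => z * kap b v (1 / (1 - z))) =ᶠ[𝓝 z]
        fun z => kap b v (1 / (1 - z)) * (v (1 / (1 - z)))⁻¹ := by
      filter_upwards [isOpen_ball.mem_nhds hz] with w hw
      exact hfd w hw
    rw [hev.deriv_eq]
    have h1 : HasDerivAt (fun z => kap b v (1 / (1 - z))) (deriv (kap b v) (1 / (1 - z)) * (1 / (1 - z)) ^ 2) z :=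
      HasDerivAt.comp (h₂ := kap b v) (h := fun z : ℂ => 1 / (1 - z)) z (hkap _ (hV z hz)) (V_deriv hz)
    have h2 : HasDerivAt (fun z => v (1 / (1 - z))) (deriv v (1 / (1 - z)) * (1 / (1 - z)) ^ 2) z :=
      HasDerivAt.comp (h₂ := v) (h := fun z : ℂ => 1 / (1 - z)) z (hvd _ (hV z hz)) (V_deriv hz)
    have h3 := h1.mul (h2.inv (hv0 _ (hV z hz)))
    exact h3.deriv
  refine ⟨fun z hz => (hf1 z hz).differentiableAt.differentiableWithinAt, ?_, by simp, ?_, ?_⟩
  · -- injectivity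
    set S : Set ℂ := {s | s.re < 0} with hS
    have hSc : Convex ℝ S := convex_halfSpace_re_lt 0
    have hexp : ∀ s ∈ S, exp s ∈ ball (0:ℂ) 1 := by
      intro s hs
      rw [mem_ball_zero_iff, Complex.norm_exp]
      rw [← Real.exp_zero]
      exact Real.exp_lt_exp.2 hs
    set L : ℂ → ℂ := fun s => s + (((2 - 1 / b : ℝ) : ℂ) * log (1 / (1 - exp s)) +
      ((1 / b : ℝ) : ℂ) * log ((1 / (1 - exp s)) * v (1 / (1 - exp s)))) with hL
    have hLd : ∀ s ∈ S, HasDerivAt L ((v (1 / (1 - exp s)))⁻¹) s := by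
      intro s hs
      have hz := hexp s hs
      have h0 : HasDerivAt (fun s => 1 / (1 - exp s)) ((1 / (1 - exp s)) ^ 2 * exp s) s :=
        HasDerivAt.comp (h₂ := fun z : ℂ => 1 / (1 - z)) (h := exp) s (V_deriv hz) (Complex.hasDerivAt_exp s)
      have h1 : HasDerivAt (fun s => v (1 / (1 - exp s))) (deriv v (1 / (1 - exp s)) * ((1 / (1 - exp s)) ^ 2 * exp s)) s :=
        HasDerivAt.comp (h₂ := v) (h := fun s : ℂ => 1 / (1 - exp s)) s (hvd _ (hV _ hz)) h0
      have hre : 0 < (1 / (1 - exp s)).re := by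
        have : 1 / 2 < (1 / (1 - exp s)).re := V_mem hz
        linarith
      have hwv : 0 < ((1 / (1 - exp s)) * v (1 / (1 - exp s))).re := (hU _ (hPU (hV _ hz))).2.2.1
      have h2 : HasDerivAt (fun s => log (1 / (1 - exp s))) (((1 / (1 - exp s)) ^ 2 * exp s) / (1 / (1 - exp s))) s :=
        h0.clog (Or.inl hre)
      have h3 : HasDerivAt (fun s => log ((1 / (1 - exp s)) * v (1 / (1 - exp s))))
        ((((1 / (1 - exp s)) ^ 2 * exp s) * v (1 / (1 - exp s)) + (1 / (1 - exp s)) * (deriv v (1 / (1 - exp s)) * ((1 / (1 - exp s)) ^ 2 * exp s))) / ((1 / (1 - exp s)) * v (1 / (1 - exp s)))) s :=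
        (h0.mul h1).clog (Or.inl hwv)
      have h4 : HasDerivAt L _ s := (hasDerivAt_id s).add ((h2.const_mul ((2 - 1 / b : ℝ) : ℂ)).add (h3.const_mul ((1 / b : ℝ) : ℂ)))
      refine h4.congr_deriv ?_
      have hode := HA.base.ode _ (hURH (hPU (hV _ hz)))
      have h5 := hzV _ hz
      have hW0 : 1 / (1 - exp s) ≠ 0 := by
        intro h; rw [h] at hre; simp at hre
      have hvW := hv0 _ (hV _ hz)
      set W := 1 / (1 - exp s) with hWdef
      have h6 : W ^ 2 * exp s = W * (W - 1) := by rw [← h5]; ring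
      rw [h6]
      have h7 : W * (W - 1) * deriv v W = b - b * (2 * W - 1) * v W := by linear_combination hode
      have h8 : deriv v W * (W * (W - 1)) = b - b * (2 * W - 1) * v W := by linear_combination hode
      rw [h8]
      push_cast
      field_simp
      ring
    have hinj : InjOn L S := inj_of_re_deriv_pos hSc L _ hLd (fun s hs => hQ _ (V_mem (hexp s hs)))
    have hexpL : ∀ s ∈ S, exp (L s) = exp s * kap b v (1 / (1 - exp s)) := by
      intro s hs
      have hz := hexp s hs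
      have hre : 0 < (1 / (1 - exp s)).re := by
        have : 1 / 2 < (1 / (1 - exp s)).re := V_mem hz
        linarith
      have hW0 : 1 / (1 - exp s) ≠ 0 := by
        intro h; rw [h] at hre; simp at hre
      have hvW := hv0 _ (hV _ hz)
      rw [hL]
      simp only
      rw [Complex.exp_add, Complex.exp_add]
      unfold kap
      rw [Complex.cpow_def_of_ne_zero hW0, Complex.cpow_def_of_ne_zero (mul_ne_zero hW0 hvW)]
      rw [mul_comm (log (1 / (1 - exp s))), mul_comm (log (1 / (1 - exp s) * v (1 / (1 - exp s))))]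
    intro z₁ hz₁ z₂ hz₂ h12
    simp only at h12
    have hk0 : ∀ z ∈ ball (0:ℂ) 1, kap b v (1 / (1 - z)) ≠ 0 := fun z hz => HA.kb.ne _ (hV z hz)
    by_cases h1 : z₁ = 0
    · rw [h1, zero_mul] at h12
      rw [h1]
      rcases mul_eq_zero.1 h12.symm with h | h
      · exact h.symm
      · exact absurd h (hk0 z₂ hz₂)
    by_cases h2 : z₂ = 0
    · rw [h2, zero_mul] at h12
      rw [h2]
      rcases mul_eq_zero.1 h12 with h | h
      · exact h
      · exact absurd h (hk0 z₁ hz₁)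
    have hs1 : log z₁ ∈ S := by
      show (log z₁).re < 0
      rw [Complex.log_re]
      exact Real.log_neg (norm_pos_iff.2 h1) (by simpa using hz₁)
    have hs2 : log z₂ ∈ S := by
      show (log z₂).re < 0
      rw [Complex.log_re]
      exact Real.log_neg (norm_pos_iff.2 h2) (by simpa using hz₂)
    have he : exp (L (log z₁)) = exp (L (log z₂)) := by
      rw [hexpL _ hs1, hexpL _ hs2, Complex.exp_log h1, Complex.exp_log h2]
      exact h12
    obtain ⟨n, hn⟩ := Complex.exp_eq_exp_iff_exists_int.1 he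
    have hs3 : log z₂ + n * (2 * Real.pi * I) ∈ S := by
      show (log z₂ + n * (2 * Real.pi * I)).re < 0
      have : (log z₂ + n * (2 * Real.pi * I)).re = (log z₂).re := by
        simp
      rw [this]; exact hs2
    have hper : L (log z₂ + n * (2 * Real.pi * I)) = L (log z₂) + n * (2 * Real.pi * I) := by
      rw [hL]
      simp only
      have : exp (log z₂ + n * (2 * Real.pi * I)) = exp (log z₂) := by
        rw [Complex.exp_add, Complex.exp_int_mul_two_pi_mul_I, mul_one]
      rw [this]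
      ring
    have h5 := hinj hs1 hs3 (hn.trans hper.symm)
    have h6 : exp (log z₁) = exp (log z₂) := by
      rw [h5, Complex.exp_add, Complex.exp_int_mul_two_pi_mul_I, mul_one]
    rwa [Complex.exp_log h1, Complex.exp_log h2] at h6
  · rw [hfd 0 (by simp)]
    simp [HA.kb.one, HA.base.one]
  · intro z hz hz0
    rw [hf2 z hz, hfd z hz]
    have hW := hV z hz
    have hre : 0 < (1 / (1 - z)).re := by
      have : 1 / 2 < (1 / (1 - z)).re := V_mem hz
      linarith
    have hpo : 1 / 2 < (1 / (1 - z)).re := V_mem hz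
    have hW0 : 1 / (1 - z) ≠ 0 := by
      intro h; rw [h] at hre; simp at hre
    have hvW := hv0 _ hW
    have hkW := HA.kb.ne _ hW
    have hode := HA.base.ode _ (hURH (hPU hW))
    have hkode := HA.kb.ode _ hW
    have h5 := hzV z hz
    set W := 1 / (1 - z) with hWdef
    set k' := deriv (kap b v) W with hk'
    set v' := deriv v W with hv'
    set k := kap b v W with hk
    have hexpr : (((1 / b : ℝ) : ℂ) * (1 + z * (k' * W ^ 2 * (v W)⁻¹ + k * (-(v' * W ^ 2) / (v W) ^ 2)) / (k * (v W)⁻¹)) +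
        (1 - ((1 / b : ℝ) : ℂ)) * (z * (k * (v W)⁻¹) / (z * k))) = 2 * W - 1 := by
      have e1 : z * (k' * W ^ 2 * (v W)⁻¹ + k * (-(v' * W ^ 2) / (v W) ^ 2)) / (k * (v W)⁻¹) =
          (W * (W - 1) * k') / k - (W * (W - 1) * v') / v W := by
        rw [← h5]
        field_simp
        ring
      have e2 : W * (W - 1) * v' = b - b * (2 * W - 1) * v W := by linear_combination hode
      rw [e1, hkode, e2]
      push_cast
      field_simp
      ring
    rw [hexpr]
    simp only [Complex.sub_re, Complex.mul_re, Complex.one_re]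
    norm_num
    linarith

end Mocanu
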