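import Pool.Agent.Helper267_mocanu.Stmts
import Pool.Agent.R194.Baz.Tay

/-!
# Task T16: coefficients of the extremal function
-/

set_option autoImplicit false

namespace Mocanu

open Complex Set Filter Topology MeasureTheory Metric

namespace T16Aux

open Pool.Agent.R194.Baz

lemma W_mem {z : ℂ} (hz : z ∈ ball (0:ℂ) 1) : 1 / (1 - z) ∈ Po := by
  have h1 : ‖z‖ < 1 := by simpa using hz
  have hne : (1 - z) ≠ 0 := by
    intro h
    have : z = 1 := by linear_combination -h
    rw [this] at h1; simp at h1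
  show (1:ℝ) / 2 < (1 / (1 - z)).re
  rw [show (1 / (1 - z)).re = (1 - z).re / normSq (1 - z) by rw [one_div, Complex.inv_re]]
  have h2 : 0 < normSq (1 - z) := Complex.normSq_pos.2 hne
  rw [div_lt_div_iff₀ (by norm_num) h2]
  have h3 : normSq (1 - z) = 1 - 2 * z.re + normSq z := by
    simp [Complex.normSq_apply]; ring
  have h4 : normSq z < 1 := by
    rw [Complex.normSq_eq_norm_sq]
    nlinarith [norm_nonneg z]
  rw [h3]
  simp
  linarith

lemma Po_sub : Po ⊆ Pb := by
  intro W h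
  have h1 : (1:ℝ) / 2 < W.re := h
  exact h1.le

lemma one_sub_ne {z : ℂ} (hz : z ∈ ball (0:ℂ) 1) : (1 - z) ≠ 0 := by
  have h1 : ‖z‖ < 1 := by simpa using hz
  intro h
  have : z = 1 := by linear_combination -h
  rw [this] at h1; simp at h1

lemma W_deriv {z : ℂ} (hz : z ∈ ball (0:ℂ) 1) :
    HasDerivAt (fun z : ℂ => 1 / (1 - z)) (1 / (1 - z) ^ 2) z := by
  have h0 := one_sub_ne hz
  have h1 : HasDerivAt (fun z : ℂ => 1 - z) (-1) z := (hasDerivAt_id z).const_sub 1
  have h2 := (hasDerivAt_const z (1:ℂ)).div h1 h0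
  have e : (1:ℂ) / (1 - z) ^ 2 = (0 * (1 - z) - 1 * (-1)) / (1 - z) ^ 2 := by
    congr 1
    ring
  rw [e]
  exact h2

/-- the functions `q` and `K` in the disk -/
noncomputable def qz (v : ℂ → ℂ) (z : ℂ) : ℂ := (v (1 / (1 - z)))⁻¹
noncomputable def Kz (b : ℝ) (v : ℂ → ℂ) (z : ℂ) : ℂ := kap b v (1 / (1 - z))

lemma v_ne {b : ℝ} {v : ℂ → ℂ} (h : VAll b v) {W : ℂ} (hW : W ∈ Pb) : v W ≠ 0 := by
  obtain ⟨U, _, hPU, _, h3⟩ := h.low.nbhd
  exact (h3 W (hPU hW)).1

lemma v_hasDeriv {b : ℝ} {v : ℂ → ℂ} (h : VAll b v) {W : ℂ} (hW : W ∈ Pb) :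
    HasDerivAt v (deriv v W) W := by
  have hRo : IsOpen RH := isOpen_lt continuous_const Complex.continuous_re
  have hWR : W ∈ RH := by
    have : (1:ℝ)/2 ≤ W.re := hW
    show 0 < W.re
    linarith
  exact ((h.base.diff W hWR).differentiableAt (hRo.mem_nhds hWR)).hasDerivAt

lemma k_hasDeriv {b : ℝ} {v : ℂ → ℂ} (h : VAll b v) {W : ℂ} (hW : W ∈ Pb) :
    HasDerivAt (kap b v) (deriv (kap b v) W) W := by
  obtain ⟨U, hU, hPU, _, h3⟩ := h.kb.nbhd
  exact ((h3 W (hPU hW)).differentiableAt (hU.mem_nhds (hPU hW))).hasDerivAt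

lemma q_hasDeriv {b : ℝ} {v : ℂ → ℂ} (h : VAll b v) {z : ℂ} (hz : z ∈ ball (0:ℂ) 1) :
    HasDerivAt (qz v) (-(deriv v (1 / (1 - z)) * (1 / (1 - z) ^ 2)) / (v (1 / (1 - z))) ^ 2) z := by
  have hW := Po_sub (W_mem hz)
  have h1 : HasDerivAt (fun z : ℂ => v (1 / (1 - z))) (deriv v (1 / (1 - z)) * (1 / (1 - z) ^ 2)) z :=
    HasDerivAt.comp_of_eq z (v_hasDeriv h hW) (W_deriv hz) rfl
  exact h1.fun_inv (v_ne h hW)

lemma K_hasDeriv {b : ℝ} {v : ℂ → ℂ} (h : VAll b v) {z : ℂ} (hz : z ∈ ball (0:ℂ) 1) :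
    HasDerivAt (Kz b v) (deriv (kap b v) (1 / (1 - z)) * (1 / (1 - z) ^ 2)) z := by
  have hW := Po_sub (W_mem hz)
  exact HasDerivAt.comp_of_eq z (k_hasDeriv h hW) (W_deriv hz) rfl

lemma q_ode {b : ℝ} {v : ℂ → ℂ} (h : VAll b v) {z : ℂ} (hz : z ∈ ball (0:ℂ) 1) :
    (1 - z) * (z * deriv (qz v) z + b * (qz v z * qz v z)) = b * ((1 + z) * qz v z) := by
  rw [(q_hasDeriv h hz).deriv]
  have hW := Po_sub (W_mem hz)
  have h0 := one_sub_ne hz
  have hv := v_ne h hW
  have hWR : 1 / (1 - z) ∈ RH := by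
    have : (1:ℝ)/2 ≤ (1 / (1 - z)).re := hW
    show 0 < (1 / (1 - z)).re
    linarith
  have hode := h.base.ode _ hWR
  unfold qz
  set y := v (1 / (1 - z)) with hy
  set d := deriv v (1 / (1 - z)) with hd
  have h5 : z * d = b * (1 - z) ^ 2 - b * (1 + z) * (1 - z) * y := by
    have : (1 - z) ^ 2 * (1 / (1 - z) * (1 / (1 - z) - 1) * d + b * (2 * (1 / (1 - z)) - 1) * y) =
      (1 - z) ^ 2 * b := by rw [hode]
    field_simp at this
    linear_combination this
  have e1 : z * (-(d * (1 / (1 - z) ^ 2)) / y ^ 2) = -(z * d) / ((1 - z) ^ 2 * y ^ 2) := by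
    field_simp
  rw [e1, h5]
  field_simp
  ring

lemma K_ode {b : ℝ} {v : ℂ → ℂ} (h : VAll b v) {z : ℂ} (hz : z ∈ ball (0:ℂ) 1) :
    z * deriv (Kz b v) z + Kz b v z = qz v z * Kz b v z := by
  rw [(K_hasDeriv h hz).deriv]
  have hW := Po_sub (W_mem hz)
  have h0 := one_sub_ne hz
  have hode := h.kb.ode _ hW
  unfold qz Kz
  set y := kap b v (1 / (1 - z)) with hy
  set d := deriv (kap b v) (1 / (1 - z)) with hd
  have e1 : z * (d * (1 / (1 - z) ^ 2)) = 1 / (1 - z) * (1 / (1 - z) - 1) * d := by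
    field_simp
    ring
  rw [e1, hode]
  ring

lemma q_zero {b : ℝ} {v : ℂ → ℂ} (h : VAll b v) : qz v 0 = 1 := by
  simp [qz, h.base.one]

lemma K_zero {b : ℝ} {v : ℂ → ℂ} (h : VAll b v) : Kz b v 0 = 1 := by
  have := h.kb.one
  simp [Kz, this]

lemma q_diff {b : ℝ} {v : ℂ → ℂ} (h : VAll b v) : DifferentiableOn ℂ (qz v) (ball 0 1) :=
  fun z hz => (q_hasDeriv h hz).differentiableAt.differentiableWithinAt

lemma K_diff {b : ℝ} {v : ℂ → ℂ} (h : VAll b v) : DifferentiableOn ℂ (Kz b v) (ball 0 1) :=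
  fun z hz => (K_hasDeriv h hz).differentiableAt.differentiableWithinAt

lemma mem0 : (0:ℂ) ∈ ball (0:ℂ) 1 := by simp

lemma an_of {f : ℂ → ℂ} (h : DifferentiableOn ℂ f (ball 0 1)) : AnalyticAt ℂ f 0 :=
  h.analyticAt (isOpen_ball.mem_nhds mem0)

open PowerSeries in
lemma q_ps {b : ℝ} {v : ℂ → ℂ} (h : VAll b v) :
    (1 - X) * (X * derivative ℂ (tay (qz v)) + PowerSeries.C (b:ℂ) * (tay (qz v) * tay (qz v))) =
      PowerSeries.C (b:ℂ) * ((1 + X) * tay (qz v)) := by
  have hq := an_of (q_diff h)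
  have hid : AnalyticAt ℂ (fun z : ℂ => z) 0 := analyticAt_id
  have hone : AnalyticAt ℂ (fun _ : ℂ => (1:ℂ)) 0 := analyticAt_const
  have h1 : tay (fun z => (1 - z) * (z * deriv (qz v) z + b * (qz v z * qz v z))) =
      tay (fun z => b * ((1 + z) * qz v z)) := tay_congr_ball fun z hz => q_ode h hz
  have e1 : tay (fun z : ℂ => 1 - z) = 1 - X := by
    have : (fun z : ℂ => 1 - z) = fun z : ℂ => (1:ℂ) + (-1) * z := by funext z; ring
    rw [this, tay_add (f := fun _ => 1) (g := fun z => (-1) * z) hone (analyticAt_const.mul hid),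
      tay_const, tay_const_mul (f := fun z => z) _ hid,
      tay_id]
    simp [sub_eq_add_neg]
  have e2 : tay (fun z : ℂ => 1 + z) = 1 + X := by
    rw [tay_add hone hid, tay_const, tay_id]; simp
  have hqq : AnalyticAt ℂ (fun z => qz v z * qz v z) 0 := hq.mul hq
  rw [tay_mul (f := fun z => 1 - z) (g := fun z => z * deriv (qz v) z + b * (qz v z * qz v z))
      (hone.sub hid) ((hid.mul hq.deriv).add (analyticAt_const.mul hqq)),
    tay_add (f := fun z => z * deriv (qz v) z) (g := fun z => (b:ℂ) * (qz v z * qz v z))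
      (hid.mul hq.deriv) (analyticAt_const.mul hqq),
    tay_mul (f := fun z => z) (g := deriv (qz v)) hid hq.deriv, tay_id, ← tay_deriv,
    tay_const_mul (f := fun z => qz v z * qz v z) _ hqq, tay_mul hq hq, e1,
    tay_const_mul (f := fun z => (1 + z) * qz v z) _ ((hone.add hid).mul hq),
    tay_mul (f := fun z => 1 + z) (g := qz v) (hone.add hid) hq, e2] at h1
  exact h1

open PowerSeries in
lemma K_ps {b : ℝ} {v : ℂ → ℂ} (h : VAll b v) :
    X * derivative ℂ (tay (Kz b v)) + tay (Kz b v) = tay (qz v) * tay (Kz b v) := by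
  have hq := an_of (q_diff h)
  have hK := an_of (K_diff h)
  have hid : AnalyticAt ℂ (fun z : ℂ => z) 0 := analyticAt_id
  have h1 : tay (fun z => z * deriv (Kz b v) z + Kz b v z) =
      tay (fun z => qz v z * Kz b v z) := tay_congr_ball fun z hz => K_ode h hz
  rw [tay_add (f := fun z => z * deriv (Kz b v) z) (g := Kz b v) (hid.mul hK.deriv) hK,
    tay_mul (f := fun z => z) (g := deriv (Kz b v)) hid hK.deriv, tay_id, ← tay_deriv,
    tay_mul hq hK] at h1
  exact h1

/-- coefficients -/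
noncomputable def qn (v : ℂ → ℂ) (n : ℕ) : ℂ := PowerSeries.coeff n (tay (qz v))
noncomputable def Kn (b : ℝ) (v : ℂ → ℂ) (n : ℕ) : ℂ := PowerSeries.coeff n (tay (Kz b v))

lemma qn_zero {b : ℝ} {v : ℂ → ℂ} (h : VAll b v) : qn v 0 = 1 := by
  rw [qn, coeff_tay]; simp [q_zero h]

lemma Kn_zero {b : ℝ} {v : ℂ → ℂ} (h : VAll b v) : Kn b v 0 = 1 := by
  rw [Kn, coeff_tay]; simp [K_zero h]

open PowerSeries in
lemma q_sum {b : ℝ} {v : ℂ → ℂ} (h : VAll b v) (n : ℕ) :
    (n:ℂ) * qn v n + b * ∑ k ∈ Finset.range (n + 1), qn v k * qn v (n - k) =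
      b * (qn v n + 2 * ∑ k ∈ Finset.range n, qn v k) := by
  set G : PowerSeries ℂ := X * derivative ℂ (tay (qz v)) +
    PowerSeries.C (b:ℂ) * (tay (qz v) * tay (qz v)) with hG
  have hps : (1 - X) * G = PowerSeries.C (b:ℂ) * ((1 + X) * tay (qz v)) := q_ps h
  have hGn : ∀ n, coeff n G = (n:ℂ) * qn v n + b * ∑ k ∈ Finset.range (n + 1), qn v k * qn v (n - k) := by
    intro n
    rw [hG, map_add, coeff_X_deriv, coeff_C_mul, PowerSeries.coeff_mul,
      Finset.Nat.sum_antidiagonal_eq_sum_range_succ_mk]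
    rfl
  rw [← hGn]
  clear_value G
  induction n with
  | zero =>
    have := congrArg (coeff 0) hps
    rw [sub_mul, add_mul, one_mul, one_mul, map_sub, coeff_zero_X_mul, coeff_C_mul, map_add,
      coeff_zero_X_mul] at this
    simp only [sub_zero, add_zero] at this
    rw [this]
    simp [qn]
  | succ n ih =>
    have := congrArg (coeff (n+1)) hps
    rw [sub_mul, add_mul, one_mul, one_mul, map_sub, coeff_succ_X_mul, coeff_C_mul, map_add,
      coeff_succ_X_mul, ih] at this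
    change coeff (n+1) G - _ = (b:ℂ) * (qn v (n+1) + qn v n) at this
    rw [Finset.sum_range_succ]
    linear_combination this

lemma q_rec {b : ℝ} {v : ℂ → ℂ} (h : VAll b v) (n : ℕ) :
    ((1 / b : ℝ) * ((n:ℂ) + 1) + 1) * qn v (n + 1) =
      2 + ∑ j ∈ Finset.range n, qn v (j + 1) * (2 - qn v (n - j)) := by
  have hb : (b:ℂ) ≠ 0 := by
    have := h.base.hb
    exact_mod_cast (by linarith : (b:ℝ) ≠ 0)
  have h1 := q_sum h (n + 1)
  rw [Finset.sum_range_succ, Finset.sum_range_succ'] at h1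
  simp only [Nat.sub_self, Nat.sub_zero, qn_zero h, Nat.add_sub_add_right, one_mul, mul_one] at h1
  rw [Finset.sum_range_succ' (fun k => qn v k)] at h1
  rw [qn_zero h] at h1
  simp only [mul_sub, Finset.sum_sub_distrib, ← Finset.sum_mul]
  push_cast at h1 ⊢
  field_simp
  linear_combination h1

open PowerSeries in
lemma K_rec {b : ℝ} {v : ℂ → ℂ} (h : VAll b v) (n : ℕ) :
    ((n:ℂ) + 1) * Kn b v (n + 1) = ∑ j ∈ Finset.range (n + 1), qn v (j + 1) * Kn b v (n - j) := by
  have h1 := congrArg (coeff (n+1)) (K_ps h)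
  rw [map_add, coeff_X_deriv, PowerSeries.coeff_mul,
      Finset.Nat.sum_antidiagonal_eq_sum_range_succ_mk] at h1
  change ((n+1 : ℕ):ℂ) * Kn b v (n+1) + Kn b v (n+1) =
    ∑ k ∈ Finset.range (n+1).succ, qn v k * Kn b v (n + 1 - k) at h1
  rw [Finset.sum_range_succ'] at h1
  simp only [Nat.sub_zero, qn_zero h, Nat.add_sub_add_right, one_mul] at h1
  push_cast at h1
  linear_combination h1

lemma qn_eq {b : ℝ} {v : ℂ → ℂ} (h : VAll b v) (n : ℕ) : qn v n = (qc (1 / b) n : ℂ) := by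
  have hb := h.base.hb
  induction n using Nat.strong_induction_on with
  | _ n ih =>
    rcases n with _ | n
    · rw [qn_zero h, qc]; simp
    · have h1 := q_rec h n
      have hpos : (0:ℝ) < 1 / b * ((n:ℝ) + 1) + 1 := by positivity
      have hne : (((1 / b : ℝ) : ℂ) * ((n:ℂ) + 1) + 1) ≠ 0 := by
        exact_mod_cast hpos.ne'
      rw [qc]
      push_cast
      push_cast at h1 hne
      rw [eq_div_iff hne, mul_comm, h1, Finset.sum_range]
      congr 1
      apply Finset.sum_congr rfl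
      intro j _
      have hj := j.2
      rw [ih (j + 1) (by omega), ih (n - j) (by omega)]

lemma Kn_eq {b : ℝ} {v : ℂ → ℂ} (h : VAll b v) (n : ℕ) : Kn b v n = (Kc (1 / b) n : ℂ) := by
  induction n using Nat.strong_induction_on with
  | _ n ih =>
    rcases n with _ | n
    · rw [Kn_zero h, Kc]; simp
    · have h1 := K_rec h n
      have hne : ((n:ℂ) + 1) ≠ 0 := by exact_mod_cast Nat.succ_ne_zero n
      rw [Kc]
      push_cast
      rw [eq_div_iff hne, mul_comm, h1, Finset.sum_range]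
      apply Finset.sum_congr rfl
      intro j _
      have hj := j.2
      rw [qn_eq h, ih (n - j) (by omega)]

lemma hull_norm (n : ℕ) (c : Fin n → ℂ) (hc : c ∈ convexHull ℝ (mcurve n '' {x : ℂ | ‖x‖ = 1}))
    (j : Fin n) : ‖c j‖ ≤ 1 := by
  have hconv : Convex ℝ {c : Fin n → ℂ | ‖c j‖ ≤ 1} := by
    have h1 : Convex ℝ (closedBall (0:ℂ) 1) := convex_closedBall _ _
    have h2 := h1.linear_preimage (LinearMap.proj j : (Fin n → ℂ) →ₗ[ℝ] ℂ)
    have h3 : {c : Fin n → ℂ | ‖c j‖ ≤ 1} =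
        (LinearMap.proj j : (Fin n → ℂ) →ₗ[ℝ] ℂ) ⁻¹' closedBall (0:ℂ) 1 := by
      ext c
      simp
    rw [h3]
    exact h2
  have hsub : mcurve n '' {x : ℂ | ‖x‖ = 1} ⊆ {c : Fin n → ℂ | ‖c j‖ ≤ 1} := by
    rintro _ ⟨x, hx, rfl⟩
    change ‖x‖ = 1 at hx
    simp [mcurve, hx]
  exact convexHull_min hsub hconv hc

end T16Aux

open T16Aux Pool.Agent.R194.Baz

theorem t16a : T16a := by
  intro b v h n
  constructor
  · have := qn_eq h n
    rw [qn, coeff_tay] at this
    exact this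
  · have := Kn_eq h n
    rw [Kn, coeff_tay] at this
    exact this

theorem t16b : T16b := by
  intro h14 h16 b v h hpos
  have hb := h.base.hb
  -- `|q_n| ≤ 2`
  have hq2 : ∀ n : ℕ, qc (1 / b) (n + 1) ≤ 2 := by
    intro n
    set V : ℂ → ℂ := fun z => 1 / 2 + 1 / 2 * qz v z with hV
    have hVd : DifferentiableOn ℂ V (ball 0 1) := by
      apply DifferentiableOn.const_add
      exact (q_diff h).const_mul _
    have hVP : V ∈ PP := by
      refine ⟨hVd, by simp [hV, q_zero h]; norm_num, ?_⟩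
      intro z hz
      have h1 := hpos _ (W_mem hz)
      show (1:ℝ)/2 < (1 / 2 + 1 / 2 * qz v z).re
      have h2 : (1 / 2 + 1 / 2 * qz v z).re = 1 / 2 + 1 / 2 * (qz v z).re := by
        simp
      rw [h2]
      have h3 : 0 < (qz v z).re := h1
      linarith
    have h1 := hull_norm (n+1) _ (h14 (n+1) V hVP) ⟨n, by omega⟩
    have h2 : cvec (n+1) V ⟨n, by omega⟩ = 1 / 2 * (qc (1 / b) (n + 1) : ℂ) := by
      have h3 : tay V = PowerSeries.C (1/2 : ℂ) + PowerSeries.C (1/2 : ℂ) * tay (qz v) := by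
        have hq := an_of (q_diff h)
        rw [hV, tay_add (f := fun _ => (1/2:ℂ)) (g := fun z => 1/2 * qz v z) analyticAt_const
          (analyticAt_const.mul hq), tay_const, tay_const_mul _ hq]
      have h4 := congrArg (PowerSeries.coeff (n+1)) h3
      rw [coeff_tay, map_add, PowerSeries.coeff_C_mul, PowerSeries.coeff_C] at h4
      simp only [Nat.add_eq_zero_iff, one_ne_zero, and_false, if_false, zero_add] at h4
      rw [← qn_eq h]
      exact h4
    rw [h2, norm_mul, Complex.norm_real] at h1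
    have h5 : ‖(1/2 : ℂ)‖ = 1/2 := by simp
    rw [h5] at h1
    have h6 := le_abs_self (qc (1/b) (n+1))
    rw [Real.norm_eq_abs] at h1
    linarith
  have hqpos : ∀ n : ℕ, 0 < qc (1 / b) n := by
    intro n
    induction n using Nat.strong_induction_on with
    | _ n ih =>
      rcases n with _ | n
      · rw [qc]; norm_num
      · rw [qc]
        apply div_pos
        · have : 0 ≤ ∑ j : Fin n, qc (1/b) (j + 1) * (2 - qc (1/b) (n - j)) := by
            apply Finset.sum_nonneg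
            intro j _
            have hj := j.2
            apply mul_nonneg (ih _ (by omega)).le
            obtain ⟨m, hm⟩ : ∃ m, n - (j:ℕ) = m + 1 := ⟨n - j - 1, by omega⟩
            rw [hm]
            linarith [hq2 m]
          linarith
        · positivity
  intro n
  induction n using Nat.strong_induction_on with
  | _ n ih =>
    rcases n with _ | n
    · rw [Kc]; norm_num
    · rw [Kc]
      apply div_pos
      · apply Finset.sum_pos
        · intro j _
          have hj := j.2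
          exact mul_pos (hqpos _) (ih _ (by omega))
        · exact Finset.univ_nonempty
      · positivity

end Mocanu
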