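import Mathlib

/-!
# Alpha-convex functions (MP_1f2de8_an): definitions and task statements

`b = 1/α > 1`.  Paper proof: papers id 198.
-/

set_option autoImplicit false

namespace Mocanu

open Complex Set Filter Topology MeasureTheory Metric

/-- open right half plane -/
def RH : Set ℂ := {W | 0 < W.re}
/-- open half plane `Re W > 1/2` -/
def Po : Set ℂ := {W | 1 / 2 < W.re}
/-- closed half plane `Re W ≥ 1/2` -/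
def Pb : Set ℂ := {W | 1 / 2 ≤ W.re}
/-- boundary point `(1 + i t)/2` -/
noncomputable def bp (t : ℝ) : ℂ := (1 + (t : ℂ) * I) / 2

/-- `v(W) = b ∫_0^1 τ^(b-1) ((1-τ)W+τ)^(-2b) dτ` -/
noncomputable def vf (b : ℝ) (W : ℂ) : ℂ :=
  (b : ℂ) * ∫ τ in (0:ℝ)..1,
    ((τ ^ (b - 1) : ℝ) : ℂ) * ((1 - (τ : ℂ)) * W + (τ : ℂ)) ^ (((-(2 * b)) : ℝ) : ℂ)

/-- basic properties of `v` -/
structure VBase (b : ℝ) (v : ℂ → ℂ) : Prop where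
  hb : 1 < b
  diff : DifferentiableOn ℂ v RH
  one : v 1 = 1
  conj : ∀ W ∈ RH, v ((starRingEnd ℂ) W) = (starRingEnd ℂ) (v W)
  ode : ∀ W ∈ RH, W * (W - 1) * deriv v W + b * (2 * W - 1) * v W = b
  growth : ∃ C : ℝ, ∀ W ∈ Pb, ‖W * v W‖ ≤ C
  half_lo : 2 ≤ (v (1 / 2)).re
  half_hi : (v (1 / 2)).re ≤ (2:ℝ) ^ b

/-- real part of `v` on the line -/
noncomputable def av (v : ℂ → ℂ) (t : ℝ) : ℝ := (v (bp t)).re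
/-- minus the imaginary part of `v` on the line -/
noncomputable def cv (v : ℂ → ℂ) (t : ℝ) : ℝ := -(v (bp t)).im

/-- properties of `v` on the line `Re W = 1/2` -/
structure VBdry (b : ℝ) (v : ℂ → ℂ) : Prop where
  a_pos : ∀ t, 0 < av v t
  c_pos : ∀ t, 0 < t → 0 < cv v t
  a_even : ∀ t, av v (-t) = av v t
  c_odd : ∀ t, cv v (-t) = - cv v t
  a_deriv : ∀ t, HasDerivAt (av v) (-(2 * b * t * av v t / (1 + t ^ 2))) t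
  c_deriv : ∀ t, HasDerivAt (cv v) ((2 * b / (1 + t ^ 2)) * (1 - t * cv v t)) t
  tc_lo : ∀ t, 0 ≤ t → 2 * b * t ^ 2 ≤ (1 + (2 * b - 1) * t ^ 2) * (t * cv v t)
  a_lo : ∀ t, 2 * (1 - b * t ^ 2) ≤ av v t
  a_hi : ∀ t, av v t ≤ (2 / (1 + t ^ 2)) ^ b
  tc_hi : ∀ ε > 0, ∃ T : ℝ, ∀ t ≥ T, t * cv v t ≤ 2 * b / (2 * b - 1) + ε

/-- `Ψ = (1 - v) W/(W - 1)` -/
noncomputable def Psi (v : ℂ → ℂ) (W : ℂ) : ℂ := -(W * dslope v 1 W)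
/-- `s = (W-1)/(Q-1) = W v/Ψ` -/
noncomputable def sf (v : ℂ → ℂ) (W : ℂ) : ℂ := W * v W / Psi v W
/-- `St = b Q (2 s - 1)` -/
noncomputable def St (b : ℝ) (v : ℂ → ℂ) (W : ℂ) : ℂ := b * (v W)⁻¹ * (2 * sf v W - 1)
/-- `κ = W^(2-α) (W v)^α` -/
noncomputable def kap (b : ℝ) (v : ℂ → ℂ) (W : ℂ) : ℂ :=
  W ^ (((2 - 1 / b : ℝ)) : ℂ) * (W * v W) ^ (((1 / b : ℝ)) : ℂ)

/-! ### Task T1 -/
/-- T1: the integral has the basic properties. Paper sections 0, 1. -/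
def T1 : Prop := ∀ b : ℝ, 1 < b → VBase b (vf b)

/-! ### Task T2 -/
/-- T2: properties on the line (from the ODE along the line). Paper section 1. -/
def T2 : Prop := ∀ (b : ℝ) (v : ℂ → ℂ), VBase b v → VBdry b v

/-! ### Task T3: Phragmen-Lindelof and the min principle on `Pb` -/
/-- T3a: Phragmen-Lindelof for lower bounds of the real part -/
def T3a : Prop := ∀ (f : ℂ → ℂ) (U : Set ℂ), IsOpen U → Pb ⊆ U → DifferentiableOn ℂ f U →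
  ∀ C p : ℝ, 0 ≤ p → p < 2 → (∀ W ∈ Pb, ‖f W‖ ≤ C * (1 + ‖W‖) ^ p) →
  ∀ M : ℝ, (∀ x : ℝ, 2 ≤ x → -M ≤ (f x).re) →
  ∀ m : ℝ, (∀ t : ℝ, m ≤ (f (bp t)).re) → ∀ W ∈ Pb, m ≤ (f W).re

/-- T3b: the min principle: if the real part on the line is, for large `|t|`, larger than at `t₁`
(and the function is symmetric), then there is a minimum point `t ≥ 0`, and there the derivative is
real and nonnegative. -/
def T3b : Prop := ∀ (f : ℂ → ℂ) (U : Set ℂ), IsOpen U → Pb ⊆ U → DifferentiableOn ℂ f U →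
  ∀ C p : ℝ, 0 ≤ p → p < 2 → (∀ W ∈ Pb, ‖f W‖ ≤ C * (1 + ‖W‖) ^ p) →
  ∀ M : ℝ, (∀ x : ℝ, 2 ≤ x → -M ≤ (f x).re) →
  (∀ t : ℝ, (f (bp (-t))).re = (f (bp t)).re) →
  ∀ t₁ T : ℝ, (∀ t : ℝ, T ≤ t → (f (bp t₁)).re < (f (bp t)).re) →
  ∃ t : ℝ, 0 ≤ t ∧ (f (bp t)).re ≤ (f (bp t₁)).re ∧
    (deriv f (bp t)).im = 0 ∧ 0 ≤ (deriv f (bp t)).re

/-! ### Task T4: bounds on the real axis -/
def T4 : Prop := ∀ (b : ℝ) (v : ℂ → ℂ), VBase b v → ∀ x : ℝ, 1 < x →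
  (v x).im = 0 ∧ 1 / (1 + (2 - 1 / b) * (x - 1)) ≤ (v x).re ∧
    (v x).re ≤ 1 / ((2 - 1 / b) * (x - 1 / 2))

/-! ### Task T5: lower bounds for `W v` and `Ψ` -/
/-- analytic consequences used by all later tasks -/
structure VLow (b : ℝ) (v : ℂ → ℂ) : Prop where
  wv : ∃ c > 0, ∀ W ∈ Pb, c ≤ (W * v W).re
  psi : ∃ c > 0, ∀ W ∈ Pb, c ≤ (Psi v W).re
  psi_hi : ∃ C : ℝ, ∀ W ∈ Pb, ‖Psi v W‖ ≤ C
  wv_hi : ∃ C : ℝ, ∀ W ∈ Pb, ‖W * v W‖ ≤ C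
  psi_eq : ∀ W : ℂ, W ≠ 1 → Psi v W = (1 - v W) * W / (W - 1)
  psi_diff : DifferentiableOn ℂ (Psi v) RH
  /-- one open set on which everything is analytic -/
  nbhd : ∃ U : Set ℂ, IsOpen U ∧ Pb ⊆ U ∧ U ⊆ RH ∧ (∀ W ∈ U, v W ≠ 0 ∧ Psi v W ≠ 0 ∧
    0 < (W * v W).re ∧ 0 < (Psi v W).re)

def T5 : Prop := T3a → ∀ (b : ℝ) (v : ℂ → ℂ), VBase b v → VBdry b v → VLow b v

/-! ### Task T6: algebra at a minimum point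

`q = X + iY`, `T = it`; `QT b q t` is the derivative of `Q` with respect to `T = 2W-1`. -/
/-- `Q_T = 2b q (q - T)/(1 - T²)` -/
noncomputable def QT (b : ℝ) (q : ℂ) (t : ℝ) : ℂ := 2 * b * q * (q - t * I) / (1 + (t:ℂ) ^ 2)

/-- T6a -/
def T6a : Prop := ∀ b X Y t : ℝ, 1 < b → 0 < X → 0 ≤ t →
  (QT b (X + Y * I) t).im = 0 → (QT b (X + Y * I) t).re ≤ (2 - 1 / b) / 2 → X ≤ 1 / 2

/-- T6b: derivative of `Q_T` with respect to `T`: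
`(z₂'/(1-T²) + 2 T z₂/(1-T²)²)` times `2b`, `z₂ = q(q-T)`, `z₂' = Q_T (2q - T) - q`. -/
def T6b : Prop := ∀ b X Y t : ℝ, 1 < b → 0 < X →
  (((X + Y * I : ℂ)) * ((X + Y * I) - t * I)).re ≤ 0 →
  ((QT b (X + Y * I) t * (2 * (X + Y * I) - t * I) - (X + Y * I)) / (1 + (t:ℂ) ^ 2) +
    2 * (t * I) * ((X + Y * I) * ((X + Y * I) - t * I)) / (1 + (t:ℂ) ^ 2) ^ 2).re < 0

/-- T6c: `St = b q (q - T)/(1-q)`, `St_T = (b q/p)(2b (u-p)(u-p²)/((1+t²) p) - 1)`, `u = 1-T`, `p = 1-q` -/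
def T6c : Prop := ∀ b X Y t : ℝ, 1 < b → 0 < X → X ≤ 1 / 2 → 0 < Y → 0 < t →
  ∀ q u p G : ℂ, q = X + Y * I → u = 1 - t * I → p = 1 - q →
  (b * q * (q - t * I) / p).re ≤ 0 →
  G = (b * q / p) * (2 * b * (u - p) * (u - p ^ 2) / ((1 + (t:ℂ) ^ 2) * p) - 1) →
  G.im = 0 → G.re < 0

/-- T6d: concavity. `E ≤ 0` and `G = H_T` real implies `G < 0`. -/
def T6d : Prop := ∀ b X Y t : ℝ, 1 < b → 0 < X → X ≤ 1 / 2 → 0 < Y → 0 < t →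
  ∀ q G : ℂ, q = X + Y * I →
  1 + b + (b - 1) * X - b * (1 - X + t * Y) / ((1 - X) ^ 2 + Y ^ 2) ≤ 0 →
  G = QT b q t * ((b - 1) - b * ((1 - t * I) / (1 - q)) / (1 - q)) + b / (1 - q)
    - (b - 1) * (2 - 1 / b) / 2 →
  G.im = 0 → G.re < 0

/-- T6e: the case `t = 0`, `Y = 0` of T6d -/
def T6e : Prop := ∀ b X : ℝ, 1 < b → 0 < X → X ≤ 1 / 2 →
  1 + b + (b - 1) * X - b / (1 - X) ≤ 0 →
  2 * b * X ^ 2 * ((b - 1) - b / (1 - X) ^ 2) + b / (1 - X) - (b - 1) * (2 - 1 / b) / 2 < 0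

/-! ### Task T7: facts (a), (b) -/
def T7a : Prop := T3b → T6a → ∀ (b : ℝ) (v : ℂ → ℂ), VBase b v → VBdry b v → VLow b v → T4 →
  ∀ t : ℝ, ((v (bp t))⁻¹).re ≤ 1 / 2

def T7b : Prop := T3a → T3b → T6b → ∀ (b : ℝ) (v : ℂ → ℂ), VBase b v → VBdry b v → VLow b v →
  ∃ c > 0, ∀ W ∈ Pb, c ≤ (deriv (fun w => (v w)⁻¹) W).re

/-! ### Task T8: facts (c), (d) -/
def T8c : Prop := T3a → T3b → T4 → T6c → ∀ (b : ℝ) (v : ℂ → ℂ), VBase b v → VBdry b v → VLow b v →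
  (∀ t : ℝ, ((v (bp t))⁻¹).re ≤ 1 / 2) → ∀ W ∈ Pb, 0 < (St b v W).re

def T8d : Prop := T3b → T4 → T6d → T6e → ∀ (b : ℝ) (v : ℂ → ℂ), VBase b v → VBdry b v → VLow b v →
  (∀ t : ℝ, ((v (bp t))⁻¹).re ≤ 1 / 2) →
  ∀ t : ℝ, 0 < 1 + b + (b - 1) * ((v (bp t))⁻¹).re - 2 * b * (sf v (bp t)).re

/-! ### Task T9: `κ` -/
structure KBase (b : ℝ) (v : ℂ → ℂ) : Prop where
  nbhd : ∃ U : Set ℂ, IsOpen U ∧ Pb ⊆ U ∧ U ⊆ RH ∧ DifferentiableOn ℂ (kap b v) U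
  one : kap b v 1 = 1
  ode : ∀ W ∈ Pb, W * (W - 1) * deriv (kap b v) W = kap b v W * ((v W)⁻¹ - 1)
  ne : ∀ W ∈ Pb, kap b v W ≠ 0
  dk : ∀ W ∈ Pb, deriv (kap b v) W =
    W ^ (((1 - 1 / b : ℝ)) : ℂ) * (W * v W) ^ (((1 / b - 1 : ℝ)) : ℂ) * Psi v W
  growth : ∃ C : ℝ, ∀ W ∈ Pb, ‖kap b v W‖ ≤ C * (1 + ‖W‖) ^ (2 - 1 / b)
  dgrowth : ∃ C : ℝ, ∀ W ∈ Pb, ‖deriv (kap b v) W‖ ≤ C * (1 + ‖W‖) ^ (1 - 1 / b)

/-- T9a -/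
def T9a : Prop := ∀ (b : ℝ) (v : ℂ → ℂ), VBase b v → VLow b v → KBase b v

/-- the argument of `κ'` on the line -/
noncomputable def Th (b : ℝ) (v : ℂ → ℂ) (t : ℝ) : ℝ :=
  (1 - 1 / b) * (arg (bp t) - arg (bp t * v (bp t))) + arg (Psi v (bp t))

/-- T9b: `Th` is the argument of `κ'`, it is monotone, with values in `[-(1-α)π/2,(1-α)π/2]` -/
def T9b : Prop := ∀ (b : ℝ) (v : ℂ → ℂ), VBase b v → VBdry b v → VLow b v → KBase b v →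
  (∀ t : ℝ, 0 < 1 + b + (b - 1) * ((v (bp t))⁻¹).re - 2 * b * (sf v (bp t)).re) →
  Monotone (Th b v) ∧ (∀ t, |Th b v t| ≤ (1 - 1 / b) * (Real.pi / 2)) ∧
  ∀ t, deriv (kap b v) (bp t) = (‖deriv (kap b v) (bp t)‖ : ℂ) * exp ((Th b v t : ℂ) * I)

/-- T9c: `Re κ' ≥ c₃ > 0` on `Pb`, and (★) -/
def T9c : Prop := T3a → ∀ (b : ℝ) (v : ℂ → ℂ), VBase b v → VBdry b v → VLow b v → KBase b v →
  (Monotone (Th b v) ∧ (∀ t, |Th b v t| ≤ (1 - 1 / b) * (Real.pi / 2)) ∧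
    ∀ t, deriv (kap b v) (bp t) = (‖deriv (kap b v) (bp t)‖ : ℂ) * exp ((Th b v t : ℂ) * I)) →
  (∃ c > 0, ∀ W ∈ Pb, c ≤ (deriv (kap b v) W).re) ∧
  (∃ ε > 0, ∀ W ∈ Pb, ∀ t : ℝ,
    ε * (W.re - 1 / 2) ≤ ((kap b v W - kap b v (bp t)) / deriv (kap b v) W).re)

/-! ### Task T10: abstract: half planes in the image -/
def T10 : Prop := ∀ (κ : ℂ → ℂ) (U : Set ℂ), IsOpen U → Pb ⊆ U → DifferentiableOn ℂ κ U →
  ∀ c : ℝ, 0 < c → (∀ W ∈ Pb, c ≤ (deriv κ W).re) →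
  ∀ ε : ℝ, 0 < ε → (∀ W ∈ Pb, ∀ t : ℝ, ε * (W.re - 1 / 2) ≤ ((κ W - κ (bp t)) / deriv κ W).re) →
  ∀ v ∈ Po, ∀ s : ℂ, -(ε * (v.re - 1 / 2)) < s.re → κ v + deriv κ v * s ∈ κ '' Po

/-! ### Task T11: abstract: continuation (Jack's lemma) -/
def T11 : Prop := ∀ (Φ : ℂ → ℂ) (U : Set ℂ), IsOpen U → Pb ⊆ U → DifferentiableOn ℂ Φ U →
  ∀ c : ℝ, 0 < c → (∀ W ∈ Pb, c ≤ (deriv Φ W).re) →
  ∀ u : ℂ → ℂ, DifferentiableOn ℂ u (ball 0 1) → u 0 = Φ 1 →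
  (∀ z₀ ∈ ball (0:ℂ) 1, z₀ ≠ 0 → ∀ t T : ℝ, 1 ≤ T → u z₀ = Φ (bp t) →
    z₀ * deriv u z₀ = T * (bp t * (bp t - 1)) * deriv Φ (bp t) → False) →
  ∃ V : ℂ → ℂ, DifferentiableOn ℂ V (ball 0 1) ∧ V 0 = 1 ∧ (∀ z ∈ ball (0:ℂ) 1, V z ∈ Po) ∧
    ∀ z ∈ ball (0:ℂ) 1, u z = Φ (V z)

/-! ### Task T12: abstract: starlikeness -/
def T12 : Prop := ∀ (l : ℂ → ℂ) (U : Set ℂ), IsOpen U → Pb ⊆ U → DifferentiableOn ℂ l U →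
  (∀ W ∈ Pb, 0 < (1 + W * (W - 1) * deriv l W).re) →
  ∀ V₂ ∈ Po, ∀ t T : ℝ, 1 ≤ T →
    exp (l V₂) * ((V₂ - 1) / V₂) ≠ T * (exp (l (bp t)) * ((bp t - 1) / bp t))

/-! ### The class and Task T13: subordination -/
/-- the class `M(α)` of alpha-convex (Mocanu) functions -/
def MClass (α : ℝ) : Set (ℂ → ℂ) :=
  {f | DifferentiableOn ℂ f (ball 0 1) ∧ InjOn f (ball 0 1) ∧ f 0 = 0 ∧ deriv f 0 = 1 ∧
    ∀ z ∈ ball (0:ℂ) 1, z ≠ 0 →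
      0 < ((α : ℂ) * (1 + z * deriv (deriv f) z / deriv f z) +
        (1 - (α : ℂ)) * (z * deriv f z / f z)).re}

/-- all facts about `v` -/
structure VAll (b : ℝ) (v : ℂ → ℂ) : Prop where
  base : VBase b v
  low : VLow b v
  kb : KBase b v
  X_pos : ∀ t : ℝ, 0 < ((v (bp t))⁻¹).re
  dQ : ∃ c > 0, ∀ W ∈ Pb, c ≤ (deriv (fun w => (v w)⁻¹) W).re
  star : ∀ W ∈ Pb, 0 < (St b v W).re
  dk : ∃ c > 0, ∀ W ∈ Pb, c ≤ (deriv (kap b v) W).re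
  hp : ∃ ε > 0, ∀ W ∈ Pb, ∀ t : ℝ,
    ε * (W.re - 1 / 2) ≤ ((kap b v W - kap b v (bp t)) / deriv (kap b v) W).re

/-- T13a: `Q - 1` is starlike -/
def T13a : Prop := T12 → ∀ (b : ℝ) (v : ℂ → ℂ), VAll b v → ∀ V₂ ∈ Po, ∀ t T : ℝ, 1 ≤ T →
  (v V₂)⁻¹ ≠ 1 + T * ((v (bp t))⁻¹ - 1)

/-- T13b: subordination -/
def T13b : Prop := T11 → T13a → T12 → ∀ (b : ℝ) (v : ℂ → ℂ), VAll b v → ∀ f ∈ MClass (1 / b),
  ∃ V : ℂ → ℂ, DifferentiableOn ℂ V (ball 0 1) ∧ V 0 = 1 ∧ (∀ z ∈ ball (0:ℂ) 1, V z ∈ Po) ∧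
    ∀ z ∈ ball (0:ℂ) 1, f z = z * kap b v (V z)

/-! ### Task T14: abstract coefficient theorem -/
/-- functions with real part larger than `1/2` -/
def PP : Set (ℂ → ℂ) := {V | DifferentiableOn ℂ V (ball 0 1) ∧ V 0 = 1 ∧ ∀ z ∈ ball (0:ℂ) 1, V z ∈ Po}

/-- coefficients number `1..n` -/
noncomputable def cvec (n : ℕ) (V : ℂ → ℂ) : Fin n → ℂ :=
  fun j => iteratedDeriv (j + 1) V 0 / ((j + 1 : ℕ).factorial : ℂ)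

/-- moment curve -/
def mcurve (n : ℕ) (x : ℂ) : Fin n → ℂ := fun j => x ^ ((j : ℕ) + 1)

/-- T14a: coefficient vectors of `PP` are in the convex hull of the moment curve -/
def T14a : Prop := ∀ (n : ℕ), ∀ V ∈ PP, cvec n V ∈ convexHull ℝ (mcurve n '' {x : ℂ | ‖x‖ = 1})

/-- T14b: convex combinations: `PP` is convex, contains `1/(1-xz)`, and `cvec` is affine -/
def T14b : Prop :=
  (∀ V₁ ∈ PP, ∀ V₂ ∈ PP, ∀ l : ℝ, 0 ≤ l → l ≤ 1 → (fun z => (l:ℂ) * V₁ z + (1 - l) * V₂ z) ∈ PP ∧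
    ∀ n, cvec n (fun z => (l:ℂ) * V₁ z + (1 - l) * V₂ z) = (l:ℂ) • cvec n V₁ + ((1 - l : ℝ) : ℂ) • cvec n V₂) ∧
  (∀ x : ℂ, ‖x‖ = 1 → (fun z => 1 / (1 - x * z)) ∈ PP ∧ ∀ n, cvec n (fun z => 1 / (1 - x * z)) = mcurve n x)

/-- T14c: local dependence and continuity: for `κ` analytic on `Po` the first `n` coefficients of `κ ∘ V`
are a continuous function of the first `n` coefficients of `V` -/
def T14c : Prop := ∀ (κ : ℂ → ℂ), DifferentiableOn ℂ κ Po → ∀ n : ℕ,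
  ∃ B : (Fin n → ℂ) → (Fin n → ℂ), Continuous B ∧ ∀ V ∈ PP, cvec n (fun z => κ (V z)) = B (cvec n V)

/-- T14d: first order: if `κ(V) + ε κ'(V)(V₁ - V)` and `κ(V)` have the same first `n` coefficients then so do
`V₁`, `V` (`ε κ'(1) ≠ 0`) -/
def T14d : Prop := ∀ (κ : ℂ → ℂ), DifferentiableOn ℂ κ Po → deriv κ 1 ≠ 0 → ∀ ε : ℝ, 0 < ε → ∀ n : ℕ,
  ∀ V ∈ PP, ∀ V₁ ∈ PP,
  cvec n (fun z => κ (V z) + ε * deriv κ (V z) * (V₁ z - V z)) = cvec n (fun z => κ (V z)) →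
  cvec n V₁ = cvec n V

/-- T14: the coefficient theorem -/
def T14 : Prop := T14a → T14b → T14c → T14d → ∀ (κ : ℂ → ℂ) (U : Set ℂ), IsOpen U → Pb ⊆ U →
  DifferentiableOn ℂ κ U → ∀ c : ℝ, 0 < c → (∀ W ∈ Pb, c ≤ (deriv κ W).re) →
  ∀ ε : ℝ, 0 < ε →
  (∀ v ∈ Po, ∀ s : ℂ, -(ε * (v.re - 1 / 2)) < s.re → κ v + deriv κ v * s ∈ κ '' Po) →
  ∀ V ∈ PP, ∀ n : ℕ, 1 ≤ n → ‖iteratedDeriv n (fun z => κ (V z)) 0‖ ≤
    ‖iteratedDeriv n (fun z => κ (1 / (1 - z))) 0‖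

/-! ### Task T15, T16: the extremal function -/
/-- the alpha-Koebe function -/
noncomputable def koebe (b : ℝ) (z : ℂ) : ℂ := z * kap b (vf b) (1 / (1 - z))

/-- T15a: positivity of `Re Q` -/
def T15a : Prop := T3a → T4 → ∀ (b : ℝ) (v : ℂ → ℂ), VAll b v → ∀ W ∈ Po, 0 < ((v W)⁻¹).re

/-- T15b: the extremal function is in the class -/
def T15b : Prop := ∀ (b : ℝ) (v : ℂ → ℂ), VAll b v → (∀ W ∈ Po, 0 < ((v W)⁻¹).re) →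
  (fun z => z * kap b v (1 / (1 - z))) ∈ MClass (1 / b)

/-- coefficients of `z k'/k` for the alpha-Koebe function `k`:
`(α n + 1) q_n = 2 + ∑_{j=1}^{n-1} q_j (2 - q_{n-j})` -/
noncomputable def qc (α : ℝ) : ℕ → ℝ
  | 0 => 1
  | (n + 1) => (2 + ∑ j : Fin n, qc α (j + 1) * (2 - qc α (n - j))) / (α * (n + 1) + 1)
  termination_by n => n
  decreasing_by
    · have := j.2; omega
    · have := j.2; omega

/-- coefficients of the alpha-Koebe function: `n K_n = ∑_{j=1}^{n} q_j K_{n-j}` -/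
noncomputable def Kc (α : ℝ) : ℕ → ℝ
  | 0 => 1
  | (n + 1) => (∑ j : Fin (n + 1), qc α (j + 1) * Kc α (n - j)) / (n + 1)
  termination_by n => n
  decreasing_by
    · omega

/-- T16a: coefficients of `Q(1/(1-z))` and `κ(1/(1-z))` -/
def T16a : Prop := ∀ (b : ℝ) (v : ℂ → ℂ), VAll b v → ∀ n : ℕ,
  iteratedDeriv n (fun z => (v (1 / (1 - z)))⁻¹) 0 / (n.factorial : ℂ) = (qc (1 / b) n : ℂ) ∧
  iteratedDeriv n (fun z => kap b v (1 / (1 - z))) 0 / (n.factorial : ℂ) = (Kc (1 / b) n : ℂ)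

/-- T16b: positivity -/
def T16b : Prop := T14a → T16a → ∀ (b : ℝ) (v : ℂ → ℂ), VAll b v → (∀ W ∈ Po, 0 < ((v W)⁻¹).re) →
  ∀ n : ℕ, 0 < Kc (1 / b) n

/-- the final statement -/
def Final : Prop := ∀ α : ℝ, 0 < α → α < 1 → ∀ n : ℕ, 2 ≤ n →
  IsGreatest {r : ℝ | ∃ f ∈ MClass α, r = ‖iteratedDeriv n f 0 / (n.factorial : ℂ)‖} (Kc α (n - 1))

end Mocanu
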