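import Mathlib
import Pool.Agent.Helper267_mocanu.Stmts

/-!
Task T2: the values of `v` on the line `Re W = 1/2`.
-/

set_option autoImplicit false

namespace Mocanu

open Complex Set Filter Topology MeasureTheory Metric

namespace T2aux

theorem bp_re (t : ℝ) : (bp t).re = 1 / 2 := by
  unfold bp
  rw [show ((1 : ℂ) + (t : ℂ) * I) / 2 = (((1 / 2 : ℝ) : ℂ)) + ((t / 2 : ℝ) : ℂ) * I by
    push_cast
    ring]
  simp

theorem bp_RH (t : ℝ) : bp t ∈ RH := by
  show 0 < (bp t).re
  rw [bp_re]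
  norm_num

theorem bp_hasDerivAt (t : ℝ) : HasDerivAt bp (I / 2) t := by
  unfold bp
  have h1 : HasDerivAt (fun t : ℝ => (t : ℂ)) 1 t := Complex.ofRealCLM.hasDerivAt
  have h2 := ((h1.mul_const I).const_add 1).div_const 2
  rw [one_mul] at h2
  exact h2

theorem bp_neg (t : ℝ) : bp (-t) = (starRingEnd ℂ) (bp t) := by
  unfold bp
  simp only [map_div₀, map_add, map_one, map_mul, Complex.conj_ofReal, Complex.conj_I,
    Complex.ofReal_neg]
  have : (starRingEnd ℂ) (2 : ℂ) = 2 := by
    have := Complex.conj_ofReal 2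
    push_cast at this
    exact this
  rw [this]
  ring

theorem isOpen_RH : IsOpen RH := isOpen_lt continuous_const Complex.continuous_re

variable {b : ℝ} {v : ℂ → ℂ}

theorem both (h : VBase b v) (t : ℝ) :
    HasDerivAt (av v) (-(2 * b * t * av v t / (1 + t ^ 2))) t ∧
    HasDerivAt (cv v) ((2 * b / (1 + t ^ 2)) * (1 - t * cv v t)) t := by
  have hd : DifferentiableAt ℂ v (bp t) :=
    (h.diff _ (bp_RH t)).differentiableAt (isOpen_RH.mem_nhds (bp_RH t))
  set d := deriv v (bp t) with hdd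
  have h1 : HasDerivAt (fun t : ℝ => v (bp t)) (d * (I / 2)) t :=
    hd.hasDerivAt.comp t (bp_hasDerivAt t)
  have h2 : HasDerivAt (av v) (d * (I / 2)).re t :=
    Complex.reCLM.hasFDerivAt.comp_hasDerivAt t h1
  have h3 : HasDerivAt (fun t : ℝ => (v (bp t)).im) (d * (I / 2)).im t :=
    Complex.imCLM.hasFDerivAt.comp_hasDerivAt t h1
  have h4 : HasDerivAt (cv v) (-(d * (I / 2)).im) t := h3.neg
  have e1 : (I / 2 : ℂ).re = 0 := by simp
  have e2 : (I / 2 : ℂ).im = 1 / 2 := by simp
  rw [mul_re, e1, e2] at h2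
  rw [mul_im, e1, e2] at h4
  have hode := h.ode (bp t) (bp_RH t)
  rw [← hdd] at hode
  have hW : bp t * (bp t - 1) = (((-(1 + t ^ 2) / 4 : ℝ)) : ℂ) := by
    unfold bp
    push_cast
    have : (I : ℂ) ^ 2 = -1 := Complex.I_sq
    linear_combination ((t : ℂ) ^ 2 / 4) * this
  have hW2 : 2 * bp t - 1 = (t : ℂ) * I := by
    unfold bp
    ring
  rw [hW, hW2] at hode
  have hre := congrArg Complex.re hode
  have him := congrArg Complex.im hode
  have hv : v (bp t) = ((av v t : ℝ) : ℂ) - ((cv v t : ℝ) : ℂ) * I := by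
    unfold av cv
    push_cast
    rw [sub_eq_add_neg, ← neg_mul, neg_neg]
    exact (Complex.re_add_im _).symm
  rw [hv] at hre him
  simp only [add_re, add_im, mul_re, mul_im, sub_re, sub_im, ofReal_re, ofReal_im, I_re,
    I_im] at hre him
  have hx : (0 : ℝ) < 1 + t ^ 2 := by positivity
  constructor
  · refine h2.congr_deriv ?_
    rw [eq_comm, neg_eq_iff_eq_neg, div_eq_iff hx.ne']
    linarith
  · refine h4.congr_deriv ?_
    rw [div_mul_eq_mul_div, eq_div_iff hx.ne']
    linarith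

theorem even_odd (h : VBase b v) (t : ℝ) : av v (-t) = av v t ∧ cv v (-t) = - cv v t := by
  unfold av cv
  rw [bp_neg, h.conj _ (bp_RH t)]
  constructor
  · rw [Complex.conj_re]
  · rw [Complex.conj_im]

theorem pow_deriv (b t : ℝ) : HasDerivAt (fun t : ℝ => (1 + t ^ 2) ^ b)
    (2 * b * t / (1 + t ^ 2) * (1 + t ^ 2) ^ b) t := by
  have hx : (0 : ℝ) < 1 + t ^ 2 := by positivity
  have h1 : HasDerivAt (fun t : ℝ => 1 + t ^ 2) (2 * t) t := by
    have := (hasDerivAt_pow 2 t).const_add 1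
    simpa using this
  have h2 := h1.rpow_const (p := b) (Or.inl hx.ne')
  refine h2.congr_deriv ?_
  rw [Real.rpow_sub_one hx.ne']
  field_simp

/-- comparison: `D' + 2bt D/(1+t²)` has a sign -/
theorem comp_mono {D D' : ℝ → ℝ} (b t0 : ℝ) (hD : ∀ t, t0 ≤ t → HasDerivAt D (D' t) t)
    (hs : ∀ t, t0 ≤ t → 0 ≤ D' t + 2 * b * t / (1 + t ^ 2) * D t) :
    MonotoneOn (fun t => (1 + t ^ 2) ^ b * D t) (Ici t0) := by
  have hder : ∀ t, t0 ≤ t → HasDerivAt (fun t => (1 + t ^ 2) ^ b * D t)
      (2 * b * t / (1 + t ^ 2) * (1 + t ^ 2) ^ b * D t + (1 + t ^ 2) ^ b * D' t) t :=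
    fun t ht => (pow_deriv b t).mul (hD t ht)
  refine monotoneOn_of_deriv_nonneg (convex_Ici t0) ?_ ?_ ?_
  · exact fun t ht => (hder t ht).continuousAt.continuousWithinAt
  · intro t ht
    rw [interior_Ici] at ht
    exact (hder t (le_of_lt ht)).differentiableAt.differentiableWithinAt
  · intro t ht
    rw [interior_Ici] at ht
    rw [(hder t (le_of_lt ht)).deriv]
    have h1 := hs t (le_of_lt ht)
    have h2 : (0 : ℝ) < (1 + t ^ 2) ^ b := Real.rpow_pos_of_pos (by positivity) _
    have h3 := mul_nonneg h2.le h1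
    have e : 2 * b * t / (1 + t ^ 2) * (1 + t ^ 2) ^ b * D t + (1 + t ^ 2) ^ b * D' t =
      (1 + t ^ 2) ^ b * (D' t + 2 * b * t / (1 + t ^ 2) * D t) := by ring
    rw [e]
    exact h3

theorem c_zero (h : VBase b v) : cv v 0 = 0 := by
  have h1 := (even_odd h 0).2
  rw [neg_zero] at h1
  linarith

theorem a_eq (h : VBase b v) (t : ℝ) : av v t = av v 0 * (1 + t ^ 2) ^ (-b) := by
  have hder : ∀ t, HasDerivAt (fun t => (1 + t ^ 2) ^ b * av v t) 0 t := by
    intro t
    refine ((pow_deriv b t).mul (both h t).1).congr_deriv ?_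
    ring
  have h1 := is_const_of_deriv_eq_zero (f := fun t => (1 + t ^ 2) ^ b * av v t)
    (fun t => (hder t).differentiableAt) (fun t => (hder t).deriv) t 0
  have h2 : ((1 : ℝ) + 0 ^ 2) ^ b = 1 := by
    norm_num
  rw [h2, one_mul] at h1
  rw [← h1, Real.rpow_neg (by positivity)]
  have h3 : (0 : ℝ) < (1 + t ^ 2) ^ b := Real.rpow_pos_of_pos (by positivity) _
  field_simp

theorem a0_eq : av v 0 = (v (1 / 2)).re := by
  have : bp 0 = 1 / 2 := by
    unfold bp
    rw [Complex.ofReal_zero, zero_mul, add_zero]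
  unfold av
  rw [this]

theorem alg (b s c D : ℝ) (hD : D ≠ 0) (hDe : D = 1 + (2 * b - 1) * s ^ 2)
    (hx : 1 + s ^ 2 ≠ 0) :
    2 * b / (1 + s ^ 2) * (1 - s * c) - 2 * b * (1 - (2 * b - 1) * s ^ 2) / D ^ 2 +
      2 * b * s / (1 + s ^ 2) * (c - 2 * b * s / D) =
      2 * b * (4 * (b - 1) * s ^ 2) / ((1 + s ^ 2) * D ^ 2) := by
  field_simp
  rw [hDe]
  ring

/-- `c` is bounded below by the subsolution -/
theorem c_lo (h : VBase b v) (t : ℝ) (ht : 0 ≤ t) :
    2 * b * t / (1 + (2 * b - 1) * t ^ 2) ≤ cv v t := by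
  have hb := h.hb
  have hDp : ∀ s : ℝ, 0 < 1 + (2 * b - 1) * s ^ 2 := by
    intro s
    have : 0 ≤ (2 * b - 1) * s ^ 2 := mul_nonneg (by linarith) (sq_nonneg s)
    linarith
  have hL : ∀ s : ℝ, HasDerivAt (fun s : ℝ => 2 * b * s / (1 + (2 * b - 1) * s ^ 2))
      (2 * b * (1 - (2 * b - 1) * s ^ 2) / (1 + (2 * b - 1) * s ^ 2) ^ 2) s := by
    intro s
    have h1 : HasDerivAt (fun s : ℝ => 2 * b * s) (2 * b) s := by
      simpa using (hasDerivAt_id s).const_mul (2 * b)
    have h2 : HasDerivAt (fun s : ℝ => 1 + (2 * b - 1) * s ^ 2) ((2 * b - 1) * (2 * s)) s := by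
      have := ((hasDerivAt_pow 2 s).const_mul (2 * b - 1)).const_add 1
      simpa using this
    refine (h1.div h2 (hDp s).ne').congr_deriv ?_
    have := (hDp s).ne'
    field_simp
    ring
  have hmono := comp_mono (D := fun s => cv v s - 2 * b * s / (1 + (2 * b - 1) * s ^ 2))
    b 0 (fun s _ => (both h s).2.sub (hL s)) ?_
  · have h1 := hmono (mem_Ici.2 (le_refl 0)) (mem_Ici.2 ht) ht
    simp only [c_zero h] at h1
    have h2 : (0 : ℝ) < (1 + t ^ 2) ^ b := Real.rpow_pos_of_pos (by positivity) _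
    have h3 : 0 ≤ (1 + t ^ 2) ^ b * (cv v t - 2 * b * t / (1 + (2 * b - 1) * t ^ 2)) := by
      refine le_trans (le_of_eq ?_) h1
      simp
    have h4 := nonneg_of_mul_nonneg_right h3 h2
    linarith
  · intro s hs
    have hD := hDp s
    have hx : (0 : ℝ) < 1 + s ^ 2 := by positivity
    have hD0 := hD.ne'
    have e : 2 * b / (1 + s ^ 2) * (1 - s * cv v s) -
        2 * b * (1 - (2 * b - 1) * s ^ 2) / (1 + (2 * b - 1) * s ^ 2) ^ 2 +
        2 * b * s / (1 + s ^ 2) * (cv v s - 2 * b * s / (1 + (2 * b - 1) * s ^ 2)) =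
        2 * b * (4 * (b - 1) * s ^ 2) / ((1 + s ^ 2) * (1 + (2 * b - 1) * s ^ 2) ^ 2) :=
      alg b s (cv v s) _ hD0 rfl hx.ne'
    rw [e]
    have : 0 ≤ b - 1 := by linarith
    positivity

end T2aux

open T2aux

theorem t2 : T2 := by
  intro b v h
  have hb := h.hb
  have ha0 : 2 ≤ av v 0 := by
    rw [a0_eq]
    exact h.half_lo
  have ha1 : av v 0 ≤ (2 : ℝ) ^ b := by
    rw [a0_eq]
    exact h.half_hi
  refine
    { a_pos := fun t => ?_
      c_pos := fun t ht => ?_
      a_even := fun t => (even_odd h t).1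
      c_odd := fun t => (even_odd h t).2
      a_deriv := fun t => (both h t).1
      c_deriv := fun t => (both h t).2
      tc_lo := fun t ht => ?_
      a_lo := fun t => ?_
      a_hi := fun t => ?_
      tc_hi := fun ε hε => ?_ }
  · rw [a_eq h t]
    have : (0 : ℝ) < (1 + t ^ 2) ^ (-b) := Real.rpow_pos_of_pos (by positivity) _
    exact mul_pos (by linarith) this
  · refine lt_of_lt_of_le ?_ (c_lo h t ht.le)
    have : 0 < 1 + (2 * b - 1) * t ^ 2 := by
      have : 0 ≤ (2 * b - 1) * t ^ 2 := mul_nonneg (by linarith) (sq_nonneg t)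
      linarith
    positivity
  · have h1 := c_lo h t ht
    have hD : 0 < 1 + (2 * b - 1) * t ^ 2 := by
      have : 0 ≤ (2 * b - 1) * t ^ 2 := mul_nonneg (by linarith) (sq_nonneg t)
      linarith
    rw [div_le_iff₀ hD] at h1
    have h2 := mul_le_mul_of_nonneg_left h1 ht
    nlinarith
  · rw [a_eq h t]
    have hx : (0 : ℝ) < 1 + t ^ 2 := by positivity
    have h1 : 1 - b * t ^ 2 ≤ (1 + t ^ 2) ^ (-b) := by
      have hy : -1 ≤ -t ^ 2 / (1 + t ^ 2) := by
        rw [le_div_iff₀ hx]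
        linarith
      have h3 := one_add_mul_self_le_rpow_one_add hy hb.le
      have h4 : 1 + -t ^ 2 / (1 + t ^ 2) = (1 + t ^ 2)⁻¹ := by
        field_simp
        ring
      rw [h4, Real.inv_rpow hx.le, ← Real.rpow_neg hx.le] at h3
      refine le_trans ?_ h3
      have h5 : t ^ 2 / (1 + t ^ 2) ≤ t ^ 2 := by
        rw [div_le_iff₀ hx]
        nlinarith [sq_nonneg t]
      have h6 : -t ^ 2 / (1 + t ^ 2) = -(t ^ 2 / (1 + t ^ 2)) := by ring
      rw [h6]
      nlinarith
    have h2 : (0 : ℝ) < (1 + t ^ 2) ^ (-b) := Real.rpow_pos_of_pos hx _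
    nlinarith
  · rw [a_eq h t]
    have hx : (0 : ℝ) < 1 + t ^ 2 := by positivity
    rw [Real.div_rpow (by norm_num) hx.le, Real.rpow_neg hx.le, ← div_eq_mul_inv]
    exact div_le_div_of_nonneg_right ha1 (Real.rpow_pos_of_pos hx _).le
  · obtain ⟨K, hK⟩ : ∃ K : ℝ, K = 2 * b / (2 * b - 1) + ε / 2 := ⟨_, rfl⟩
    have hb1 : 0 < 2 * b - 1 := by linarith
    have hKp : 0 < K := by
      rw [hK]
      positivity
    have hκ : 0 < (2 * b - 1) * K - 2 * b := by
      rw [hK]
      have : (2 * b - 1) * (2 * b / (2 * b - 1) + ε / 2) - 2 * b = (2 * b - 1) * (ε / 2) := by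
        field_simp
        ring
      rw [this]
      positivity
    set T0 : ℝ := max 1 (K / ((2 * b - 1) * K - 2 * b)) with hT0
    have hT1 : 1 ≤ T0 := le_max_left _ _
    have hDer : ∀ s, T0 ≤ s → HasDerivAt (fun s : ℝ => K / s - cv v s)
        (-K / s ^ 2 - (2 * b / (1 + s ^ 2)) * (1 - s * cv v s)) s := by
      intro s hs
      have hs0 : s ≠ 0 := by linarith
      have h1 : HasDerivAt (fun s : ℝ => K / s) (-K / s ^ 2) s := by
        have := (hasDerivAt_inv hs0).const_mul K
        refine this.congr_deriv ?_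
        field_simp
      exact h1.sub (both h s).2
    have hmono := comp_mono (D := fun s : ℝ => K / s - cv v s) b T0 hDer ?_
    · set G0 : ℝ := (1 + T0 ^ 2) ^ b * (K / T0 - cv v T0) with hG0
      have hlim : Tendsto (fun t : ℝ => |G0| * (t * (1 + t ^ 2) ^ (-b))) atTop (𝓝 0) := by
        have h1 : Tendsto (fun t : ℝ => t * (1 + t ^ 2) ^ (-b)) atTop (𝓝 0) := by
          have h2 : Tendsto (fun t : ℝ => t ^ (-(1 : ℝ))) atTop (𝓝 0) :=
            tendsto_rpow_neg_atTop one_pos
          refine squeeze_zero' ?_ ?_ h2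
          · filter_upwards [eventually_ge_atTop (1 : ℝ)] with t ht
            have : (0 : ℝ) < (1 + t ^ 2) ^ (-b) := Real.rpow_pos_of_pos (by positivity) _
            positivity
          · filter_upwards [eventually_ge_atTop (1 : ℝ)] with t ht
            have ht0 : 0 < t := by linarith
            have hx : (1 : ℝ) ≤ 1 + t ^ 2 := by nlinarith
            have h3 : (1 + t ^ 2) ^ (-b) ≤ (1 + t ^ 2) ^ (-(1 : ℝ)) :=
              Real.rpow_le_rpow_of_exponent_le hx (by linarith)
            have h4 : t * (1 + t ^ 2) ^ (-b) ≤ t * (1 + t ^ 2) ^ (-(1 : ℝ)) :=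
              mul_le_mul_of_nonneg_left h3 ht0.le
            refine h4.trans ?_
            rw [Real.rpow_neg_one, Real.rpow_neg_one]
            rw [← div_eq_mul_inv, div_le_iff₀ (by positivity)]
            field_simp
            nlinarith
        simpa using h1.const_mul |G0|
      have hev := hlim.eventually (gt_mem_nhds (show (0 : ℝ) < ε / 2 by positivity))
      obtain ⟨T', hT'⟩ := eventually_atTop.1 hev
      refine ⟨max T0 T', fun t ht => ?_⟩
      have ht0 : T0 ≤ t := (le_max_left _ _).trans ht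
      have ht1 : 0 < t := by linarith
      have h5 := hT' t ((le_max_right _ _).trans ht)
      have h6 := hmono (mem_Ici.2 (le_refl T0)) (mem_Ici.2 ht0) ht0
      simp only at h6
      rw [← hG0] at h6
      have hp : (0 : ℝ) < (1 + t ^ 2) ^ b := Real.rpow_pos_of_pos (by positivity) _
      have h7 : G0 * (1 + t ^ 2) ^ (-b) ≤ K / t - cv v t := by
        rw [Real.rpow_neg (by positivity), ← div_eq_mul_inv, div_le_iff₀ hp]
        linarith
      have h8 := mul_le_mul_of_nonneg_left h7 ht1.le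
      have h9 : t * (K / t - cv v t) = K - t * cv v t := by
        field_simp
      rw [h9] at h8
      have hq : (0 : ℝ) < (1 + t ^ 2) ^ (-b) := Real.rpow_pos_of_pos (by positivity) _
      have h10 : -(|G0| * (t * (1 + t ^ 2) ^ (-b))) ≤ t * (G0 * (1 + t ^ 2) ^ (-b)) := by
        have h11 := neg_abs_le G0
        have h12 : 0 ≤ t * (1 + t ^ 2) ^ (-b) := by positivity
        nlinarith
      rw [hK] at h8
      linarith
    · intro s hs
      have hs1 : 1 ≤ s := hT1.trans hs
      have hs0 : 0 < s := by linarith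
      have hs2 : K / ((2 * b - 1) * K - 2 * b) ≤ s ^ 2 := by
        have h1 : K / ((2 * b - 1) * K - 2 * b) ≤ s := (le_max_right _ _).trans hs
        nlinarith
      rw [div_le_iff₀ hκ] at hs2
      have e : -K / s ^ 2 - 2 * b / (1 + s ^ 2) * (1 - s * cv v s) +
          2 * b * s / (1 + s ^ 2) * (K / s - cv v s) =
          (s ^ 2 * ((2 * b - 1) * K - 2 * b) - K) / (s ^ 2 * (1 + s ^ 2)) := by
        field_simp
        ring
      rw [e]
      exact div_nonneg (by linarith) (by positivity)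

end Mocanu
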