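import Mathlib
import Pool.Agent.Helper267_mocanu.Stmts

/-!
Task T3: Phragmen-Lindelof for lower bounds of the real part on the half plane, and the minimum
principle.
-/

set_option autoImplicit false

namespace Mocanu

open Complex Set Filter Topology MeasureTheory Metric Bornology

theorem bp_re (t : ℝ) : (bp t).re = 1 / 2 := by
  unfold bp
  rw [show ((1 : ℂ) + (t : ℂ) * I) / 2 = (((1 / 2 : ℝ) : ℂ)) + ((t / 2 : ℝ) : ℂ) * I by
    push_cast
    ring]
  simp

theorem bp_mem (t : ℝ) : bp t ∈ Pb := by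
  show 1 / 2 ≤ (bp t).re
  rw [bp_re]

theorem bp_shift (x : ℝ) : (x : ℂ) * I + 1 / 2 = bp (2 * x) := by
  unfold bp
  push_cast
  ring

theorem t3a : T3a := by
  intro f U hU hPU hf C p hp0 hp2 hgr M hM m hm W hW
  set g : ℂ → ℂ := fun w => Complex.exp (-f (w + 1 / 2)) with hg
  have hmem : ∀ w : ℂ, 0 ≤ w.re → w + 1 / 2 ∈ Pb := by
    intro w hw
    show 1 / 2 ≤ (w + 1 / 2).re
    have : (w + 1 / 2).re = w.re + 1 / 2 := by
      rw [add_re]
      norm_num
    rw [this]
    linarith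
  have hfd : ∀ w : ℂ, 0 ≤ w.re → DifferentiableAt ℂ f (w + 1 / 2) := fun w hw =>
    (hf _ (hPU (hmem w hw))).differentiableAt (hU.mem_nhds (hPU (hmem w hw)))
  have hgd : ∀ w : ℂ, 0 ≤ w.re → DifferentiableAt ℂ g w := by
    intro w hw
    have h1 : DifferentiableAt ℂ (fun w : ℂ => w + 1 / 2) w := by fun_prop
    exact ((hfd w hw).comp w h1).neg.cexp
  have hnorm : ∀ w : ℂ, ‖g w‖ = Real.exp (-(f (w + 1 / 2)).re) := by
    intro w
    rw [hg]
    simp only
    rw [Complex.norm_exp, neg_re]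
  have hcl : closure {z : ℂ | 0 < z.re} = {z : ℂ | 0 ≤ z.re} := closure_setOfPred_lt_re 0
  have key : ‖g (W - 1 / 2)‖ ≤ Real.exp (-m) := by
    refine PhragmenLindelof.right_half_plane_of_bounded_on_real (f := g) ?_ ?_ ?_ ?_ ?_
    · refine ⟨fun w hw => (hgd w (le_of_lt hw)).differentiableWithinAt, fun w hw => ?_⟩
      rw [hcl] at hw
      exact (hgd w hw).continuousAt.continuousWithinAt
    · refine ⟨p, hp2, |C| * (5 / 2) ^ p, ?_⟩
      rw [Asymptotics.isBigO_iff]
      refine ⟨1, ?_⟩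
      rw [eventually_inf_principal]
      have h1 : ∀ᶠ w : ℂ in cobounded ℂ, 1 ≤ ‖w‖ := by
        exact tendsto_norm_cobounded_atTop.eventually_ge_atTop 1
      filter_upwards [h1] with w hw hw2
      have hw3 : 0 ≤ w.re := le_of_lt hw2
      rw [hnorm, one_mul, Real.norm_of_nonneg (Real.exp_pos _).le, Real.exp_le_exp]
      have h2 : -(f (w + 1 / 2)).re ≤ ‖f (w + 1 / 2)‖ :=
        (neg_le_abs _).trans (Complex.abs_re_le_norm _)
      refine h2.trans ((hgr _ (hmem w hw3)).trans ?_)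
      have h3 : (1 + ‖w + 1 / 2‖) ^ p ≤ (5 / 2) ^ p * ‖w‖ ^ p := by
        rw [← Real.mul_rpow (by norm_num) (norm_nonneg _)]
        refine Real.rpow_le_rpow (by positivity) ?_ hp0
        have h4 : ‖w + 1 / 2‖ ≤ ‖w‖ + 1 / 2 := by
          refine (norm_add_le _ _).trans ?_
          norm_num
        linarith
      calc C * (1 + ‖w + 1 / 2‖) ^ p ≤ |C| * (1 + ‖w + 1 / 2‖) ^ p :=
            mul_le_mul_of_nonneg_right (le_abs_self C) (by positivity)
        _ ≤ |C| * ((5 / 2) ^ p * ‖w‖ ^ p) := mul_le_mul_of_nonneg_left h3 (abs_nonneg _)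
        _ = |C| * (5 / 2) ^ p * ‖w‖ ^ p := by ring
    · refine ⟨Real.exp M, ?_⟩
      rw [eventually_map]
      filter_upwards [eventually_ge_atTop (2 : ℝ)] with x hx
      rw [hnorm, Real.exp_le_exp]
      have := hM (x + 1 / 2) (by linarith)
      push_cast at this
      linarith
    · intro x
      rw [hnorm, Real.exp_le_exp, bp_shift]
      linarith [hm (2 * x)]
    · have h5 : 1 / 2 ≤ W.re := hW
      have : (W - 1 / 2).re = W.re - 1 / 2 := by
        rw [sub_re]
        norm_num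
      rw [this]
      linarith
  rw [hnorm, Real.exp_le_exp, sub_add_cancel] at key
  linarith

theorem bp_hasDerivAt (t : ℝ) : HasDerivAt bp (I / 2) t := by
  unfold bp
  have h1 : HasDerivAt (fun t : ℝ => (t : ℂ)) 1 t := Complex.ofRealCLM.hasDerivAt
  have h2 := ((h1.mul_const I).const_add 1).div_const 2
  rw [one_mul] at h2
  exact h2

theorem t3b : T3b := by
  intro f U hU hPU hf C p hp0 hp2 hgr M hM hsym t₁ T hT
  set φ : ℝ → ℝ := fun t => (f (bp t)).re with hφ
  have hfd : ∀ W ∈ Pb, DifferentiableAt ℂ f W := fun W hW =>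
    (hf _ (hPU hW)).differentiableAt (hU.mem_nhds (hPU hW))
  have hder : ∀ t, HasDerivAt (fun t : ℝ => f (bp t)) (deriv f (bp t) * (I / 2)) t := fun t =>
    (hfd _ (bp_mem t)).hasDerivAt.comp t (bp_hasDerivAt t)
  have hφd : ∀ t, HasDerivAt φ (deriv f (bp t) * (I / 2)).re t := by
    intro t
    have h1 := Complex.reCLM.hasFDerivAt.comp_hasDerivAt t (hder t)
    exact h1
  have hφc : Continuous φ := continuous_iff_continuousAt.2 fun t => (hφd t).continuousAt
  set R : ℝ := max T |t₁| with hR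
  have hR0 : 0 ≤ R := (abs_nonneg t₁).trans (le_max_right _ _)
  obtain ⟨t0, ht0, hmin⟩ := isCompact_Icc.exists_isMinOn (s := Icc (0 : ℝ) R)
    ⟨0, le_refl 0, hR0⟩ hφc.continuousOn
  have habs : ∀ t, φ |t| = φ t := by
    intro t
    rcases abs_choice t with h | h
    · rw [h]
    · rw [h]
      exact hsym t
  have hle1 : φ t0 ≤ φ t₁ := by
    rw [← habs t₁]
    exact hmin ⟨abs_nonneg _, le_max_right _ _⟩
  have hglob : ∀ t, φ t0 ≤ φ t := by
    intro t
    rw [← habs t]
    by_cases h : |t| ≤ R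
    · exact hmin ⟨abs_nonneg _, h⟩
    · push Not at h
      have h2 : φ t₁ < φ |t| := hT |t| ((le_max_left T |t₁|).trans h.le)
      linarith
  have hpl := t3a f U hU hPU hf C p hp0 hp2 hgr M hM (φ t0) hglob
  refine ⟨t0, ht0.1, hle1, ?_, ?_⟩
  · have h1 : IsLocalMin φ t0 := Filter.Eventually.of_forall hglob
    have h2 := h1.hasDerivAt_eq_zero (hφd t0)
    have h3 : (deriv f (bp t0) * (I / 2)).re = -(deriv f (bp t0)).im / 2 := by
      rw [mul_re]
      have e1 : (I / 2 : ℂ).re = 0 := by simp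
      have e2 : (I / 2 : ℂ).im = 1 / 2 := by simp
      rw [e1, e2]
      ring
    rw [h3] at h2
    linarith
  · set d := deriv f (bp t0) with hd
    have h1 : HasDerivAt (fun s : ℝ => f (bp t0 + (s : ℂ))) d 0 := by
      have h2 : HasDerivAt (fun s : ℝ => bp t0 + (s : ℂ)) 1 0 :=
        (Complex.ofRealCLM.hasDerivAt (x := (0 : ℝ))).const_add (bp t0)
      have h3 : HasDerivAt f d (bp t0 + ((0 : ℝ) : ℂ)) := by
        rw [Complex.ofReal_zero, add_zero]
        exact (hfd _ (bp_mem t0)).hasDerivAt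
      have h4 := h3.comp (0 : ℝ) h2
      rw [mul_one] at h4
      exact h4
    have h5 : HasDerivAt (fun s : ℝ => (f (bp t0 + (s : ℂ))).re) d.re 0 :=
      Complex.reCLM.hasFDerivAt.comp_hasDerivAt (0 : ℝ) h1
    have h6 := h5.tendsto_slope_zero_right
    refine ge_of_tendsto h6 ?_
    filter_upwards [self_mem_nhdsWithin] with s hs
    have hs' : (0 : ℝ) < s := hs
    have hmem : bp t0 + (s : ℂ) ∈ Pb := by
      show 1 / 2 ≤ (bp t0 + (s : ℂ)).re
      rw [add_re, bp_re, Complex.ofReal_re]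
      linarith
    have h7 : (f (bp t0)).re ≤ (f (bp t0 + (s : ℂ))).re := hpl _ hmem
    rw [zero_add, Complex.ofReal_zero, add_zero, smul_eq_mul]
    have h8 : 0 ≤ (f (bp t0 + (s : ℂ))).re - (f (bp t0)).re := by linarith
    positivity

end Mocanu
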