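import Mathlib
import Pool.Agent.Helper267_mocanu.Stmts

/-!
Task T4: bounds of `v` on the real axis, `x > 1`.
-/

set_option autoImplicit false

namespace Mocanu

open Complex Set Filter Topology MeasureTheory Metric

namespace T4aux

/-- comparison for `x (x - 1) D' + b (2 x - 1) D ≥ 0` -/
theorem cmp {D D' : ℝ → ℝ} (b : ℝ) (hb : 1 < b) (hD : ∀ x, 1 ≤ x → HasDerivAt D (D' x) x)
    (hs : ∀ x, 1 < x → 0 ≤ x * (x - 1) * D' x + b * (2 * x - 1) * D x) :
    ∀ x, 1 < x → 0 ≤ D x := by
  have hg : ∀ x, 1 ≤ x → HasDerivAt (fun x : ℝ => (x * (x - 1)) ^ b)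
      ((2 * x - 1) * b * (x * (x - 1)) ^ (b - 1)) x := by
    intro x hx
    have h1 : HasDerivAt (fun x : ℝ => x * (x - 1)) (2 * x - 1) x := by
      refine ((hasDerivAt_id x).mul ((hasDerivAt_id x).sub_const 1)).congr_deriv ?_
      simp only [id]
      ring
    exact h1.rpow_const (Or.inr hb.le)
  have hder : ∀ x, 1 ≤ x → HasDerivAt (fun x : ℝ => (x * (x - 1)) ^ b * D x)
      ((2 * x - 1) * b * (x * (x - 1)) ^ (b - 1) * D x + (x * (x - 1)) ^ b * D' x) x :=
    fun x hx => (hg x hx).mul (hD x hx)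
  have hmono : MonotoneOn (fun x : ℝ => (x * (x - 1)) ^ b * D x) (Ici 1) := by
    refine monotoneOn_of_deriv_nonneg (convex_Ici 1) ?_ ?_ ?_
    · exact fun x hx => (hder x hx).continuousAt.continuousWithinAt
    · intro x hx
      rw [interior_Ici] at hx
      exact (hder x (le_of_lt hx)).differentiableAt.differentiableWithinAt
    · intro x hx
      rw [interior_Ici] at hx
      have hx1 : 1 < x := hx
      rw [(hder x hx1.le).deriv]
      have hp : 0 < x * (x - 1) := mul_pos (by linarith) (by linarith)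
      have h1 : (x * (x - 1)) ^ b = (x * (x - 1)) ^ (b - 1) * (x * (x - 1)) := by
        rw [Real.rpow_sub_one hp.ne', div_mul_cancel₀ _ hp.ne']
      have h2 : (0 : ℝ) < (x * (x - 1)) ^ (b - 1) := Real.rpow_pos_of_pos hp _
      rw [h1]
      have h3 := mul_nonneg h2.le (hs x hx1)
      refine le_of_le_of_eq h3 ?_
      ring
  intro x hx
  have h1 := hmono (mem_Ici.2 (le_refl (1 : ℝ))) (mem_Ici.2 hx.le) hx.le
  have h0 : ((1 : ℝ) * (1 - 1)) ^ b = 0 := by
    rw [sub_self, mul_zero, Real.zero_rpow (by linarith)]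
  simp only at h1
  rw [h0, zero_mul] at h1
  have hp : 0 < x * (x - 1) := mul_pos (by linarith) (by linarith)
  exact nonneg_of_mul_nonneg_right h1 (Real.rpow_pos_of_pos hp _)

end T4aux

open T4aux

theorem t4 : T4 := by
  intro b v h x hx
  have hb := h.hb
  have hopen : IsOpen RH := isOpen_lt continuous_const Complex.continuous_re
  have hRH : ∀ y : ℝ, 1 ≤ y → (y : ℂ) ∈ RH := by
    intro y hy
    show 0 < (y : ℂ).re
    rw [Complex.ofReal_re]
    linarith
  have him : ∀ y : ℝ, 1 ≤ y → (v y).im = 0 := by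
    intro y hy
    have h1 := h.conj y (hRH y hy)
    rw [Complex.conj_ofReal] at h1
    exact Complex.conj_eq_iff_im.1 h1.symm
  have hw : ∀ y : ℝ, 1 ≤ y → HasDerivAt (fun y : ℝ => (v y).re) (deriv v y).re y := by
    intro y hy
    have hd : DifferentiableAt ℂ v y :=
      (h.diff _ (hRH y hy)).differentiableAt (hopen.mem_nhds (hRH y hy))
    have h1 : HasDerivAt (fun y : ℝ => (y : ℂ)) 1 y := Complex.ofRealCLM.hasDerivAt
    have h2 := hd.hasDerivAt.comp y h1
    rw [mul_one] at h2
    exact Complex.reCLM.hasFDerivAt.comp_hasDerivAt y h2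
  have hode : ∀ y : ℝ, 1 ≤ y → y * (y - 1) * (deriv v y).re + b * (2 * y - 1) * (v y).re = b := by
    intro y hy
    have h1 := congrArg Complex.re (h.ode y (hRH y hy))
    have e1 : (y : ℂ) * ((y : ℂ) - 1) = ((y * (y - 1) : ℝ) : ℂ) := by push_cast; ring
    have e2 : (b : ℂ) * (2 * (y : ℂ) - 1) = ((b * (2 * y - 1) : ℝ) : ℂ) := by push_cast; ring
    rw [e1, e2, add_re, Complex.re_ofReal_mul, Complex.re_ofReal_mul, Complex.ofReal_re] at h1
    exact h1
  obtain ⟨k, hk⟩ : ∃ k : ℝ, k = 2 - 1 / b := ⟨_, rfl⟩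
  have hbk : b * k = 2 * b - 1 := by
    rw [hk]
    field_simp
  have hk1 : 1 < k := by
    have : 1 / b < 1 := by
      rw [div_lt_one (by linarith)]
      exact hb
    linarith
  refine ⟨him x hx.le, ?_, ?_⟩
  · rw [← hk]
    have hLp : ∀ y : ℝ, 1 ≤ y → 0 < 1 + k * (y - 1) := by
      intro y hy
      have : 0 ≤ k * (y - 1) := mul_nonneg (by linarith) (by linarith)
      linarith
    have hL : ∀ y : ℝ, 1 ≤ y → HasDerivAt (fun y : ℝ => 1 / (1 + k * (y - 1)))
        (-k / (1 + k * (y - 1)) ^ 2) y := by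
      intro y hy
      have h1 : HasDerivAt (fun y : ℝ => 1 + k * (y - 1)) k y := by
        have := (((hasDerivAt_id y).sub_const 1).const_mul k).const_add 1
        simpa using this
      have h2 := h1.inv (hLp y hy).ne'
      refine (h2.congr_of_eventuallyEq ?_)
      filter_upwards with z
      simp [one_div]
    have h1 := cmp (D := fun y : ℝ => (v y).re - 1 / (1 + k * (y - 1))) b hb
      (fun y hy => (hw y hy).sub (hL y hy)) ?_ x hx
    · linarith
    · intro y hy
      have h2 := hode y hy.le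
      have h3 := hLp y hy.le
      obtain ⟨z, hz⟩ : ∃ z : ℝ, z = y - 1 := ⟨_, rfl⟩
      have hy2 : y = z + 1 := by linarith
      have hz0 : 0 < z := by linarith
      rw [← hz] at h3 ⊢
      have e : y * z * ((deriv v y).re - -k / (1 + k * z) ^ 2) +
          b * (2 * y - 1) * ((v y).re - 1 / (1 + k * z)) =
          (y * z * (deriv v y).re + b * (2 * y - 1) * (v y).re) - b +
          (k - 1) * z / (1 + k * z) ^ 2 := by
        have h4 : y * z * (-k / (1 + k * z) ^ 2) + b * (2 * y - 1) * (1 / (1 + k * z)) =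
            b - (k - 1) * z / (1 + k * z) ^ 2 := by
          have h5 := h3.ne'
          rw [hy2]
          field_simp
          linear_combination (-(1 + k * z) * z) * hbk
        linear_combination -h4
      rw [e]
      rw [← hz] at h2
      rw [h2, sub_self, zero_add]
      have : 0 < k - 1 := by linarith
      positivity
  · rw [← hk]
    have hUp : ∀ y : ℝ, 1 ≤ y → 0 < k * (y - 1 / 2) := fun y hy =>
      mul_pos (by linarith) (by linarith)
    have hU : ∀ y : ℝ, 1 ≤ y → HasDerivAt (fun y : ℝ => 1 / (k * (y - 1 / 2)))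
        (-k / (k * (y - 1 / 2)) ^ 2) y := by
      intro y hy
      have h1 : HasDerivAt (fun y : ℝ => k * (y - 1 / 2)) k y := by
        have := (((hasDerivAt_id y).sub_const (1 / 2)).const_mul k)
        simpa using this
      have h2 := h1.inv (hUp y hy).ne'
      refine (h2.congr_of_eventuallyEq ?_)
      filter_upwards with z
      simp [one_div]
    have h1 := cmp (D := fun y : ℝ => 1 / (k * (y - 1 / 2)) - (v y).re) b hb
      (fun y hy => (hU y hy).sub (hw y hy)) ?_ x hx
    · linarith
    · intro y hy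
      have h2 := hode y hy.le
      have hk0 : k ≠ 0 := by linarith
      obtain ⟨z, hz⟩ : ∃ z : ℝ, z = y - 1 / 2 := ⟨_, rfl⟩
      have hy2 : y = z + 1 / 2 := by linarith
      have hz0 : 0 < z := by linarith
      have e : y * (y - 1) * (-k / (k * (y - 1 / 2)) ^ 2 - (deriv v y).re) +
          b * (2 * y - 1) * (1 / (k * (y - 1 / 2)) - (v y).re) =
          b - (y * (y - 1) * (deriv v y).re + b * (2 * y - 1) * (v y).re) +
          1 / (4 * k * z ^ 2) := by
        have h4 : y * (y - 1) * (-k / (k * (y - 1 / 2)) ^ 2) +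
            b * (2 * y - 1) * (1 / (k * (y - 1 / 2))) = b + 1 / (4 * k * z ^ 2) := by
          rw [← hz, hy2]
          field_simp
          linear_combination (-16 * z ^ 2) * hbk
        linear_combination h4
      rw [e, h2, sub_self, zero_add]
      positivity

end Mocanu
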