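import Pool.Agent.Helper267_mocanu.Stmts

set_option autoImplicit false

namespace Mocanu

open Complex Set Filter Topology MeasureTheory Metric

lemma t5_Pb_sub_RH : Pb ⊆ RH := by
  intro W hW
  have h : (1:ℝ) / 2 ≤ W.re := hW
  show (0:ℝ) < W.re
  linarith

lemma t5_isOpen_RH : IsOpen RH := isOpen_lt continuous_const Complex.continuous_re

lemma t5_bp_mem (t : ℝ) : bp t ∈ Pb := by
  have : (bp t).re = 1 / 2 := by
    simp only [bp]
    have h : ((1 + (t : ℂ) * I) / 2) = (((1 / 2 : ℝ)) : ℂ) + ((t / 2 : ℝ) : ℂ) * I := by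
      push_cast; ring
    rw [h]; simp
  show (1:ℝ) / 2 ≤ (bp t).re
  rw [this]

lemma t5_bp_re (t : ℝ) : (bp t).re = 1 / 2 := by
  simp only [bp]
  have h : ((1 + (t : ℂ) * I) / 2) = (((1 / 2 : ℝ)) : ℂ) + ((t / 2 : ℝ) : ℂ) * I := by
    push_cast; ring
  rw [h]; simp

lemma t5_bp_im (t : ℝ) : (bp t).im = t / 2 := by
  simp only [bp]
  have h : ((1 + (t : ℂ) * I) / 2) = (((1 / 2 : ℝ)) : ℂ) + ((t / 2 : ℝ) : ℂ) * I := by
    push_cast; ring
  rw [h]; simp

lemma t5_bp_ne (t : ℝ) : bp t ≠ 1 := by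
  intro h
  have := t5_bp_re t
  rw [h] at this
  norm_num at this

lemma t5_wv_re (v : ℂ → ℂ) (t : ℝ) :
    (bp t * v (bp t)).re = (av v t + t * cv v t) / 2 := by
  rw [Complex.mul_re, t5_bp_re, t5_bp_im]
  simp only [av, cv]
  ring

lemma t5_v_eq (v : ℂ → ℂ) (t : ℝ) : v (bp t) = (av v t : ℂ) - (cv v t : ℂ) * I := by
  apply Complex.ext <;> simp [av, cv]

lemma t5_psi_eq {v : ℂ → ℂ} (h1 : v 1 = 1) (W : ℂ) (hW : W ≠ 1) :
    Psi v W = (1 - v W) * W / (W - 1) := by
  have hne : W - 1 ≠ 0 := sub_ne_zero.mpr hW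
  simp only [Psi]
  rw [dslope_of_ne _ hW, slope_def_field, h1]
  field_simp
  ring

lemma t5_psi_re {v : ℂ → ℂ} (h1 : v 1 = 1) (t : ℝ) :
    (Psi v (bp t)).re = ((av v t - 1) * (1 - t ^ 2) + 2 * (t * cv v t)) / (1 + t ^ 2) := by
  rw [t5_psi_eq h1 _ (t5_bp_ne t), t5_v_eq v t]
  have hx : (1 + t ^ 2 : ℝ) ≠ 0 := by positivity
  have hxc : (1 + (t:ℂ) ^ 2) ≠ 0 := by exact_mod_cast hx
  have hne : bp t - 1 ≠ 0 := sub_ne_zero.mpr (t5_bp_ne t)
  have key : (1 - ((av v t : ℂ) - (cv v t : ℂ) * I)) * bp t / (bp t - 1) =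
      ((((av v t - 1) * (1 - t ^ 2) + 2 * (t * cv v t)) / (1 + t ^ 2) : ℝ) : ℂ) +
      (((2 * t * (av v t - 1) - cv v t * (1 - t ^ 2)) / (1 + t ^ 2) : ℝ) : ℂ) * I := by
    rw [div_eq_iff hne]
    push_cast
    simp only [bp]
    field_simp
    linear_combination (-2 * (av v t : ℂ) * (t:ℂ)^2 + 2 * (cv v t : ℂ) * (t:ℂ) + (2 * (t:ℂ)^2)) * (I_sq)
  rw [key, Complex.add_re, Complex.ofReal_re, Complex.mul_re, Complex.ofReal_re, Complex.ofReal_im, Complex.I_re, Complex.I_im]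
  ring

/-- evenness reduction -/
lemma t5_line_wv {b : ℝ} {v : ℂ → ℂ} (hb : 1 < b) (h : VBdry b v) (t : ℝ) :
    1 / 4 ≤ (av v t + t * cv v t) / 2 := by
  wlog ht : 0 ≤ t with H
  · have h1 := H hb h (-t) (by linarith)
    rw [h.a_even, h.c_odd] at h1
    linarith
  have hlo := h.tc_lo t ht
  have halo := h.a_lo t
  have hap := h.a_pos t
  have htc : 0 ≤ t * cv v t := by
    rcases ht.eq_or_lt with h0 | h0
    · rw [← h0]; simp
    · exact mul_nonneg ht (h.c_pos t h0).le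
  rcases le_total (b * t ^ 2) (1 / 2) with hc | hc
  · nlinarith
  · have hx : 0 ≤ t ^ 2 := sq_nonneg t
    -- y = 2 b t^2 ≥ 1, (1 + y - x) tc ≥ y
    have : 1 / 2 ≤ t * cv v t := by
      by_contra hcon
      push Not at hcon
      have hpos : 0 < 1 + (2 * b - 1) * t ^ 2 := by nlinarith
      have : (1 + (2 * b - 1) * t ^ 2) * (t * cv v t) < (1 + (2 * b - 1) * t ^ 2) * (1 / 2) :=
        mul_lt_mul_of_pos_left hcon hpos
      nlinarith
    linarith

lemma t5_line_psi {b : ℝ} {v : ℂ → ℂ} (hb : 1 < b) (h : VBdry b v) (t : ℝ) :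
    1 / (4 * b) ≤ ((av v t - 1) * (1 - t ^ 2) + 2 * (t * cv v t)) / (1 + t ^ 2) := by
  wlog ht : 0 ≤ t with H
  · have h1 := H hb h (-t) (by linarith)
    rw [h.a_even, h.c_odd] at h1
    have e1 : (-t) ^ 2 = t ^ 2 := by ring
    have e2 : -t * -cv v t = t * cv v t := by ring
    rw [e1, e2] at h1
    exact h1
  have hlo := h.tc_lo t ht
  have halo := h.a_lo t
  have hap := h.a_pos t
  have hahi := h.a_hi t
  have htc : 0 ≤ t * cv v t := by
    rcases ht.eq_or_lt with h0 | h0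
    · rw [← h0]; simp
    · exact mul_nonneg ht (h.c_pos t h0).le
  have hb0 : 0 < b := by linarith
  have hx : 0 ≤ t ^ 2 := sq_nonneg t
  generalize hA : av v t = a at *
  generalize hC : t * cv v t = k at *
  generalize hX : t ^ 2 = x at *
  have hinv : 1 / (4 * b) ≤ 1 / 4 := by
    apply one_div_le_one_div_of_le <;> linarith
  have hpos : 0 < 1 + (2 * b - 1) * x := by nlinarith
  rcases le_total x 1 with hx1 | hx1
  · -- x ≤ 1, so 1 + x ≤ 2
    have hx2 : 0 < 1 + x := by linarith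
    rcases le_total (b * x) (1 / 2) with hc | hc
    · -- k ≥ y/2 with y = 2bx
      have hk : b * x ≤ k := by
        by_contra hcon
        push Not at hcon
        have h1 : (1 + (2 * b - 1) * x) * k < (1 + (2 * b - 1) * x) * (b * x) :=
          mul_lt_mul_of_pos_left hcon hpos
        have h2 : (1 + (2 * b - 1) * x) ≤ 2 := by nlinarith
        have h3 : 0 ≤ b * x := by positivity
        nlinarith
      have h4 : 1 / 2 ≤ (a - 1) * (1 - x) + 2 * k := by
        have h5 : (1 - 2 * (b * x)) * (1 - x) ≤ (a - 1) * (1 - x) := by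
          apply mul_le_mul_of_nonneg_right _ (by linarith)
          linarith
        have h6 : x ≤ b * x := by nlinarith
        nlinarith
      rw [le_div_iff₀ hx2]
      nlinarith
    · have hk : 1 ≤ 2 * k := by
        by_contra hcon
        push Not at hcon
        have h1 : (1 + (2 * b - 1) * x) * k < (1 + (2 * b - 1) * x) * (1 / 2) :=
          mul_lt_mul_of_pos_left (by linarith) hpos
        nlinarith
      have h4 : x ≤ (a - 1) * (1 - x) + 2 * k := by nlinarith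
      have h5 : 1 / (4 * b) * (1 + x) ≤ x := by
        have h6 : 1 / (4 * b) * (1 + x) ≤ 1 / (4 * b) * 2 :=
          mul_le_mul_of_nonneg_left (by linarith) (by positivity)
        have h7 : 1 / (4 * b) * 2 ≤ x := by
          rw [div_mul_eq_mul_div, div_le_iff₀ (by positivity)]
          linarith
        linarith
      rw [le_div_iff₀ hx2]
      linarith
  · have hx2 : 0 < 1 + x := by linarith
    have hale : a ≤ 2 / (1 + x) := by
      refine hahi.trans ?_
      have h1 : 2 / (1 + x) ≤ 1 := by rw [div_le_one hx2]; linarith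
      have h0 : 0 < 2 / (1 + x) := by positivity
      calc (2 / (1 + x)) ^ b ≤ (2 / (1 + x)) ^ (1:ℝ) :=
            Real.rpow_le_rpow_of_exponent_ge h0 h1 hb.le
        _ = 2 / (1 + x) := Real.rpow_one _
    have hk : 1 ≤ k := by
      by_contra hcon
      push Not at hcon
      have h1 : (1 + (2 * b - 1) * x) * k < (1 + (2 * b - 1) * x) * 1 :=
        mul_lt_mul_of_pos_left hcon hpos
      nlinarith
    have ha2 : a * (1 + x) ≤ 2 := by rwa [le_div_iff₀ hx2] at hale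
    rw [le_div_iff₀ hx2]
    have : 1 / 4 * (1 + x) ≤ (a - 1) * (1 - x) + 2 * k := by
      -- (1-a)(x-1) ≥ (x-1)²/(x+1)
      have h1 : (x - 1) ^ 2 ≤ (1 + x) * ((1 - a) * (x - 1)) := by nlinarith
      by_contra hcon
      push Not at hcon
      have h2 : (1 + x) * ((a - 1) * (1 - x) + 2 * k) < (1 + x) * (1 / 4 * (1 + x)) :=
        mul_lt_mul_of_pos_left hcon hx2
      nlinarith
    have h9 : 1 / (4 * b) * (1 + x) ≤ 1 / 4 * (1 + x) :=
      mul_le_mul_of_nonneg_right hinv hx2.le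
    linarith

/-- apply T3a to a bounded function on `RH` -/
lemma t5_low (h3 : T3a) (f : ℂ → ℂ) (hf : DifferentiableOn ℂ f RH) (C : ℝ)
    (hC : ∀ W ∈ Pb, ‖f W‖ ≤ C) (m : ℝ) (hm : ∀ t : ℝ, m ≤ (f (bp t)).re) :
    ∀ W ∈ Pb, m ≤ (f W).re := by
  refine h3 f RH t5_isOpen_RH t5_Pb_sub_RH hf C 0 le_rfl (by norm_num) ?_ C ?_ m hm
  · intro W hW
    rw [Real.rpow_zero, mul_one]
    exact hC W hW
  · intro x hx
    have hx' : (x : ℂ) ∈ Pb := by
      show (1:ℝ) / 2 ≤ ((x:ℂ)).re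
      rw [Complex.ofReal_re]; linarith
    have h1 := hC x hx'
    have h2 := Complex.abs_re_le_norm (f x)
    have h3 := neg_abs_le (f x).re
    linarith

lemma t5_psi_diff {v : ℂ → ℂ} (hv : DifferentiableOn ℂ v RH) : DifferentiableOn ℂ (Psi v) RH := by
  have h1 : (1:ℂ) ∈ RH := by simp [RH]
  have hd : DifferentiableOn ℂ (dslope v 1) RH :=
    (Complex.differentiableOn_dslope (t5_isOpen_RH.mem_nhds h1)).2 hv
  have : Psi v = fun W => -(W * dslope v 1 W) := rfl
  rw [this]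
  exact (differentiableOn_id.mul hd).neg

lemma t5_psi_hi {v : ℂ → ℂ} (h1 : v 1 = 1) (hv : DifferentiableOn ℂ v RH) (C : ℝ)
    (hC : ∀ W ∈ Pb, ‖W * v W‖ ≤ C) : ∃ C' : ℝ, ∀ W ∈ Pb, ‖Psi v W‖ ≤ C' := by
  have hpd := t5_psi_diff hv
  have hsub : closedBall (1:ℂ) (1 / 4) ⊆ RH := by
    intro W hW
    have h2 : ‖W - 1‖ ≤ 1 / 4 := by rwa [mem_closedBall, dist_eq_norm] at hW
    have h3 := Complex.abs_re_le_norm (W - 1)
    have h4 := neg_abs_le (W - 1).re
    have h5 : (W - 1).re = W.re - 1 := by simp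
    show 0 < W.re
    linarith
  obtain ⟨C₁, hC₁⟩ := (isCompact_closedBall (1:ℂ) (1 / 4)).exists_bound_of_continuousOn
    (hpd.continuousOn.mono hsub)
  have hC0 : 0 ≤ C := by
    have h6 : (1:ℂ) ∈ Pb := by
      show (1:ℝ) / 2 ≤ (1:ℂ).re
      simp; norm_num
    exact (norm_nonneg _).trans (hC 1 h6)
  refine ⟨max C₁ (5 + 4 * C), fun W hW => ?_⟩
  by_cases hn : ‖W - 1‖ ≤ 1 / 4
  · exact (hC₁ W (by rwa [mem_closedBall, dist_eq_norm])).trans (le_max_left _ _)
  · push Not at hn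
    refine le_trans ?_ (le_max_right _ _)
    have hpos : 0 < ‖W - 1‖ := by linarith
    have hne : W ≠ 1 := by
      intro h; rw [h] at hpos; simp at hpos
    rw [t5_psi_eq h1 W hne, norm_div, div_le_iff₀ hpos]
    have e : (1 - v W) * W = (W - 1) + 1 - W * v W := by ring
    rw [e]
    have h7 := norm_sub_le ((W - 1) + 1) (W * v W)
    have h8 := norm_add_le (W - 1) 1
    have h9 := hC W hW
    rw [norm_one] at h8
    nlinarith

theorem t5 : T5 := by
  intro h3 b v hV hB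
  have hb := hV.hb
  obtain ⟨C, hC⟩ := hV.growth
  have hwd : DifferentiableOn ℂ (fun W => W * v W) RH := differentiableOn_id.mul hV.diff
  have hpd : DifferentiableOn ℂ (Psi v) RH := t5_psi_diff hV.diff
  obtain ⟨C', hC'⟩ := t5_psi_hi hV.one hV.diff C hC
  have hwlow : ∀ W ∈ Pb, (1 / 4 : ℝ) ≤ (W * v W).re := by
    refine t5_low h3 (fun W => W * v W) hwd C hC (1 / 4) (fun t => ?_)
    rw [t5_wv_re]
    exact t5_line_wv hb hB t
  have hplow : ∀ W ∈ Pb, 1 / (4 * b) ≤ (Psi v W).re := by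
    refine t5_low h3 (Psi v) hpd C' hC' (1 / (4 * b)) (fun t => ?_)
    rw [t5_psi_re hV.one]
    exact t5_line_psi hb hB t
  have hbp : 0 < 1 / (4 * b) := by
    have : 0 < b := by linarith
    positivity
  refine ⟨⟨1 / 4, by norm_num, hwlow⟩, ⟨1 / (4 * b), hbp, hplow⟩, ⟨C', hC'⟩, ⟨C, hC⟩,
    fun W hW => t5_psi_eq hV.one W hW, hpd, ?_⟩
  refine ⟨RH ∩ ((fun W => (W * v W, Psi v W)) ⁻¹' ({z : ℂ | 0 < z.re} ×ˢ {z : ℂ | 0 < z.re})),
    ?_, ?_, inter_subset_left, ?_⟩
  · refine (hwd.continuousOn.prodMk hpd.continuousOn).isOpen_inter_preimage t5_isOpen_RH ?_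
    exact (isOpen_lt continuous_const Complex.continuous_re).prod
      (isOpen_lt continuous_const Complex.continuous_re)
  · intro W hW
    refine ⟨t5_Pb_sub_RH hW, ?_, ?_⟩
    · show (0:ℝ) < (W * v W).re
      have := hwlow W hW
      linarith
    · show (0:ℝ) < (Psi v W).re
      have := hplow W hW
      linarith
  · rintro W ⟨hW, h1, h2⟩
    have h1' : (0:ℝ) < (W * v W).re := h1
    have h2' : (0:ℝ) < (Psi v W).re := h2
    refine ⟨?_, ?_, h1', h2'⟩
    · intro h; rw [h] at h1'; simp at h1'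
    · intro h; rw [h] at h2'; simp at h2'

end Mocanu
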