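import Pool.Agent.Helper267_mocanu.Stmts

set_option autoImplicit false

namespace Mocanu

open Complex Set Filter Topology MeasureTheory Metric

theorem t6_QT (b X Y t : ℝ) :
    QT b (X + Y * I) t = ((2 * b * (X ^ 2 - Y ^ 2 + t * Y) / (1 + t ^ 2) : ℝ) : ℂ) +
      ((2 * b * (X * (2 * Y - t)) / (1 + t ^ 2) : ℝ) : ℂ) * I := by
  have h : (1 : ℂ) + (t : ℂ) ^ 2 ≠ 0 := by
    have : (1 : ℂ) + (t : ℂ) ^ 2 = ((1 + t ^ 2 : ℝ) : ℂ) := by push_cast; ring
    rw [this]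
    exact_mod_cast (by positivity : (1 + t ^ 2 : ℝ) ≠ 0)
  unfold QT
  push_cast
  field_simp
  linear_combination ((b : ℂ) * (Y * (Y - t))) * Complex.I_sq

theorem t6_re (b X Y t : ℝ) :
    (QT b (X + Y * I) t).re = 2 * b * (X ^ 2 - Y ^ 2 + t * Y) / (1 + t ^ 2) := by
  rw [t6_QT]
  simp [-Complex.ofReal_div, -Complex.ofReal_mul, -Complex.ofReal_add, -Complex.ofReal_sub,
    -Complex.ofReal_pow]

theorem t6_im (b X Y t : ℝ) :
    (QT b (X + Y * I) t).im = 2 * b * (X * (2 * Y - t)) / (1 + t ^ 2) := by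
  rw [t6_QT]
  simp [-Complex.ofReal_div, -Complex.ofReal_mul, -Complex.ofReal_add, -Complex.ofReal_sub,
    -Complex.ofReal_pow]

theorem t6a : T6a := by
  intro b X Y t hb hX ht him hre
  rw [t6_im] at him
  rw [t6_re] at hre
  have hx : (0 : ℝ) < 1 + t ^ 2 := by positivity
  have hb0 : (0 : ℝ) < b := by linarith
  have hY : Y = t / 2 := by
    rw [div_eq_zero_iff] at him
    rcases him with h | h
    · have h2 : X * (2 * Y - t) = 0 := by
        rcases mul_eq_zero.1 h with h3 | h3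
        · linarith
        · exact h3
      rcases mul_eq_zero.1 h2 with h3 | h3
      · linarith
      · linarith
    · linarith
  subst hY
  have e1 : (2 - 1 / b) / 2 = (2 * b - 1) / (2 * b) := by field_simp
  rw [e1, div_le_div_iff₀ hx (by positivity)] at hre
  by_contra hc
  rw [not_le] at hc
  have h1 : (1 / 2 : ℝ) ^ 2 < X ^ 2 := by
    apply pow_lt_pow_left₀ hc (by norm_num) (by norm_num)
  have h2 : 4 * b ^ 2 * X ^ 2 ≤ 2 * b - 1 - (b - 1) ^ 2 * t ^ 2 := by nlinarith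
  have h3 : b ^ 2 < 4 * b ^ 2 * X ^ 2 := by nlinarith [sq_pos_of_pos hb0]
  nlinarith [sq_nonneg ((b - 1) * t), sq_nonneg (b - 1)]

theorem t6b : T6b := by
  intro b X Y t hb hX hZ
  have hx : (0 : ℝ) < 1 + t ^ 2 := by positivity
  have hZ' : X ^ 2 - Y ^ 2 + t * Y ≤ 0 := by
    have : (((X + Y * I : ℂ)) * ((X + Y * I) - t * I)).re = X ^ 2 - Y ^ 2 + t * Y := by
      simp
      ring
    linarith
  have hne : (1 : ℂ) + (t : ℂ) ^ 2 ≠ 0 := by
    have : (1 : ℂ) + (t : ℂ) ^ 2 = ((1 + t ^ 2 : ℝ) : ℂ) := by push_cast; ring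
    rw [this]
    exact_mod_cast hx.ne'
  set Z : ℝ := X ^ 2 - Y ^ 2 + t * Y with hZdef
  set g : ℝ := 2 * Y - t with hg
  have key : ((QT b (X + Y * I) t * (2 * (X + Y * I) - t * I) - (X + Y * I)) / (1 + (t:ℂ) ^ 2) +
    2 * (t * I) * ((X + Y * I) * ((X + Y * I) - t * I)) / (1 + (t:ℂ) ^ 2) ^ 2) =
    ((X / (1 + t ^ 2) ^ 2 * (2 * b * (2 * Z - g ^ 2) - (1 + t ^ 2) - 2 * t * g) : ℝ) : ℂ) +
    (((2 * b * (g * Z + 2 * X ^ 2 * g) - Y * (1 + t ^ 2) + 2 * t * Z) / (1 + t ^ 2) ^ 2 : ℝ) : ℂ)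
      * I := by
    rw [t6_QT, hZdef, hg]
    push_cast
    field_simp
    ring_nf
    simp only [Complex.I_sq, show (I : ℂ) ^ 3 = -I by rw [pow_succ, Complex.I_sq]; ring]
    ring
  rw [key]
  have hre : ∀ p q : ℝ, ((p : ℂ) + (q : ℂ) * I).re = p := by
    intro p q; simp
  rw [hre]
  have h1 : 2 * b * (2 * Z - g ^ 2) - (1 + t ^ 2) - 2 * t * g < 0 := by
    nlinarith [sq_nonneg (g + t), sq_nonneg g, sq_nonneg t, mul_nonneg (by linarith : (0:ℝ) ≤ b - 1) (sq_nonneg g),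
      mul_nonneg (by linarith : (0:ℝ) ≤ b) (by linarith : (0:ℝ) ≤ -Z)]
  have h2 : 0 < X / (1 + t ^ 2) ^ 2 := by positivity
  exact mul_neg_of_pos_of_neg h2 h1

theorem t6e : T6e := by
  intro b X hb hX hX2 h
  have hb0 : (0 : ℝ) < b := by linarith
  obtain ⟨A, hA⟩ : ∃ A : ℝ, A = 1 - X := ⟨_, rfl⟩
  have hX' : X = 1 - A := by linarith
  have hA1 : 1 / 2 ≤ A := by linarith
  have hA2 : A < 1 := by linarith
  have hA0 : 0 < A := by linarith
  rw [← hA] at h ⊢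
  have h1 : A ^ 2 ≤ b * X ^ 2 := by
    have h2 : (1 + b + (b - 1) * X) * A - b ≤ 0 := by
      have : (1 + b + (b - 1) * X - b / A) * A ≤ 0 := by
        apply mul_nonpos_of_nonpos_of_nonneg h hA0.le
      have e : (1 + b + (b - 1) * X - b / A) * A = (1 + b + (b - 1) * X) * A - b := by
        field_simp
      linarith
    rw [hX'] at h2 ⊢
    nlinarith
  obtain ⟨l, hl⟩ : ∃ l : ℝ, l = 1 - 1 / b := ⟨_, rfl⟩
  have hl0 : 0 < l := by
    rw [hl, sub_pos, div_lt_one hb0]; exact hb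
  have hl1 : l < 1 := by
    rw [hl]
    have : 0 < 1 / b := by positivity
    linarith
  have hbl : b - 1 = b * l := by
    rw [hl]; field_simp
  have e2 : 2 - 1 / b = 1 + l := by rw [hl]; ring
  rw [e2, hbl]
  -- G / b
  have h3 : 2 * b * X ^ 2 * (b * l - b / A ^ 2) + b / A - b * l * (1 + l) / 2 ≤
      b * (2 * l * A ^ 2 - 2 + 1 / A - l * (1 + l) / 2) := by
    have h4 : l - 1 / A ^ 2 ≤ 0 := by
      have : 1 ≤ 1 / A ^ 2 := by
        rw [le_div_iff₀ (by positivity)]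
        nlinarith
      linarith
    have h5 : 2 * (b * X ^ 2) * (l - 1 / A ^ 2) ≤ 2 * A ^ 2 * (l - 1 / A ^ 2) := by
      nlinarith
    have e5 : 2 * A ^ 2 * (l - 1 / A ^ 2) = 2 * l * A ^ 2 - 2 := by
      field_simp
    have e6 : 2 * b * X ^ 2 * (b * l - b / A ^ 2) + b / A - b * l * (1 + l) / 2 =
      b * (2 * (b * X ^ 2) * (l - 1 / A ^ 2) + 1 / A - l * (1 + l) / 2) := by
      field_simp
    rw [e6]
    apply mul_le_mul_of_nonneg_left _ hb0.le
    linarith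
  refine lt_of_le_of_lt h3 ?_
  apply mul_neg_of_pos_of_neg hb0
  -- multiply by A
  have h6 : A ^ 3 ≤ (7 * A - 3) / 4 := by
    nlinarith [mul_nonneg (mul_nonneg (by linarith : (0:ℝ) ≤ A - 1 / 2)
      (by linarith : (0:ℝ) ≤ 1 - A)) (by linarith : (0:ℝ) ≤ A + 3 / 2)]
  have h7 : 2 * l * A ^ 3 - 2 * A + 1 - l * (1 + l) * A / 2 < 0 := by
    have h8 : 2 * l * A ^ 3 ≤ 2 * l * ((7 * A - 3) / 4) :=
      mul_le_mul_of_nonneg_left h6 (by linarith)
    have h9 : 2 * l * ((7 * A - 3) / 4) - 2 * A + 1 - l * (1 + l) * A / 2 =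
      (2 - 2 * A) * (-(l ^ 2) / 4) + (2 * A - 1) * (-((1 - l) * (2 - l)) / 2) := by ring
    have h10 : (2 - 2 * A) * (-(l ^ 2) / 4) < 0 := by
      apply mul_neg_of_pos_of_neg (by linarith)
      have : 0 < l ^ 2 := by positivity
      linarith
    have h11 : (2 * A - 1) * (-((1 - l) * (2 - l)) / 2) ≤ 0 := by
      apply mul_nonpos_of_nonneg_of_nonpos (by linarith)
      have : 0 ≤ (1 - l) * (2 - l) := mul_nonneg (by linarith) (by linarith)
      linarith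
    linarith
  have e7 : 2 * l * A ^ 2 - 2 + 1 / A - l * (1 + l) / 2 =
      (2 * l * A ^ 3 - 2 * A + 1 - l * (1 + l) * A / 2) / A := by
    field_simp
  rw [e7]
  exact div_neg_of_neg_of_pos h7 hA0

end Mocanu
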