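import Pool.Agent.Helper267_mocanu.Stmts

set_option autoImplicit false

namespace Mocanu

open Complex

theorem t6c : T6c := by
  intro b X Y t hb hX hX2 hY ht q u p G hq hu hp hre hG him
  by_contra hneg
  push Not at hneg
  have hn : 0 < (1 - X) ^ 2 + Y ^ 2 := by positivity
  have hpre : p.re = 1 - X := by rw [hp, hq]; simp
  have hpim : p.im = -Y := by rw [hp, hq]; simp
  have hqre : q.re = X := by rw [hq]; simp
  have hqim : q.im = Y := by rw [hq]; simp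
  have hure : u.re = 1 := by rw [hu]; simp
  have huim : u.im = -t := by rw [hu]; simp
  have hp0 : p ≠ 0 := by
    intro h
    have := hpre
    rw [h] at this
    simp at this
    linarith
  have ht0 : (1 + (t:ℂ) ^ 2) ≠ 0 := by
    have h1 : (1 + (t:ℂ) ^ 2) = ((1 + t ^ 2 : ℝ) : ℂ) := by push_cast; ring
    rw [h1]
    exact_mod_cast (by positivity : (1 + t ^ 2 : ℝ) ≠ 0)
  have E : G * ((1 + (t:ℂ) ^ 2) * p ^ 2) =
      b * q * (2 * b * (u - p) * (u - p ^ 2) - (1 + (t:ℂ) ^ 2) * p) := by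
    rw [hG]; field_simp
  have E1 := congrArg Complex.re E
  have E2 := congrArg Complex.im E
  simp [pow_two, him, hpre, hpim, hqre, hqim, hure, huim] at E1 E2
  have hS : (b * q * (q - t * I) * (starRingEnd ℂ) p).re ≤ 0 := by
    have h1 : b * q * (q - t * I) * (starRingEnd ℂ) p = (b * q * (q - t * I) / p) * ((Complex.normSq p : ℝ) : ℂ) := by
      rw [← Complex.mul_conj]
      field_simp
    rw [h1, Complex.re_mul_ofReal]
    exact mul_nonpos_of_nonpos_of_nonneg hre (Complex.normSq_nonneg p)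
  simp [hpre, hpim, hqre, hqim] at hS
  obtain ⟨r, hr⟩ : ∃ r : ℝ, G.re = r := ⟨_, rfl⟩
  rw [hr] at E1 E2 hneg
  clear hr E hG hre him hp hq hu hpre hpim hqre hqim hure huim hp0 ht0
  have hb0 : 0 < b := by linarith
  -- abbreviations
  obtain ⟨A, hA⟩ : ∃ A : ℝ, A = 1 - X := ⟨_, rfl⟩
  obtain ⟨n, hn'⟩ : ∃ n : ℝ, n = A ^ 2 + Y ^ 2 := ⟨_, rfl⟩
  obtain ⟨mr, hmr⟩ : ∃ mr : ℝ, mr = X * A - Y ^ 2 := ⟨_, rfl⟩
  obtain ⟨wr, hwr⟩ : ∃ wr : ℝ, wr = X * (1 - A ^ 2 + Y ^ 2) - (Y - t) * (2 * A * Y - t) := ⟨_, rfl⟩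
  obtain ⟨wi, hwi⟩ : ∃ wi : ℝ, wi = X * (2 * A * Y - t) + (Y - t) * (1 - A ^ 2 + Y ^ 2) := ⟨_, rfl⟩
  obtain ⟨Ip, hIp⟩ : ∃ Ip : ℝ, Ip = wr * Y + wi * A := ⟨_, rfl⟩
  obtain ⟨Rp, hRp⟩ : ∃ Rp : ℝ, Rp = wr * A - wi * Y := ⟨_, rfl⟩
  obtain ⟨Zi, hZi⟩ : ∃ Zi : ℝ, Zi = Rp * Y + Ip * mr := ⟨_, rfl⟩
  obtain ⟨Zr, hZr⟩ : ∃ Zr : ℝ, Zr = Rp * mr - Ip * Y := ⟨_, rfl⟩
  have hnpos : 0 < n := by rw [hn', hA]; exact hn
  have F1 : r * (1 + t ^ 2) * n ^ 2 = b * (2 * b * Zr - (1 + t ^ 2) * n * mr) := by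
    rw [hZr, hRp, hIp, hwr, hwi, hmr, hn', hA]
    linear_combination ((1 - X) ^ 2 - Y ^ 2) * E1 - 2 * (1 - X) * Y * E2
  have F2 : 0 = b * (2 * b * Zi - (1 + t ^ 2) * n * Y) := by
    rw [hZi, hRp, hIp, hwr, hwi, hmr, hn', hA]
    linear_combination (2 * (1 - X) * Y) * E1 + ((1 - X) ^ 2 - Y ^ 2) * E2
  have F3 : 2 * b * Zi = (1 + t ^ 2) * n * Y := by
    have := F2.symm
    rcases mul_eq_zero.1 this with h | h
    · linarith
    · linarith
  have hZipos : 0 < Zi := by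
    have h1 : 0 < (1 + t ^ 2) * n * Y := by positivity
    rw [← F3] at h1
    exact (mul_pos_iff_of_pos_left (by positivity)).1 h1
  obtain ⟨g, hg⟩ : ∃ g : ℝ, g = (A + t * Y) / n - 1 := ⟨_, rfl⟩
  have htg : t = ((1 + g) * n - A) / Y := by
    rw [hg]; field_simp; ring
  have htg' : t * Y = (1 + g) * n - A := by
    rw [htg]; field_simp
  have hgX : g ≤ X := by
    have h1 : b * ((X * X - Y * (Y - t)) * (1 - X) - (X * (Y - t) + Y * X) * Y) ≤ 0 := by
      linarith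
    have h2 : (X * X - Y * (Y - t)) * (1 - X) - (X * (Y - t) + Y * X) * Y ≤ 0 := by
      by_contra h
      push Not at h
      have := mul_pos hb0 h
      linarith
    have h3 : (g - X) * n ≤ 0 := by
      have h4 : (g - X) * n = (X * X - Y * (Y - t)) * (1 - X) - (X * (Y - t) + Y * X) * Y := by
        have : (g - X) * n = t * Y + A - (1 + X) * n := by rw [htg']; ring
        rw [this, hn', hA]; ring
      rw [h4]; exact h2
    by_contra h
    push Not at h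
    have := mul_pos (sub_pos.2 h) hnpos
    linarith
  have hg1 : -1 < g := by
    have h1 : 0 < (A + t * Y) / n := by
      apply div_pos _ hnpos
      have : 0 < A := by rw [hA]; linarith
      positivity
    rw [hg]; linarith
  have K1 : Y * Zi = n ^ 2 * (Y ^ 2 * (g ^ 2 + (1 + X) * g - X) - g ^ 2 * (1 - X ^ 2)
      + g * X * (2 - X + X ^ 2) - A * X ^ 2) := by
    rw [hZi, hRp, hIp, hwr, hwi, hmr, htg, hn', hA]
    field_simp
    ring
  have K2 : Y * Ip = n * (n * (X * (1 - g) - g ^ 2) + X * (1 - 2 * A ^ 2)) := by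
    rw [hIp, hwr, hwi, htg, hn', hA]
    field_simp
    ring
  have hRt : 0 < Y ^ 2 * (g ^ 2 + (1 + X) * g - X) - g ^ 2 * (1 - X ^ 2)
      + g * X * (2 - X + X ^ 2) - A * X ^ 2 := by
    have h1 : 0 < Y * Zi := mul_pos hY hZipos
    rw [K1] at h1
    exact (mul_pos_iff_of_pos_left (by positivity)).1 h1
  have hg0 : 0 < g := by
    by_contra h
    push Not at h
    have h1 : g ^ 2 + (1 + X) * g - X ≤ 0 := by
      have a1 : g * (g + 1) ≤ 0 := mul_nonpos_of_nonpos_of_nonneg h (by linarith)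
      have a2 : X * (1 - g) ≥ 0 := mul_nonneg hX.le (by linarith)
      linarith
    have h2 : Y ^ 2 * (g ^ 2 + (1 + X) * g - X) ≤ 0 :=
      mul_nonpos_of_nonneg_of_nonpos (by positivity) h1
    have h3 : 0 ≤ g ^ 2 * (1 - X ^ 2) := by
      apply mul_nonneg (by positivity)
      have : X * X ≤ 1 / 2 * (1 / 2) := mul_le_mul hX2 hX2 hX.le (by norm_num)
      linarith [pow_two X]
    have h4 : g * X * (2 - X + X ^ 2) ≤ 0 := by
      apply mul_nonpos_of_nonpos_of_nonneg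
      · exact mul_nonpos_of_nonpos_of_nonneg h hX.le
      · have : 0 ≤ X ^ 2 := by positivity
        linarith
    have h5 : 0 ≤ A * X ^ 2 := by
      apply mul_nonneg _ (by positivity)
      rw [hA]; linarith
    linarith
  have hI : 0 < n * (X * (1 - g) - g ^ 2) + X * (1 - 2 * A ^ 2) := by
    have a1 : g * g ≤ X * X := mul_le_mul hgX hgX hg0.le hX.le
    have a2 : X * g ≤ X * X := mul_le_mul_of_nonneg_left hgX hX.le
    have a3 : 0 ≤ X * (1 - 2 * X) := mul_nonneg hX.le (by linarith)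
    have h1 : 0 ≤ X * (1 - g) - g ^ 2 := by linarith [pow_two g]
    have h2 : A ^ 2 * (X * (1 - g) - g ^ 2) ≤ n * (X * (1 - g) - g ^ 2) := by
      apply mul_le_mul_of_nonneg_right _ h1
      rw [hn']
      have : 0 ≤ Y ^ 2 := by positivity
      linarith
    have h3 : X * g + g ^ 2 ≤ 2 * X ^ 2 := by linarith [pow_two g, pow_two X]
    have h4 : A ^ 2 * (X * g + g ^ 2) ≤ A ^ 2 * (2 * X ^ 2) :=
      mul_le_mul_of_nonneg_left h3 (by positivity)
    have h5 : 0 < X - A ^ 2 * X - A ^ 2 * (2 * X ^ 2) := by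
      have : X - A ^ 2 * X - A ^ 2 * (2 * X ^ 2) = X ^ 3 * (3 - 2 * X) := by rw [hA]; ring
      rw [this]
      apply mul_pos (by positivity); linarith
    have h6 : A ^ 2 * (X * (1 - g) - g ^ 2) = A ^ 2 * X - A ^ 2 * (X * g + g ^ 2) := by ring
    linarith
  have hIp0 : 0 < Ip := by
    have h1 : 0 < Y * Ip := by rw [K2]; exact mul_pos hnpos hI
    exact (mul_pos_iff_of_pos_left hY).1 h1
  have F4 : r * (1 + t ^ 2) * n ^ 2 * Zi = -(b * (1 + t ^ 2) * n * Ip * (Y ^ 2 + mr ^ 2)) := by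
    have h1 : r * (1 + t ^ 2) * n ^ 2 * Zi = b * (2 * b * Zi * Zr - (1 + t ^ 2) * n * mr * Zi) := by
      rw [F1]; ring
    rw [h1, F3, hZr, hZi]; ring
  have h5 : 0 ≤ r * (1 + t ^ 2) * n ^ 2 * Zi := by positivity
  have h6 : 0 < b * (1 + t ^ 2) * n * Ip * (Y ^ 2 + mr ^ 2) := by positivity
  linarith

end Mocanu
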