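import Pool.Agent.Helper267_mocanu.CertA

set_option autoImplicit false

noncomputable section

namespace Mocanu

/-- `D > 0` -/
lemma t6d_D (al X g : ℝ) (h0 : 0 < al) (h1 : al < 1) (hX : 0 < X) (hX2 : X ≤ 1 / 2)
    (hg : X + al * (1 - X) ≤ g) :
    0 < g ^ 2 * (1 - al / 2) + g * (1 - al) * (1 + X) - (1 - al) * X - al / 2 := by
  set e := X + al * (1 - X) with he
  have he0 : 0 < e := by
    have : 0 < al * (1 - X) := mul_pos h0 (by linarith)
    linarith
  have he1 : e < 1 := by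
    have : 0 < (1 - al) * (1 - X) := mul_pos (by linarith) (by linarith)
    rw [he]; nlinarith
  have hDe : e ^ 2 * (1 - al / 2) + e * (1 - al) * (1 + X) - (1 - al) * X - al / 2 =
      2 * X ^ 2 * (1 - al) + 2 * al * X * (1 - X) * (1 - al) + (al / 2) * (1 - e ^ 2) := by
    rw [he]; ring
  have hpos : 0 < 2 * X ^ 2 * (1 - al) + 2 * al * X * (1 - X) * (1 - al) + (al / 2) * (1 - e ^ 2) := by
    have a1 : 0 < 2 * X ^ 2 * (1 - al) := by
      have : 0 < 1 - al := by linarith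
      positivity
    have a2 : 0 < 2 * al * X * (1 - X) * (1 - al) := by
      have : 0 < 1 - al := by linarith
      have : 0 < 1 - X := by linarith
      positivity
    have a3 : 0 < (al / 2) * (1 - e ^ 2) := by
      have : 0 < 1 - e ^ 2 := by nlinarith
      positivity
    linarith
  have hmono : e ^ 2 * (1 - al / 2) + e * (1 - al) * (1 + X) ≤
      g ^ 2 * (1 - al / 2) + g * (1 - al) * (1 + X) := by
    have h3 : e ^ 2 ≤ g ^ 2 := by nlinarith
    have h4 : e ^ 2 * (1 - al / 2) ≤ g ^ 2 * (1 - al / 2) :=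
      mul_le_mul_of_nonneg_right h3 (by linarith)
    have h5 : e * ((1 - al) * (1 + X)) ≤ g * ((1 - al) * (1 + X)) :=
      mul_le_mul_of_nonneg_right hg (mul_nonneg (by linarith) (by linarith))
    nlinarith
  linarith

/-- `N > 0` -/
lemma t6d_N (al X g : ℝ) (h0 : 0 < al) (h1 : al < 1) (hX : 0 < X) (hX2 : X ≤ 1 / 2)
    (hg : X + al * (1 - X) ≤ g) :
    0 < g * (1 + X + al * (1 - X) / 2) - X * ((1 - al) * (1 - X) + al / 2) := by
  have h2 : 0 < 1 + X + al * (1 - X) / 2 := by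
    have : 0 < al * (1 - X) := mul_pos h0 (by linarith)
    linarith
  have h3 : (X + al * (1 - X)) * (1 + X + al * (1 - X) / 2) ≤ g * (1 + X + al * (1 - X) / 2) :=
    mul_le_mul_of_nonneg_right hg h2.le
  have h4 : (X + al * (1 - X)) * (1 + X + al * (1 - X) / 2) - X * ((1 - al) * (1 - X) + al / 2) =
      2 * X ^ 2 + al * ((1 - X) - X / 2 + (5 / 2) * X * (1 - X)) + al ^ 2 * (1 - X) ^ 2 / 2 := by ring
  have h5 : 0 < 2 * X ^ 2 + al * ((1 - X) - X / 2 + (5 / 2) * X * (1 - X)) +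
      al ^ 2 * (1 - X) ^ 2 / 2 := by
    have : 0 < (1 - X) - X / 2 + (5 / 2) * X * (1 - X) := by
      have : 0 < X * (1 - X) := mul_pos hX (by linarith)
      linarith
    positivity
  linarith

/-- `A^12 Pi = P12` -/
lemma t6d_P12 (al X g A w : ℝ) (hA : A = 1 - X) (hw : w = g * A - X) :
    A ^ 12 * (w * (g * (1 + X + al * A / 2) - X * ((1 - al) * A + al / 2)) ^ 2 *
        ((1 - al) * ((1 - al / 2) * (al / 2) * (1 + g) ^ 2 - g)) +
      (g * (1 + X + al * A / 2) - X * ((1 - al) * A + al / 2)) *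
        (g ^ 2 * (1 - al / 2) + g * (1 - al) * (1 + X) - (1 - al) * X - al / 2) *
        (((1 - al) * (1 - al / 2) * al / 2) * (A ^ 2 * (1 + g) ^ 2 + w ^ 2) -
          (1 - al) * (g * A ^ 2 - X * (1 - 2 * X)) + g * w - X * (g + (X + al * A)) * (1 - g)) +
      (g ^ 2 * (1 - al / 2) + g * (1 - al) * (1 + X) - (1 - al) * X - al / 2) ^ 2 *
        ((1 + (1 - al) * (1 - al / 2) * al * A ^ 2 / 2) * w + X * (2 * X + A * (X + al * A)))) =
    P12 X (al * A ^ 2) ((1 - al) * A ^ 2) (g * A) A w (al * A ^ 2 - X ^ 2) := by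
  have e1 : A ^ 4 * (g ^ 2 * (1 - al / 2) + g * (1 - al) * (1 + X) - (1 - al) * X - al / 2) =
      D4 X (al * A ^ 2) ((1 - al) * A ^ 2) (g * A) A := by unfold D4; ring
  have e2 : A ^ 2 * (g * (1 + X + al * A / 2) - X * ((1 - al) * A + al / 2)) =
      N2 X (al * A ^ 2) ((1 - al) * A ^ 2) (g * A) A := by unfold N2; ring
  have e3 : A ^ 8 * ((1 - al) * ((1 - al / 2) * (al / 2) * (1 + g) ^ 2 - g)) =
      V28 (al * A ^ 2) ((1 - al) * A ^ 2) (g * A) A := by unfold V28; ring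
  have e4 : A ^ 6 * (((1 - al) * (1 - al / 2) * al / 2) * (A ^ 2 * (1 + g) ^ 2 + w ^ 2) -
          (1 - al) * (g * A ^ 2 - X * (1 - 2 * X)) + g * w - X * (g + (X + al * A)) * (1 - g)) =
      V16 X (al * A ^ 2) ((1 - al) * A ^ 2) (g * A) A w (al * A ^ 2 - X ^ 2) := by
    unfold V16
    have hX : X = 1 - A := by linarith
    subst hX
    ring
  have e5 : A ^ 4 * ((1 + (1 - al) * (1 - al / 2) * al * A ^ 2 / 2) * w + X * (2 * X + A * (X + al * A))) =
      V04 X (al * A ^ 2) ((1 - al) * A ^ 2) A w (al * A ^ 2 - X ^ 2) := by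
    unfold V04
    have hX : X = 1 - A := by linarith
    subst hX
    ring
  unfold P12
  rw [← e1, ← e2, ← e3, ← e4, ← e5]
  ring

end Mocanu
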