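import Pool.Agent.Helper267_mocanu.T6dA
import Pool.Agent.Helper267_mocanu.T6dB
import Pool.Agent.Helper267_mocanu.CertI
import Pool.Agent.Helper267_mocanu.CertII

/-! Task T6d: at a critical point of the boundary curve the second order term is negative. -/

set_option autoImplicit false

noncomputable section

namespace Mocanu

open Complex

lemma t6d_core (al X g y D N v2 v1 v0 w : ℝ) (h0 : 0 < al) (h1 : al < 1) (hX : 0 < X) (hX2 : X ≤ 1 / 2)
    (hg : X + al * (1 - X) ≤ g) (hy : 0 < y) (hw : w = g * (1 - X) - X)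
    (hD : D = g ^ 2 * (1 - al / 2) + g * (1 - al) * (1 + X) - (1 - al) * X - al / 2)
    (hN : N = g * (1 + X + al * (1 - X) / 2) - X * ((1 - al) * (1 - X) + al / 2))
    (hv2 : v2 = (1 - al) * ((1 - al / 2) * (al / 2) * (1 + g) ^ 2 - g))
    (hv1 : v1 = ((1 - al) * (1 - al / 2) * al / 2) * ((1 - X) ^ 2 * (1 + g) ^ 2 + w ^ 2) -
          (1 - al) * (g * (1 - X) ^ 2 - X * (1 - 2 * X)) + g * w - X * (g + (X + al * (1 - X))) * (1 - g))
    (hv0 : v0 = (1 + (1 - al) * (1 - al / 2) * al * (1 - X) ^ 2 / 2) * w +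
      X * (2 * X + (1 - X) * (X + al * (1 - X))))
    (hR : y * D = w * N) : 0 < v2 * y ^ 2 + v1 * y + w * v0 := by
  have hDp : 0 < D := by rw [hD]; exact t6d_D al X g h0 h1 hX hX2 hg
  have hNp : 0 < N := by rw [hN]; exact t6d_N al X g h0 h1 hX hX2 hg
  have hwp : 0 < w := by
    have : 0 < w * N := by rw [← hR]; positivity
    exact (pos_iff_pos_of_mul_pos this).mpr hNp
  have hA : 0 < 1 - X := by linarith
  have hPi : 0 < w * N ^ 2 * v2 + N * D * v1 + D ^ 2 * v0 := by
    have hp12 := t6d_P12 al X g (1 - X) w rfl hw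
    rw [← hN, ← hD, ← hv2, ← hv1, ← hv0] at hp12
    have hpos : 0 < P12 X (al * (1 - X) ^ 2) ((1 - al) * (1 - X) ^ 2) (g * (1 - X)) (1 - X) w
        (al * (1 - X) ^ 2 - X ^ 2) := by
      have hG : g * (1 - X) = X + w := by rw [hw]; ring
      rcases le_or_gt 0 (al * (1 - X) ^ 2 - X ^ 2) with hr | hr
      · set r := al * (1 - X) ^ 2 - X ^ 2 with hrd
        have hv : 0 ≤ w - r := by
          have : (X + al * (1 - X)) * (1 - X) ≤ g * (1 - X) := mul_le_mul_of_nonneg_right hg hA.le
          rw [hw, hrd]; nlinarith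
        have e1 : al * (1 - X) ^ 2 = X ^ 2 + r := by rw [hrd]; ring
        have e2 : (1 - al) * (1 - X) ^ 2 = 1 - 2 * X - r := by rw [hrd]; ring
        have hz : 0 < 1 - 2 * X - r := by
          rw [← e2]; exact mul_pos (by linarith) (by positivity)
        have := P12_I_pos X r (w - r) hX hr hv hz
        rw [hG, e1, e2]
        have e3 : r + (w - r) = w := by ring
        rw [e3] at this
        exact this
      · -- region II
        set q := Real.sqrt al * (1 - X) with hq
        have hsq : q ^ 2 = al * (1 - X) ^ 2 := by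
          rw [hq, mul_pow, Real.sq_sqrt h0.le]
        have hsal : 0 < Real.sqrt al := Real.sqrt_pos.mpr h0
        have hsal1 : Real.sqrt al < 1 := by
          rw [Real.sqrt_lt' one_pos]; simpa using h1
        have hqp : 0 < q := mul_pos hsal hA
        have hqX : q ≤ X := by
          have : q ^ 2 ≤ X ^ 2 := by rw [hsq]; linarith
          exact (pow_le_pow_iff_left₀ hqp.le hX.le two_ne_zero).mp this
        have hqA : q < 1 - X := by
          rw [hq]; nlinarith
        have := P12_II_pos q (X - q) w hqp (by linarith) (by linarith) hwp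
        have e1 : q + (X - q) = X := by ring
        rw [e1] at this
        have e2 : (1 - al) * (1 - X) ^ 2 = 1 - 2 * X - (q ^ 2 - X ^ 2) := by rw [hsq]; ring
        rw [hG, e2, ← hsq]
        exact this
    rw [← hp12] at hpos
    exact (pos_iff_pos_of_mul_pos hpos).mp (by positivity)
  have hfin : 0 < D ^ 2 * (v2 * y ^ 2 + v1 * y + w * v0) := by
    have : D ^ 2 * (v2 * y ^ 2 + v1 * y + w * v0) = w * (w * N ^ 2 * v2 + N * D * v1 + D ^ 2 * v0) := by
      have e1 : D ^ 2 * (v2 * y ^ 2 + v1 * y + w * v0) =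
        v2 * (y * D) ^ 2 + v1 * (y * D) * D + w * v0 * D ^ 2 := by ring
      rw [e1, hR]; ring
    rw [this]; positivity
  exact (pos_iff_pos_of_mul_pos hfin).mp (by positivity)

theorem t6d : T6d := by
  intro b X Y t hb hX hX2 hY ht q G hq hE hG hIm
  set al : ℝ := 1 / b with hal
  have hb0 : 0 < b := by linarith
  have hal0 : 0 < al := by rw [hal]; positivity
  have hal1 : al < 1 := by rw [hal, div_lt_one hb0]; exact hb
  have hbal : b * al = 1 := by rw [hal]; field_simp
  have hn : 0 < (1 - X) ^ 2 + Y ^ 2 := by positivity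
  set g : ℝ := (1 - X + t * Y) / ((1 - X) ^ 2 + Y ^ 2) - 1 with hgd
  have hg1 : (1 + g) * ((1 - X) ^ 2 + Y ^ 2) = (1 - X) + t * Y := by
    rw [hgd]; field_simp; ring
  have hgE : X + al * (1 - X) ≤ g := by
    have e1 : b * (1 - X + t * Y) / ((1 - X) ^ 2 + Y ^ 2) = b * (1 + g) := by
      rw [hgd]; ring
    rw [e1] at hE
    have e2 : 1 + (b - 1) * X ≤ b * g := by linarith
    have e3 : al * (1 + (b - 1) * X) ≤ al * (b * g) := mul_le_mul_of_nonneg_left e2 hal0.le
    have e4 : al * (b * g) = g := by rw [← mul_assoc, mul_comm al b, hbal, one_mul]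
    have e5 : al * (1 + (b - 1) * X) = X + al * (1 - X) := by
      have : al * b = 1 := by rw [mul_comm]; exact hbal
      linear_combination X * this
    rw [e4, e5] at e3
    exact e3
  set w : ℝ := g * (1 - X) - X with hw
  set y : ℝ := Y ^ 2 with hy
  set n : ℝ := (1 - X) ^ 2 + y with hnd
  set k : ℝ := (1 - al) * (1 - al / 2) with hk
  set Th : ℝ := (1 + g) ^ 2 * y + w ^ 2 with hTh
  set S : ℝ := (1 - g) * y - (1 - X) * w with hS
  set Z : ℝ := g * n - X * (1 - 2 * X) with hZ
  set e : ℝ := X + al * (1 - X) with he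
  set R1 : ℝ := 2 * g * (g * y - X * w) + (g - (1 - al) * X) * S - (al / 2) * Th with hR1
  set V1 : ℝ := (k * al / 2) * n * Th - Z * ((1 - al) * y - w) - X * S * (g + e) with hV1
  have hid := t6d_ident al X Y t g w y n k Th S Z e R1 V1 b hbal hal0.ne' hY hX2 (by rw [hnd, hy])
    hg1 hw hy hk hTh hS hZ he hR1 hV1 q G hq hG
  have him := congrArg Complex.im hid
  have hre := congrArg Complex.re hid
  rw [Complex.re_ofReal_mul] at hre
  rw [Complex.im_ofReal_mul, hIm, mul_zero] at him
  have hR0 : R1 = 0 := by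
    have h2 : (-(V1 : ℂ) - ((1 - X : ℝ) + Y * I) * (R1 : ℂ)).im = -(Y * R1) := by
      simp
    rw [h2] at him
    have h3 : Y * R1 = 0 := by linarith
    rcases mul_eq_zero.mp h3 with h | h
    · exact absurd h hY.ne'
    · exact h
  have hre2 : (-(V1 : ℂ) - ((1 - X : ℝ) + Y * I) * (R1 : ℂ)).re = -V1 := by
    rw [hR0]; simp
  rw [hre2] at hre
  obtain ⟨hr1, hv1⟩ := t6d_R1 al X g w y k Th S n Z e (1 - X) rfl hnd hw hk hTh hS hZ he
  have hypos : 0 < y := by rw [hy]; positivity
  have hV1pos : 0 < V1 := by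
    rw [hV1, hv1]
    refine t6d_core al X g y _ _ _ _ _ w hal0 hal1 hX hX2 hgE hypos hw rfl rfl rfl ?_ ?_ ?_
    · rw [hk, he]
    · rw [hk, he]
    · rw [← hR1, hR0] at hr1
      linarith
  have hfac : 0 < (al ^ 2 / 2) * y * (1 + t ^ 2) := by positivity
  by_contra hcon
  push Not at hcon
  have : 0 ≤ (al ^ 2 / 2) * y * (1 + t ^ 2) * G.re := mul_nonneg hfac.le hcon
  linarith

end Mocanu
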