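import Pool.Agent.Helper267_mocanu.Stmts

/-!
Task T7: facts (a) and (b): `Re Q ≤ 1/2` on the line and `Re Q' ≥ c > 0` on the half plane.
-/

set_option autoImplicit false

namespace Mocanu

open Complex Set Filter Topology MeasureTheory Metric

namespace T7X

theorem re_bp (t : ℝ) : (bp t).re = 1 / 2 := by
  unfold bp
  rw [show ((1 : ℂ) + (t : ℂ) * I) / 2 = (((1 / 2 : ℝ) : ℂ)) + ((t / 2 : ℝ) : ℂ) * I by
    push_cast
    ring]
  simp

theorem im_bp (t : ℝ) : (bp t).im = t / 2 := by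
  unfold bp
  rw [show ((1 : ℂ) + (t : ℂ) * I) / 2 = (((1 / 2 : ℝ) : ℂ)) + ((t / 2 : ℝ) : ℂ) * I by
    push_cast
    ring]
  simp

theorem bp_Pb (t : ℝ) : bp t ∈ Pb := by
  show 1 / 2 ≤ (bp t).re
  rw [re_bp]

theorem bp_RH (t : ℝ) : bp t ∈ RH := by
  show 0 < (bp t).re
  rw [re_bp]
  norm_num

theorem Pb_RH : Pb ⊆ RH := fun W hW => by
  have : 1 / 2 ≤ W.re := hW
  show 0 < W.re
  linarith

theorem RH_open : IsOpen RH := isOpen_lt continuous_const Complex.continuous_re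

theorem bp_ne_one (t : ℝ) : bp t ≠ 1 := by
  intro h
  have := congrArg Complex.re h
  rw [re_bp] at this
  norm_num at this

theorem bp_sub (t : ℝ) : 2 * bp t - 1 = (t : ℂ) * I := by
  unfold bp
  ring

theorem bp_mul (t : ℝ) : bp t * (bp t - 1) = -(1 + (t : ℂ) ^ 2) / 4 := by
  unfold bp
  linear_combination ((t : ℂ) ^ 2 / 4) * Complex.I_sq

theorem one_add_ne (t : ℝ) : (1 + (t : ℂ) ^ 2) ≠ 0 := by
  have h : (0 : ℝ) < 1 + t ^ 2 := by positivity
  intro h0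
  have h1 : ((1 + t ^ 2 : ℝ) : ℂ) = 0 := by
    push_cast
    exact h0
  have := Complex.ofReal_eq_zero.1 h1
  linarith

variable {b : ℝ} {v : ℂ → ℂ}

theorem v_bp (v : ℂ → ℂ) (t : ℝ) : v (bp t) = (av v t : ℂ) - (cv v t : ℂ) * I := by
  apply Complex.ext <;> simp [av, cv]

theorem X_eq (v : ℂ → ℂ) (t : ℝ) :
    ((v (bp t))⁻¹).re = av v t / (av v t ^ 2 + cv v t ^ 2) := by
  rw [Complex.inv_re, Complex.normSq_apply, av, cv]
  ring_nf

theorem Y_eq (v : ℂ → ℂ) (t : ℝ) :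
    ((v (bp t))⁻¹).im = cv v t / (av v t ^ 2 + cv v t ^ 2) := by
  rw [Complex.inv_im, Complex.normSq_apply, av, cv]
  ring_nf

theorem Q_bp_neg (hd : VBdry b v) (t : ℝ) :
    (v (bp (-t)))⁻¹ = (starRingEnd ℂ) ((v (bp t))⁻¹) := by
  apply Complex.ext
  · rw [Complex.conj_re, X_eq, X_eq, hd.a_even, hd.c_odd]
    ring_nf
  · rw [Complex.conj_im, Y_eq, Y_eq, hd.a_even, hd.c_odd]
    ring_nf

theorem hasDerivAt_Q (hv : VBase b v) {W : ℂ} (hW : W ∈ RH) (h0 : v W ≠ 0) :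
    HasDerivAt (fun w => (v w)⁻¹) (-deriv v W / v W ^ 2) W :=
  ((hv.diff.differentiableAt (RH_open.mem_nhds hW)).hasDerivAt).fun_inv h0

theorem Q_ode (hv : VBase b v) {W : ℂ} (hW : W ∈ RH) (h1 : W ≠ 1) (h0 : v W ≠ 0) :
    -deriv v W / v W ^ 2 = b * (v W)⁻¹ * (2 * W - 1 - (v W)⁻¹) / (W * (W - 1)) := by
  have hW0 : W ≠ 0 := by
    rintro rfl
    have : (0 : ℝ) < (0 : ℂ).re := hW
    simp at this
  have hW1 : W - 1 ≠ 0 := sub_ne_zero.2 h1
  have h := hv.ode W hW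
  have h2 : deriv v W = (b - b * (2 * W - 1) * v W) / (W * (W - 1)) := by
    rw [eq_div_iff (mul_ne_zero hW0 hW1)]
    linear_combination h
  rw [h2]
  field_simp
  ring

theorem dQ_eq (hv : VBase b v) {W : ℂ} (hW : W ∈ RH) (h1 : W ≠ 1) (h0 : v W ≠ 0) :
    deriv (fun w => (v w)⁻¹) W = b * (v W)⁻¹ * (2 * W - 1 - (v W)⁻¹) / (W * (W - 1)) := by
  rw [(hasDerivAt_Q hv hW h0).deriv, Q_ode hv hW h1 h0]

theorem dQ_bp (hv : VBase b v) (t : ℝ) (h0 : v (bp t) ≠ 0) :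
    deriv (fun w => (v w)⁻¹) (bp t) = 2 * QT b ((v (bp t))⁻¹) t := by
  rw [dQ_eq hv (bp_RH t) (bp_ne_one t) h0, bp_sub, bp_mul, QT]
  have := one_add_ne t
  field_simp
  ring

theorem v_ne (hl : VLow b v) {W : ℂ} (hW : W ∈ Pb) : v W ≠ 0 := by
  obtain ⟨c, hc, h⟩ := hl.wv
  intro h0
  have := h W hW
  rw [h0] at this
  simp at this
  linarith

theorem Q_growth (hl : VLow b v) : ∃ C : ℝ, 0 ≤ C ∧ ∀ W ∈ Pb, ‖(v W)⁻¹‖ ≤ C * ‖W‖ := by
  obtain ⟨c, hc, h⟩ := hl.wv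
  refine ⟨1 / c, by positivity, fun W hW => ?_⟩
  have h1 : c ≤ ‖W * v W‖ := (h W hW).trans (Complex.re_le_norm _)
  rw [norm_mul] at h1
  have h2 : 0 < ‖v W‖ := norm_pos_iff.2 (v_ne hl hW)
  rw [norm_inv, inv_eq_one_div, div_le_iff₀ h2, div_mul_eq_mul_div, one_mul, div_mul_eq_mul_div,
    le_div_iff₀ hc]
  linarith

/-- `Re Q` on the line is positive -/
theorem X_pos (hd : VBdry b v) (t : ℝ) : 0 < ((v (bp t))⁻¹).re := by
  rw [X_eq]
  have := hd.a_pos t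
  positivity

/-- `Re Q` tends to `0` at infinity -/
theorem X_small (hb : 1 < b) (hd : VBdry b v) : ∃ T : ℝ, ∀ t ≥ T, ((v (bp t))⁻¹).re ≤ 1 / 2 := by
  have h1 : Tendsto (fun t : ℝ => (1 + t ^ 2)) atTop atTop :=
    tendsto_atTop_add_const_left _ _ (tendsto_pow_atTop (by norm_num))
  have h2 : Tendsto (fun t : ℝ => (1 + t ^ 2) ^ (-(b - 1))) atTop (𝓝 0) :=
    (tendsto_rpow_neg_atTop (by linarith)).comp h1
  have h3 : Tendsto (fun t : ℝ => (2 : ℝ) ^ b * (1 + t ^ 2) ^ (-(b - 1))) atTop (𝓝 0) := by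
    simpa using h2.const_mul ((2 : ℝ) ^ b)
  have h4 : ∀ᶠ t : ℝ in atTop, (2 : ℝ) ^ b * (1 + t ^ 2) ^ (-(b - 1)) < 1 / 2 :=
    h3.eventually (gt_mem_nhds (by norm_num))
  obtain ⟨T, hT⟩ := eventually_atTop.1 h4
  refine ⟨max T 1, fun t ht => ?_⟩
  have ht1 : 1 ≤ t := (le_max_right _ _).trans ht
  have hx : 1 ≤ t ^ 2 := by nlinarith
  have hTt := hT t ((le_max_left _ _).trans ht)
  have ha := hd.a_pos t
  have hc := hd.tc_lo t (by linarith)
  have hcp := hd.c_pos t (by linarith)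
  have htc : 1 ≤ t * cv v t := by
    by_contra hcon
    push Not at hcon
    have h5 : (1 + (2 * b - 1) * t ^ 2) * (t * cv v t) < (1 + (2 * b - 1) * t ^ 2) * 1 :=
      mul_lt_mul_of_pos_left hcon (by nlinarith)
    nlinarith
  have hahi := hd.a_hi t
  rw [X_eq]
  have hden : 1 / t ^ 2 ≤ av v t ^ 2 + cv v t ^ 2 := by
    have : 1 ≤ (t * cv v t) ^ 2 := one_le_pow₀ htc
    rw [div_le_iff₀ (by positivity)]
    nlinarith [sq_nonneg (av v t * t)]
  calc av v t / (av v t ^ 2 + cv v t ^ 2) ≤ av v t / (1 / t ^ 2) :=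
        div_le_div_of_nonneg_left ha.le (by positivity) hden
    _ = av v t * t ^ 2 := by field_simp
    _ ≤ (2 / (1 + t ^ 2)) ^ b * (1 + t ^ 2) := by
        refine mul_le_mul hahi (by linarith) (by positivity) (by positivity)
    _ = (2 : ℝ) ^ b * (1 + t ^ 2) ^ (-(b - 1)) := by
        rw [Real.div_rpow (by norm_num) (by positivity), show -(b - 1) = 1 - b by ring,
          Real.rpow_sub (by positivity), Real.rpow_one]
        ring
    _ ≤ 1 / 2 := hTt.le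

end T7X

open T7X

theorem t7a : T7a := by
  intro h3b h6a b v hv hd hl h4 t₁
  by_contra hcon
  push Not at hcon
  obtain ⟨U, hUo, hPU, hUR, hU⟩ := hl.nbhd
  have hb := hv.hb
  have hb0 : (0 : ℝ) < b := by linarith
  obtain ⟨C, hC0, hC⟩ := Q_growth hl
  obtain ⟨T, hT⟩ := X_small hb hd
  set f : ℂ → ℂ := fun W => ((2 - 1 / b : ℝ) : ℂ) * (W - 1 / 2) - (v W)⁻¹ with hf
  have hfre : ∀ t : ℝ, (f (bp t)).re = -((v (bp t))⁻¹).re := by
    intro t
    rw [hf]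
    simp only [Complex.sub_re, Complex.re_ofReal_mul]
    rw [re_bp]
    norm_num
  have hk0 : (0 : ℝ) ≤ 2 - 1 / b := by
    have : 1 / b ≤ 1 := by
      rw [div_le_one hb0]
      linarith
    linarith
  have hfd : DifferentiableOn ℂ f U := by
    intro W hW
    have := (hasDerivAt_Q hv (hUR hW) (hU W hW).1).differentiableAt
    exact (((differentiableAt_id.sub_const _).const_mul _).sub this).differentiableWithinAt
  obtain ⟨t, ht0, htle, him, hre⟩ := h3b f U hUo hPU hfd ((2 - 1 / b) + C) 1 (by norm_num)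
    (by norm_num) (by
      intro W hW
      rw [Real.rpow_one]
      have hW1 : (1 / 2 : ℝ) ≤ ‖W‖ := (show (1 / 2 : ℝ) ≤ W.re from hW).trans (Complex.re_le_norm _)
      have a1 : ‖((2 - 1 / b : ℝ) : ℂ) * (W - 1 / 2)‖ ≤ (2 - 1 / b) * (1 + ‖W‖) := by
        rw [norm_mul, Complex.norm_real, Real.norm_of_nonneg hk0]
        refine mul_le_mul_of_nonneg_left ?_ hk0
        refine (norm_sub_le _ _).trans ?_
        norm_num
        linarith
      have a2 := hC W hW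
      have a3 : C * ‖W‖ ≤ C * (1 + ‖W‖) := mul_le_mul_of_nonneg_left (by linarith) hC0
      refine (norm_sub_le _ _).trans ?_
      linarith) 1 (by
      intro x hx
      have hx4 := h4 b v hv x (by linarith)
      have hpos : 0 < 1 + (2 - 1 / b) * (x - 1) := by
        have : 0 ≤ (2 - 1 / b) * (x - 1) := mul_nonneg hk0 (by linarith)
        linarith
      have hvx : v x = (((v x).re : ℝ) : ℂ) := by
        apply Complex.ext
        · simp
        · simp [hx4.1]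
      have hvp : 0 < (v x).re := lt_of_lt_of_le (by positivity) hx4.2.1
      have hQ : ((v x)⁻¹).re ≤ 1 + (2 - 1 / b) * (x - 1) := by
        rw [hvx, ← Complex.ofReal_inv, Complex.ofReal_re]
        rw [inv_le_comm₀ hvp hpos, inv_eq_one_div]
        exact hx4.2.1
      have : (f x).re = (2 - 1 / b) * (x - 1 / 2) - ((v x)⁻¹).re := by
        rw [hf]
        simp only [Complex.sub_re, Complex.re_ofReal_mul, Complex.ofReal_re]
        norm_num
      rw [this]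
      nlinarith) (by
      intro t
      rw [hfre, hfre, Q_bp_neg hd, Complex.conj_re]) t₁ T (by
      intro t ht
      rw [hfre, hfre]
      have := hT t ht
      linarith)
  rw [hfre, hfre] at htle
  have h0 := v_ne hl (bp_Pb t)
  have hder : deriv f (bp t) = ((2 - 1 / b : ℝ) : ℂ) - 2 * QT b ((v (bp t))⁻¹) t := by
    have h1 := hasDerivAt_Q hv (bp_RH t) h0
    have h2 : HasDerivAt f (((2 - 1 / b : ℝ) : ℂ) * 1 - (-deriv v (bp t) / v (bp t) ^ 2)) (bp t) :=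
      (((hasDerivAt_id (bp t)).sub_const (1 / 2 : ℂ)).const_mul _).sub h1
    rw [h2.deriv, ← h1.deriv, dQ_bp hv t h0, mul_one]
  rw [hder] at him hre
  have h2re : ∀ z : ℂ, (2 * z).re = 2 * z.re ∧ (2 * z).im = 2 * z.im := fun z => by simp
  rw [Complex.sub_im, Complex.ofReal_im, (h2re _).2] at him
  rw [Complex.sub_re, Complex.ofReal_re, (h2re _).1] at hre
  have hq : (v (bp t))⁻¹ = ((((v (bp t))⁻¹).re : ℝ) : ℂ) + ((((v (bp t))⁻¹).im : ℝ) : ℂ) * I :=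
    (Complex.re_add_im _).symm
  rw [hq] at him hre
  have := h6a b _ _ t hb (X_pos hd t) ht0 (by linarith) (by linarith)
  linarith

namespace T7X

variable {b : ℝ} {v : ℂ → ℂ}

/-- `Q'` is bounded on the half plane -/
theorem dQ_bdd (hv : VBase b v) (hl : VLow b v) :
    ∃ C : ℝ, 0 ≤ C ∧ ∀ W ∈ Pb, ‖deriv (fun w => (v w)⁻¹) W‖ ≤ C := by
  obtain ⟨C1, h1⟩ := hl.psi_hi
  obtain ⟨C2, h2⟩ := hl.wv_hi
  obtain ⟨C3, hC3, h3⟩ := Q_growth hl
  have hb := hv.hb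
  have hb0 : (0 : ℝ) < b := by linarith
  refine ⟨max ((b * |C1| + 2 * b * |C2|) * C3 ^ 2) ‖deriv (fun w => (v w)⁻¹) 1‖,
    le_max_of_le_right (norm_nonneg _), fun W hW => ?_⟩
  by_cases hW1 : W = 1
  · rw [hW1]
    exact le_max_right _ _
  refine le_max_of_le_left ?_
  have h0 := v_ne hl hW
  have hWR := Pb_RH hW
  have hW0 : W ≠ 0 := by
    rintro rfl
    have : (0 : ℝ) < (0 : ℂ).re := hWR
    simp at this
  have hWn : 0 < ‖W‖ := norm_pos_iff.2 hW0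
  have hW1' : W - 1 ≠ 0 := sub_ne_zero.2 hW1
  rw [(hasDerivAt_Q hv hWR h0).deriv, norm_div, norm_neg, norm_pow]
  have e1 : deriv v W = (b * Psi v W - 2 * b * (W * v W)) / W ^ 2 := by
    rw [eq_div_iff (pow_ne_zero 2 hW0), hl.psi_eq W hW1]
    have h := hv.ode W hWR
    field_simp
    linear_combination h
  have e2 : ‖deriv v W‖ ≤ (b * |C1| + 2 * b * |C2|) / ‖W‖ ^ 2 := by
    rw [e1, norm_div, norm_pow]
    refine div_le_div_of_nonneg_right ?_ (by positivity)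
    refine (norm_sub_le _ _).trans ?_
    rw [norm_mul, norm_mul, norm_mul, Complex.norm_real, Real.norm_of_nonneg hb0.le]
    have a1 : ‖Psi v W‖ ≤ |C1| := (h1 W hW).trans (le_abs_self _)
    have a2 : ‖W * v W‖ ≤ |C2| := (h2 W hW).trans (le_abs_self _)
    norm_num
    have a3 : b * ‖Psi v W‖ ≤ b * |C1| := mul_le_mul_of_nonneg_left a1 hb0.le
    have a4 : 2 * b * ‖W * v W‖ ≤ 2 * b * |C2| := mul_le_mul_of_nonneg_left a2 (by linarith)
    rw [norm_mul] at a4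
    linarith
  have hvn : 0 < ‖v W‖ := norm_pos_iff.2 h0
  have e3 := h3 W hW
  rw [norm_inv] at e3
  calc ‖deriv v W‖ / ‖v W‖ ^ 2 = ‖deriv v W‖ * (‖v W‖⁻¹) ^ 2 := by
        rw [inv_pow, div_eq_mul_inv]
    _ ≤ ((b * |C1| + 2 * b * |C2|) / ‖W‖ ^ 2) * (C3 * ‖W‖) ^ 2 := by
        refine mul_le_mul e2 (pow_le_pow_left₀ (by positivity) e3 2) (by positivity)
          (by positivity)
    _ = _ := by
        field_simp

theorem dQ_even (hv : VBase b v) (hd : VBdry b v) (hl : VLow b v) (t : ℝ) :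
    (deriv (fun w => (v w)⁻¹) (bp (-t))).re = (deriv (fun w => (v w)⁻¹) (bp t)).re := by
  rw [dQ_bp hv _ (v_ne hl (bp_Pb _)), dQ_bp hv _ (v_ne hl (bp_Pb _)), Q_bp_neg hd]
  have : 2 * QT b ((starRingEnd ℂ) ((v (bp t))⁻¹)) (-t) =
      (starRingEnd ℂ) (2 * QT b ((v (bp t))⁻¹) t) := by
    rw [QT, QT]
    simp only [map_mul, map_div₀, map_sub, map_add, map_pow, Complex.conj_ofReal, Complex.conj_I,
      map_ofNat, map_one]
    push_cast
    ring
  rw [this, Complex.conj_re]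

/-- formula for `Re Q'` on the line -/
theorem dQ_re (hv : VBase b v) (hl : VLow b v) (t : ℝ) :
    (deriv (fun w => (v w)⁻¹) (bp t)).re = 4 * b / (1 + t ^ 2) *
      (((v (bp t))⁻¹).re ^ 2 - ((v (bp t))⁻¹).im ^ 2 + t * ((v (bp t))⁻¹).im) := by
  rw [dQ_bp hv _ (v_ne hl (bp_Pb _)), QT]
  obtain ⟨q, hq⟩ : ∃ q, q = (v (bp t))⁻¹ := ⟨_, rfl⟩
  rw [← hq]
  have : 2 * (2 * (b : ℂ) * q * (q - t * I) / (1 + (t : ℂ) ^ 2)) =
      ((4 * b / (1 + t ^ 2) : ℝ) : ℂ) * (q * (q - t * I)) := by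
    push_cast
    ring
  rw [this, Complex.re_ofReal_mul]
  congr 1
  simp
  ring

/-- `Re Q'` is bounded from below for large `t` -/
theorem dQ_large (hv : VBase b v) (hd : VBdry b v) (hl : VLow b v) :
    ∃ c₀ > 0, ∀ t : ℝ, 2 ≤ t → c₀ ≤ (deriv (fun w => (v w)⁻¹) (bp t)).re := by
  obtain ⟨C, hC⟩ := hl.wv_hi
  have hb := hv.hb
  have hb0 : (0 : ℝ) < b := by linarith
  have hC0 : 0 < C := by
    obtain ⟨c, hc, h⟩ := hl.wv
    exact lt_of_lt_of_le hc ((h _ (bp_Pb 0)).trans ((Complex.re_le_norm _).trans (hC _ (bp_Pb 0))))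
  refine ⟨1 / (8 * C ^ 2), by positivity, fun t ht => ?_⟩
  rw [dQ_re hv hl, X_eq, Y_eq]
  have ha := hd.a_pos t
  have hc := hd.tc_lo t (by linarith)
  have hcp := hd.c_pos t (by linarith)
  obtain ⟨a, hae⟩ : ∃ a, a = av v t := ⟨_, rfl⟩
  obtain ⟨c, hce⟩ : ∃ c, c = cv v t := ⟨_, rfl⟩
  have hv2 : (a ^ 2 + c ^ 2) * t ^ 2 ≤ 4 * C ^ 2 := by
    have h1 := hC _ (bp_Pb t)
    rw [norm_mul] at h1
    have h2 : t / 2 ≤ ‖bp t‖ := by
      have := Complex.abs_im_le_norm (bp t)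
      rw [im_bp] at this
      exact (le_abs_self _).trans this
    have h3 : ‖v (bp t)‖ ^ 2 = a ^ 2 + c ^ 2 := by
      rw [← Complex.normSq_eq_norm_sq, Complex.normSq_apply, hae, hce, av, cv]
      ring
    have h4 : (t / 2) * ‖v (bp t)‖ ≤ C :=
      (mul_le_mul_of_nonneg_right h2 (norm_nonneg _)).trans h1
    have h5 : ((t / 2) * ‖v (bp t)‖) ^ 2 ≤ C ^ 2 := pow_le_pow_left₀ (by positivity) h4 2
    rw [mul_pow, h3] at h5
    nlinarith
  rw [← hae, ← hce]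
  rw [← hae] at ha
  rw [← hce] at hc hcp
  obtain ⟨n, hn⟩ : ∃ n, n = a ^ 2 + c ^ 2 := ⟨_, rfl⟩
  rw [← hn] at hv2 ⊢
  have hn0 : 0 < n := by rw [hn]; positivity
  -- t - Y ≥ t / (4 b)
  have hY : c / n ≤ t - t * 3 / (8 * b) := by
    have h1 : c / n ≤ 1 / c := by
      rw [div_le_div_iff₀ hn0 hcp, hn]
      nlinarith
    have h2 : 1 / c ≤ t - t * 3 / (8 * b) := by
      rw [div_le_iff₀ hcp]
      have h3 : (t - t * 3 / (8 * b)) * c = (t * c) * (1 - 3 / (8 * b)) := by ring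
      rw [h3]
      have h4 : 0 < 1 + (2 * b - 1) * t ^ 2 := by nlinarith
      have h5 : 2 * b * t ^ 2 / (1 + (2 * b - 1) * t ^ 2) ≤ t * c := by
        rw [div_le_iff₀ h4]
        linarith
      have h6 : 0 < 1 - 3 / (8 * b) := by
        rw [sub_pos, div_lt_one (by positivity)]
        linarith
      refine le_trans ?_ (mul_le_mul_of_nonneg_right h5 h6.le)
      rw [show 2 * b * t ^ 2 / (1 + (2 * b - 1) * t ^ 2) * (1 - 3 / (8 * b)) =
        (t ^ 2 * (2 * b - 3 / 4)) / (1 + (2 * b - 1) * t ^ 2) by field_simp; ring]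
      rw [le_div_iff₀ h4]
      nlinarith
    exact h1.trans h2
  have hYl : t / (4 * C ^ 2) ≤ c / n := by
    rw [div_le_div_iff₀ (by positivity) hn0]
    have htc : 1 ≤ t * c := by
      by_contra hcon
      push Not at hcon
      have h5 : (1 + (2 * b - 1) * t ^ 2) * (t * c) < (1 + (2 * b - 1) * t ^ 2) * 1 :=
        mul_lt_mul_of_pos_left hcon (by nlinarith)
      nlinarith
    have h1 : t * n * t ≤ 4 * C ^ 2 := by nlinarith
    have h2 : t * n ≤ c * (4 * C ^ 2) := by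
      calc t * n = t * n * 1 := by ring
        _ ≤ t * n * (t * c) := mul_le_mul_of_nonneg_left htc (by positivity)
        _ = c * (t * n * t) := by ring
        _ ≤ c * (4 * C ^ 2) := mul_le_mul_of_nonneg_left h1 hcp.le
    exact h2
  obtain ⟨Y, hYe⟩ : ∃ Y, Y = c / n := ⟨_, rfl⟩
  rw [← hYe] at hY hYl ⊢
  have hZ : t / (4 * C ^ 2) * (t * 3 / (8 * b)) ≤ (a / n) ^ 2 - Y ^ 2 + t * Y := by
    have h1 : t / (4 * C ^ 2) * (t * 3 / (8 * b)) ≤ Y * (t - Y) := by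
      refine mul_le_mul hYl (by linarith) (by positivity) ?_
      exact le_trans (by positivity) hYl
    nlinarith [sq_nonneg (a / n)]
  have hq : 0 ≤ 4 * b / (1 + t ^ 2) := by positivity
  refine le_trans ?_ (mul_le_mul_of_nonneg_left hZ hq)
  rw [show 4 * b / (1 + t ^ 2) * (t / (4 * C ^ 2) * (t * 3 / (8 * b))) =
    (3 * t ^ 2 / (1 + t ^ 2)) * (1 / (8 * C ^ 2)) by field_simp]
  have h1 : 1 ≤ 3 * t ^ 2 / (1 + t ^ 2) := by
    rw [le_div_iff₀ (by positivity)]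
    nlinarith
  calc 1 / (8 * C ^ 2) = 1 * (1 / (8 * C ^ 2)) := by ring
    _ ≤ _ := mul_le_mul_of_nonneg_right h1 (by positivity)

/-- second derivative of `Q` on the line -/
theorem ddQ_bp (hv : VBase b v) (hl : VLow b v) (t : ℝ) :
    deriv (deriv (fun w => (v w)⁻¹)) (bp t) = 8 * b *
      ((QT b ((v (bp t))⁻¹) t * (2 * (v (bp t))⁻¹ - t * I) - (v (bp t))⁻¹) / (1 + (t : ℂ) ^ 2) +
        2 * (t * I) * ((v (bp t))⁻¹ * ((v (bp t))⁻¹ - t * I)) / (1 + (t : ℂ) ^ 2) ^ 2) := by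
  obtain ⟨U, hUo, hPU, hUR, hU⟩ := hl.nbhd
  have hne := bp_ne_one t
  have hmem : U ∩ {1}ᶜ ∈ 𝓝 (bp t) :=
    (hUo.inter isOpen_compl_singleton).mem_nhds ⟨hPU (bp_Pb t), hne⟩
  have hev : deriv (fun w => (v w)⁻¹) =ᶠ[𝓝 (bp t)]
      fun W => b * (v W)⁻¹ * (2 * W - 1 - (v W)⁻¹) / (W * (W - 1)) := by
    filter_upwards [hmem] with W hW
    exact dQ_eq hv (hUR hW.1) hW.2 (hU W hW.1).1
  rw [hev.deriv_eq]
  have h0 := v_ne hl (bp_Pb t)
  have hQ := hasDerivAt_Q hv (bp_RH t) h0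
  have hD : -deriv v (bp t) / v (bp t) ^ 2 = 2 * QT b ((v (bp t))⁻¹) t := by
    rw [← hQ.deriv, dQ_bp hv t h0]
  rw [hD] at hQ
  have hden : bp t * (bp t - 1) ≠ 0 := by
    rw [bp_mul]
    have := one_add_ne t
    intro h
    apply this
    linear_combination (-4) * h
  have h1 := ((hQ.const_mul (b : ℂ)).mul
    ((((hasDerivAt_id (bp t)).const_mul (2 : ℂ)).sub_const 1).sub hQ)).div
    ((hasDerivAt_id (bp t)).mul ((hasDerivAt_id (bp t)).sub_const 1)) hden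
  have h2 : deriv (fun W => b * (v W)⁻¹ * (2 * W - 1 - (v W)⁻¹) / (W * (W - 1))) (bp t) = _ :=
    h1.deriv
  rw [h2]
  simp only [Pi.mul_apply, Pi.sub_apply, id]
  obtain ⟨q, hq⟩ : ∃ q, q = (v (bp t))⁻¹ := ⟨_, rfl⟩
  obtain ⟨D, hDe⟩ : ∃ D, D = QT b q t := ⟨_, rfl⟩
  rw [← hq, ← hDe, bp_mul, bp_sub]
  have h3 : (1 : ℂ) * (bp t - 1) + bp t * 1 = t * I := by
    rw [← bp_sub]
    ring
  rw [h3]
  have := one_add_ne t
  field_simp
  ring

end T7X

theorem t7b : T7b := by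
  intro h3a h3b h6b b v hv hd hl
  obtain ⟨U, hUo, hPU, hUR, hU⟩ := hl.nbhd
  have hb := hv.hb
  have hb0 : (0 : ℝ) < b := by linarith
  obtain ⟨C, hC0, hC⟩ := dQ_bdd hv hl
  obtain ⟨c₀, hc₀, hc⟩ := dQ_large hv hd hl
  have hQd : DifferentiableOn ℂ (fun w => (v w)⁻¹) U := fun W hW =>
    (hasDerivAt_Q hv (hUR hW) (hU W hW).1).differentiableAt.differentiableWithinAt
  have hfd : DifferentiableOn ℂ (deriv (fun w => (v w)⁻¹)) U := hQd.deriv hUo
  have hgr : ∀ W ∈ Pb, ‖deriv (fun w => (v w)⁻¹) W‖ ≤ C * (1 + ‖W‖) ^ (0 : ℝ) := by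
    intro W hW
    rw [Real.rpow_zero, mul_one]
    exact hC W hW
  have hreal : ∀ x : ℝ, 2 ≤ x → -C ≤ (deriv (fun w => (v w)⁻¹) x).re := by
    intro x hx
    have hx1 : (x : ℂ) ∈ Pb := by
      show (1 / 2 : ℝ) ≤ (x : ℂ).re
      rw [Complex.ofReal_re]
      linarith
    have h1 := hC x hx1
    have h2 := Complex.abs_re_le_norm (deriv (fun w => (v w)⁻¹) (x : ℂ))
    have h3 := neg_abs_le (deriv (fun w => (v w)⁻¹) (x : ℂ)).re
    linarith
  -- positivity on the line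
  have hpos : ∀ t₁ : ℝ, 0 < (deriv (fun w => (v w)⁻¹) (bp t₁)).re := by
    intro t₁
    by_contra hcon
    push Not at hcon
    obtain ⟨t, ht0, htle, him, hre⟩ := h3b _ U hUo hPU hfd C 0 le_rfl (by norm_num) hgr C hreal
      (dQ_even hv hd hl) t₁ 2 (fun t ht => by
        have := hc t ht
        linarith)
    have hle : (deriv (fun w => (v w)⁻¹) (bp t)).re ≤ 0 := htle.trans hcon
    rw [dQ_bp hv t (v_ne hl (bp_Pb t)), QT] at hle
    have hz : ((v (bp t))⁻¹ * ((v (bp t))⁻¹ - t * I)).re ≤ 0 := by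
      have e : 2 * (2 * (b : ℂ) * (v (bp t))⁻¹ * ((v (bp t))⁻¹ - t * I) / (1 + (t : ℂ) ^ 2)) =
          ((4 * b / (1 + t ^ 2) : ℝ) : ℂ) * ((v (bp t))⁻¹ * ((v (bp t))⁻¹ - t * I)) := by
        push_cast
        ring
      rw [e, Complex.re_ofReal_mul] at hle
      by_contra h
      push Not at h
      have : 0 < 4 * b / (1 + t ^ 2) * ((v (bp t))⁻¹ * ((v (bp t))⁻¹ - t * I)).re := by
        positivity
      linarith
    have hq : (v (bp t))⁻¹ = ((((v (bp t))⁻¹).re : ℝ) : ℂ) + ((((v (bp t))⁻¹).im : ℝ) : ℂ) * I :=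
      (Complex.re_add_im _).symm
    rw [ddQ_bp hv hl t] at hre
    have hXp := X_pos hd t
    obtain ⟨X, hX⟩ : ∃ X, X = ((v (bp t))⁻¹).re := ⟨_, rfl⟩
    obtain ⟨Y, hY⟩ : ∃ Y, Y = ((v (bp t))⁻¹).im := ⟨_, rfl⟩
    rw [← hX] at hXp
    rw [← hX, ← hY] at hq
    rw [hq] at hre hz
    have h6 := h6b b X Y t hb hXp hz
    have e8 : (8 * (b : ℂ)) = ((8 * b : ℝ) : ℂ) := by push_cast; ring
    rw [e8, Complex.re_ofReal_mul] at hre
    have : 8 * b * ((QT b (X + Y * I) t * (2 * (X + Y * I) - t * I) - (X + Y * I)) /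
        (1 + (t:ℂ) ^ 2) + 2 * (t * I) * ((X + Y * I) * ((X + Y * I) - t * I)) /
        (1 + (t:ℂ) ^ 2) ^ 2).re < 0 := mul_neg_of_pos_of_neg (by positivity) h6
    linarith
  -- compactness
  have hcont : ContinuousOn (fun t : ℝ => (deriv (fun w => (v w)⁻¹) (bp t)).re) (Icc (-2) 2) := by
    have hbc : Continuous bp := by unfold bp; fun_prop
    have : ContinuousOn (fun t : ℝ => deriv (fun w => (v w)⁻¹) (bp t)) (Icc (-2) 2) :=
      hfd.continuousOn.comp hbc.continuousOn (fun t _ => hPU (bp_Pb t))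
    exact Complex.continuous_re.comp_continuousOn this
  obtain ⟨t₂, _, ht₂⟩ := isCompact_Icc.exists_isMinOn ⟨0, by norm_num⟩ hcont
  refine ⟨min c₀ (deriv (fun w => (v w)⁻¹) (bp t₂)).re, lt_min hc₀ (hpos t₂), ?_⟩
  refine h3a _ U hUo hPU hfd C 0 le_rfl (by norm_num) hgr C hreal _ (fun t => ?_)
  rcases le_total 2 t with h | h
  · exact (min_le_left _ _).trans (hc t h)
  rcases le_total t (-2) with h' | h'
  · have := hc (-t) (by linarith)
    rw [dQ_even hv hd hl] at this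
    exact (min_le_left _ _).trans this
  · exact (min_le_right _ _).trans (ht₂ ⟨h', h⟩)

end Mocanu
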