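import Pool.Agent.Helper267_mocanu.T8lib

set_option autoImplicit false

namespace Mocanu

open Complex Set Filter Topology MeasureTheory Metric

lemma t8c_continuous_bp : Continuous bp := by
  unfold bp
  fun_prop

lemma t8_St_line {b : ℝ} {v : ℂ → ℂ} (hV : VBase b v) (hB : VBdry b v) (t : ℝ)
    (hq1 : (v (bp t))⁻¹ ≠ 1) :
    St b v (bp t) = b * (v (bp t))⁻¹ * ((v (bp t))⁻¹ - t * I) / (1 - (v (bp t))⁻¹) := by
  have h1q : 1 - (v (bp t))⁻¹ ≠ 0 := sub_ne_zero.mpr (Ne.symm hq1)
  simp only [St]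
  rw [t8_sf_line hV hB, div_sub_one h1q, mul_div_assoc']
  congr 1
  ring

/-- `St = b (2 (W-1) + 2 s - Q)` -/
lemma t8_St_eq {b : ℝ} {v : ℂ → ℂ} (hV : VBase b v) {W : ℂ} (hW0 : W ≠ 0) (hv : v W ≠ 0)
    (hp : Psi v W ≠ 0) :
    St b v W = b * (2 * (W - 1) + 2 * sf v W - (v W)⁻¹) := by
  have key : (v W)⁻¹ * sf v W = W - 1 + sf v W := by
    by_cases hW1 : W = 1
    · subst hW1
      rw [hV.one]; simp
    · have hne : W - 1 ≠ 0 := sub_ne_zero.mpr hW1
      have hpe := t5_psi_eq hV.one W hW1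
      have h1 : v W ≠ 1 := by
        intro h
        apply hp
        rw [hpe, h]; simp
      have h3 : (v W)⁻¹ - 1 ≠ 0 := by
        intro h
        apply h1
        have : (v W)⁻¹ = 1 := by linear_combination h
        rwa [inv_eq_one] at this
      rw [t8_sf_eq hV hW1 hW0 hv]
      field_simp
      ring
  simp only [St]
  linear_combination (2 * (b:ℂ)) * key

lemma t8_St_re {b : ℝ} {v : ℂ → ℂ} (hV : VBase b v) (hB : VBdry b v) (hL : VLow b v) (t : ℝ) :
    (St b v (bp t)).re = b * (2 * (sf v (bp t)).re - 1 - ((v (bp t))⁻¹).re) := by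
  obtain ⟨U, hUo, hPU, hUR, hU⟩ := hL.nbhd
  rw [t8_St_eq hV (t8_bp_ne0 t) (t8_v_ne hB t) (hU _ (hPU (t5_bp_mem t))).2.1,
    Complex.re_ofReal_mul, Complex.sub_re, Complex.add_re, ]
  have e1 : (2 * (bp t - 1)).re = -1 := by
    have : (2 * (bp t - 1)) = ((-1 : ℝ) : ℂ) + (t : ℂ) * I := by
      simp only [bp]; push_cast; ring
    rw [this]; simp
  have e2 : (2 * sf v (bp t)).re = 2 * (sf v (bp t)).re := by simp
  rw [e1, e2]
  ring

theorem t8c : T8c := by
  intro h3a h3b h4 h6c b v hV hB hL hX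
  have hb := hV.hb
  have hb0 : b ≠ 0 := by linarith
  have hbc : (b:ℂ) ≠ 0 := by exact_mod_cast hb0
  obtain ⟨U, hUo, hPU, hUR, hU⟩ := hL.nbhd
  obtain ⟨CQ, hCQ0, hCQ⟩ := t8_Q_growth hL
  obtain ⟨Cs, hCs0, hCs⟩ := t8_sf_bound hL
  have hvd : DifferentiableOn ℂ v U := hV.diff.mono hUR
  have hpd : DifferentiableOn ℂ (Psi v) U := hL.psi_diff.mono hUR
  have hQd : DifferentiableOn ℂ (fun W => (v W)⁻¹) U := hvd.inv (fun W hW => (hU W hW).1)
  have hsd : DifferentiableOn ℂ (sf v) U :=
    (differentiableOn_id.mul hvd).div hpd (fun W hW => (hU W hW).2.1)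
  have hSd : DifferentiableOn ℂ (St b v) U := by
    have : St b v = fun W => (b * (v W)⁻¹) * (2 * sf v W - 1) := rfl
    rw [this]
    exact (hQd.const_mul _).mul ((hsd.const_mul _).sub (differentiableOn_const _))
  have hb1 : 0 < 2 - 1 / b := by
    have : 1 / b < 1 := by rw [div_lt_one (by linarith)]; exact hb
    linarith
  -- growth
  have hgrow : ∀ W ∈ Pb, ‖St b v W‖ ≤ (b * CQ * (2 * Cs + 1)) * (1 + ‖W‖) ^ (1:ℝ) := by
    intro W hW
    rw [Real.rpow_one]
    have hn := norm_nonneg W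
    have q1 := hCQ W hW
    have s1 := hCs W hW
    simp only [St]
    rw [norm_mul, norm_mul, Complex.norm_real, Real.norm_eq_abs, abs_of_pos (by linarith : (0:ℝ) < b)]
    have t1 : ‖2 * sf v W - 1‖ ≤ 2 * Cs + 1 := by
      refine (norm_sub_le _ _).trans ?_
      rw [norm_mul, norm_one]
      have : ‖(2:ℂ)‖ = 2 := by simp
      rw [this]
      linarith
    have t2 : b * ‖(v W)⁻¹‖ ≤ b * (CQ * ‖W‖) := mul_le_mul_of_nonneg_left q1 (by linarith)
    have t3 : b * ‖(v W)⁻¹‖ * ‖2 * sf v W - 1‖ ≤ b * (CQ * ‖W‖) * (2 * Cs + 1) :=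
      mul_le_mul t2 t1 (norm_nonneg _) (by positivity)
    have t4 : 0 ≤ b * CQ * (2 * Cs + 1) := by positivity
    nlinarith
  -- real axis
  have hreal : ∀ x : ℝ, 2 ≤ x → -(0:ℝ) ≤ (St b v x).re := by
    intro x hx
    obtain ⟨y, hy, hy1, hy2⟩ := t8_Q_real h4 hV hx
    have hxp := t8_real_mem hx
    have hx0 : (x : ℂ) ≠ 0 := by
      have : x ≠ 0 := by linarith
      exact_mod_cast this
    have hx1 : (x : ℂ) ≠ 1 := by
      have : x ≠ 1 := by linarith
      exact_mod_cast this
    have hvx : v x ≠ 0 := (hU _ (hPU hxp)).1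
    have hb2 : 1 < 2 - 1 / b := by
      have : 1 / b < 1 := by rw [div_lt_one (by linarith)]; exact hb
      linarith
    have hy3 : 1 < y := by
      have : 1 * (3 / 2) ≤ (2 - 1 / b) * (x - 1 / 2) :=
        mul_le_mul hb2.le (by linarith) (by norm_num) hb1.le
      linarith
    have e : St b v x = ((b * y * (2 * ((x - 1) / (y - 1)) - 1) : ℝ) : ℂ) := by
      simp only [St]
      rw [t8_sf_eq hV hx1 hx0 hvx, hy]
      push_cast
      ring
    rw [e, Complex.ofReal_re, neg_zero]
    have hs : 1 ≤ 2 * ((x - 1) / (y - 1)) := by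
      rw [mul_div_assoc', le_div_iff₀ (by linarith), one_mul]
      have : 0 < 1 / b := by positivity
      nlinarith
    have : 0 < b * y := by positivity
    exact mul_nonneg this.le (by linarith)
  -- symmetry
  have hsym : ∀ t : ℝ, (St b v (bp (-t))).re = (St b v (bp t)).re := by
    intro t
    rw [t8_St_re hV hB hL, t8_St_re hV hB hL, t8_Q_conj hV, t8_sf_conj hV (t8_v_ne hB)]
    simp only [Complex.conj_re]
  -- behaviour at infinity
  have hlim : Tendsto (fun t => (St b v (bp t)).re) atTop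
      (𝓝 (b * (2 * b / (2 * b - 1) - 1 - 0))) := by
    have h2 := (((t8_tendsto_s hV hB).sub_const 1).sub (t8_tendsto_X hb hB)).const_mul b
    refine h2.congr (fun t => ?_)
    rw [t8_St_re hV hB hL]
  have h2b : 0 < 2 * b - 1 := by linarith
  have hlimpos : 0 < b * (2 * b / (2 * b - 1) - 1 - 0) := by
    have e : 2 * b / (2 * b - 1) - 1 - 0 = 1 / (2 * b - 1) := by
      rw [eq_div_iff h2b.ne', sub_zero, sub_mul, div_mul_cancel₀ _ h2b.ne']
      ring
    rw [e]
    positivity
  obtain ⟨T, hT⟩ := eventually_atTop.1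
    (hlim.eventually (lt_mem_nhds (half_lt_self hlimpos)))
  set δ := b * (2 * b / (2 * b - 1) - 1 - 0) / 2 with hδ
  have hδ0 : 0 < δ := by positivity
  -- positivity on the line
  have hline : ∀ t : ℝ, 0 < (St b v (bp t)).re := by
    by_contra hcon
    push Not at hcon
    obtain ⟨t₁, ht₁⟩ := hcon
    obtain ⟨t, ht0, hle, him, hre⟩ := h3b (St b v) U hUo hPU hSd _ 1 (by norm_num) (by norm_num)
      hgrow 0 hreal hsym t₁ T (fun t ht => lt_of_le_of_lt ht₁ (hδ0.trans (hT t ht)))
    have hE : (St b v (bp t)).re ≤ 0 := hle.trans ht₁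
    have hXt := hX t
    have hXp := t8_X_pos hB t
    set q := (v (bp t))⁻¹ with hq
    have hq1 : q ≠ 1 := by
      intro h
      rw [h] at hXt
      norm_num at hXt
    have h1q : (1 - q) ≠ 0 := sub_ne_zero.mpr (Ne.symm hq1)
    have hq1' : q - 1 ≠ 0 := sub_ne_zero.mpr hq1
    have hSt : St b v (bp t) = b * q * (q - t * I) / (1 - q) := by
      rw [t8_St_line hV hB t (by rw [← hq]; exact hq1), ← hq]
    set G : ℂ := (b * q / (1 - q)) *
      (2 * b * ((1 - t * I) - (1 - q)) * ((1 - t * I) - (1 - q) ^ 2) /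
        ((1 + (t:ℂ) ^ 2) * (1 - q)) - 1) with hG
    have hxr : (1 + t ^ 2 : ℝ) ≠ 0 := by positivity
    have hxc : (1 + (t:ℂ) ^ 2) ≠ 0 := by exact_mod_cast hxr
    have hder : HasDerivAt (St b v) (2 * G) (bp t) := by
      have d1 := t8_hasDeriv_Q_line hV hB t
      have d2 := t8_hasDeriv_sf_line hV hB t (by rw [← hq]; exact hq1)
      rw [← hq] at d1 d2
      have d3 : HasDerivAt (fun W : ℂ => 2 * (W - 1)) ((2:ℂ) * 1) (bp t) :=
        ((hasDerivAt_id (bp t)).sub_const 1).const_mul _
      have d5 := ((d3.add (d2.const_mul 2)).sub d1).const_mul (b:ℂ)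
      have d6 := d5.congr_of_eventuallyEq (f₁ := St b v) (by
        filter_upwards [hUo.mem_nhds (hPU (t5_bp_mem t))] with w hw
        have hw0 : w ≠ 0 := by
          intro h
          have := hUR hw
          rw [h] at this
          exact lt_irrefl (0:ℝ) (by simp [RH] at this)
        rw [t8_St_eq hV hw0 (hU w hw).1 (hU w hw).2.1]
        rfl)
      refine (d6.congr_deriv ?_)
      rw [hG]
      have eW : bp t - 1 = -(1 - t * I) / 2 := by simp only [bp]; ring
      rw [eW, QT]
      field_simp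
      ring
    rw [hder.deriv] at him hre
    have him' : G.im = 0 := by
      have : (2 * G).im = 2 * G.im := by simp
      linarith [this ▸ him]
    have hre' : 0 ≤ G.re := by
      have : (2 * G).re = 2 * G.re := by simp
      linarith [this ▸ hre]
    rcases ht0.eq_or_lt with h0 | h0
    · have hY : q.im = 0 := by
        rw [hq, ← h0]; exact t8_Y_zero hB
      have hqr : q = (q.re : ℂ) := by
        apply Complex.ext
        · simp
        · simp [hY]
      have eS : St b v (bp t) = ((b * q.re * q.re / (1 - q.re) : ℝ) : ℂ) := by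
        rw [hSt, ← h0, hqr]
        push_cast
        simp only [Complex.ofReal_re]
        ring
      rw [eS, Complex.ofReal_re] at hE
      have hA : 0 < (1 - q.re) := by linarith
      have : 0 < b * q.re * q.re / (1 - q.re) := by positivity
      linarith
    · have hYp := t8_Y_pos hB h0
      rw [← hq] at hYp
      have hfin := h6c b q.re q.im t hb hXp hXt hYp h0 q (1 - t * I) (1 - q) G
        (Complex.re_add_im q).symm rfl rfl (by rw [← hSt]; exact hE) hG him'
      linarith
  -- uniform positivity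
  have hcont : Continuous (fun t : ℝ => (St b v (bp t)).re) := by
    refine Complex.continuous_re.comp ?_
    rw [continuous_iff_continuousAt]
    intro t
    have h1 : ContinuousAt (St b v) (bp t) :=
      (hSd.differentiableAt (hUo.mem_nhds (hPU (t5_bp_mem t)))).continuousAt
    exact ContinuousAt.comp h1 t8c_continuous_bp.continuousAt
  obtain ⟨t₀, ht₀, hmin⟩ := (isCompact_Icc (a := -|T|) (b := |T|)).exists_isMinOn
    ⟨0, by constructor <;> simp⟩ hcont.continuousOn
  set m := min δ (St b v (bp t₀)).re with hm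
  have hm0 : 0 < m := lt_min hδ0 (hline t₀)
  have hall : ∀ t : ℝ, m ≤ (St b v (bp t)).re := by
    intro t
    by_cases h1 : |t| ≤ |T|
    · refine (min_le_right _ _).trans ?_
      exact hmin (abs_le.1 h1)
    · push Not at h1
      refine (min_le_left _ _).trans ?_
      rcases le_total 0 t with h2 | h2
      · rw [abs_of_nonneg h2] at h1
        exact (hT t (le_trans (le_abs_self T) h1.le)).le
      · rw [abs_of_nonpos h2] at h1
        rw [← hsym]
        exact (hT (-t) (le_trans (le_abs_self T) h1.le)).le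
  intro W hW
  exact lt_of_lt_of_le hm0 (h3a (St b v) U hUo hPU hSd _ 1 (by norm_num) (by norm_num)
    hgrow 0 hreal m hall W hW)

end Mocanu
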