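import Pool.Agent.Helper267_mocanu.T8lib

set_option autoImplicit false

namespace Mocanu

open Complex Set Filter Topology MeasureTheory Metric

/-- the function `H` -/
noncomputable def t8H (b : ℝ) (v : ℂ → ℂ) (W : ℂ) : ℂ :=
  1 + b + (b - 1) * ((v W)⁻¹ - (2 - 1 / b) * (W - 1 / 2)) - 2 * b * sf v W

lemma t8H_re {b : ℝ} {v : ℂ → ℂ} (t : ℝ) :
    (t8H b v (bp t)).re = 1 + b + (b - 1) * ((v (bp t))⁻¹).re - 2 * b * (sf v (bp t)).re := by
  have e : t8H b v (bp t) = ((1 + b : ℝ) : ℂ) + ((b - 1 : ℝ) : ℂ) * ((v (bp t))⁻¹) -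
      (((b - 1) * (2 - 1 / b) * (t / 2) : ℝ) : ℂ) * I - ((2 * b : ℝ) : ℂ) * sf v (bp t) := by
    simp only [t8H, bp]
    push_cast
    ring
  rw [e]
  simp only [Complex.add_re, Complex.sub_re, Complex.ofReal_re,
    Complex.mul_re, Complex.ofReal_im, Complex.I_re, Complex.I_im]
  ring

theorem t8d : T8d := by
  intro h3 h4 h6d h6e b v hV hB hL hX
  by_contra hcon
  push Not at hcon
  obtain ⟨t₁, ht₁⟩ := hcon
  have hb := hV.hb
  have hb0 : b ≠ 0 := by linarith
  have hbc : (b:ℂ) ≠ 0 := by exact_mod_cast hb0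
  obtain ⟨U, hUo, hPU, hUR, hU⟩ := hL.nbhd
  obtain ⟨CQ, hCQ0, hCQ⟩ := t8_Q_growth hL
  obtain ⟨Cs, hCs0, hCs⟩ := t8_sf_bound hL
  have hvd : DifferentiableOn ℂ v U := hV.diff.mono hUR
  have hpd : DifferentiableOn ℂ (Psi v) U := hL.psi_diff.mono hUR
  have hQd : DifferentiableOn ℂ (fun W => (v W)⁻¹) U := hvd.inv (fun W hW => (hU W hW).1)
  have hsd : DifferentiableOn ℂ (sf v) U :=
    (differentiableOn_id.mul hvd).div hpd (fun W hW => (hU W hW).2.1)
  have hHd : DifferentiableOn ℂ (t8H b v) U := by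
    unfold t8H
    refine DifferentiableOn.sub (DifferentiableOn.add (differentiableOn_const _)
      (DifferentiableOn.const_mul (hQd.sub ?_) _)) (hsd.const_mul _)
    exact (DifferentiableOn.sub differentiableOn_id (differentiableOn_const _)).const_mul _
  have hb1 : 0 < 2 - 1 / b := by
    have : 1 / b < 1 := by rw [div_lt_one (by linarith)]; exact hb
    linarith
  -- growth
  have hgrow : ∀ W ∈ Pb, ‖t8H b v W‖ ≤
      (1 + b + (b - 1) * (CQ + 2) + 2 * b * Cs) * (1 + ‖W‖) ^ (1:ℝ) := by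
    intro W hW
    rw [Real.rpow_one]
    have hn := norm_nonneg W
    have n1 : ‖(1 + b : ℂ)‖ = 1 + b := by
      have : (1 + b : ℂ) = ((1 + b : ℝ) : ℂ) := by push_cast; ring
      rw [this, Complex.norm_real, Real.norm_eq_abs, abs_of_pos (by linarith)]
    have n2 : ‖(b - 1 : ℂ)‖ = b - 1 := by
      have : (b - 1 : ℂ) = ((b - 1 : ℝ) : ℂ) := by push_cast; ring
      rw [this, Complex.norm_real, Real.norm_eq_abs, abs_of_pos (by linarith)]
    have n3 : ‖(2 * b : ℂ)‖ = 2 * b := by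
      have : (2 * b : ℂ) = ((2 * b : ℝ) : ℂ) := by push_cast; ring
      rw [this, Complex.norm_real, Real.norm_eq_abs, abs_of_pos (by linarith)]
    have n4 : ‖(2 - 1 / b : ℂ)‖ ≤ 2 := by
      have : (2 - 1 / b : ℂ) = ((2 - 1 / b : ℝ) : ℂ) := by push_cast; ring
      rw [this, Complex.norm_real, Real.norm_eq_abs, abs_of_pos hb1]
      have : 0 < 1 / b := by positivity
      linarith
    have n5 : ‖W - 1 / 2‖ ≤ ‖W‖ + 1 := by
      refine (norm_sub_le _ _).trans ?_
      have : ‖(1 / 2 : ℂ)‖ ≤ 1 := by norm_num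
      linarith
    have q1 := hCQ W hW
    have s1 := hCs W hW
    unfold t8H
    have t1 := norm_sub_le (1 + b + (b - 1) * ((v W)⁻¹ - (2 - 1 / b) * (W - 1 / 2)) : ℂ)
      (2 * b * sf v W)
    have t2 := norm_add_le (1 + b : ℂ) ((b - 1) * ((v W)⁻¹ - (2 - 1 / b) * (W - 1 / 2)))
    have t3 := norm_sub_le ((v W)⁻¹) ((2 - 1 / b) * (W - 1 / 2) : ℂ)
    rw [norm_mul] at t3
    rw [norm_mul (b - 1 : ℂ), n1, n2] at t2
    rw [norm_mul (2 * b : ℂ), n3] at t1
    have m1 : ‖(2 - 1 / b : ℂ)‖ * ‖W - 1 / 2‖ ≤ 2 * (‖W‖ + 1) :=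
      mul_le_mul n4 n5 (norm_nonneg _) (by norm_num)
    have m2 : (b - 1) * ‖(v W)⁻¹ - (2 - 1 / b) * (W - 1 / 2)‖ ≤
        (b - 1) * ((CQ + 2) * (1 + ‖W‖)) := by
      refine mul_le_mul_of_nonneg_left ?_ (by linarith)
      nlinarith
    have m3 : 2 * b * ‖sf v W‖ ≤ 2 * b * Cs := mul_le_mul_of_nonneg_left s1 (by linarith)
    have m4 : 0 ≤ 2 * b * Cs * ‖W‖ := by positivity
    have m5 : 0 ≤ (1 + b) * ‖W‖ := by positivity
    nlinarith
  -- real axis
  have hreal : ∀ x : ℝ, 2 ≤ x → -(2 * b * Cs) ≤ (t8H b v x).re := by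
    intro x hx
    obtain ⟨y, hy, hy1, hy2⟩ := t8_Q_real h4 hV hx
    have hs := hCs x (t8_real_mem hx)
    have hs2 := (Complex.re_le_norm (sf v x)).trans hs
    have e : t8H b v x = ((1 + b + (b - 1) * (y - (2 - 1 / b) * (x - 1 / 2)) : ℝ) : ℂ) -
        ((2 * b : ℝ) : ℂ) * sf v x := by
      simp only [t8H]
      rw [hy]
      push_cast
      ring
    rw [e, Complex.sub_re, Complex.re_ofReal_mul, Complex.ofReal_re]
    have m1 : 0 ≤ (b - 1) * (y - (2 - 1 / b) * (x - 1 / 2)) :=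
      mul_nonneg (by linarith) (by linarith)
    have m2 : 2 * b * (sf v x).re ≤ 2 * b * Cs := mul_le_mul_of_nonneg_left hs2 (by linarith)
    linarith
  -- symmetry
  have hsym : ∀ t : ℝ, (t8H b v (bp (-t))).re = (t8H b v (bp t)).re := by
    intro t
    rw [t8H_re, t8H_re, t8_Q_conj hV, t8_sf_conj hV (t8_v_ne hB)]
    simp only [Complex.conj_re]
  -- behaviour at infinity
  have hlim : Tendsto (fun t => (t8H b v (bp t)).re) atTop
      (𝓝 (1 + b + (b - 1) * 0 - b * (2 * b / (2 * b - 1)))) := by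
    have h1 := (tendsto_const_nhds (x := 1 + b) (f := (atTop : Filter ℝ))).add
      ((t8_tendsto_X hb hB).const_mul (b - 1))
    have h2 := h1.sub ((t8_tendsto_s hV hB).const_mul b)
    refine h2.congr (fun t => ?_)
    rw [t8H_re]
    ring
  have hlimpos : 0 < 1 + b + (b - 1) * 0 - b * (2 * b / (2 * b - 1)) := by
    have h2b : 0 < 2 * b - 1 := by linarith
    have e : 1 + b + (b - 1) * 0 - b * (2 * b / (2 * b - 1)) = (b - 1) / (2 * b - 1) := by
      rw [eq_div_iff h2b.ne', mul_zero, add_zero, sub_mul, mul_assoc b, div_mul_cancel₀ _ h2b.ne']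
      ring
    rw [e]
    exact div_pos (by linarith) h2b
  obtain ⟨T, hT⟩ := eventually_atTop.1 (hlim.eventually (lt_mem_nhds hlimpos))
  have ht₁' : (t8H b v (bp t₁)).re ≤ 0 := by rw [t8H_re]; exact ht₁
  obtain ⟨t, ht0, hle, him, hre⟩ := h3 (t8H b v) U hUo hPU hHd _ 1 (by norm_num) (by norm_num)
    hgrow (2 * b * Cs) hreal hsym t₁ T (fun t ht => lt_of_le_of_lt ht₁' (hT t ht))
  -- the derivative
  have hE : (t8H b v (bp t)).re ≤ 0 := hle.trans ht₁'
  have hXt := hX t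
  have hXp := t8_X_pos hB t
  set q := (v (bp t))⁻¹ with hq
  have hq1 : q ≠ 1 := by
    intro h
    rw [h] at hXt
    norm_num at hXt
  have h1q : (1 - q) ≠ 0 := sub_ne_zero.mpr (Ne.symm hq1)
  have hq1' : q - 1 ≠ 0 := sub_ne_zero.mpr hq1
  set G : ℂ := QT b q t * ((b - 1) - b * ((1 - t * I) / (1 - q)) / (1 - q)) + b / (1 - q)
    - (b - 1) * (2 - 1 / b) / 2 with hG
  have hder : HasDerivAt (t8H b v) (2 * G) (bp t) := by
    have d1 := t8_hasDeriv_Q_line hV hB t
    have d2 := t8_hasDeriv_sf_line hV hB t (by rw [← hq]; exact hq1)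
    rw [← hq] at d1 d2
    have d3 : HasDerivAt (fun W : ℂ => (2 - 1 / (b:ℂ)) * (W - 1 / 2)) ((2 - 1 / (b:ℂ)) * 1) (bp t) :=
      ((hasDerivAt_id (bp t)).sub_const (1 / 2)).const_mul _
    have d4 := ((d1.sub d3).const_mul ((b:ℂ) - 1)).const_add (1 + (b:ℂ))
    have d5 := d4.sub (d2.const_mul (2 * (b:ℂ)))
    refine (d5.congr_deriv ?_)
    rw [hG]
    have eW : bp t - 1 = -(1 - t * I) / 2 := by simp only [bp]; ring
    rw [eW]
    generalize QT b q t = z
    field_simp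
    ring
  rw [hder.deriv] at him hre
  have him' : G.im = 0 := by
    have : (2 * G).im = 2 * G.im := by simp
    linarith [this ▸ him]
  have hre' : 0 ≤ G.re := by
    have : (2 * G).re = 2 * G.re := by simp
    linarith [this ▸ hre]
  have hEform : 1 + b + (b - 1) * q.re - b * (1 - q.re + t * q.im) /
      ((1 - q.re) ^ 2 + q.im ^ 2) ≤ 0 := by
    have h8 := t8_sf_re hV hB t
    rw [← hq] at h8
    rw [t8H_re, ← hq] at hE
    have e : b * (1 - q.re + t * q.im) / ((1 - q.re) ^ 2 + q.im ^ 2) =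
        b * (2 * (sf v (bp t)).re) := by rw [h8]; ring
    rw [e]
    linarith
  rcases ht0.eq_or_lt with h0 | h0
  · -- t = 0
    have hY : q.im = 0 := by
      rw [hq, ← h0]; exact t8_Y_zero hB
    have hqr : q = (q.re : ℂ) := by
      apply Complex.ext
      · simp
      · simp [hY]
    have hA : (1 - q.re) ≠ 0 := by linarith
    have hAc : (1 - (q.re : ℂ)) ≠ 0 := by exact_mod_cast hA
    have hE0 : 1 + b + (b - 1) * q.re - b / (1 - q.re) ≤ 0 := by
      rw [hY, ← h0] at hEform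
      have e : b * (1 - q.re + 0 * 0) / ((1 - q.re) ^ 2 + 0 ^ 2) = b / (1 - q.re) := by
        field_simp
        ring
      rw [e] at hEform
      exact hEform
    have hfin := h6e b q.re hb hXp hXt hE0
    have eG : G = ((2 * b * q.re ^ 2 * ((b - 1) - b / (1 - q.re) ^ 2) + b / (1 - q.re) -
        (b - 1) * (2 - 1 / b) / 2 : ℝ) : ℂ) := by
      rw [hG, ← h0, hqr, QT]
      push_cast
      simp only [Complex.ofReal_re]
      field_simp
      ring
    rw [eG, Complex.ofReal_re] at hre'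
    linarith
  · have hYp := t8_Y_pos hB h0
    rw [← hq] at hYp
    have hfin := h6d b q.re q.im t hb hXp hXt hYp h0 q G (Complex.re_add_im q).symm hEform
      hG him'
    linarith

end Mocanu
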