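import Pool.Agent.Helper267_mocanu.Stmts

/-!
# Task T9a of AKC (helper724): the basic properties of `κ`
-/

set_option autoImplicit false

namespace Mocanu

open Complex Set Filter Topology MeasureTheory Metric

namespace T9aux

variable {b : ℝ} {v : ℂ → ℂ} {U : Set ℂ}

lemma mem_RH_of_Pb {W : ℂ} (hW : W ∈ Pb) : W ∈ RH := by
  have : (1:ℝ)/2 ≤ W.re := hW
  show 0 < W.re
  linarith

lemma isOpen_RH : IsOpen RH := isOpen_lt continuous_const Complex.continuous_re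

lemma slit_of_re {z : ℂ} (h : 0 < z.re) : z ∈ slitPlane := Or.inl h

/-- derivative of `κ` at a point -/
lemma kap_hasDeriv (hv : VBase b v) {W : ℂ} (hW : W ∈ RH) (hre : 0 < (W * v W).re) :
    HasDerivAt (kap b v)
      (((((2 - 1 / b : ℝ)) : ℂ) * W ^ ((((2 - 1 / b : ℝ)) : ℂ) - 1) * 1) * (W * v W) ^ (((1 / b : ℝ)) : ℂ) +
        W ^ (((2 - 1 / b : ℝ)) : ℂ) *
          ((((1 / b : ℝ)) : ℂ) * (W * v W) ^ ((((1 / b : ℝ)) : ℂ) - 1) * (1 * v W + W * deriv v W))) W := by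
  have h1 : HasDerivAt v (deriv v W) W := ((hv.diff W hW).differentiableAt (isOpen_RH.mem_nhds hW)).hasDerivAt
  have h2 : HasDerivAt (fun w : ℂ => w * v w) (1 * v W + W * deriv v W) W := (hasDerivAt_id W).mul h1
  have h3 : HasDerivAt (fun w : ℂ => w ^ (((2 - 1 / b : ℝ)) : ℂ))
      ((((2 - 1 / b : ℝ)) : ℂ) * W ^ ((((2 - 1 / b : ℝ)) : ℂ) - 1) * 1) W :=
    (hasDerivAt_id W).cpow_const (slit_of_re hW)
  have h4 : HasDerivAt (fun w : ℂ => (w * v w) ^ (((1 / b : ℝ)) : ℂ))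
      ((((1 / b : ℝ)) : ℂ) * (W * v W) ^ ((((1 / b : ℝ)) : ℂ) - 1) * (1 * v W + W * deriv v W)) W :=
    h2.cpow_const (slit_of_re hre)
  exact h3.mul h4

lemma ode_point (hv : VBase b v) {W : ℂ} (hW : W ∈ RH) (hv0 : v W ≠ 0) (hre : 0 < (W * v W).re) :
    W * (W - 1) * deriv (kap b v) W = kap b v W * ((v W)⁻¹ - 1) := by
  have hb : (b : ℂ) ≠ 0 := by
    have := hv.hb
    exact_mod_cast (by positivity : b ≠ 0)
  have hW0 : W ≠ 0 := by
    rintro rfl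
    simp [RH] at hW
  have hWv : W * v W ≠ 0 := mul_ne_zero hW0 hv0
  have hode := hv.ode W hW
  rw [(kap_hasDeriv hv hW hre).deriv, cpow_sub _ _ hW0, cpow_sub _ _ hWv, cpow_one, cpow_one, kap]
  set P := W ^ (((2 - 1 / b : ℝ)) : ℂ)
  set R := (W * v W) ^ (((1 / b : ℝ)) : ℂ)
  set d := deriv v W
  push_cast
  field_simp
  have h : W * (W - 1) * d = b - b * (2 * W - 1) * v W := by linear_combination hode
  linear_combination (P * R) * h


lemma kap_ne {W : ℂ} (hW0 : W ≠ 0) (hv0 : v W ≠ 0) : kap b v W ≠ 0 := by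
  rw [kap]
  apply mul_ne_zero
  · rw [Ne, cpow_eq_zero_iff]; tauto
  · rw [Ne, cpow_eq_zero_iff]
    have := mul_ne_zero hW0 hv0
    tauto

/-- the formula for `κ'` away from `1` -/
lemma dk_ne_one (hv : VBase b v) (hl : VLow b v) {W : ℂ} (hW : W ∈ RH) (hv0 : v W ≠ 0)
    (hre : 0 < (W * v W).re) (hW1 : W ≠ 1) :
    deriv (kap b v) W =
      W ^ (((1 - 1 / b : ℝ)) : ℂ) * (W * v W) ^ (((1 / b - 1 : ℝ)) : ℂ) * Psi v W := by
  have hW0 : W ≠ 0 := by
    rintro rfl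
    simp [RH] at hW
  have hW1' : W - 1 ≠ 0 := sub_ne_zero.2 hW1
  have hWv : W * v W ≠ 0 := mul_ne_zero hW0 hv0
  have h := ode_point hv hW hv0 hre
  rw [hl.psi_eq W hW1]
  have e1 : (((1 - 1 / b : ℝ)) : ℂ) = (((2 - 1 / b : ℝ)) : ℂ) - 1 := by push_cast; ring
  have e2 : (((1 / b - 1 : ℝ)) : ℂ) = (((1 / b : ℝ)) : ℂ) - 1 := by push_cast; ring
  rw [e1, e2, cpow_sub _ _ hW0, cpow_sub _ _ hWv, cpow_one, cpow_one]
  rw [kap] at h
  have h2 : deriv (kap b v) W =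
      (W ^ (((2 - 1 / b : ℝ)) : ℂ) * (W * v W) ^ (((1 / b : ℝ)) : ℂ)) * ((v W)⁻¹ - 1) / (W * (W - 1)) := by
    rw [eq_div_iff (mul_ne_zero hW0 hW1'), ← h]; ring
  rw [h2]
  generalize W ^ (((2 - 1 / b : ℝ)) : ℂ) = P
  generalize (W * v W) ^ (((1 / b : ℝ)) : ℂ) = R
  field_simp

end T9aux

open T9aux in
theorem t9a : T9a := by
  intro b v hv hl
  obtain ⟨U, hUo, hPU, hUR, hU⟩ := hl.nbhd
  have hb := hv.hb
  have hb0 : 0 < b := by linarith
  have hdiff : DifferentiableOn ℂ (kap b v) U := fun W hW =>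
    (kap_hasDeriv hv (hUR hW) (hU W hW).2.2.1).differentiableAt.differentiableWithinAt
  have hne0 : ∀ W ∈ U, W ≠ 0 := by
    rintro W hW rfl
    have := hUR hW
    simp [RH] at this
  -- the formula for the derivative on `U`
  have hdk : ∀ W ∈ U, deriv (kap b v) W =
      W ^ (((1 - 1 / b : ℝ)) : ℂ) * (W * v W) ^ (((1 / b - 1 : ℝ)) : ℂ) * Psi v W := by
    intro W hW
    by_cases h1 : W = 1
    · subst h1
      have hc1 : ContinuousAt (deriv (kap b v)) 1 :=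
        ((hdiff.deriv hUo).differentiableAt (hUo.mem_nhds hW)).continuousAt
      have hc2 : ContinuousAt (fun W : ℂ =>
          W ^ (((1 - 1 / b : ℝ)) : ℂ) * (W * v W) ^ (((1 / b - 1 : ℝ)) : ℂ) * Psi v W) 1 := by
        have hv1 : ContinuousAt v 1 :=
          ((hv.diff 1 (hUR hW)).differentiableAt (isOpen_RH.mem_nhds (hUR hW))).continuousAt
        have hp : ContinuousAt (Psi v) 1 :=
          ((hl.psi_diff 1 (hUR hW)).differentiableAt (isOpen_RH.mem_nhds (hUR hW))).continuousAt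
        refine ContinuousAt.mul (ContinuousAt.mul ?_ ?_) hp
        · exact ContinuousAt.cpow continuousAt_id continuousAt_const (slit_of_re (hUR hW))
        · exact ContinuousAt.cpow (continuousAt_id.mul hv1) continuousAt_const (slit_of_re (hU 1 hW).2.2.1)
      have hev : ∀ᶠ W in 𝓝[≠] (1:ℂ), deriv (kap b v) W =
          W ^ (((1 - 1 / b : ℝ)) : ℂ) * (W * v W) ^ (((1 / b - 1 : ℝ)) : ℂ) * Psi v W := by
        filter_upwards [mem_nhdsWithin_of_mem_nhds (hUo.mem_nhds hW), self_mem_nhdsWithin] with w hw hw1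
        exact dk_ne_one hv hl (hUR hw) (hU w hw).1 (hU w hw).2.2.1 hw1
      have t1 := hc1.tendsto.mono_left (nhdsWithin_le_nhds (s := {(1:ℂ)}ᶜ))
      have t2 := hc2.tendsto.mono_left (nhdsWithin_le_nhds (s := {(1:ℂ)}ᶜ))
      exact tendsto_nhds_unique (t1.congr' hev) t2
    · exact dk_ne_one hv hl (hUR hW) (hU W hW).1 (hU W hW).2.2.1 h1
  have hα1 : 0 ≤ 1 - 1 / b := by
    rw [sub_nonneg, div_le_one hb0]; exact hb.le
  have hα2 : 0 ≤ 2 - 1 / b := by linarith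
  have hα0 : 0 ≤ 1 / b := by positivity
  refine ⟨⟨U, hUo, hPU, hUR, hdiff⟩, ?_, ?_, ?_, ?_, ?_, ?_⟩
  · rw [kap, hv.one]; simp
  · intro W hW
    exact ode_point hv (hUR (hPU hW)) (hU W (hPU hW)).1 (hU W (hPU hW)).2.2.1
  · intro W hW
    exact kap_ne (hne0 W (hPU hW)) (hU W (hPU hW)).1
  · intro W hW
    exact hdk W (hPU hW)
  · obtain ⟨C, hC⟩ := hl.wv_hi
    have hC0 : 0 ≤ C := (norm_nonneg _).trans (hC 1 (by show (1:ℝ)/2 ≤ (1:ℂ).re; norm_num))
    refine ⟨C ^ (1 / b), fun W hW => ?_⟩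
    rw [kap, norm_mul, norm_cpow_real, norm_cpow_real, mul_comm]
    exact mul_le_mul (Real.rpow_le_rpow (norm_nonneg _) (hC W hW) hα0)
      (Real.rpow_le_rpow (norm_nonneg _) (by linarith) hα2) (by positivity) (by positivity)
  · obtain ⟨C, hC⟩ := hl.psi_hi
    obtain ⟨c, hc, hcW⟩ := hl.wv
    have hC0 : 0 ≤ C := (norm_nonneg _).trans (hC 1 (by show (1:ℝ)/2 ≤ (1:ℂ).re; norm_num))
    refine ⟨c ^ (1 / b - 1) * C, fun W hW => ?_⟩
    rw [hdk W (hPU hW), norm_mul, norm_mul, norm_cpow_real, norm_cpow_real]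
    have h1 : ‖W‖ ^ (1 - 1 / b) ≤ (1 + ‖W‖) ^ (1 - 1 / b) :=
      Real.rpow_le_rpow (norm_nonneg _) (by linarith) hα1
    have h2 : ‖W * v W‖ ^ (1 / b - 1) ≤ c ^ (1 / b - 1) :=
      Real.rpow_le_rpow_of_nonpos hc ((hcW W hW).trans (Complex.re_le_norm _)) (by linarith)
    calc ‖W‖ ^ (1 - 1 / b) * ‖W * v W‖ ^ (1 / b - 1) * ‖Psi v W‖
        ≤ (1 + ‖W‖) ^ (1 - 1 / b) * c ^ (1 / b - 1) * C :=
          mul_le_mul (mul_le_mul h1 h2 (by positivity) (by positivity)) (hC W hW) (norm_nonneg _)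
            (by positivity)
      _ = c ^ (1 / b - 1) * C * (1 + ‖W‖) ^ (1 - 1 / b) := by ring

end Mocanu
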