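import Pool.Agent.Helper267_mocanu.Stmts

/-!
# Task T9c: `Re κ' ≥ c > 0` on `Pb`, and the half plane inequality
-/

set_option autoImplicit false

namespace Mocanu

open Complex Set Filter Topology MeasureTheory Metric

namespace T9cAux

lemma bp_mem (t : ℝ) : bp t ∈ Pb := by
  simp [bp, Pb]

lemma bp_hasDerivAt (t : ℝ) : HasDerivAt bp (I / 2) t := by
  unfold bp
  have h1 : HasDerivAt (fun t : ℝ => (t : ℂ)) 1 t := Complex.ofRealCLM.hasDerivAt
  have h2 := ((h1.mul_const I).const_add 1).div_const 2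
  simpa using h2

/-- the line inequality: abstract form -/
lemma line_ineq (κ : ℂ → ℂ) (U : Set ℂ) (hU : IsOpen U) (hPU : Pb ⊆ U)
    (hκ : DifferentiableOn ℂ κ U) (θ : ℝ → ℝ) (hm : Monotone θ)
    (hb : ∀ t, |θ t| ≤ Real.pi / 2)
    (hd : ∀ t, deriv κ (bp t) = (‖deriv κ (bp t)‖ : ℂ) * exp ((θ t : ℂ) * I))
    (hne : ∀ t, deriv κ (bp t) ≠ 0) (s t : ℝ) :
    0 ≤ ((κ (bp s) - κ (bp t)) / deriv κ (bp s)).re := by
  set g : ℝ → ℝ := fun r => ((κ (bp s) - κ (bp r)) / deriv κ (bp s)).re with hg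
  have hgd : ∀ r, HasDerivAt g (1 / 2 * (‖deriv κ (bp r)‖ / ‖deriv κ (bp s)‖) *
      Real.sin (θ r - θ s)) r := by
    intro r
    have h1 : HasDerivAt κ (deriv κ (bp r)) (bp r) :=
      ((hκ _ (hPU (bp_mem r))).differentiableAt (hU.mem_nhds (hPU (bp_mem r)))).hasDerivAt
    have h2 : HasDerivAt (fun r : ℝ => κ (bp r)) (deriv κ (bp r) * (I / 2)) r := by
      have := h1.comp_of_eq r (bp_hasDerivAt r) rfl
      exact this
    have h3 : HasDerivAt (fun r : ℝ => (κ (bp s) - κ (bp r)) / deriv κ (bp s))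
        (-(deriv κ (bp r) * (I / 2)) / deriv κ (bp s)) r :=
      (h2.const_sub (κ (bp s))).div_const _
    have h4 : HasDerivAt g (-(deriv κ (bp r) * (I / 2)) / deriv κ (bp s)).re r := by
      have := (Complex.reCLM.hasFDerivAt (x := (κ (bp s) - κ (bp r)) / deriv κ (bp s))).comp_hasDerivAt r h3
      simpa [hg, Function.comp_def] using this
    convert h4 using 1
    have hs0 : (‖deriv κ (bp s)‖ : ℂ) ≠ 0 := by
      simpa using hne s
    have e1 : -(deriv κ (bp r) * (I / 2)) / deriv κ (bp s) =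
        ((-(1/2) * (‖deriv κ (bp r)‖ / ‖deriv κ (bp s)‖) : ℝ) : ℂ) *
          (exp (((θ r - θ s : ℝ) : ℂ) * I) * I) := by
      have e2 : exp (((θ r - θ s : ℝ) : ℂ) * I) = exp ((θ r : ℂ) * I) / exp ((θ s : ℂ) * I) := by
        rw [← Complex.exp_sub]; congr 1; push_cast; ring
      rw [e2]
      conv_lhs => rw [hd r, hd s]
      have hs1 := Complex.exp_ne_zero ((θ s : ℂ) * I)
      push_cast
      field_simp
    rw [e1, Complex.re_ofReal_mul, Complex.mul_I_re, Complex.exp_ofReal_mul_I_im]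
    ring
  have hg0 : g s = 0 := by simp [hg]
  have hnn : ∀ r, 0 ≤ 1 / 2 * (‖deriv κ (bp r)‖ / ‖deriv κ (bp s)‖) := by
    intro r; positivity
  rcases le_total t s with h | h
  · -- antitone on Iic s
    have hanti : AntitoneOn g (Iic s) := by
      refine antitoneOn_of_deriv_nonpos (convex_Iic s)
        (fun r _ => (hgd r).continuousAt.continuousWithinAt)
        (fun r _ => (hgd r).differentiableAt.differentiableWithinAt) ?_
      intro r hr
      rw [interior_Iic] at hr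
      rw [(hgd r).deriv]
      have h1 : θ r ≤ θ s := hm (le_of_lt hr)
      have h2 := abs_le.1 (hb r)
      have h3 := abs_le.1 (hb s)
      have : Real.sin (θ r - θ s) ≤ 0 := by
        apply Real.sin_nonpos_of_nonpos_of_neg_pi_le <;> linarith
      nlinarith [hnn r]
    have := hanti (mem_Iic.2 h) (mem_Iic.2 le_rfl) h
    rw [hg0] at this
    exact this
  · have hmono : MonotoneOn g (Ici s) := by
      refine monotoneOn_of_deriv_nonneg (convex_Ici s)
        (fun r _ => (hgd r).continuousAt.continuousWithinAt)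
        (fun r _ => (hgd r).differentiableAt.differentiableWithinAt) ?_
      intro r hr
      rw [interior_Ici] at hr
      rw [(hgd r).deriv]
      have h1 : θ s ≤ θ r := hm (le_of_lt hr)
      have h2 := abs_le.1 (hb r)
      have h3 := abs_le.1 (hb s)
      have : 0 ≤ Real.sin (θ r - θ s) := by
        apply Real.sin_nonneg_of_nonneg_of_le_pi <;> linarith
      exact mul_nonneg (hnn r) this
    have := hmono (mem_Ici.2 le_rfl) (mem_Ici.2 h) h
    rw [hg0] at this
    exact this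

lemma mem_RH {W : ℂ} (h : W ∈ Pb) : W ∈ RH := by
  have : (1:ℝ)/2 ≤ W.re := h
  show 0 < W.re
  linarith

lemma ne0 {W : ℂ} (h : W ∈ Pb) : W ≠ 0 := by
  intro h0
  have : 0 < W.re := mem_RH h
  simp [h0] at this

lemma normW {W : ℂ} (h : W ∈ Pb) : 1 / 2 ≤ ‖W‖ := by
  have h1 : (1:ℝ)/2 ≤ W.re := h
  exact h1.trans (Complex.re_le_norm W)

/-- facts -/
lemma norm_kd (b : ℝ) (v : ℂ → ℂ) (hV : VBase b v) (hL : VLow b v) (hK : KBase b v) :
    ∃ c > 0, ∀ W ∈ Pb, c ≤ ‖deriv (kap b v) W‖ := by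
  have hb := hV.hb
  obtain ⟨c1, hc1, h1⟩ := hL.wv
  obtain ⟨c2, hc2, h2⟩ := hL.psi
  obtain ⟨C, hC⟩ := hL.wv_hi
  have hCpos : 0 < C := by
    have h1' := h1 1 (by simp [Pb]; norm_num)
    have h2' := hC 1 (by simp [Pb]; norm_num)
    have := Complex.re_le_norm (1 * v 1)
    linarith
  have hb1 : 0 < 1 - 1 / b := by
    have : 1 / b < 1 := by rw [div_lt_one (by linarith)]; exact hb
    linarith
  refine ⟨(1/2) ^ (1 - 1 / b) * C ^ (1 / b - 1) * c2, by positivity, ?_⟩
  intro W hW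
  rw [hK.dk W hW, norm_mul, norm_mul]
  have hW0 := ne0 hW
  have hwv := h1 W hW
  have hwv0 : W * v W ≠ 0 := by
    intro h; rw [h] at hwv; simp at hwv; linarith
  rw [Complex.norm_cpow_of_ne_zero hW0, Complex.norm_cpow_of_ne_zero hwv0]
  simp only [Complex.ofReal_re, Complex.ofReal_im, mul_zero, Real.exp_zero, div_one]
  have e1 : (1/2:ℝ) ^ (1 - 1 / b) ≤ ‖W‖ ^ (1 - 1 / b) :=
    Real.rpow_le_rpow (by norm_num) (normW hW) hb1.le
  have e2 : C ^ (1 / b - 1) ≤ ‖W * v W‖ ^ (1 / b - 1) :=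
    Real.rpow_le_rpow_of_nonpos (norm_pos_iff.2 hwv0) (hC W hW) (by linarith)
  have e3 : c2 ≤ ‖Psi v W‖ := (h2 W hW).trans (Complex.re_le_norm _)
  gcongr

/-- real values on the real axis -/
lemma real_axis (b : ℝ) (v : ℂ → ℂ) (hV : VBase b v) (hL : VLow b v) (x : ℝ) (hx : 2 ≤ x) :
    ∃ y p : ℝ, 0 < y ∧ 0 < p ∧ v x = y ∧ Psi v x = p := by
  obtain ⟨c1, hc1, h1⟩ := hL.wv
  obtain ⟨c2, hc2, h2⟩ := hL.psi
  have hxP : (x : ℂ) ∈ Pb := by
    show (1:ℝ)/2 ≤ (x:ℂ).re
    simp; linarith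
  have hc := hV.conj x (mem_RH hxP)
  rw [Complex.conj_ofReal] at hc
  have him : (v x).im = 0 := by
    have := congrArg Complex.im hc
    simp at this
    linarith
  have hv : v x = ((v x).re : ℂ) := Complex.ext (by simp) (by simp [him])
  have hy : 0 < (v x).re := by
    have := h1 x hxP
    rw [Complex.re_ofReal_mul] at this
    by_contra hneg
    push Not at hneg
    nlinarith
  have hP : Psi v x = (((1 - (v x).re) * x / (x - 1) : ℝ) : ℂ) := by
    rw [hL.psi_eq x (by
      intro h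
      have : x = 1 := by exact_mod_cast h
      linarith)]
    rw [hv]
    push_cast
    simp
  refine ⟨(v x).re, (1 - (v x).re) * x / (x - 1), hy, ?_, hv, hP⟩
  have := h2 x hxP
  rw [hP, Complex.ofReal_re] at this
  linarith

lemma kap_eq (b : ℝ) (v : ℂ → ℂ) (hV : VBase b v) (hL : VLow b v) (hK : KBase b v) :
    ∀ W ∈ Pb, kap b v W * Psi v W = W * (W * v W) * deriv (kap b v) W := by
  intro W hW
  obtain ⟨c1, hc1, h1⟩ := hL.wv
  have hW0 := ne0 hW
  have hwv := h1 W hW
  have hwv0 : W * v W ≠ 0 := by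
    intro h; rw [h] at hwv; simp at hwv; linarith
  rw [hK.dk W hW, kap]
  have e1 : W ^ (((2 - 1 / b : ℝ)) : ℂ) = W ^ (((1 - 1 / b : ℝ)) : ℂ) * W := by
    rw [show (((2 - 1 / b : ℝ)) : ℂ) = (((1 - 1 / b : ℝ)) : ℂ) + 1 by push_cast; ring,
      Complex.cpow_add _ _ hW0, Complex.cpow_one]
  have e2 : (W * v W) ^ (((1 / b : ℝ)) : ℂ) = (W * v W) ^ (((1 / b - 1 : ℝ)) : ℂ) * (W * v W) := by
    rw [show (((1 / b : ℝ)) : ℂ) = (((1 / b - 1 : ℝ)) : ℂ) + 1 by push_cast; ring,
      Complex.cpow_add _ _ hwv0, Complex.cpow_one]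
  rw [e1, e2]
  ring

end T9cAux

open T9cAux

theorem t9c : T9c := by
  intro hT3 b v hV hB hL hK ⟨hmono, hbd, harg⟩
  have hb := hV.hb
  have hb1 : 0 < 1 - 1 / b := by
    have : 1 / b < 1 := by rw [div_lt_one (by linarith)]; exact hb
    linarith
  have hb2 : 0 < 1 / b := by
    have : 0 < b := by linarith
    positivity
  obtain ⟨U, hU, hPU, hURH, hκ⟩ := hK.nbhd
  obtain ⟨c0, hc0, hn⟩ := norm_kd b v hV hL hK
  obtain ⟨c1, hc1, h1⟩ := hL.wv
  obtain ⟨C2, hC2⟩ := hL.psi_hi
  have hbd' : ∀ t, |Th b v t| ≤ Real.pi / 2 := by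
    intro t
    have := hbd t
    have hpi := Real.pi_pos
    nlinarith
  have hne : ∀ W ∈ Pb, deriv (kap b v) W ≠ 0 := by
    intro W hW h
    have := hn W hW
    rw [h, norm_zero] at this
    linarith
  -- first part
  have hcos : 0 < Real.cos ((1 - 1 / b) * (Real.pi / 2)) := by
    apply Real.cos_pos_of_mem_Ioo
    have hpi := Real.pi_pos
    constructor <;> nlinarith
  have hmain : ∃ c > 0, ∀ W ∈ Pb, c ≤ (deriv (kap b v) W).re := by
    obtain ⟨Cd, hCd⟩ := hK.dgrowth
    refine ⟨c0 * Real.cos ((1 - 1 / b) * (Real.pi / 2)), by positivity, ?_⟩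
    refine hT3 (deriv (kap b v)) U hU hPU (hκ.deriv hU) Cd (1 - 1 / b) hb1.le (by linarith) hCd 0 ?_ _ ?_
    · intro x hx
      obtain ⟨y, p, hy, hp, hvx, hpx⟩ := real_axis b v hV hL x hx
      have hxP : (x : ℂ) ∈ Pb := by
        show (1:ℝ)/2 ≤ (x:ℂ).re
        simp; linarith
      rw [hK.dk x hxP, hvx, hpx, ← Complex.ofReal_mul, ← Complex.ofReal_cpow (by linarith),
        ← Complex.ofReal_cpow (by positivity), ← Complex.ofReal_mul, ← Complex.ofReal_mul,
        Complex.ofReal_re]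
      have : 0 < x := by linarith
      have : 0 ≤ x ^ (1 - 1 / b) * (x * y) ^ (1 / b - 1) * p := by positivity
      linarith
    · intro t
      rw [harg t, Complex.re_ofReal_mul, Complex.exp_ofReal_mul_I_re]
      have h2 : Real.cos ((1 - 1 / b) * (Real.pi / 2)) ≤ Real.cos (Th b v t) := by
        rw [← Real.cos_abs (Th b v t)]
        apply Real.cos_le_cos_of_nonneg_of_le_pi (abs_nonneg _)
        · have hpi := Real.pi_pos
          nlinarith
        · exact hbd t
      have h3 := hn (bp t) (bp_mem t)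
      gcongr
  refine ⟨hmain, ?_⟩
  obtain ⟨Ck, hCk⟩ := hK.growth
  have hC2pos : 0 < C2 := by
    obtain ⟨y, p, hy, hp, hvx, hpx⟩ := real_axis b v hV hL 2 le_rfl
    have := hC2 (2:ℝ) (by show (1:ℝ)/2 ≤ ((2:ℝ):ℂ).re; simp; norm_num)
    rw [hpx, Complex.norm_real, Real.norm_of_nonneg hp.le] at this
    linarith
  set ε := c1 / C2 with hε
  have hεpos : 0 < ε := by positivity
  refine ⟨ε, hεpos, ?_⟩
  intro W hW t
  -- the function
  set U' : Set ℂ := U ∩ {W | deriv (kap b v) W ≠ 0} with hU'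
  have hU'o : IsOpen U' := by
    have hc : ContinuousOn (deriv (kap b v)) U := (hκ.deriv hU).continuousOn
    exact hc.isOpen_inter_preimage hU isOpen_compl_singleton
  have hPU' : Pb ⊆ U' := fun W hW => ⟨hPU hW, hne W hW⟩
  set f : ℂ → ℂ := fun w => (kap b v w - kap b v (bp t)) / deriv (kap b v) w - ε * (w - 1 / 2) with hf
  have hfd : DifferentiableOn ℂ f U' := by
    refine DifferentiableOn.sub (DifferentiableOn.div ((hκ.mono inter_subset_left).sub_const _)
      ((hκ.deriv hU).mono inter_subset_left) (fun w hw => hw.2)) ?_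
    fun_prop
  have hCkpos : 0 ≤ Ck := by
    have := hCk 1 (by show (1:ℝ)/2 ≤ (1:ℂ).re; simp; norm_num)
    have h2 : (0:ℝ) < (1 + ‖(1:ℂ)‖) ^ (2 - 1 / b) := by positivity
    by_contra hneg
    push Not at hneg
    have := norm_nonneg (kap b v 1)
    nlinarith
  have key := hT3 f U' hU'o hPU' hfd (Ck / c0 + ‖kap b v (bp t)‖ / c0 + ε) (2 - 1 / b) (by linarith)
    (by linarith) ?_ (‖kap b v (bp t)‖ / c0) ?_ 0 ?_ W hW
  · have h5 : (f W).re = ((kap b v W - kap b v (bp t)) / deriv (kap b v) W).re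
        - ε * (W.re - 1 / 2) := by
      rw [hf]
      simp only [Complex.sub_re]
      congr 1
      rw [Complex.re_ofReal_mul]
      simp
    rw [h5] at key
    linarith
  · -- growth
    intro w hw
    have hn' := hn w hw
    have hd0 : 0 < ‖deriv (kap b v) w‖ := lt_of_lt_of_le hc0 hn'
    have hone : 1 ≤ (1 + ‖w‖) ^ (2 - 1 / b) :=
      Real.one_le_rpow (by linarith [norm_nonneg w]) (by linarith)
    have hw1 : 1 + ‖w‖ ≤ (1 + ‖w‖) ^ (2 - 1 / b) := by
      calc 1 + ‖w‖ = (1 + ‖w‖) ^ (1:ℝ) := by rw [Real.rpow_one]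
        _ ≤ _ := Real.rpow_le_rpow_of_exponent_le (by linarith [norm_nonneg w]) (by linarith)
    have a1 : ‖(kap b v w - kap b v (bp t)) / deriv (kap b v) w‖ ≤
        (Ck / c0 + ‖kap b v (bp t)‖ / c0) * (1 + ‖w‖) ^ (2 - 1 / b) := by
      rw [norm_div]
      have a2 : ‖kap b v w - kap b v (bp t)‖ ≤ (Ck + ‖kap b v (bp t)‖) * (1 + ‖w‖) ^ (2 - 1 / b) := by
        have := norm_sub_le (kap b v w) (kap b v (bp t))
        have h6 := hCk w hw
        have h7 : ‖kap b v (bp t)‖ ≤ ‖kap b v (bp t)‖ * (1 + ‖w‖) ^ (2 - 1 / b) :=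
          le_mul_of_one_le_right (norm_nonneg _) hone
        linarith
      calc ‖kap b v w - kap b v (bp t)‖ / ‖deriv (kap b v) w‖
          ≤ ((Ck + ‖kap b v (bp t)‖) * (1 + ‖w‖) ^ (2 - 1 / b)) / c0 := by
            gcongr
        _ = _ := by ring
    have a3 : ‖(ε : ℂ) * (w - 1 / 2)‖ ≤ ε * (1 + ‖w‖) ^ (2 - 1 / b) := by
      rw [norm_mul, Complex.norm_real, Real.norm_of_nonneg hεpos.le]
      have : ‖w - 1 / 2‖ ≤ 1 + ‖w‖ := by
        have := norm_sub_le w (1/2)
        have h8 : ‖(1/2 : ℂ)‖ = 1 / 2 := by simp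
        linarith
      gcongr
      linarith
    calc ‖f w‖ ≤ ‖(kap b v w - kap b v (bp t)) / deriv (kap b v) w‖ + ‖(ε : ℂ) * (w - 1 / 2)‖ :=
          norm_sub_le _ _
      _ ≤ _ := by linarith
  · -- real axis
    intro x hx
    obtain ⟨y, p, hy, hp, hvx, hpx⟩ := real_axis b v hV hL x hx
    have hxP : (x : ℂ) ∈ Pb := by
      show (1:ℝ)/2 ≤ (x:ℂ).re
      simp; linarith
    have hd := hne x hxP
    have hke := kap_eq b v hV hL hK x hxP
    rw [hvx, hpx] at hke
    have hp0 : (p : ℂ) ≠ 0 := by exact_mod_cast hp.ne'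
    have hquot : kap b v x / deriv (kap b v) x = ((x * (x * y) / p : ℝ) : ℂ) := by
      rw [div_eq_iff hd]
      push_cast
      field_simp
      linear_combination hke
    have h5 : (f x).re = x * (x * y) / p - (kap b v (bp t) / deriv (kap b v) x).re
        - ε * (x - 1 / 2) := by
      rw [hf]
      simp only [Complex.sub_re, sub_div]
      rw [hquot, Complex.ofReal_re, Complex.re_ofReal_mul]
      simp
    have h6 : (kap b v (bp t) / deriv (kap b v) x).re ≤ ‖kap b v (bp t)‖ / c0 := by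
      refine (Complex.re_le_norm _).trans ?_
      rw [norm_div]
      have hn' := hn x hxP
      gcongr
    have h7 : c1 ≤ x * y := by
      have := h1 x hxP
      rw [hvx, ← Complex.ofReal_mul, Complex.ofReal_re] at this
      exact this
    have h8 : p ≤ C2 := by
      have := hC2 x hxP
      rw [hpx, Complex.norm_real, Real.norm_of_nonneg hp.le] at this
      exact this
    have h9 : ε * x ≤ x * (x * y) / p := by
      rw [hε, le_div_iff₀ hp]
      have hx0 : 0 < x := by linarith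
      calc c1 / C2 * x * p ≤ c1 / C2 * x * C2 := by gcongr
        _ = c1 * x := by field_simp
        _ ≤ (x * y) * x := by gcongr
        _ = _ := by ring
    rw [h5]
    linarith
  · -- line
    intro s
    have h5 : (f (bp s)).re = ((kap b v (bp s) - kap b v (bp t)) / deriv (kap b v) (bp s)).re := by
      rw [hf]
      simp only [Complex.sub_re]
      rw [Complex.re_ofReal_mul]
      simp [bp]
    rw [h5]
    exact line_ineq (kap b v) U hU hPU hκ (Th b v) hmono hbd' harg (fun t => hne _ (bp_mem t)) s t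

end Mocanu
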