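import Pool.Agent.Helper267_mocanu.T1
import Pool.Agent.Helper267_mocanu.T2
import Pool.Agent.Helper267_mocanu.T3
import Pool.Agent.Helper267_mocanu.T4
import Pool.Agent.Helper267_mocanu.T5
import Pool.Agent.Helper267_mocanu.T6abe
import Pool.Agent.Helper267_mocanu.T6c
import Pool.Agent.Helper267_mocanu.T6d
import Pool.Agent.Helper267_mocanu.T7
import Pool.Agent.Helper267_mocanu.T8c
import Pool.Agent.Helper267_mocanu.T8d
import Pool.Agent.Helper267_mocanu.T9a
import Pool.Agent.Helper267_mocanu.T9b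
import Pool.Agent.Helper267_mocanu.T9c
import Pool.Agent.Helper267_mocanu.T10
import Pool.Agent.Helper267_mocanu.T11
import Pool.Agent.Helper267_mocanu.T12
import Pool.Agent.Helper267_mocanu.T13
import Pool.Agent.Helper267_mocanu.T14
import Pool.Agent.Helper267_mocanu.T14ab
import Pool.Agent.Helper267_mocanu.T14cd
import Pool.Agent.Helper267_mocanu.T15
import Pool.Agent.Helper267_mocanu.T16
import Pool.Agent.R194.Baz.Tay

/-! Assembly of the coefficient theorem for alpha-convex functions. -/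

set_option autoImplicit false

namespace Mocanu

open Complex Set Filter Topology MeasureTheory Metric

/-- all facts about `v = vf b` -/
theorem vall (b : ℝ) (hb : 1 < b) : VAll b (vf b) := by
  have base := t1 b hb
  have bd := t2 b _ base
  have low := t5 t3a b _ base bd
  have kb := t9a b _ base low
  have hX := t7a t3b t6a b _ base bd low t4
  have dQ := t7b t3a t3b t6b b _ base bd low
  have star := t8c t3a t3b t4 t6c b _ base bd low hX
  have hE := t8d t3b t4 t6d t6e b _ base bd low hX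
  have hTh := t9b b _ base bd low kb hE
  obtain ⟨dk, hp⟩ := t9c t3a b _ base bd low kb hTh
  refine ⟨base, low, kb, fun t => ?_, dQ, star, dk, hp⟩
  have ha := bd.a_pos t
  have hne : vf b (bp t) ≠ 0 := by
    intro h
    rw [av, h] at ha
    simp at ha
  rw [Complex.inv_re]
  exact div_pos ha (Complex.normSq_pos.mpr hne)

/-- coefficient shift -/
theorem iter_mul_id (K : ℂ → ℂ) (hK : DifferentiableOn ℂ K (ball 0 1)) (n : ℕ) :
    iteratedDeriv (n + 1) (fun z => z * K z) 0 / ((n + 1).factorial : ℂ) =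
      iteratedDeriv n K 0 / (n.factorial : ℂ) := by
  have hA : AnalyticAt ℂ K 0 := hK.analyticAt (isOpen_ball.mem_nhds (mem_ball_self one_pos))
  have h1 := Pool.Agent.R194.Baz.tay_mul (f := fun z : ℂ => z) (g := K) analyticAt_id hA
  rw [Pool.Agent.R194.Baz.tay_id] at h1
  have h2 := congrArg (PowerSeries.coeff (n + 1)) h1
  rw [Pool.Agent.R194.Baz.coeff_tay, PowerSeries.coeff_succ_X_mul, Pool.Agent.R194.Baz.coeff_tay] at h2
  exact h2

theorem final : Final := by
  intro α h0 h1 n hn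
  obtain ⟨m, rfl⟩ : ∃ m, n = m + 1 := ⟨n - 1, by omega⟩
  have hm1 : 1 ≤ m := by omega
  simp only [Nat.add_sub_cancel]
  set b : ℝ := 1 / α with hbd
  have hb : 1 < b := by rw [hbd, lt_div_iff₀ h0]; linarith
  have hab : 1 / b = α := by rw [hbd]; field_simp
  have hv := vall b hb
  have hQ := t15a t3a t4 b _ hv
  have hmem := t15b b _ hv hQ
  have hpos := t16b t14a t16a b _ hv hQ
  have h16 := t16a b _ hv
  rw [hab] at hmem hpos h16
  obtain ⟨U, hU, hPU, -, hkd⟩ := hv.kb.nbhd
  have hPo : ∀ W ∈ Po, W ∈ U := fun W hW => hPU (show (1:ℝ) / 2 ≤ W.re from le_of_lt (show (1:ℝ) / 2 < W.re from hW))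
  have hbv : ∀ V : ℂ → ℂ, V ∈ PP → DifferentiableOn ℂ (fun z => kap b (vf b) (V z)) (ball 0 1) :=
    fun V hV => hkd.comp hV.1 (fun z hz => hPo _ (hV.2.2 z hz))
  have hgeo : (fun z : ℂ => 1 / (1 - z)) ∈ PP := by
    have := (t14b.2 1 (by simp)).1
    simpa using this
  have hK : ‖iteratedDeriv (m + 1) (fun z => z * kap b (vf b) (1 / (1 - z))) 0 /
      ((m + 1).factorial : ℂ)‖ = Kc α m := by
    rw [iter_mul_id _ (hbv _ hgeo), (h16 m).2, Complex.norm_real, Real.norm_eq_abs, abs_of_pos (hpos m)]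
  constructor
  · exact ⟨_, hmem, hK.symm⟩
  · rintro r ⟨f, hf, rfl⟩
    rw [← hab] at hf
    obtain ⟨V, hVd, hV0, hVP, hfV⟩ := t13b t11 t13a t12 b _ hv f hf
    have hVPP : V ∈ PP := ⟨hVd, hV0, hVP⟩
    obtain ⟨c, hc, hdk⟩ := hv.dk
    obtain ⟨ε, hε, hhp⟩ := hv.hp
    have h10 := t10 (kap b (vf b)) U hU hPU hkd c hc hdk ε hε hhp
    have h14 := t14 t14a t14b t14c t14d (kap b (vf b)) U hU hPU hkd c hc hdk ε hε h10 V hVPP m hm1
    have hfe : iteratedDeriv (m + 1) f 0 = iteratedDeriv (m + 1) (fun z => z * kap b (vf b) (V z)) 0 := by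
      apply Filter.EventuallyEq.iteratedDeriv_eq
      filter_upwards [isOpen_ball.mem_nhds (mem_ball_self (x := (0:ℂ)) one_pos)] with z hz
      exact hfV z hz
    rw [hfe, iter_mul_id _ (hbv _ hVPP), norm_div]
    have hK2 := (h16 m).2
    have hK3 : ‖iteratedDeriv m (fun z => kap b (vf b) (1 / (1 - z))) 0‖ / ‖((m.factorial : ℕ) : ℂ)‖ = Kc α m := by
      rw [← norm_div, hK2, Complex.norm_real, Real.norm_eq_abs, abs_of_pos (hpos m)]
    rw [← hK3]
    exact div_le_div_of_nonneg_right h14 (norm_nonneg _)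

end Mocanu
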