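import Mathlib
import Pool.Agent.Helper267_mocanu.Stmts

/-!
Task T1b: growth of `v` on the half plane and the value at `1/2`.
-/

set_option autoImplicit false

namespace Mocanu

open Complex Set Filter Topology MeasureTheory Metric

namespace T1baux

/-- `∫_0^1 (R + τ(1-R))^(-2) dτ = 1/R` -/
theorem int_sq (R : ℝ) (hR : 0 < R) :
    ∫ τ in (0:ℝ)..1, 1 / ((1 - τ) * R + τ) ^ 2 = 1 / R := by
  have hp : ∀ τ ∈ uIcc (0:ℝ) 1, 0 < (1 - τ) * R + τ := by
    intro τ hτ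
    rw [uIcc_of_le zero_le_one] at hτ
    rcases eq_or_lt_of_le hτ.1 with h | h
    · rw [← h]
      linarith
    · have : 0 ≤ (1 - τ) * R := mul_nonneg (by linarith [hτ.2]) hR.le
      linarith
  have hd : ∀ τ ∈ uIcc (0:ℝ) 1, HasDerivAt (fun τ : ℝ => τ / ((1 - τ) * R + τ) / R)
      (1 / ((1 - τ) * R + τ) ^ 2) τ := by
    intro τ hτ
    have h1 : HasDerivAt (fun τ : ℝ => (1 - τ) * R + τ) (-R + 1) τ := by
      refine ((((hasDerivAt_id τ).const_sub 1).mul_const R).add (hasDerivAt_id τ)).congr_deriv ?_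
      ring
    have h2 := ((hasDerivAt_id τ).div h1 (hp τ hτ).ne').div_const R
    refine h2.congr_deriv ?_
    have h3 := (hp τ hτ).ne'
    simp only [id]
    rw [div_div, div_eq_div_iff (by positivity) (by positivity)]
    ring
  rw [intervalIntegral.integral_eq_sub_of_hasDerivAt hd]
  · simp
  · refine ContinuousOn.intervalIntegrable ?_
    refine continuousOn_const.div (by fun_prop) ?_
    intro τ hτ
    have := hp τ hτ
    positivity

theorem cont_pow (b : ℝ) (hb : 1 < b) : Continuous (fun τ : ℝ => τ ^ (b - 1)) :=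
  Real.continuous_rpow_const (by linarith)

theorem growth (b : ℝ) (hb : 1 < b) : ∃ C : ℝ, ∀ W ∈ Pb, ‖W * vf b W‖ ≤ C := by
  refine ⟨b * (4 ^ b * 4 ^ b), fun W hW => ?_⟩
  have hre : 1 / 2 ≤ W.re := hW
  set R : ℝ := ‖W‖ with hR
  have hR1 : 1 / 2 ≤ R := hre.trans (Complex.re_le_norm W)
  have hR0 : 0 < R := by linarith
  have hpt : ∀ τ ∈ Ioc (0:ℝ) 1, ‖((τ ^ (b - 1) : ℝ) : ℂ) *
      ((1 - (τ : ℂ)) * W + (τ : ℂ)) ^ (((-(2 * b)) : ℝ) : ℂ)‖ ≤
      (4 ^ b * 4 ^ b) * (1 / ((1 - τ) * R + τ) ^ 2) := by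
    intro τ hτ
    have ht0 : 0 < τ := hτ.1
    have ht1 : 0 ≤ 1 - τ := by linarith [hτ.2]
    set y : ℝ := (1 - τ) * R + τ with hy
    have hy0 : 0 < y := by positivity
    have hyh : 1 / 2 ≤ y := by
      have : (1 - τ) * (1 / 2) ≤ (1 - τ) * R := mul_le_mul_of_nonneg_left hR1 ht1
      linarith
    set D : ℂ := (1 - (τ : ℂ)) * W + (τ : ℂ) with hD
    have hDn : y / 2 ≤ ‖D‖ := by
      have e1 : D.re = (1 - τ) * W.re + τ := by
        rw [hD]
        have : (1 - (τ : ℂ)) = ((1 - τ : ℝ) : ℂ) := by push_cast; ring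
        rw [this, add_re, Complex.re_ofReal_mul, Complex.ofReal_re]
      have e2 : D.im = (1 - τ) * W.im := by
        rw [hD]
        have : (1 - (τ : ℂ)) = ((1 - τ : ℝ) : ℂ) := by push_cast; ring
        rw [this, add_im, Complex.im_ofReal_mul, Complex.ofReal_im, add_zero]
      have h1 : ‖D‖ ^ 2 = D.re ^ 2 + D.im ^ 2 := by
        rw [← Complex.normSq_eq_norm_sq, Complex.normSq_apply]
        ring
      have h2 : R ^ 2 = W.re ^ 2 + W.im ^ 2 := by
        rw [hR, ← Complex.normSq_eq_norm_sq, Complex.normSq_apply]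
        ring
      have h3 : (y / 2) ^ 2 ≤ ‖D‖ ^ 2 := by
        rw [h1, e1, e2, hy]
        have h4 : 0 ≤ (1 - τ) * τ * W.re := by positivity
        have h5 : ((1 - τ) * W.re + τ) ^ 2 + ((1 - τ) * W.im) ^ 2 =
            (1 - τ) ^ 2 * R ^ 2 + 2 * ((1 - τ) * τ * W.re) + τ ^ 2 := by
          rw [h2]
          ring
        rw [h5]
        nlinarith [sq_nonneg ((1 - τ) * R - τ), sq_nonneg ((1 - τ) * R), sq_nonneg τ]
      exact le_of_sq_le_sq h3 (norm_nonneg _)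
    have hD0 : 0 < ‖D‖ := lt_of_lt_of_le (by positivity) hDn
    have hDne : D ≠ 0 := norm_pos_iff.1 hD0
    rw [norm_mul, Complex.norm_real, Real.norm_of_nonneg (Real.rpow_nonneg ht0.le _),
      Complex.norm_cpow_real]
    have h6 : τ ^ (b - 1) ≤ 1 := Real.rpow_le_one ht0.le hτ.2 (by linarith)
    have h7 : ‖D‖ ^ (-(2 * b)) ≤ (y / 2) ^ (-(2 * b)) :=
      Real.rpow_le_rpow_of_nonpos (by positivity) hDn (by linarith)
    have h8 : (y / 2) ^ (-(2 * b)) ≤ (4 ^ b * 4 ^ b) * (1 / y ^ 2) := by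
      have e1 : (y / 2) ^ (-(2 * b)) = 4 ^ b * y ^ (-(2 * b)) := by
        rw [Real.div_rpow hy0.le (by norm_num), Real.rpow_neg (by norm_num : (0:ℝ) ≤ 2), div_inv_eq_mul,
          mul_comm, Real.rpow_mul (by norm_num : (0:ℝ) ≤ 2)]
        norm_num
      have e2 : y ^ (-(2 * b)) = y ^ (-(2 * b - 2)) * (1 / y ^ 2) := by
        rw [one_div, ← Real.rpow_natCast y 2, ← Real.rpow_neg hy0.le, ← Real.rpow_add hy0]
        congr 1
        push_cast
        ring
      have e3 : y ^ (-(2 * b - 2)) ≤ 4 ^ b := by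
        have h9 : y ^ (-(2 * b - 2)) ≤ (1 / 2) ^ (-(2 * b - 2)) :=
          Real.rpow_le_rpow_of_nonpos (by norm_num) hyh (by linarith)
        have h10 : ((1:ℝ) / 2) ^ (-(2 * b - 2)) = 2 ^ (2 * b - 2) := by
          rw [one_div, Real.inv_rpow (by norm_num), Real.rpow_neg (by norm_num), inv_inv]
        have h11 : (2:ℝ) ^ (2 * b - 2) ≤ 2 ^ (2 * b) :=
          Real.rpow_le_rpow_of_exponent_le (by norm_num) (by linarith)
        have h12 : (2:ℝ) ^ (2 * b) = 4 ^ b := by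
          rw [Real.rpow_mul (by norm_num)]
          norm_num
        linarith
      rw [e1, e2]
      have h13 : (0:ℝ) < 4 ^ b := by positivity
      have h14 : 0 < 1 / y ^ 2 := by positivity
      calc 4 ^ b * (y ^ (-(2 * b - 2)) * (1 / y ^ 2)) ≤ 4 ^ b * (4 ^ b * (1 / y ^ 2)) := by
            gcongr
        _ = _ := by ring
    have h15 : 0 ≤ ‖D‖ ^ (-(2 * b)) := by positivity
    calc τ ^ (b - 1) * ‖D‖ ^ (-(2 * b)) ≤ 1 * ‖D‖ ^ (-(2 * b)) :=
          mul_le_mul_of_nonneg_right h6 h15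
      _ ≤ _ := by linarith
  have hcont : IntervalIntegrable (fun τ : ℝ => (4 ^ b * 4 ^ b) * (1 / ((1 - τ) * R + τ) ^ 2))
      volume 0 1 := by
    refine ContinuousOn.intervalIntegrable ?_
    refine continuousOn_const.mul (continuousOn_const.div (by fun_prop) ?_)
    intro τ hτ
    rw [uIcc_of_le zero_le_one] at hτ
    have : 0 < (1 - τ) * R + τ := by
      rcases eq_or_lt_of_le hτ.1 with h | h
      · rw [← h]
        linarith
      · have : 0 ≤ (1 - τ) * R := mul_nonneg (by linarith [hτ.2]) hR0.le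
        linarith
    positivity
  have hint := intervalIntegral.norm_integral_le_of_norm_le zero_le_one
    (Filter.Eventually.of_forall hpt) hcont
  rw [intervalIntegral.integral_const_mul, int_sq R hR0] at hint
  unfold vf
  rw [norm_mul, norm_mul, Complex.norm_real, Real.norm_of_nonneg (by linarith : (0:ℝ) ≤ b), ← hR]
  calc R * (b * ‖∫ τ in (0:ℝ)..1, ((τ ^ (b - 1) : ℝ) : ℂ) *
        ((1 - (τ : ℂ)) * W + (τ : ℂ)) ^ (((-(2 * b)) : ℝ) : ℂ)‖) ≤
        R * (b * ((4 ^ b * 4 ^ b) * (1 / R))) := by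
          gcongr
    _ = b * (4 ^ b * 4 ^ b) := by
          field_simp

theorem int_beta (b : ℝ) (hb : 1 < b) :
    ∫ τ in (0:ℝ)..1, 1 / (1 + τ) ^ 2 * b * (τ / (1 + τ)) ^ (b - 1) = (1 / 2) ^ b := by
  have hd : ∀ τ ∈ uIcc (0:ℝ) 1, HasDerivAt (fun τ : ℝ => (τ / (1 + τ)) ^ b)
      (1 / (1 + τ) ^ 2 * b * (τ / (1 + τ)) ^ (b - 1)) τ := by
    intro τ hτ
    rw [uIcc_of_le zero_le_one] at hτ
    have h0 : (1 + τ) ≠ 0 := by linarith [hτ.1]
    have h1 : HasDerivAt (fun τ : ℝ => 1 + τ) 1 τ := (hasDerivAt_id τ).const_add 1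
    have h2 : HasDerivAt (fun τ : ℝ => τ / (1 + τ)) (1 / (1 + τ) ^ 2) τ := by
      refine ((hasDerivAt_id τ).div h1 h0).congr_deriv ?_
      simp only [id]
      congr 1
      ring
    exact h2.rpow_const (Or.inr hb.le)
  rw [intervalIntegral.integral_eq_sub_of_hasDerivAt hd]
  · rw [zero_div, Real.zero_rpow (by linarith), sub_zero]
    norm_num
  · refine ContinuousOn.intervalIntegrable ?_
    have h0 : ∀ τ ∈ uIcc (0:ℝ) 1, (1 + τ) ≠ 0 := by
      intro τ hτ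
      rw [uIcc_of_le zero_le_one] at hτ
      linarith [hτ.1]
    refine ContinuousOn.mul (ContinuousOn.mul (continuousOn_const.div (by fun_prop) ?_)
      continuousOn_const) ?_
    · intro τ hτ
      exact pow_ne_zero 2 (h0 τ hτ)
    · refine ContinuousOn.rpow_const (continuousOn_id.div (by fun_prop) h0) ?_
      intro τ _
      exact Or.inr (by linarith)

/-- the real integral for `v(1/2)` -/
theorem half_eq (b : ℝ) :
    (vf b (1 / 2)).re = ∫ τ in (0:ℝ)..1, b * (τ ^ (b - 1) * ((1 + τ) / 2) ^ (-(2 * b))) := by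
  unfold vf
  rw [Complex.re_ofReal_mul, intervalIntegral.integral_const_mul]
  congr 1
  have h1 : ∫ τ in (0:ℝ)..1, ((τ ^ (b - 1) : ℝ) : ℂ) *
      ((1 - (τ : ℂ)) * (1 / 2) + (τ : ℂ)) ^ (((-(2 * b)) : ℝ) : ℂ) =
      ∫ τ in (0:ℝ)..1, ((τ ^ (b - 1) * ((1 + τ) / 2) ^ (-(2 * b)) : ℝ) : ℂ) := by
    refine intervalIntegral.integral_congr fun τ hτ => ?_
    rw [uIcc_of_le zero_le_one] at hτ
    have h2 : (1 - (τ : ℂ)) * (1 / 2) + (τ : ℂ) = (((1 + τ) / 2 : ℝ) : ℂ) := by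
      push_cast
      ring
    rw [h2, ← Complex.ofReal_cpow (by linarith [hτ.1])]
    push_cast
    rfl
  rw [h1, intervalIntegral.integral_ofReal, Complex.ofReal_re]

theorem key (b τ : ℝ) (hτ : τ ∈ Icc (0:ℝ) 1) :
    b * (τ ^ (b - 1) * ((1 + τ) / 2) ^ (-(2 * b))) =
      4 ^ b * ((1 / (1 + τ) ^ 2 * b * (τ / (1 + τ)) ^ (b - 1)) * (1 + τ) ^ (1 - b)) := by
  have h1 : 0 < 1 + τ := by linarith [hτ.1]
  rw [Real.div_rpow h1.le (by norm_num), Real.rpow_neg (by norm_num : (0:ℝ) ≤ 2), div_inv_eq_mul,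
    Real.rpow_mul (by norm_num : (0:ℝ) ≤ 2), Real.div_rpow hτ.1 h1.le]
  have h2 : (2:ℝ) ^ (2:ℝ) = 4 := by norm_num
  rw [h2]
  have h3 : (1 + τ) ^ (-(2 * b)) = 1 / (1 + τ) ^ 2 * (1 / (1 + τ) ^ (b - 1)) * (1 + τ) ^ (1 - b) := by
    rw [one_div, one_div, ← Real.rpow_natCast (1 + τ) 2, ← Real.rpow_neg h1.le,
      ← Real.rpow_neg h1.le, ← Real.rpow_add h1, ← Real.rpow_add h1]
    congr 1
    push_cast
    ring
  rw [h3]
  ring

end T1baux

open T1baux

theorem t1b : ∀ b : ℝ, 1 < b → (∃ C : ℝ, ∀ W ∈ Pb, ‖W * vf b W‖ ≤ C) ∧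
    2 ≤ (vf b (1 / 2)).re ∧ (vf b (1 / 2)).re ≤ (2:ℝ) ^ b := by
  intro b hb
  refine ⟨growth b hb, ?_, ?_⟩
  all_goals
    rw [half_eq b]
    have hc : ContinuousOn (fun τ : ℝ => 1 / (1 + τ) ^ 2 * b * (τ / (1 + τ)) ^ (b - 1))
        (Icc (0:ℝ) 1) := by
      have h0 : ∀ τ ∈ Icc (0:ℝ) 1, (1 + τ) ≠ 0 := fun τ hτ => by linarith [hτ.1]
      refine ContinuousOn.mul (ContinuousOn.mul (continuousOn_const.div (by fun_prop) ?_)
        continuousOn_const) ?_
      · intro τ hτ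
        exact pow_ne_zero 2 (h0 τ hτ)
      · refine ContinuousOn.rpow_const (continuousOn_id.div (by fun_prop) h0) ?_
        intro τ _
        exact Or.inr (by linarith)
    have hc2 : ContinuousOn (fun τ : ℝ => (1 + τ) ^ (1 - b)) (Icc (0:ℝ) 1) := by
      refine ContinuousOn.rpow_const (by fun_prop) ?_
      intro τ hτ
      exact Or.inl (by linarith [hτ.1])
    have hi : IntervalIntegrable (fun τ : ℝ => b * (τ ^ (b - 1) * ((1 + τ) / 2) ^ (-(2 * b))))
        volume 0 1 := by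
      refine ContinuousOn.intervalIntegrable ?_
      rw [uIcc_of_le zero_le_one]
      refine (continuousOn_const.mul (hc.mul hc2)).congr (f := fun τ : ℝ => 4 ^ b *
        ((1 / (1 + τ) ^ 2 * b * (τ / (1 + τ)) ^ (b - 1)) * (1 + τ) ^ (1 - b))) ?_
      intro τ hτ
      exact key b τ hτ
    have hnn : ∀ τ ∈ Icc (0:ℝ) 1, 0 ≤ 1 / (1 + τ) ^ 2 * b * (τ / (1 + τ)) ^ (b - 1) := by
      intro τ hτ
      have h1 : 0 ≤ τ := hτ.1
      positivity
  · have h1 : ∀ τ ∈ Icc (0:ℝ) 1, (4 ^ b * 2 ^ (1 - b)) * (1 / (1 + τ) ^ 2 * b * (τ / (1 + τ)) ^ (b - 1)) ≤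
        b * (τ ^ (b - 1) * ((1 + τ) / 2) ^ (-(2 * b))) := by
      intro τ hτ
      rw [key b τ hτ]
      have h2 : (2:ℝ) ^ (1 - b) ≤ (1 + τ) ^ (1 - b) :=
        Real.rpow_le_rpow_of_nonpos (by linarith [hτ.1]) (by linarith [hτ.2]) (by linarith)
      have h3 := mul_le_mul_of_nonneg_left h2 (hnn τ hτ)
      have h4 : (0:ℝ) < 4 ^ b := by positivity
      nlinarith
    have h5 := intervalIntegral.integral_mono_on zero_le_one
      ((ContinuousOn.intervalIntegrable (by rw [uIcc_of_le zero_le_one]; exact hc)).const_mul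
        (4 ^ b * 2 ^ (1 - b))) hi h1
    rw [intervalIntegral.integral_const_mul, int_beta b hb] at h5
    refine le_trans (le_of_eq ?_) h5
    rw [one_div, Real.inv_rpow (by norm_num), ← Real.rpow_neg (by norm_num),
      show (4:ℝ) = 2 ^ (2:ℝ) by norm_num, ← Real.rpow_mul (by norm_num),
      ← Real.rpow_add (by norm_num), ← Real.rpow_add (by norm_num)]
    rw [show 2 * b + (1 - b) + -b = 1 by ring, Real.rpow_one]
  · have h1 : ∀ τ ∈ Icc (0:ℝ) 1, b * (τ ^ (b - 1) * ((1 + τ) / 2) ^ (-(2 * b))) ≤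
        4 ^ b * (1 / (1 + τ) ^ 2 * b * (τ / (1 + τ)) ^ (b - 1)) := by
      intro τ hτ
      rw [key b τ hτ]
      have h2 : (1 + τ) ^ (1 - b) ≤ 1 :=
        Real.rpow_le_one_of_one_le_of_nonpos (by linarith [hτ.1]) (by linarith)
      have h3 := mul_le_mul_of_nonneg_left h2 (hnn τ hτ)
      rw [mul_one] at h3
      have h4 : (0:ℝ) < 4 ^ b := by positivity
      exact mul_le_mul_of_nonneg_left h3 h4.le
    have h5 := intervalIntegral.integral_mono_on zero_le_one hi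
      ((ContinuousOn.intervalIntegrable (by rw [uIcc_of_le zero_le_one]; exact hc)).const_mul
        (4 ^ b)) h1
    have h6 : ∫ τ in (0:ℝ)..1, 4 ^ b * (1 / (1 + τ) ^ 2 * b * (τ / (1 + τ)) ^ (b - 1)) =
        4 ^ b * (1 / 2) ^ b := by
      rw [intervalIntegral.integral_const_mul, int_beta b hb]
    rw [h6] at h5
    refine h5.trans (le_of_eq ?_)
    rw [← Real.mul_rpow (by norm_num) (by norm_num)]
    norm_num

end Mocanu
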