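import Pool.Agent.Helper267_mocanu.T1a
import Pool.Agent.Helper267_mocanu.T1b

/-!
Task T1: the basic properties of `v`, from T1a and T1b.
-/

set_option autoImplicit false

namespace Mocanu

theorem t1 : T1 := fun b hb =>
  { hb := hb
    diff := (t1a b hb).1
    one := (t1a b hb).2.1
    conj := (t1a b hb).2.2.1
    ode := (t1a b hb).2.2.2
    growth := (t1b b hb).1
    half_lo := (t1b b hb).2.1
    half_hi := (t1b b hb).2.2 }

end Mocanu
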