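import Pool.Agent.Helper267_mocanu.Stmts

/-!
# T17: the extremal function is the classical alpha-Koebe function near `0`
-/

set_option autoImplicit false

namespace Mocanu

open Complex Set Filter Topology MeasureTheory Metric

/-- `cpow` of a product of numbers of the right half plane -/
lemma t17_mul_cpow (x y c : ℂ) (hx : 0 < x.re) (hy : 0 < y.re) :
    (x * y) ^ c = x ^ c * y ^ c := by
  have hx0 : x ≠ 0 := by rintro rfl; simp at hx
  have hy0 : y ≠ 0 := by rintro rfl; simp at hy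
  have h1 : |arg x| < Real.pi / 2 := Complex.abs_arg_lt_pi_div_two_iff.2 (Or.inl hx)
  have h2 : |arg y| < Real.pi / 2 := Complex.abs_arg_lt_pi_div_two_iff.2 (Or.inl hy)
  rw [abs_lt] at h1 h2
  rw [cpow_def_of_ne_zero (mul_ne_zero hx0 hy0), cpow_def_of_ne_zero hx0,
    cpow_def_of_ne_zero hy0, Complex.log_mul hx0 hy0 ⟨by linarith, by linarith⟩, add_mul,
    Complex.exp_add]

/-- `v(1/(1-z)) = J(z) (1/(1-z))^(-2b)` -/
lemma t17_vf (b : ℝ) (z : ℂ) (hz : ‖z‖ < 1) :
    vf b (1 / (1 - z)) = ((b : ℂ) * ∫ τ in (0:ℝ)..1, ((τ ^ (b - 1) : ℝ) : ℂ) *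
      (1 - (τ : ℂ) * z) ^ (((-(2 * b)) : ℝ) : ℂ)) * (1 / (1 - z)) ^ (((-(2 * b)) : ℝ) : ℂ) := by
  have hre : z.re < 1 := lt_of_le_of_lt (Complex.re_le_norm z) hz
  have h1z : (1 - z) ≠ 0 := by
    intro h
    have : (1 - z).re = 0 := by rw [h]; simp
    simp at this
    linarith
  have hW : 0 < (1 / (1 - z)).re := by
    rw [one_div, Complex.inv_re]
    apply div_pos
    · simp; linarith
    · exact Complex.normSq_pos.2 h1z
  unfold vf
  rw [mul_assoc, ← intervalIntegral.integral_mul_const]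
  congr 1
  apply intervalIntegral.integral_congr
  intro τ hτ
  rw [uIcc_of_le (by norm_num : (0:ℝ) ≤ 1)] at hτ
  have h2 : 0 < (1 - (τ : ℂ) * z).re := by
    simp
    by_cases h0 : 0 ≤ z.re
    · nlinarith [hτ.1, hτ.2]
    · push Not at h0
      nlinarith [hτ.1, hτ.2]
  have h3 : (1 - (τ : ℂ)) * (1 / (1 - z)) + (τ : ℂ) = (1 - (τ : ℂ) * z) * (1 / (1 - z)) := by
    field_simp
    ring
  simp only
  rw [h3, t17_mul_cpow _ _ _ h2 hW, mul_assoc]

theorem t17 (b : ℝ) (hb : 1 < b) (h : VAll b (vf b)) :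
    (fun z : ℂ => z * kap b (vf b) (1 / (1 - z))) =ᶠ[𝓝 0]
    (fun z : ℂ => z * ((b : ℂ) * ∫ τ in (0:ℝ)..1, ((τ ^ (b - 1) : ℝ) : ℂ) *
      (1 - (τ : ℂ) * z) ^ (((-(2 * b)) : ℝ) : ℂ)) ^ (((1 / b : ℝ)) : ℂ)) := by
  have hW : ContinuousAt (fun z : ℂ => 1 / (1 - z)) 0 := by
    apply ContinuousAt.div
    · fun_prop
    · fun_prop
    · simp
  have hRH : IsOpen RH := isOpen_lt continuous_const Complex.continuous_re
  have h1 : (1:ℂ) ∈ RH := by simp [RH]
  have hv : ContinuousAt (vf b) 1 :=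
    ((h.base.diff 1 h1).differentiableAt (hRH.mem_nhds h1)).continuousAt
  have hvW : ContinuousAt (fun z : ℂ => vf b (1 / (1 - z))) 0 := by
    apply ContinuousAt.comp (g := vf b) (f := fun z : ℂ => 1 / (1 - z)) _ hW
    rw [sub_zero, div_one]
    exact hv
  have hL : ContinuousAt (fun z : ℂ => Complex.log (1 / (1 - z))) 0 := by
    apply ContinuousAt.clog hW
    simp
  have hM : ContinuousAt (fun z : ℂ => Complex.log (vf b (1 / (1 - z)))) 0 := by
    apply ContinuousAt.clog hvW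
    have : vf b (1 / (1 - (0:ℂ))) = 1 := by
      rw [sub_zero, div_one]; exact h.base.one
    rw [this]
    simp
  set δ : ℝ := 1 / (2 * b + 1) with hδ
  have hδ0 : 0 < δ := by positivity
  have e1 : ∀ᶠ z in 𝓝 (0:ℂ), ‖Complex.log (1 / (1 - z))‖ < δ := by
    have : Tendsto (fun z : ℂ => ‖Complex.log (1 / (1 - z))‖) (𝓝 0) (𝓝 0) := by
      have := hL.norm.tendsto
      simpa using this
    exact this.eventually (gt_mem_nhds hδ0)
  have e2 : ∀ᶠ z in 𝓝 (0:ℂ), ‖Complex.log (vf b (1 / (1 - z)))‖ < δ := by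
    have : Tendsto (fun z : ℂ => ‖Complex.log (vf b (1 / (1 - z)))‖) (𝓝 0) (𝓝 0) := by
      have := hM.norm.tendsto
      simpa [h.base.one] using this
    exact this.eventually (gt_mem_nhds hδ0)
  have e3 : ∀ᶠ z in 𝓝 (0:ℂ), vf b (1 / (1 - z)) ≠ 0 := by
    apply hvW.eventually_ne
    have : vf b (1 / (1 - (0:ℂ))) = 1 := by
      rw [sub_zero, div_one]; exact h.base.one
    rw [this]
    simp
  have e4 : ∀ᶠ z in 𝓝 (0:ℂ), ‖z‖ < 1 := by
    have : Tendsto (fun z : ℂ => ‖z‖) (𝓝 0) (𝓝 0) := by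
      have := (continuous_norm (E := ℂ)).tendsto 0
      simpa using this
    exact this.eventually (gt_mem_nhds one_pos)
  filter_upwards [e1, e2, e3, e4] with z hz1 hz2 hz3 hz4
  congr 1
  have h1z : (1 - z) ≠ 0 := by
    intro h
    have h2 : z = 1 := by linear_combination -h
    rw [h2] at hz4
    simp at hz4
  set J : ℂ := (b : ℂ) * ∫ τ in (0:ℝ)..1, ((τ ^ (b - 1) : ℝ) : ℂ) *
      (1 - (τ : ℂ) * z) ^ (((-(2 * b)) : ℝ) : ℂ) with hJ
  have hvJ := t17_vf b z hz4
  rw [← hJ] at hvJ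
  set W : ℂ := 1 / (1 - z) with hWdef
  have hW0 : W ≠ 0 := by rw [hWdef]; exact one_div_ne_zero h1z
  set L : ℂ := Complex.log W with hLdef
  set M : ℂ := Complex.log (vf b W) with hMdef
  have eW : W = Complex.exp L := (Complex.exp_log hW0).symm
  have eV : vf b W = Complex.exp M := (Complex.exp_log hz3).symm
  have eJ : J = Complex.exp (2 * b * L + M) := by
    have h5 : W ^ (((-(2 * b)) : ℝ) : ℂ) = Complex.exp (-(2 * b * L)) := by
      rw [cpow_def_of_ne_zero hW0]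
      congr 1
      push_cast
      ring
    rw [h5, eV] at hvJ
    rw [Complex.exp_add, hvJ, mul_left_comm, ← Complex.exp_add, add_neg_cancel, Complex.exp_zero,
      mul_one]
  have bim : ∀ x : ℂ, |x.im| ≤ ‖x‖ := Complex.abs_im_le_norm
  have hpi : (1:ℝ) < Real.pi := by linarith [Real.pi_gt_three]
  have hsmall : ∀ c : ℝ, 0 ≤ c → c ≤ 2 * b → ‖(c : ℂ) * L + M‖ < 1 := by
    intro c hc0 hc
    calc ‖(c : ℂ) * L + M‖ ≤ ‖(c : ℂ) * L‖ + ‖M‖ := norm_add_le _ _
      _ = c * ‖L‖ + ‖M‖ := by rw [norm_mul, Complex.norm_real, Real.norm_eq_abs, abs_of_nonneg hc0]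
      _ < 2 * b * δ + δ := by nlinarith [norm_nonneg L]
      _ = 1 := by rw [hδ]; field_simp
  have lWv : Complex.log (W * vf b W) = L + M := by
    rw [eV]
    nth_rewrite 1 [eW]
    rw [← Complex.exp_add]
    have := hsmall 1 zero_le_one (by linarith)
    rw [ofReal_one, one_mul] at this
    have h6 := (bim (L + M)).trans_lt this
    rw [abs_lt] at h6
    exact Complex.log_exp (by linarith) (by linarith)
  have lJ : Complex.log J = 2 * b * L + M := by
    rw [eJ]
    have := hsmall (2 * b) (by linarith) le_rfl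
    push_cast at this
    have h6 := (bim (2 * b * L + M)).trans_lt this
    rw [abs_lt] at h6
    exact Complex.log_exp (by linarith) (by linarith)
  have hJ0 : J ≠ 0 := by rw [eJ]; exact Complex.exp_ne_zero _
  have hb0 : (b : ℂ) ≠ 0 := by
    rw [Ne, ofReal_eq_zero]; linarith
  unfold kap
  rw [cpow_def_of_ne_zero hW0, cpow_def_of_ne_zero (mul_ne_zero hW0 hz3),
    cpow_def_of_ne_zero hJ0, lWv, lJ, ← hLdef, ← Complex.exp_add]
  congr 1
  push_cast
  field_simp
  ring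

end Mocanu
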