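import Pool.Agent.Helper267_mocanu.Stmts

/-!
# Task T1a: differentiability, value at `1`, symmetry and differential equation of `v`
-/

set_option autoImplicit false

namespace Mocanu

open Complex Set Filter Topology MeasureTheory Metric

namespace T1aAux

/-- `D = (1-τ)W+τ` -/
noncomputable def DD (W : ℂ) (τ : ℝ) : ℂ := (1 - (τ : ℂ)) * W + (τ : ℂ)

theorem DD_re (W : ℂ) (τ : ℝ) : (DD W τ).re = (1 - τ) * W.re + τ := by
  simp [DD]

theorem DD_lower {W : ℂ} {τ m : ℝ} (h0 : 0 ≤ τ) (h1 : τ ≤ 1) (hm : m ≤ 1) (hW : m ≤ W.re) :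
    m ≤ (DD W τ).re := by
  rw [DD_re]; nlinarith

theorem DD_pos {W : ℂ} {τ : ℝ} (h0 : 0 ≤ τ) (h1 : τ ≤ 1) (hW : 0 < W.re) : 0 < (DD W τ).re := by
  rw [DD_re]
  rcases eq_or_lt_of_le h1 with h | h
  · subst h; norm_num
  · have : 0 < (1 - τ) * W.re := mul_pos (by linarith) hW
    linarith

theorem DD_slit {W : ℂ} {τ : ℝ} (h0 : 0 ≤ τ) (h1 : τ ≤ 1) (hW : 0 < W.re) :
    DD W τ ∈ slitPlane := Or.inl (DD_pos h0 h1 hW)

theorem DD_ne {W : ℂ} {τ : ℝ} (h0 : 0 ≤ τ) (h1 : τ ≤ 1) (hW : 0 < W.re) :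
    DD W τ ≠ 0 := slitPlane_ne_zero (DD_slit h0 h1 hW)

theorem DD_cont (W : ℂ) : Continuous (DD W) := by
  unfold DD; fun_prop

theorem cpow_cont {W : ℂ} (hW : 0 < W.re) (s : ℂ) :
    ContinuousOn (fun τ : ℝ => DD W τ ^ s) (Icc 0 1) := by
  apply ContinuousOn.cpow_const (DD_cont W).continuousOn
  intro τ hτ
  exact DD_slit hτ.1 hτ.2 hW

theorem int_cont {b : ℝ} (hb : 1 < b) {W : ℂ} (hW : 0 < W.re) (s : ℂ) :
    ContinuousOn (fun τ : ℝ => ((τ ^ (b - 1) : ℝ) : ℂ) * DD W τ ^ s) (Icc 0 1) := by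
  apply ContinuousOn.mul _ (cpow_cont hW s)
  exact (continuous_ofReal.comp (Real.continuous_rpow_const (by linarith))).continuousOn

theorem hasDerivAt_W {W : ℂ} {τ : ℝ} (h0 : 0 ≤ τ) (h1 : τ ≤ 1) (hW : 0 < W.re) (s : ℂ) :
    HasDerivAt (fun W => DD W τ ^ s) (s * DD W τ ^ (s - 1) * (1 - (τ : ℂ))) W := by
  have h : HasDerivAt (fun W => DD W τ) (1 - (τ : ℂ)) W := by
    unfold DD
    simpa using ((hasDerivAt_id W).const_mul (1 - (τ : ℂ))).add_const (τ : ℂ)
  exact h.cpow_const (DD_slit h0 h1 hW)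

theorem hasDerivAt_vf {b : ℝ} (hb : 1 < b) {W : ℂ} (hW : 0 < W.re) :
    HasDerivAt (vf b) ((b : ℂ) * ∫ τ in (0:ℝ)..1, ((τ ^ (b - 1) : ℝ) : ℂ) *
      ((((-(2 * b)) : ℝ) : ℂ) * DD W τ ^ ((((-(2 * b)) : ℝ) : ℂ) - 1) * (1 - (τ : ℂ)))) W := by
  set m : ℝ := min (W.re / 2) 1 with hm
  have hm0 : 0 < m := lt_min (by linarith) one_pos
  have hm1 : m ≤ 1 := min_le_right _ _
  have hball : ∀ x ∈ ball W (W.re / 2), m ≤ x.re := by
    intro x hx
    rw [mem_ball, dist_eq_norm] at hx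
    have h1 := abs_re_le_norm (x - W)
    have h2 : |x.re - W.re| < W.re / 2 := by
      rw [← sub_re]; exact lt_of_le_of_lt h1 hx
    have h3 := (abs_lt.mp h2).1
    exact (min_le_left _ _).trans (by linarith)
  have key := intervalIntegral.hasDerivAt_integral_of_dominated_loc_of_deriv_le
    (μ := volume) (a := 0) (b := 1) (s := ball W (W.re / 2))
    (F := fun (W : ℂ) (τ : ℝ) => ((τ ^ (b - 1) : ℝ) : ℂ) * DD W τ ^ (((-(2 * b)) : ℝ) : ℂ))
    (F' := fun (W : ℂ) (τ : ℝ) => ((τ ^ (b - 1) : ℝ) : ℂ) *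
      ((((-(2 * b)) : ℝ) : ℂ) * DD W τ ^ ((((-(2 * b)) : ℝ) : ℂ) - 1) * (1 - (τ : ℂ))))
    (bound := fun _ => 2 * b * m ^ (-(2 * b) - 1)) (x₀ := W)
    (ball_mem_nhds W (by linarith)) ?_ ?_ ?_ ?_ ?_ ?_
  · exact (key.2.const_mul (b : ℂ))
  · filter_upwards [ball_mem_nhds W (show 0 < W.re / 2 by linarith)] with x hx
    have hx0 : 0 < x.re := lt_of_lt_of_le hm0 (hball x hx)
    rw [uIoc_of_le zero_le_one]
    exact ((int_cont hb hx0 _).mono Ioc_subset_Icc_self).aestronglyMeasurable measurableSet_Ioc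
  · rw [intervalIntegrable_iff_integrableOn_Icc_of_le zero_le_one]
    exact (int_cont hb hW _).integrableOn_Icc
  · rw [uIoc_of_le zero_le_one]
    apply ContinuousOn.aestronglyMeasurable _ measurableSet_Ioc
    apply ContinuousOn.mono _ Ioc_subset_Icc_self
    apply ContinuousOn.mul
    · exact (continuous_ofReal.comp (Real.continuous_rpow_const (by linarith))).continuousOn
    · apply ContinuousOn.mul
      · exact continuousOn_const.mul (cpow_cont hW _)
      · exact (continuous_const.sub continuous_ofReal).continuousOn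
  · refine Eventually.of_forall fun τ hτ x hx => ?_
    rw [uIoc_of_le zero_le_one] at hτ
    have hx0 : m ≤ x.re := hball x hx
    have hD : m ≤ ‖DD x τ‖ := (DD_lower hτ.1.le hτ.2 hm1 hx0).trans (re_le_norm _)
    have e1 : ((((-(2 * b)) : ℝ) : ℂ) - 1) = (((-(2 * b) - 1 : ℝ)) : ℂ) := by push_cast; ring
    rw [norm_mul, norm_mul, norm_mul, e1, norm_cpow_real]
    have e2 : ‖((τ ^ (b - 1) : ℝ) : ℂ)‖ ≤ 1 := by
      rw [norm_real, Real.norm_eq_abs, abs_of_nonneg (Real.rpow_nonneg hτ.1.le _)]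
      exact Real.rpow_le_one hτ.1.le hτ.2 (by linarith)
    have e3 : ‖(((-(2 * b)) : ℝ) : ℂ)‖ = 2 * b := by
      rw [norm_real, Real.norm_eq_abs, abs_neg, abs_of_pos (by linarith)]
    have e4 : ‖DD x τ‖ ^ (-(2 * b) - 1) ≤ m ^ (-(2 * b) - 1) :=
      Real.rpow_le_rpow_of_nonpos hm0 hD (by linarith)
    have e5 : ‖(1 - (τ : ℂ))‖ ≤ 1 := by
      have : (1 - (τ : ℂ)) = ((1 - τ : ℝ) : ℂ) := by push_cast; ring
      rw [this, norm_real, Real.norm_eq_abs, abs_of_nonneg (by linarith [hτ.2])]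
      linarith [hτ.1]
    rw [e3]
    have h4 : 0 ≤ ‖DD x τ‖ ^ (-(2 * b) - 1) := Real.rpow_nonneg (norm_nonneg _) _
    calc ‖((τ ^ (b - 1) : ℝ) : ℂ)‖ * (2 * b * ‖DD x τ‖ ^ (-(2 * b) - 1) * ‖(1 - (τ : ℂ))‖)
        ≤ 1 * (2 * b * m ^ (-(2 * b) - 1) * 1) := by gcongr
      _ = 2 * b * m ^ (-(2 * b) - 1) := by ring
  · exact intervalIntegrable_const
  · refine Eventually.of_forall fun τ hτ x hx => ?_
    rw [uIoc_of_le zero_le_one] at hτ
    have hx0 : 0 < x.re := lt_of_lt_of_le hm0 (hball x hx)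
    exact (hasDerivAt_W hτ.1.le hτ.2 hx0 _).const_mul _

end T1aAux

open T1aAux

theorem t1a : ∀ b : ℝ, 1 < b → DifferentiableOn ℂ (vf b) RH ∧ vf b 1 = 1 ∧
    (∀ W ∈ RH, vf b ((starRingEnd ℂ) W) = (starRingEnd ℂ) (vf b W)) ∧
    (∀ W ∈ RH, W * (W - 1) * deriv (vf b) W + b * (2 * W - 1) * vf b W = b) := by
  intro b hb
  refine ⟨fun W hW => (hasDerivAt_vf hb hW).differentiableAt.differentiableWithinAt, ?_, ?_, ?_⟩
  · -- value at 1
    unfold vf
    have e1 : (∫ τ in (0:ℝ)..1, ((τ ^ (b - 1) : ℝ) : ℂ) *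
        ((1 - (τ : ℂ)) * 1 + (τ : ℂ)) ^ (((-(2 * b)) : ℝ) : ℂ)) =
        ∫ τ in (0:ℝ)..1, ((τ ^ (b - 1) : ℝ) : ℂ) := by
      apply intervalIntegral.integral_congr
      intro τ _
      simp only
      rw [show (1 - (τ : ℂ)) * 1 + (τ : ℂ) = 1 by ring, one_cpow, mul_one]
    rw [e1, intervalIntegral.integral_ofReal, integral_rpow (Or.inl (by linarith))]
    have hb0 : (b : ℂ) ≠ 0 := by
      exact_mod_cast (by linarith : b ≠ 0)
    rw [sub_add_cancel, Real.one_rpow, Real.zero_rpow (by linarith)]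
    push_cast
    field_simp
    ring
  · -- symmetry
    intro W hW
    have hW' : 0 < W.re := hW
    unfold vf
    rw [map_mul, conj_ofReal]
    congr 1
    rw [intervalIntegral.integral_of_le zero_le_one, intervalIntegral.integral_of_le zero_le_one,
      ← integral_conj]
    apply setIntegral_congr_fun measurableSet_Ioc
    intro τ hτ
    simp only
    rw [map_mul, conj_ofReal]
    congr 1
    have hs := DD_slit hτ.1.le hτ.2 hW'
    have harg : (DD W τ).arg ≠ Real.pi := (mem_slitPlane_iff_arg.mp hs).1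
    have h1 := conj_cpow (DD W τ) (((-(2 * b)) : ℝ) : ℂ) harg
    rw [conj_ofReal] at h1
    have h2 : (starRingEnd ℂ) (DD W τ) =
        (1 - (τ : ℂ)) * (starRingEnd ℂ) W + (τ : ℂ) := by
      unfold DD
      simp
    rw [h2] at h1
    exact h1
  · -- differential equation
    intro W hW
    have hW' : 0 < W.re := hW
    rw [(hasDerivAt_vf hb hW').deriv]
    have hv : vf b W = (b : ℂ) * ∫ τ in (0:ℝ)..1,
        ((τ ^ (b - 1) : ℝ) : ℂ) * DD W τ ^ (((-(2 * b)) : ℝ) : ℂ) := rfl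
    rw [hv]
    have hb0 : (b : ℂ) ≠ 0 := by
      exact_mod_cast (by linarith : b ≠ 0)
    -- the fundamental theorem
    have hder : ∀ τ ∈ uIcc (0:ℝ) 1, HasDerivAt
        (fun τ : ℝ => ((τ ^ b : ℝ) : ℂ) * DD W τ ^ (((-(2 * b)) : ℝ) : ℂ))
        ((((b * τ ^ (b - 1) : ℝ)) : ℂ) * DD W τ ^ (((-(2 * b)) : ℝ) : ℂ) +
          ((τ ^ b : ℝ) : ℂ) * ((((-(2 * b)) : ℝ) : ℂ) *
            DD W τ ^ ((((-(2 * b)) : ℝ) : ℂ) - 1) * (1 - W))) τ := by
      intro τ hτ
      rw [uIcc_of_le zero_le_one] at hτ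
      have h1 : HasDerivAt (fun τ : ℝ => ((τ ^ b : ℝ) : ℂ)) (((b * τ ^ (b - 1) : ℝ)) : ℂ) τ :=
        (Real.hasDerivAt_rpow_const (Or.inr hb.le)).ofReal_comp
      have h2 : HasDerivAt (DD W) (1 - W) τ := by
        have h3 : HasDerivAt (fun τ : ℝ => (τ : ℂ)) 1 τ := by
          simpa using (hasDerivAt_id τ).ofReal_comp
        have h4 : HasDerivAt (fun τ : ℝ => (1 - (τ : ℂ)) * W + (τ : ℂ)) (-1 * W + 1) τ :=
          ((h3.const_sub 1).mul_const W).add h3
        have h5 : (1 - W : ℂ) = -1 * W + 1 := by ring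
        rw [h5]
        exact h4
      have h5 := HasDerivAt.comp τ
        (h₂ := fun z : ℂ => z ^ (((-(2 * b)) : ℝ) : ℂ)) (h := DD W)
        ((hasDerivAt_id (DD W τ)).cpow_const (c := (((-(2 * b)) : ℝ) : ℂ))
          (DD_slit hτ.1 hτ.2 hW')) h2
      have h6 := h1.mul h5
      refine HasDerivAt.congr_deriv (f := fun τ : ℝ => ((τ ^ b : ℝ) : ℂ) * DD W τ ^ (((-(2 * b)) : ℝ) : ℂ)) h6 ?_
      simp only [id, Function.comp, mul_one]
    have hFTC := intervalIntegral.integral_eq_sub_of_hasDerivAt hder (by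
      rw [intervalIntegrable_iff_integrableOn_Icc_of_le zero_le_one]
      apply ContinuousOn.integrableOn_Icc
      apply ContinuousOn.add
      · apply ContinuousOn.mul _ (cpow_cont hW' _)
        exact (continuous_ofReal.comp (continuous_const.mul
          (Real.continuous_rpow_const (by linarith)))).continuousOn
      · apply ContinuousOn.mul
        · exact (continuous_ofReal.comp (Real.continuous_rpow_const (by linarith))).continuousOn
        · exact (continuousOn_const.mul (cpow_cont hW' _)).mul continuousOn_const)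
    have hend : ((((1:ℝ) ^ b : ℝ) : ℂ) * DD W 1 ^ (((-(2 * b)) : ℝ) : ℂ) -
        (((0:ℝ) ^ b : ℝ) : ℂ) * DD W 0 ^ (((-(2 * b)) : ℝ) : ℂ)) = 1 := by
      have : DD W 1 = 1 := by simp [DD]
      rw [this, one_cpow, Real.one_rpow, Real.zero_rpow (by linarith)]
      simp
    rw [hend] at hFTC
    -- combine the two integrals
    have hi1 : IntervalIntegrable (fun τ : ℝ => ((τ ^ (b - 1) : ℝ) : ℂ) *
        ((((-(2 * b)) : ℝ) : ℂ) * DD W τ ^ ((((-(2 * b)) : ℝ) : ℂ) - 1) * (1 - (τ : ℂ))))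
        volume 0 1 := by
      rw [intervalIntegrable_iff_integrableOn_Icc_of_le zero_le_one]
      apply ContinuousOn.integrableOn_Icc
      apply ContinuousOn.mul
      · exact (continuous_ofReal.comp (Real.continuous_rpow_const (by linarith))).continuousOn
      · apply ContinuousOn.mul
        · exact continuousOn_const.mul (cpow_cont hW' _)
        · exact (continuous_const.sub continuous_ofReal).continuousOn
    have hi2 : IntervalIntegrable (fun τ : ℝ => ((τ ^ (b - 1) : ℝ) : ℂ) *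
        DD W τ ^ (((-(2 * b)) : ℝ) : ℂ)) volume 0 1 := by
      rw [intervalIntegrable_iff_integrableOn_Icc_of_le zero_le_one]
      exact (int_cont hb hW' _).integrableOn_Icc
    have hsum : W * (W - 1) * (∫ τ in (0:ℝ)..1, ((τ ^ (b - 1) : ℝ) : ℂ) *
        ((((-(2 * b)) : ℝ) : ℂ) * DD W τ ^ ((((-(2 * b)) : ℝ) : ℂ) - 1) * (1 - (τ : ℂ)))) +
        b * (2 * W - 1) * (∫ τ in (0:ℝ)..1, ((τ ^ (b - 1) : ℝ) : ℂ) *
        DD W τ ^ (((-(2 * b)) : ℝ) : ℂ)) = 1 := by
      refine Eq.trans ?_ hFTC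
      rw [← intervalIntegral.integral_const_mul, ← intervalIntegral.integral_const_mul,
        ← intervalIntegral.integral_add (hi1.const_mul _) (hi2.const_mul _)]
      apply intervalIntegral.integral_congr
      intro τ hτ
      rw [uIcc_of_le zero_le_one] at hτ
      have hD : DD W τ ≠ 0 := DD_ne hτ.1 hτ.2 hW'
      have e1 : DD W τ ^ (((-(2 * b)) : ℝ) : ℂ) =
          DD W τ ^ ((((-(2 * b)) : ℝ) : ℂ) - 1) * DD W τ := by
        have := cpow_add (((((-(2 * b)) : ℝ) : ℂ) - 1)) 1 hD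
        rw [sub_add_cancel, cpow_one] at this
        exact this
      have e2 : ((τ ^ b : ℝ) : ℂ) = ((τ ^ (b - 1) : ℝ) : ℂ) * (τ : ℂ) := by
        rcases eq_or_lt_of_le hτ.1 with h | h
        · rw [← h, Real.zero_rpow (by linarith)]; simp
        · rw [← ofReal_mul, ← Real.rpow_add_one h.ne', sub_add_cancel]
      simp only
      rw [e1, e2]
      have e3 : DD W τ = (1 - (τ : ℂ)) * W + (τ : ℂ) := rfl
      generalize DD W τ ^ ((((-(2 * b)) : ℝ) : ℂ) - 1) = P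
      rw [e3]
      push_cast
      ring
    linear_combination (b : ℂ) * hsum

end Mocanu
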