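import Pool.Agent.Helper267_mocanu.Stmts

set_option autoImplicit false

noncomputable section

namespace Mocanu

open Complex

/-- the complex identity -/
lemma t6d_ident (al X Y t g w y n k Th S Z e R1 V1 : ℝ) (b : ℝ) (hb : b * al = 1) (hal : al ≠ 0)
    (hY : 0 < Y) (hX : X ≤ 1/2)
    (hn : n = (1 - X) ^ 2 + Y ^ 2) (hg : (1 + g) * n = (1 - X) + t * Y)
    (hw : w = g * (1 - X) - X) (hy : y = Y ^ 2) (hk : k = (1 - al) * (1 - al / 2))
    (hTh : Th = (1 + g) ^ 2 * y + w ^ 2) (hS : S = (1 - g) * y - (1 - X) * w)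
    (hZ : Z = g * n - X * (1 - 2 * X)) (he : e = X + al * (1 - X))
    (hR1 : R1 = 2 * g * (g * y - X * w) + (g - (1 - al) * X) * S - (al / 2) * Th)
    (hV1 : V1 = (k * al / 2) * n * Th - Z * ((1 - al) * y - w) - X * S * (g + e))
    (q G : ℂ) (hq : q = X + Y * I)
    (hG : G = QT b q t * ((b - 1) - b * ((1 - t * I) / (1 - q)) / (1 - q)) + b / (1 - q)
      - (b - 1) * (2 - 1 / b) / 2) :
    (((al ^ 2 / 2) * y * (1 + t ^ 2) : ℝ) : ℂ) * G = -(V1 : ℂ) - ((1 - X : ℝ) + Y * I) * (R1 : ℂ) := by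
  have hnpos : 0 < n := by rw [hn]; positivity
  have hbne : b ≠ 0 := by intro h; rw [h, zero_mul] at hb; exact zero_ne_one hb
  have hbe : b = 1 / al := by field_simp; linarith
  set P : ℂ := 1 - q with hP
  have hPe : P = (1 - X : ℝ) - Y * I := by rw [hP, hq]; push_cast; ring
  have hPne : P ≠ 0 := by
    intro h
    have := congrArg Complex.im h
    rw [hPe] at this
    simp at this
    exact hY.ne' this
  have hPc : P * ((1 - X : ℝ) + Y * I) = (n : ℂ) := by
    rw [hPe, hn]; push_cast; ring_nf; rw [I_sq]; ring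
  -- tau = Y * sigma
  have hYc : (Y : ℂ) ≠ 0 := by exact_mod_cast hY.ne'
  have htau : (Y : ℂ) * (1 - t * I) = ((1 + g) * Y - w * I) * P := by
    rw [hPe, hw]
    apply Complex.ext
    · simp
      ring
    · simp
      have h1 : t * Y = (1 + g) * n - (1 - X) := by linarith
      have h2 : Y * t = (1 + g) * n - (1 - X) := by linarith
      rw [h2, hn]; ring
  set σ : ℂ := ((1 + g) * Y - w * I) / Y with hσ
  have hYσ : (Y : ℂ) * σ = (1 + g) * Y - w * I := by rw [hσ]; field_simp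
  have h1 : (1 : ℂ) - t * I = σ * P := by
    have : (Y : ℂ) * (1 - t * I) = Y * (σ * P) := by
      rw [htau, ← mul_assoc, hYσ]
    exact mul_left_cancel₀ hYc this
  have h2 : q - t * I = P * (σ - 1) := by
    have : q - t * I = (1 - t * I) - P := by rw [hP]; ring
    rw [this, h1]; ring
  have ht2 : (1 + (t : ℂ) ^ 2) ≠ 0 := by
    have : (0:ℝ) < 1 + t ^ 2 := by positivity
    exact_mod_cast this.ne'
  have hThn : y * (1 + t ^ 2) = n * Th := by
    have h3 : t * Y = (1 + g) * n - (1 - X) := by linarith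
    have h4 : y * (1 + t ^ 2) = Y ^ 2 + (t * Y) ^ 2 := by rw [hy]; ring
    rw [h4, h3, hTh, hy, hw, hn]; ring
  have hThnc : (y : ℂ) * (1 + (t:ℂ) ^ 2) = n * Th := by exact_mod_cast hThn
  have hGe : (1 + (t : ℂ) ^ 2) * G = 2 * b * q * (σ - 1) * ((b - 1) * P - b * σ) +
      (1 + (t : ℂ) ^ 2) * (b / P - (b - 1) * (2 - 1 / b) / 2) := by
    rw [hG, QT, h1, h2]
    have hbc : (b : ℂ) ≠ 0 := by exact_mod_cast hbne
    field_simp
    ring
  have hbc : (b : ℂ) * al = 1 := by exact_mod_cast hb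
  have halc : (al : ℂ) ≠ 0 := by exact_mod_cast hal
  have hbc' : (b : ℂ) = 1 / al := by field_simp; linear_combination hbc
  have hb1 : (n : ℂ) / P = (1 - X : ℝ) + Y * I := by
    rw [← hPc]; field_simp
  have key : (((al ^ 2 / 2) * y * (1 + t ^ 2) : ℝ) : ℂ) * G =
      q * ((Y : ℂ) * σ - Y) * ((1 - al) * P * Y - (Y : ℂ) * σ) +
      (al / 2) * Th * ((1 - X : ℝ) + Y * I) - (k * al / 2) * (n * Th) := by
    have e1 : (((al ^ 2 / 2) * y * (1 + t ^ 2) : ℝ) : ℂ) * G =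
        (al ^ 2 / 2) * y * ((1 + (t : ℂ) ^ 2) * G) := by push_cast; ring
    rw [e1, hGe]
    have e2 : (al : ℂ) ^ 2 / 2 * y * (2 * b * q * (σ - 1) * ((b - 1) * P - b * σ) +
      (1 + (t : ℂ) ^ 2) * (b / P - (b - 1) * (2 - 1 / b) / 2)) =
      al ^ 2 * y * b * q * (σ - 1) * ((b - 1) * P - b * σ) +
      (al ^ 2 / 2) * (y * (1 + (t : ℂ) ^ 2)) * (b / P - (b - 1) * (2 - 1 / b) / 2) := by ring
    rw [e2, hThnc, ← hb1, hbc', hk, hy]
    push_cast
    field_simp
    ring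
  rw [key, hYσ, hPe, hq, hV1, hR1, hTh, hS, hZ, he, hk, hn, hw, hy]
  apply Complex.ext
  · simp [pow_two]
    ring
  · simp [pow_two]
    ring

lemma t6d_R1 (al X g w y k Th S n Z e A : ℝ) (hA : A = 1 - X) (hn : n = A ^ 2 + y)
    (hw : w = g * A - X) (hk : k = (1 - al) * (1 - al / 2))
    (hTh : Th = (1 + g) ^ 2 * y + w ^ 2) (hS : S = (1 - g) * y - A * w)
    (hZ : Z = g * n - X * (1 - 2 * X)) (he : e = X + al * A) :
    2 * g * (g * y - X * w) + (g - (1 - al) * X) * S - (al / 2) * Th =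
      y * (g ^ 2 * (1 - al / 2) + g * (1 - al) * (1 + X) - (1 - al) * X - al / 2) -
      w * (g * (1 + X + al * A / 2) - X * ((1 - al) * A + al / 2)) ∧
    (k * al / 2) * n * Th - Z * ((1 - al) * y - w) - X * S * (g + e) =
      ((1 - al) * ((1 - al / 2) * (al / 2) * (1 + g) ^ 2 - g)) * y ^ 2 +
      ((k * al / 2) * (A ^ 2 * (1 + g) ^ 2 + w ^ 2) - (1 - al) * (g * A ^ 2 - X * (1 - 2 * X)) +
        g * w - X * (g + e) * (1 - g)) * y +
      w * ((1 + k * al * A ^ 2 / 2) * w + X * (2 * X + A * e)) := by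
  subst hTh hS hZ he hk hn hw hA
  constructor <;> ring

end Mocanu
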