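import Pool.Agent.Helper267_mocanu.T5

set_option autoImplicit false

/-! Shared lemmas for T8c and T8d: values and derivatives on the line, behaviour at infinity. -/

namespace Mocanu

open Complex Set Filter Topology MeasureTheory Metric

lemma t8_bp_conj (t : ℝ) : bp (-t) = (starRingEnd ℂ) (bp t) := by
  apply Complex.ext
  · rw [Complex.conj_re, t5_bp_re, t5_bp_re]
  · rw [Complex.conj_im, t5_bp_im, t5_bp_im]; ring

lemma t8_bp_RH (t : ℝ) : bp t ∈ RH := t5_Pb_sub_RH (t5_bp_mem t)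

lemma t8_bp_ne0 (t : ℝ) : bp t ≠ 0 := by
  intro h
  have := t5_bp_re t
  rw [h] at this
  norm_num at this

section
variable {b : ℝ} {v : ℂ → ℂ}

lemma t8_v_conj (hV : VBase b v) (t : ℝ) : v (bp (-t)) = (starRingEnd ℂ) (v (bp t)) := by
  rw [t8_bp_conj, hV.conj _ (t8_bp_RH t)]

lemma t8_Q_conj (hV : VBase b v) (t : ℝ) :
    (v (bp (-t)))⁻¹ = (starRingEnd ℂ) ((v (bp t))⁻¹) := by
  rw [t8_v_conj hV, map_inv₀]

/-- formula for `sf` -/
lemma t8_sf_eq (hV : VBase b v) {W : ℂ} (hW1 : W ≠ 1) (hW0 : W ≠ 0) (hv : v W ≠ 0) :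
    sf v W = (W - 1) / ((v W)⁻¹ - 1) := by
  have hne : W - 1 ≠ 0 := sub_ne_zero.mpr hW1
  simp only [sf]
  rw [t5_psi_eq hV.one W hW1]
  by_cases h1 : v W = 1
  · simp [h1]
  · have h2 : (1 - v W) ≠ 0 := sub_ne_zero.mpr (Ne.symm h1)
    have h3 : (v W)⁻¹ - 1 ≠ 0 := by
      intro h
      apply h2
      have : (v W)⁻¹ = 1 := by linear_combination h
      rw [inv_eq_one] at this
      rw [this]; ring
    rw [div_eq_div_iff (div_ne_zero (mul_ne_zero h2 hW0) hne) h3]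
    field_simp

lemma t8_sf_conj (hV : VBase b v) (hv : ∀ t, v (bp t) ≠ 0) (t : ℝ) :
    sf v (bp (-t)) = (starRingEnd ℂ) (sf v (bp t)) := by
  rw [t8_sf_eq hV (t5_bp_ne _) (t8_bp_ne0 _) (hv _), t8_sf_eq hV (t5_bp_ne _) (t8_bp_ne0 _) (hv _),
    t8_Q_conj hV, t8_bp_conj]
  simp

lemma t8_v_ne (hB : VBdry b v) (t : ℝ) : v (bp t) ≠ 0 := by
  intro h
  have := hB.a_pos t
  simp only [av, h, Complex.zero_re] at this
  exact lt_irrefl _ this

lemma t8_Q_re (t : ℝ) :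
    ((v (bp t))⁻¹).re = av v t / (av v t ^ 2 + cv v t ^ 2) := by
  rw [Complex.inv_re, Complex.normSq_apply]
  simp only [av, cv]
  ring

lemma t8_Q_im (t : ℝ) :
    ((v (bp t))⁻¹).im = cv v t / (av v t ^ 2 + cv v t ^ 2) := by
  rw [Complex.inv_im, Complex.normSq_apply]
  simp only [av, cv]
  ring

lemma t8_D_pos (hB : VBdry b v) (t : ℝ) : 0 < av v t ^ 2 + cv v t ^ 2 := by
  have := hB.a_pos t
  positivity

lemma t8_X_pos (hB : VBdry b v) (t : ℝ) : 0 < ((v (bp t))⁻¹).re := by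
  rw [t8_Q_re]
  exact div_pos (hB.a_pos t) (t8_D_pos hB t)

lemma t8_Y_pos (hB : VBdry b v) {t : ℝ} (ht : 0 < t) : 0 < ((v (bp t))⁻¹).im := by
  rw [t8_Q_im]
  exact div_pos (hB.c_pos t ht) (t8_D_pos hB t)

lemma t8_c_zero (hB : VBdry b v) : cv v 0 = 0 := by
  have := hB.c_odd 0
  rw [neg_zero] at this
  linarith

lemma t8_Y_zero (hB : VBdry b v) : ((v (bp 0))⁻¹).im = 0 := by
  rw [t8_Q_im, t8_c_zero hB, zero_div]

/-- derivative of `Q` -/
lemma t8_hasDeriv_Q (hV : VBase b v) {W : ℂ} (hW : W ∈ RH) (hW1 : W ≠ 1) (hv : v W ≠ 0) :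
    HasDerivAt (fun w => (v w)⁻¹)
      (b * (v W)⁻¹ * (2 * W - 1 - (v W)⁻¹) / (W * (W - 1))) W := by
  have hd : HasDerivAt v (deriv v W) W :=
    (hV.diff.differentiableAt (t5_isOpen_RH.mem_nhds hW)).hasDerivAt
  have h1 := hd.inv hv
  have hW0 : W ≠ 0 := by
    intro h; rw [h] at hW; exact lt_irrefl (0:ℝ) (by simp [RH] at hW)
  have hne : W - 1 ≠ 0 := sub_ne_zero.mpr hW1
  refine h1.congr_deriv ?_
  have ode := hV.ode W hW
  rw [div_eq_div_iff (pow_ne_zero 2 hv) (mul_ne_zero hW0 hne)]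
  field_simp
  linear_combination (-1) * ode

lemma t8_hasDeriv_Q_line (hV : VBase b v) (hB : VBdry b v) (t : ℝ) :
    HasDerivAt (fun w => (v w)⁻¹) (2 * QT b ((v (bp t))⁻¹) t) (bp t) := by
  refine (t8_hasDeriv_Q hV (t8_bp_RH t) (t5_bp_ne t) (t8_v_ne hB t)).congr_deriv ?_
  have hx : (1 + t ^ 2 : ℝ) ≠ 0 := by positivity
  have hxc : (1 + (t:ℂ) ^ 2) ≠ 0 := by exact_mod_cast hx
  have e : bp t * (bp t - 1) = -(1 + (t:ℂ) ^ 2) / 4 := by
    simp only [bp]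
    linear_combination ((t:ℂ) ^ 2 / 4) * I_sq
  have e2 : 2 * bp t - 1 = t * I := by simp only [bp]; ring
  rw [e, e2, QT]
  generalize (v (bp t))⁻¹ = q
  rw [div_eq_iff (by
    apply div_ne_zero
    · exact neg_ne_zero.mpr hxc
    · norm_num)]
  field_simp
  ring

/-- derivative of `sf` on the line -/
lemma t8_hasDeriv_sf_line (hV : VBase b v) (hB : VBdry b v) (t : ℝ) (hq : (v (bp t))⁻¹ ≠ 1) :
    HasDerivAt (sf v)
      ((((v (bp t))⁻¹ - 1) - (bp t - 1) * (2 * QT b ((v (bp t))⁻¹) t)) / ((v (bp t))⁻¹ - 1) ^ 2)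
      (bp t) := by
  have h1 : HasDerivAt (fun w : ℂ => (w - 1) / ((v w)⁻¹ - 1))
      ((1 * ((v (bp t))⁻¹ - 1) - (bp t - 1) * (2 * QT b ((v (bp t))⁻¹) t)) /
        ((v (bp t))⁻¹ - 1) ^ 2) (bp t) :=
    ((hasDerivAt_id (bp t)).sub_const 1).div ((t8_hasDeriv_Q_line hV hB t).sub_const 1)
      (sub_ne_zero.mpr hq)
  rw [one_mul] at h1
  refine h1.congr_of_eventuallyEq ?_
  have c1 : ∀ᶠ w in 𝓝 (bp t), w ≠ 1 := isOpen_ne.mem_nhds (t5_bp_ne t)
  have c2 : ∀ᶠ w in 𝓝 (bp t), w ≠ 0 := isOpen_ne.mem_nhds (t8_bp_ne0 t)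
  have c3 : ∀ᶠ w in 𝓝 (bp t), v w ≠ 0 :=
    ((hV.diff.differentiableAt (t5_isOpen_RH.mem_nhds (t8_bp_RH t))).continuousAt).eventually_ne
      (t8_v_ne hB t)
  filter_upwards [c1, c2, c3] with w w1 w2 w3
  exact t8_sf_eq hV w1 w2 w3

/-- `2 s = (1 - T)/(1 - q)` on the line -/
lemma t8_sf_line (hV : VBase b v) (hB : VBdry b v) (t : ℝ) :
    2 * sf v (bp t) = (1 - t * I) / (1 - (v (bp t))⁻¹) := by
  rw [t8_sf_eq hV (t5_bp_ne _) (t8_bp_ne0 _) (t8_v_ne hB _)]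
  rw [← neg_sub (v (bp t))⁻¹ 1, div_neg, ← neg_div, mul_div_assoc']
  congr 1
  simp only [bp]; ring

lemma t8_sf_re (hV : VBase b v) (hB : VBdry b v) (t : ℝ) :
    2 * (sf v (bp t)).re = (1 - ((v (bp t))⁻¹).re + t * ((v (bp t))⁻¹).im) /
      ((1 - ((v (bp t))⁻¹).re) ^ 2 + ((v (bp t))⁻¹).im ^ 2) := by
  have h := congrArg Complex.re (t8_sf_line hV hB t)
  rw [Complex.div_re, Complex.normSq_apply] at h
  simp only [Complex.sub_re, Complex.one_re, Complex.mul_re, Complex.ofReal_re, Complex.I_re,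
    Complex.ofReal_im, Complex.I_im, Complex.sub_im, Complex.one_im, Complex.mul_im,
    Complex.re_ofNat, Complex.im_ofNat] at h
  rw [← add_div] at h
  ring_nf at h ⊢
  linarith

end

section limits
variable {b : ℝ} {v : ℂ → ℂ}

lemma t8_tc_ge (hb : 1 < b) (hB : VBdry b v) {t : ℝ} (ht : 1 ≤ t) : 1 ≤ t * cv v t := by
  have hlo := hB.tc_lo t (by linarith)
  have hx : 1 ≤ t ^ 2 := by nlinarith
  have hpos : 0 < 1 + (2 * b - 1) * t ^ 2 := by nlinarith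
  by_contra hcon
  push Not at hcon
  have h1 : (1 + (2 * b - 1) * t ^ 2) * (t * cv v t) < (1 + (2 * b - 1) * t ^ 2) * 1 :=
    mul_lt_mul_of_pos_left hcon hpos
  nlinarith

lemma t8_tendsto_frac : Tendsto (fun t : ℝ => 2 / (1 + t ^ 2)) atTop (𝓝 0) := by
  apply Tendsto.const_div_atTop
  apply tendsto_atTop_add_const_left
  exact tendsto_pow_atTop (by norm_num)

lemma t8_tendsto_pow {p : ℝ} (hp : 0 < p) :
    Tendsto (fun t : ℝ => (2 / (1 + t ^ 2)) ^ p) atTop (𝓝 0) := by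
  have h := (Real.continuousAt_rpow_const 0 p (Or.inr hp.le)).tendsto.comp t8_tendsto_frac
  rw [Real.zero_rpow hp.ne'] at h
  exact h

lemma t8_tendsto_a (hb : 1 < b) (hB : VBdry b v) : Tendsto (av v) atTop (𝓝 0) :=
  squeeze_zero (fun t => (hB.a_pos t).le) (fun t => hB.a_hi t)
    (t8_tendsto_pow (by linarith))

lemma t8_tendsto_tc (hb : 1 < b) (hB : VBdry b v) :
    Tendsto (fun t : ℝ => t * cv v t) atTop (𝓝 (2 * b / (2 * b - 1))) := by
  rw [Metric.tendsto_atTop]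
  intro ε hε
  obtain ⟨T, hT⟩ := hB.tc_hi (ε / 2) (by linarith)
  -- lower: 2bx/(1+(2b-1)x) -> 2b/(2b-1)
  have h2b : 0 < 2 * b - 1 := by linarith
  have hlim : Tendsto (fun t : ℝ => (2 * b / (2 * b - 1)) * (1 / (1 + (2 * b - 1) * t ^ 2)))
      atTop (𝓝 0) := by
    have h1 : Tendsto (fun t : ℝ => 1 / (1 + (2 * b - 1) * t ^ 2)) atTop (𝓝 0) := by
      apply Tendsto.const_div_atTop
      apply tendsto_atTop_add_const_left
      exact (tendsto_pow_atTop (by norm_num)).const_mul_atTop h2b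
    simpa using h1.const_mul (2 * b / (2 * b - 1))
  obtain ⟨T', hT'⟩ := (Metric.tendsto_atTop.1 hlim) ε hε
  refine ⟨max (max T T') 1, fun t ht => ?_⟩
  have ht1 : T ≤ t := le_trans (le_trans (le_max_left _ _) (le_max_left _ _)) ht
  have ht2 : T' ≤ t := le_trans (le_trans (le_max_right _ _) (le_max_left _ _)) ht
  have ht3 : 1 ≤ t := le_trans (le_max_right _ _) ht
  have hhi := hT t ht1
  have hlo := hB.tc_lo t (by linarith)
  have hsm := hT' t ht2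
  rw [Real.dist_eq, sub_zero] at hsm
  have hsm' := lt_of_le_of_lt (le_abs_self _) hsm
  have hpos : 0 < 1 + (2 * b - 1) * t ^ 2 := by positivity
  have hlow : 2 * b / (2 * b - 1) - (2 * b / (2 * b - 1)) * (1 / (1 + (2 * b - 1) * t ^ 2)) ≤
      t * cv v t := by
    have e : 2 * b / (2 * b - 1) - (2 * b / (2 * b - 1)) * (1 / (1 + (2 * b - 1) * t ^ 2)) =
        2 * b * t ^ 2 / (1 + (2 * b - 1) * t ^ 2) := by
      field_simp
      ring
    rw [e, div_le_iff₀ hpos]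
    linarith
  rw [Real.dist_eq, abs_lt]
  constructor <;> linarith

lemma t8_tendsto_c (hb : 1 < b) (hB : VBdry b v) : Tendsto (cv v) atTop (𝓝 0) := by
  have h1 : Tendsto (fun t : ℝ => (t * cv v t) * t⁻¹) atTop (𝓝 ((2 * b / (2 * b - 1)) * 0)) :=
    (t8_tendsto_tc hb hB).mul tendsto_inv_atTop_zero
  rw [mul_zero] at h1
  refine h1.congr' ?_
  filter_upwards [eventually_gt_atTop (0:ℝ)] with t ht
  field_simp

lemma t8_tendsto_X (hb : 1 < b) (hB : VBdry b v) :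
    Tendsto (fun t => ((v (bp t))⁻¹).re) atTop (𝓝 0) := by
  have h1 : Tendsto (fun t : ℝ => 2 * (2 / (1 + t ^ 2)) ^ (b - 1)) atTop (𝓝 0) := by
    simpa using (t8_tendsto_pow (p := b - 1) (by linarith)).const_mul 2
  refine squeeze_zero' (Eventually.of_forall fun t => (t8_X_pos hB t).le) ?_ h1
  filter_upwards [eventually_ge_atTop (1:ℝ)] with t ht
  rw [t8_Q_re]
  have hD := t8_D_pos hB t
  have hk := t8_tc_ge hb hB ht
  have ha := hB.a_pos t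
  have hahi := hB.a_hi t
  have hx : 0 < 1 + t ^ 2 := by positivity
  have hu : 0 < 2 / (1 + t ^ 2) := by positivity
  have e : (2 / (1 + t ^ 2)) ^ b = (2 / (1 + t ^ 2)) ^ (b - 1) * (2 / (1 + t ^ 2)) := by
    rw [← Real.rpow_add_one hu.ne']; congr 1; ring
  have h2 : av v t * (1 + t ^ 2) ≤ 2 * (2 / (1 + t ^ 2)) ^ (b - 1) := by
    rw [e] at hahi
    calc av v t * (1 + t ^ 2) ≤ ((2 / (1 + t ^ 2)) ^ (b - 1) * (2 / (1 + t ^ 2))) * (1 + t ^ 2) :=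
          mul_le_mul_of_nonneg_right hahi hx.le
      _ = 2 * (2 / (1 + t ^ 2)) ^ (b - 1) := by field_simp
  rw [div_le_iff₀ hD]
  have h3 : 1 ≤ (1 + t ^ 2) * (av v t ^ 2 + cv v t ^ 2) := by
    have : 1 ≤ (t * cv v t) ^ 2 := by nlinarith
    nlinarith [sq_nonneg (av v t), sq_nonneg (cv v t), mul_nonneg (sq_nonneg t) (sq_nonneg (av v t))]
  have h4 : av v t ≤ av v t * ((1 + t ^ 2) * (av v t ^ 2 + cv v t ^ 2)) := by
    nlinarith
  calc av v t ≤ (av v t * (1 + t ^ 2)) * (av v t ^ 2 + cv v t ^ 2) := by linarith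
    _ ≤ _ := mul_le_mul_of_nonneg_right h2 hD.le

lemma t8_sf_re' (hV : VBase b v) (hB : VBdry b v) (t : ℝ) :
    2 * (sf v (bp t)).re = (t * cv v t - av v t + (av v t ^ 2 + cv v t ^ 2)) /
      ((1 - av v t) ^ 2 + cv v t ^ 2) := by
  rw [t8_sf_re hV hB, t8_Q_re, t8_Q_im]
  have hD := t8_D_pos hB t
  generalize av v t = a at *
  generalize cv v t = c at *
  by_cases hz : (1 - a) ^ 2 + c ^ 2 = 0
  · have h1 : c = 0 := by nlinarith [sq_nonneg (1 - a), sq_nonneg c]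
    have h2 : 1 - a = 0 := by nlinarith [sq_nonneg (1 - a), sq_nonneg c]
    have h3 : a = 1 := by linarith
    subst h1 h3
    simp
  · have e : (1 - a / (a ^ 2 + c ^ 2)) ^ 2 + (c / (a ^ 2 + c ^ 2)) ^ 2 =
        ((1 - a) ^ 2 + c ^ 2) / (a ^ 2 + c ^ 2) := by
      field_simp
      ring
    rw [e]
    field_simp
    ring

lemma t8_tendsto_s (hV : VBase b v) (hB : VBdry b v) :
    Tendsto (fun t => 2 * (sf v (bp t)).re) atTop (𝓝 (2 * b / (2 * b - 1))) := by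
  have hb := hV.hb
  have ha := t8_tendsto_a hb hB
  have hc := t8_tendsto_c hb hB
  have hk := t8_tendsto_tc hb hB
  have h1 : Tendsto (fun t : ℝ => (t * cv v t - av v t + (av v t ^ 2 + cv v t ^ 2)) /
      ((1 - av v t) ^ 2 + cv v t ^ 2)) atTop
      (𝓝 ((2 * b / (2 * b - 1) - 0 + (0 ^ 2 + 0 ^ 2)) / ((1 - 0) ^ 2 + 0 ^ 2))) := by
    refine ((hk.sub ha).add ((ha.pow 2).add (hc.pow 2))).div
      (((tendsto_const_nhds.sub ha).pow 2).add (hc.pow 2)) (by norm_num)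
  have e : (2 * b / (2 * b - 1) - 0 + (0 ^ 2 + 0 ^ 2)) / ((1 - 0) ^ 2 + 0 ^ 2) =
      2 * b / (2 * b - 1) := by norm_num
  rw [e] at h1
  refine h1.congr (fun t => ?_)
  rw [t8_sf_re' hV hB]

end limits

section growth
variable {b : ℝ} {v : ℂ → ℂ}

lemma t8_Q_growth (hL : VLow b v) : ∃ C : ℝ, 0 ≤ C ∧ ∀ W ∈ Pb, ‖(v W)⁻¹‖ ≤ C * ‖W‖ := by
  obtain ⟨c, hc, h⟩ := hL.wv
  refine ⟨1 / c, by positivity, fun W hW => ?_⟩
  have h1 := h W hW
  have h2 : c ≤ ‖W‖ * ‖v W‖ := by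
    rw [← norm_mul]
    exact h1.trans (Complex.re_le_norm _)
  have hv : 0 < ‖v W‖ := by
    rcases (norm_nonneg (v W)).eq_or_lt with h0 | h0
    · rw [← h0, mul_zero] at h2; linarith
    · exact h0
  rw [norm_inv, inv_le_iff_one_le_mul₀ hv]
  rw [div_mul_eq_mul_div, div_mul_eq_mul_div, le_div_iff₀ hc]
  linarith

lemma t8_sf_bound (hL : VLow b v) : ∃ C : ℝ, 0 ≤ C ∧ ∀ W ∈ Pb, ‖sf v W‖ ≤ C := by
  obtain ⟨c, hc, h⟩ := hL.psi
  obtain ⟨C, hC⟩ := hL.wv_hi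
  have hC0 : 0 ≤ C := (norm_nonneg _).trans (hC _ (t5_bp_mem 0))
  refine ⟨C / c, by positivity, fun W hW => ?_⟩
  simp only [sf]
  rw [norm_div]
  have h1 : c ≤ ‖Psi v W‖ := (h W hW).trans (Complex.re_le_norm _)
  exact div_le_div₀ hC0 (hC W hW) hc h1

lemma t8_norm_Pb {W : ℂ} (hW : W ∈ Pb) : 1 / 2 ≤ ‖W‖ :=
  le_trans (show (1:ℝ) / 2 ≤ W.re from hW) (Complex.re_le_norm W)

lemma t8_real_mem {x : ℝ} (hx : 2 ≤ x) : (x : ℂ) ∈ Pb := by
  show (1:ℝ) / 2 ≤ ((x:ℂ)).re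
  rw [Complex.ofReal_re]; linarith

/-- `Q` on the real axis is real, with the bounds of T4 -/
lemma t8_Q_real (h4 : T4) (hV : VBase b v) {x : ℝ} (hx : 2 ≤ x) :
    ∃ y : ℝ, (v x)⁻¹ = (y : ℂ) ∧ (2 - 1 / b) * (x - 1 / 2) ≤ y ∧ y ≤ 1 + (2 - 1 / b) * (x - 1) := by
  obtain ⟨h1, h2, h3⟩ := h4 b v hV x (by linarith)
  have hb := hV.hb
  have hb' : 0 < 2 - 1 / b := by
    have : 1 / b < 1 := by rw [div_lt_one (by linarith)]; exact hb
    linarith
  have hpos1 : 0 < 1 + (2 - 1 / b) * (x - 1) := by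
    have : 0 < (2 - 1 / b) * (x - 1) := mul_pos hb' (by linarith)
    linarith
  have hpos2 : 0 < (2 - 1 / b) * (x - 1 / 2) := mul_pos hb' (by linarith)
  have hvpos : 0 < (v x).re := lt_of_lt_of_le (by positivity) h2
  have e : v x = (((v x).re : ℝ) : ℂ) := by
    apply Complex.ext
    · simp
    · simp [h1]
  refine ⟨((v x).re)⁻¹, ?_, ?_, ?_⟩
  · conv_lhs => rw [e]
    push_cast; rfl
  · rw [le_inv_comm₀ hpos2 hvpos, ← one_div]; exact h3
  · rw [inv_le_comm₀ hvpos hpos1, ← one_div]; exact h2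

end growth

end Mocanu
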