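import Pool.Agent.Helper267_mocanu.Stmts

set_option autoImplicit false

namespace Mocanu

open Complex Set Filter Topology MeasureTheory Metric

namespace T9bAux

lemma bp_re (t : ℝ) : (bp t).re = 1 / 2 := by
  simp [bp]

lemma bp_im (t : ℝ) : (bp t).im = t / 2 := by
  simp [bp]

lemma bp_mem_Pb (t : ℝ) : bp t ∈ Pb := by
  show 1 / 2 ≤ (bp t).re
  rw [bp_re]

lemma bp_mem_RH (t : ℝ) : bp t ∈ RH := by
  show 0 < (bp t).re
  rw [bp_re]; norm_num

lemma bp_ne_zero (t : ℝ) : bp t ≠ 0 := by
  intro h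
  have := bp_re t
  rw [h] at this; simp at this

lemma bp_ne_one (t : ℝ) : bp t ≠ 1 := by
  intro h
  have := bp_re t
  rw [h] at this; norm_num at this

lemma bp_deriv (t : ℝ) : HasDerivAt bp (I / 2) t := by
  unfold bp
  have h1 : HasDerivAt (fun t : ℝ => (t : ℂ)) 1 t := Complex.ofRealCLM.hasDerivAt
  have h2 := ((h1.mul_const I).const_add 1).div_const 2
  simpa using h2

lemma bp_neg (t : ℝ) : bp (-t) = (starRingEnd ℂ) (bp t) := by
  apply Complex.ext
  · rw [Complex.conj_re, bp_re, bp_re]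
  · rw [Complex.conj_im, bp_im, bp_im]; ring

lemma im_deriv {f : ℝ → ℂ} {f' : ℂ} {t : ℝ} (h : HasDerivAt f f' t) :
    HasDerivAt (fun t => (f t).im) f'.im t := by
  exact Complex.imCLM.hasFDerivAt.comp_hasDerivAt t h

lemma arg_pol (z : ℂ) (hz : z ≠ 0) (r : ℝ) :
    z ^ (r : ℂ) = (‖z ^ (r : ℂ)‖ : ℂ) * exp (((r * arg z : ℝ) : ℂ) * I) := by
  rw [Complex.cpow_def_of_ne_zero hz, Complex.norm_exp]
  have : Complex.log z * r = ((Complex.log z * r).re : ℂ) + ((r * arg z : ℝ) : ℂ) * I := by
    apply Complex.ext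
    · simp
    · simp [Complex.log_im]; ring
  conv_lhs => rw [this, Complex.exp_add]
  rw [Complex.ofReal_exp]

end T9bAux

open T9bAux

theorem t9b : T9b := by
  intro b v HV HB HL HK hE
  have hb : 1 < b := HV.hb
  have hb0 : 0 < b := by linarith
  obtain ⟨U, hUo, hPU, hURH, hU⟩ := HL.nbhd
  have hv0 : ∀ t, v (bp t) ≠ 0 := fun t => (hU _ (hPU (bp_mem_Pb t))).1
  have hP0 : ∀ t, Psi v (bp t) ≠ 0 := fun t => (hU _ (hPU (bp_mem_Pb t))).2.1
  have hwvre : ∀ t, 0 < (bp t * v (bp t)).re := fun t => (hU _ (hPU (bp_mem_Pb t))).2.2.1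
  have hPre : ∀ t, 0 < (Psi v (bp t)).re := fun t => (hU _ (hPU (bp_mem_Pb t))).2.2.2
  have hv1 : ∀ t, 1 - v (bp t) ≠ 0 := by
    intro t h
    apply hP0 t
    rw [HL.psi_eq _ (bp_ne_one t), h]; simp
  have hRHo : IsOpen RH := isOpen_lt continuous_const Complex.continuous_re
  -- derivative
  have hder : ∀ t, HasDerivAt (Th b v) (2 * (1 + b + (b - 1) * ((v (bp t))⁻¹).re - 2 * b * (sf v (bp t)).re) / (1 + t ^ 2)) t := by
    intro t
    have hvd : HasDerivAt v (deriv v (bp t)) (bp t) :=
      ((HV.diff _ (bp_mem_RH t)).differentiableAt (hRHo.mem_nhds (bp_mem_RH t))).hasDerivAt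
    set W := bp t with hW
    set v' := deriv v W with hv'
    have hPd : HasDerivAt (Psi v) (((-v' * W + (1 - v W) * 1) * (W - 1) - (1 - v W) * W * 1) / (W - 1) ^ 2) W := by
      have h1 : HasDerivAt (fun w => (1 - v w) * w / (w - 1))
          (((-v' * W + (1 - v W) * 1) * (W - 1) - (1 - v W) * W * 1) / (W - 1) ^ 2) W := by
        have ha : HasDerivAt (fun w => 1 - v w) (-v') W := by
          simpa using hvd.const_sub 1
        have hb' := ha.mul (hasDerivAt_id W)
        have hc : HasDerivAt (fun w : ℂ => w - 1) 1 W := (hasDerivAt_id W).sub_const 1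
        exact hb'.div hc (sub_ne_zero.2 (bp_ne_one t))
      apply h1.congr_of_eventuallyEq
      have : ∀ᶠ w in 𝓝 W, w ≠ 1 := isOpen_ne.mem_nhds (bp_ne_one t)
      filter_upwards [this] with w hw
      exact HL.psi_eq w hw
    have hwd := bp_deriv t
    have hvr : HasDerivAt (fun s : ℝ => v (bp s)) (v' * (I / 2)) t := by
      exact hvd.comp t hwd
    have hPr : HasDerivAt (fun s : ℝ => Psi v (bp s)) ((((-v' * W + (1 - v W) * 1) * (W - 1) - (1 - v W) * W * 1) / (W - 1) ^ 2) * (I / 2)) t := by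
      exact HasDerivAt.comp (h₂ := Psi v) (h := bp) t hPd hwd
    have hl1 := hwd.clog_real (show bp t ∈ slitPlane from Or.inl (by rw [bp_re]; norm_num))
    have hl2 : HasDerivAt (fun s => log (bp s * v (bp s))) ((I / 2 * v (bp t) + bp t * (v' * (I / 2))) / (bp t * v (bp t))) t :=
      (hwd.mul hvr).clog_real (show bp t * v (bp t) ∈ slitPlane from Or.inl (hwvre t))
    have hl3 := hPr.clog_real (show Psi v (bp t) ∈ slitPlane from Or.inl (hPre t))
    have hT := ((im_deriv hl1).sub (im_deriv hl2)).const_mul (1 - 1 / b) |>.add (im_deriv hl3)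
    have hfun : (Th b v) = fun s => (1 - 1 / b) * ((log (bp s)).im - (log (bp s * v (bp s))).im) + (log (Psi v (bp s))).im := by
      funext s
      simp [Th, Complex.log_im]
    rw [hfun]
    refine hT.congr_deriv ?_
    rw [← hW]
    have hode := HV.ode W (bp_mem_RH t)
    rw [← hv'] at hode
    have hW0 : W ≠ 0 := bp_ne_zero t
    have hW1 : W - 1 ≠ 0 := sub_ne_zero.2 (bp_ne_one t)
    have hvW := hv0 t
    have hvW1 := hv1 t
    rw [← hW] at hvW hvW1
    have hPsiW : Psi v W = (1 - v W) * W / (W - 1) := HL.psi_eq W (bp_ne_one t)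
    have hsf : sf v W = v W * (W - 1) / (1 - v W) := by
      unfold sf
      rw [hPsiW]
      field_simp
    have hWW : W * (W - 1) = -((1 + t ^ 2 : ℝ) : ℂ) / 4 := by
      rw [hW]; unfold bp; push_cast
      ring_nf
      simp only [I_sq]; ring
    have hx : (0:ℝ) < 1 + t ^ 2 := by positivity
    have hxc : ((1 + t ^ 2 : ℝ) : ℂ) ≠ 0 := by exact_mod_cast hx.ne'
    have hv'eq : v' = (b - b * (2 * W - 1) * v W) / (W * (W - 1)) := by
      rw [eq_div_iff (mul_ne_zero hW0 hW1)]
      linear_combination hode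
    set L : ℂ := (1 - 1 / (b:ℂ)) * (I / 2 / W - (I / 2 * v W + W * (v' * (I / 2))) / (W * v W)) +
      ((((-v' * W + (1 - v W) * 1) * (W - 1) - (1 - v W) * W * 1) / (W - 1) ^ 2) * (I / 2)) / Psi v W with hL
    have hbc : (b : ℂ) ≠ 0 := by exact_mod_cast hb0.ne'
    have hLv : L = (2 * I / ((1 + t ^ 2 : ℝ) : ℂ)) * ((1 + b + (b - 1) * (v W)⁻¹ - 2 * b * sf v W) - (b - 1) * ((t : ℂ) * I)) := by
      have ht : (t : ℂ) * I = 2 * W - 1 := by
        rw [hW]; unfold bp; ring
      have hxx : ((1 + t ^ 2 : ℝ) : ℂ) = -4 * (W * (W - 1)) := by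
        rw [hWW]; ring
      rw [hL, hPsiW, hv'eq, hsf, ht, hxx]
      field_simp
      ring
    have him : (1 - 1 / b) * ((I / 2 / W).im - ((I / 2 * v W + W * (v' * (I / 2))) / (W * v W)).im) +
      (((((-v' * W + (1 - v W) * 1) * (W - 1) - (1 - v W) * W * 1) / (W - 1) ^ 2) * (I / 2)) / Psi v W).im = L.im := by
      rw [hL, Complex.add_im]
      have : (1 - 1 / (b:ℂ)) = ((1 - 1 / b : ℝ) : ℂ) := by push_cast; ring
      rw [this, Complex.im_ofReal_mul, Complex.sub_im]
    rw [him, hLv]
    have : (2 * I / ((1 + t ^ 2 : ℝ) : ℂ)) * ((1 + b + (b - 1) * (v W)⁻¹ - 2 * b * sf v W) - (b - 1) * ((t : ℂ) * I))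
      = ((2 / (1 + t ^ 2) : ℝ) : ℂ) * (I * ((1 + b + ((b - 1 : ℝ) : ℂ) * (v W)⁻¹ - ((2 * b : ℝ) : ℂ) * sf v W) - ((b - 1 : ℝ) : ℂ) * ((t : ℂ) * I))) := by
      push_cast; ring
    rw [this, Complex.im_ofReal_mul, Complex.I_mul_im]
    simp only [Complex.sub_re, Complex.add_re, Complex.one_re, Complex.ofReal_re, Complex.re_ofReal_mul, Complex.I_re, mul_zero, sub_zero]
    ring
  have hmono : Monotone (Th b v) := by
    apply monotone_of_deriv_nonneg (fun t => (hder t).differentiableAt)
    intro t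
    rw [(hder t).deriv]
    have := hE t
    positivity
  -- symmetry
  have hodd : ∀ t, Th b v (-t) = - Th b v t := by
    intro t
    have hvc : v (bp (-t)) = (starRingEnd ℂ) (v (bp t)) := by
      rw [bp_neg]; exact HV.conj _ (bp_mem_RH t)
    have hPc : Psi v (bp (-t)) = (starRingEnd ℂ) (Psi v (bp t)) := by
      rw [HL.psi_eq _ (bp_ne_one _), HL.psi_eq _ (bp_ne_one _), hvc, bp_neg]
      simp
    have hac : ∀ z : ℂ, 0 < z.re → arg ((starRingEnd ℂ) z) = - arg z := by
      intro z hz
      rw [Complex.arg_conj, if_neg]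
      intro h
      have := (Complex.arg_eq_pi_iff.1 h).1
      linarith
    unfold Th
    rw [hPc, hac _ (hPre t), hvc, bp_neg, ← map_mul, hac _ (hwvre t), hac _ (by rw [bp_re]; norm_num)]
    ring
  -- limits
  have hbpn : Tendsto (fun t : ℝ => ‖bp t‖) atTop atTop := by
    apply tendsto_atTop_mono (f := fun t : ℝ => t / 2)
    · intro t
      calc t / 2 = (bp t).im := (bp_im t).symm
        _ ≤ |(bp t).im| := le_abs_self _
        _ ≤ ‖bp t‖ := Complex.abs_im_le_norm _
    · exact tendsto_id.atTop_div_const (by norm_num)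
  have hv_lim : Tendsto (fun t : ℝ => v (bp t)) atTop (𝓝 0) := by
    obtain ⟨C, hC⟩ := HL.wv_hi
    apply squeeze_zero_norm (a := fun t : ℝ => C / ‖bp t‖)
    · intro t
      rw [le_div_iff₀ (norm_pos_iff.2 (bp_ne_zero t)), mul_comm, ← norm_mul]
      exact hC _ (bp_mem_Pb t)
    · exact tendsto_const_nhds.div_atTop hbpn
  have hP_lim : Tendsto (fun t : ℝ => arg (Psi v (bp t))) atTop (𝓝 0) := by
    have h1 : Tendsto (fun t : ℝ => Psi v (bp t)) atTop (𝓝 1) := by
      have hinv : Tendsto (fun t : ℝ => 1 / (bp t - 1)) atTop (𝓝 0) := by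
        have : Tendsto (fun t : ℝ => ‖bp t - 1‖) atTop atTop := by
          apply tendsto_atTop_mono (f := fun t : ℝ => ‖bp t‖ + (-1))
          · intro t
            have := norm_sub_norm_le (bp t) 1
            simp at this; linarith
          · exact tendsto_atTop_add_const_right _ _ hbpn
        rw [tendsto_zero_iff_norm_tendsto_zero]
        simp only [norm_div, norm_one]
        exact tendsto_const_nhds.div_atTop this
      have h2 : Tendsto (fun t : ℝ => (1 - v (bp t)) * (1 + 1 / (bp t - 1))) atTop (𝓝 ((1 - 0) * (1 + 0))) :=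
        (tendsto_const_nhds.sub hv_lim).mul (tendsto_const_nhds.add hinv)
      simp only [sub_zero, add_zero, mul_one] at h2
      refine h2.congr ?_
      intro t
      rw [HL.psi_eq _ (bp_ne_one t)]
      have := sub_ne_zero.2 (bp_ne_one t)
      field_simp
      ring
    have h3 := (Complex.continuousAt_arg (show (1:ℂ) ∈ slitPlane from Complex.one_mem_slitPlane)).tendsto.comp h1
    rw [Complex.arg_one] at h3
    exact h3
  have hW_lim : Tendsto (fun t : ℝ => arg (bp t * v (bp t))) atTop (𝓝 0) := by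
    obtain ⟨c, hc, hcW⟩ := HL.wv
    -- imaginary part tends to zero
    have him : Tendsto (fun t : ℝ => (bp t * v (bp t)).im) atTop (𝓝 0) := by
      have h1 : ∀ t : ℝ, (bp t * v (bp t)).im = (t * av v t - cv v t) / 2 := by
        intro t
        rw [Complex.mul_im, bp_re, bp_im]
        unfold av cv
        ring
      simp only [h1]
      have h2 : Tendsto (fun t : ℝ => t * av v t) atTop (𝓝 0) := by
        apply squeeze_zero' (g := fun t : ℝ => 2 / t)
        · filter_upwards [eventually_ge_atTop (1:ℝ)] with t ht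
          exact mul_nonneg (by linarith) (HB.a_pos t).le
        · filter_upwards [eventually_ge_atTop (1:ℝ)] with t ht
          have h3 := HB.a_hi t
          have h4 : (2 / (1 + t ^ 2)) ^ b ≤ 2 / (1 + t ^ 2) := by
            have h5 : (2 / (1 + t ^ 2)) ≤ 1 := by
              rw [div_le_one (by positivity)]; nlinarith
            calc (2 / (1 + t ^ 2)) ^ b ≤ (2 / (1 + t ^ 2)) ^ (1:ℝ) :=
                  Real.rpow_le_rpow_of_exponent_ge (by positivity) h5 hb.le
              _ = _ := Real.rpow_one _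
          calc t * av v t ≤ t * (2 / (1 + t ^ 2)) := mul_le_mul_of_nonneg_left (h3.trans h4) (by linarith)
            _ ≤ 2 / t := by
              rw [mul_div_assoc', div_le_div_iff₀ (by positivity) (by linarith)]
              nlinarith
        · exact tendsto_const_nhds.div_atTop tendsto_id
      have h3 : Tendsto (fun t : ℝ => cv v t) atTop (𝓝 0) := by
        have h4 : Tendsto (fun t : ℝ => -(v (bp t)).im) atTop (𝓝 (-(0:ℂ).im)) :=
          ((Complex.continuous_im.tendsto 0).comp hv_lim).neg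
        rw [Complex.zero_im, neg_zero] at h4
        exact h4
      have h4 := (h2.sub h3).div_const 2
      simpa using h4
    have h1 : Tendsto (fun t : ℝ => (1:ℂ) + (((bp t * v (bp t)).im / (bp t * v (bp t)).re : ℝ) : ℂ) * I) atTop (𝓝 1) := by
      have h2 : Tendsto (fun t : ℝ => (bp t * v (bp t)).im / (bp t * v (bp t)).re) atTop (𝓝 0) := by
        apply squeeze_zero_norm (a := fun t : ℝ => |(bp t * v (bp t)).im| / c)
        · intro t
          rw [norm_div, Real.norm_eq_abs, Real.norm_eq_abs, abs_of_pos (hwvre t)]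
          exact div_le_div_of_nonneg_left (abs_nonneg _) hc (hcW _ (bp_mem_Pb t))
        · have := (him.abs).div_const c
          simpa using this
      have h3 : Tendsto (fun t : ℝ => (1:ℂ) + (((bp t * v (bp t)).im / (bp t * v (bp t)).re : ℝ) : ℂ) * I) atTop (𝓝 (1 + ((0:ℝ):ℂ) * I)) :=
        tendsto_const_nhds.add (((Complex.continuous_ofReal.tendsto 0).comp h2).mul_const I)
      simpa using h3
    have h3 := (Complex.continuousAt_arg (show (1:ℂ) ∈ slitPlane from Complex.one_mem_slitPlane)).tendsto.comp h1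
    rw [Complex.arg_one] at h3
    refine h3.congr ?_
    intro t
    simp only [Function.comp]
    rw [← Complex.arg_real_mul _ (hwvre t)]
    congr 1
    have hne : (((bp t * v (bp t)).re : ℝ) : ℂ) ≠ 0 := by exact_mod_cast (hwvre t).ne'
    push_cast
    field_simp
    exact (Complex.re_add_im _)
  have hlam : 0 < 1 - 1 / b := by
    rw [sub_pos, div_lt_one hb0]; exact hb
  have hupper : ∀ t, Th b v t ≤ (1 - 1 / b) * (Real.pi / 2) := by
    intro t
    have h1 : Tendsto (fun s : ℝ => (1 - 1 / b) * (Real.pi / 2 - arg (bp s * v (bp s))) + arg (Psi v (bp s))) atTop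
        (𝓝 ((1 - 1 / b) * (Real.pi / 2 - 0) + 0)) :=
      ((tendsto_const_nhds.sub hW_lim).const_mul _).add hP_lim
    rw [sub_zero, add_zero] at h1
    apply ge_of_tendsto h1
    filter_upwards [eventually_ge_atTop t] with s hs
    refine (hmono hs).trans ?_
    unfold Th
    have : arg (bp s) ≤ Real.pi / 2 := by
      have := Complex.abs_arg_le_pi_div_two_iff.2 (show 0 ≤ (bp s).re by rw [bp_re]; norm_num)
      exact (le_abs_self _).trans this
    have h2 := mul_le_mul_of_nonneg_left (sub_le_sub_right this (arg (bp s * v (bp s)))) hlam.le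
    linarith
  refine ⟨hmono, ?_, ?_⟩
  · intro t
    rw [abs_le]
    refine ⟨?_, hupper t⟩
    have := hupper (-t)
    rw [hodd] at this
    linarith
  · intro t
    have hdk := HK.dk (bp t) (bp_mem_Pb t)
    rw [hdk]
    have h1 := arg_pol (bp t) (bp_ne_zero t) (1 - 1 / b)
    have h2 := arg_pol (bp t * v (bp t)) (mul_ne_zero (bp_ne_zero t) (hv0 t)) (1 / b - 1)
    have h3 := (Complex.norm_mul_exp_arg_mul_I (Psi v (bp t))).symm
    rw [norm_mul, norm_mul]
    conv_lhs => rw [h1, h2, h3]
    have h4 : ((Th b v t : ℝ) : ℂ) * I = (((1 - 1 / b) * arg (bp t) : ℝ) : ℂ) * I +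
        ((((1 / b - 1) * arg (bp t * v (bp t)) : ℝ) : ℂ) * I + (arg (Psi v (bp t)) : ℂ) * I) := by
      unfold Th; push_cast; ring
    rw [h4, Complex.exp_add, Complex.exp_add]
    push_cast
    ring

end Mocanu
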